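import Mathlib

-- part Pool.Agent.P.MP_098a67_ag.Big
section

/-!
Generic subsets of complex parameter spaces: sets that are locally cut out as the
non-vanishing locus of an entire function.
-/

namespace Pool.Agent.P.MP_098a67_ag

open Module Submodule

variable {E : Type*} [NormedAddCommGroup E] [NormedSpace ℂ E]

/-- A set that contains, around each of its points, the non-vanishing locus of an entire
function. -/
def Big (Ω : Set E) : Prop :=
  ∀ p ∈ Ω, ∃ f : E → ℂ, Differentiable ℂ f ∧ f p ≠ 0 ∧ ∀ q, f q ≠ 0 → q ∈ Ω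

lemma Big.univ : Big (Set.univ : Set E) :=
  fun _ _ => ⟨fun _ => 1, by fun_prop, one_ne_zero, fun _ _ => trivial⟩

lemma Big.inter {A B : Set E} (hA : Big A) (hB : Big B) : Big (A ∩ B) := by
  rintro p ⟨hpA, hpB⟩
  obtain ⟨f, hf, hfp, hfA⟩ := hA p hpA
  obtain ⟨g, hg, hgp, hgB⟩ := hB p hpB
  refine ⟨fun q => f q * g q, hf.mul hg, mul_ne_zero hfp hgp, fun q hq => ?_⟩
  exact ⟨hfA q (left_ne_zero_of_mul hq), hgB q (right_ne_zero_of_mul hq)⟩

lemma Big.preimage {E' : Type*} [NormedAddCommGroup E'] [NormedSpace ℂ E'] {A : Set E}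
    (hA : Big A) {φ : E' → E} (hφ : Differentiable ℂ φ) : Big (φ ⁻¹' A) := by
  intro p hp
  obtain ⟨f, hf, hfp, hfA⟩ := hA (φ p) hp
  exact ⟨f ∘ φ, hf.comp hφ, hfp, fun q hq => hfA _ hq⟩

lemma Big.inter_nonempty {A B : Set E} (hA : Big A) (hB : Big B) (ha : A.Nonempty)
    (hb : B.Nonempty) : (A ∩ B).Nonempty := by
  obtain ⟨p, hp⟩ := ha
  obtain ⟨q, hq⟩ := hb
  obtain ⟨f, hf, hfp, hfA⟩ := hA p hp
  obtain ⟨g, hg, hgq, hgB⟩ := hB q hq
  set l : ℂ → E := fun t => p + t • (q - p) with hl
  have hld : Differentiable ℂ l := by fun_prop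
  have h1 : AnalyticOnNhd ℂ (f ∘ l) Set.univ := (hf.comp hld).differentiableOn.analyticOnNhd isOpen_univ
  have h2 : AnalyticOnNhd ℂ (g ∘ l) Set.univ := (hg.comp hld).differentiableOn.analyticOnNhd isOpen_univ
  by_contra hne
  have hz : ∀ x ∈ (Set.univ : Set ℂ), (f ∘ l) x * (g ∘ l) x = 0 := by
    intro x _
    by_contra h
    exact hne ⟨l x, hfA _ (left_ne_zero_of_mul h), hgB _ (right_ne_zero_of_mul h)⟩
  rcases h1.eq_zero_or_eq_zero_of_mul_eq_zero h2 hz isPreconnected_univ with h | h
  · apply hfp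
    simpa [hl] using h 0 trivial
  · apply hgq
    simpa [hl] using h 1 trivial

lemma Big.biInter {α : Type*} (s : Finset α) (A : α → Set E) (hA : ∀ a, Big (A a))
    (hne : ∀ a, (A a).Nonempty) :
    Big (⋂ a ∈ s, A a) ∧ (⋂ a ∈ s, A a).Nonempty := by
  classical
  induction s using Finset.induction_on with
  | empty => simpa using Big.univ
  | insert a s _ ih =>
    rw [Finset.set_biInter_insert]
    exact ⟨(hA a).inter ih.1, (hA a).inter_nonempty ih.1 (hne a) ih.2⟩

lemma diff_prod {α : Type*} (u : Finset α) (g : α → E → ℂ) (hg : ∀ i ∈ u, Differentiable ℂ (g i)) :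
    Differentiable ℂ (fun x => ∏ i ∈ u, g i x) := by
  classical
  exact fun x => (HasFDerivAt.finsetProd fun i hi => (hg i hi x).hasFDerivAt).differentiableAt

variable {V : Type*} [NormedAddCommGroup V] [NormedSpace ℂ V] [FiniteDimensional ℂ V]

lemma big_rank {σ : Type*} (a : σ → E → V) (ha : ∀ s, Differentiable ℂ (a s)) (r : ℕ) :
    Big {x | r ≤ finrank ℂ (span ℂ (Set.range fun s => a s x))} := by
  classical
  intro p hp
  obtain ⟨κ, e, _, hsp, hli⟩ := exists_linearIndependent' ℂ (fun s => a s p)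
  have : Finite κ := hli.finite
  let : Fintype κ := Fintype.ofFinite κ
  have hcard : r ≤ Fintype.card κ := by
    have := finrank_span_eq_card hli
    rw [hsp] at this
    exact this ▸ hp
  obtain ⟨φ, hφ⟩ := LinearMap.exists_leftInverse_of_injective
    (Fintype.linearCombination ℂ ((fun s => a s p) ∘ e))
    (LinearMap.ker_eq_bot.mpr (linearIndependent_iff_injective_fintypeLinearCombination.mp hli))
  let M : E → Matrix κ κ ℂ := fun x => Matrix.of fun i j => φ (a (e i) x) j
  have hφc : Differentiable ℂ φ := (LinearMap.toContinuousLinearMap φ).differentiable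
  refine ⟨fun x => (M x).det, ?_, ?_, ?_⟩
  · simp only [Matrix.det_apply, M, Matrix.of_apply]
    refine Differentiable.fun_sum fun σ' _ => ?_
    refine Differentiable.const_smul ?_ _
    refine diff_prod _ _ fun i _ => ?_
    exact differentiable_pi.mp (hφc.comp (ha _)) i
  · have : M p = 1 := by
      ext i j
      have := congrArg (fun L => L (Pi.single i (1 : ℂ)) j) hφ
      simpa [M, Matrix.one_apply, Pi.single_apply, eq_comm] using this
    simp [this]
  · intro q hq
    have h1 : LinearIndependent ℂ (M q).row :=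
      Matrix.linearIndependent_rows_iff_isUnit.mpr
        ((Matrix.isUnit_iff_isUnit_det _).mpr (Ne.isUnit hq))
    have h2 : LinearIndependent ℂ (fun i => a (e i) q) :=
      LinearIndependent.of_comp φ h1
    have h3 := finrank_span_eq_card h2
    show r ≤ _
    refine hcard.trans (h3 ▸ Submodule.finrank_mono (span_mono ?_))
    rintro _ ⟨i, rfl⟩
    exact ⟨e i, rfl⟩

end Pool.Agent.P.MP_098a67_ag
end

-- part Pool.Agent.P.MP_098a67_ag.Stat
section

/-!
Stationarity of the dimensions of spans of generic members of an invariant family of subspaces.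
-/

namespace Pool.Agent.P.MP_098a67_ag

open Module Submodule

variable {P V σ : Type*} [NormedAddCommGroup P] [NormedSpace ℂ P]
  [NormedAddCommGroup V] [NormedSpace ℂ V] [FiniteDimensional ℂ V]

/-- The span of the subspaces attached to the parameters `z i`, `i ∈ S`. -/
def W (a : σ → P → V) {α : Type*} (z : α → P) (S : Finset α) : Submodule ℂ V :=
  span ℂ (Set.range fun p : S × σ => a p.2 (z p.1))

/-- The subspace attached to one parameter. -/
def T (a : σ → P → V) (x : P) : Submodule ℂ V := span ℂ (Set.range fun s => a s x)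

section
variable (a : σ → P → V)

omit [NormedAddCommGroup P] [NormedSpace ℂ P] [FiniteDimensional ℂ V] in
lemma W_le_iff {α : Type*} (z : α → P) (S : Finset α) (U : Submodule ℂ V) :
    W a z S ≤ U ↔ ∀ i ∈ S, T a (z i) ≤ U := by
  unfold W T
  simp only [span_le, Set.range_subset_iff]
  constructor
  · intro h i hi s
    exact h (⟨i, hi⟩, s)
  · rintro h ⟨⟨i, hi⟩, s⟩
    exact h i hi s

omit [NormedAddCommGroup P] [NormedSpace ℂ P] [FiniteDimensional ℂ V] in
lemma T_le_W {α : Type*} (z : α → P) {S : Finset α} {i : α} (hi : i ∈ S) :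
    T a (z i) ≤ W a z S := (W_le_iff a z S _).mp le_rfl i hi

omit [NormedAddCommGroup P] [NormedSpace ℂ P] [FiniteDimensional ℂ V] in
lemma W_le_W {α β : Type*} {z : α → P} {S : Finset α} {z' : β → P} {S' : Finset β}
    (h : ∀ i ∈ S, ∃ j ∈ S', z i = z' j) : W a z S ≤ W a z' S' := by
  rw [W_le_iff]
  intro i hi
  obtain ⟨j, hj, e⟩ := h i hi
  rw [e]
  exact T_le_W a z' hj

omit [NormedAddCommGroup P] [NormedSpace ℂ P] [FiniteDimensional ℂ V] in
lemma W_insert {α : Type*} [DecidableEq α] (z : α → P) (S : Finset α) (y : α) :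
    W a z (insert y S) = W a z S ⊔ T a (z y) := by
  apply le_antisymm
  · rw [W_le_iff]
    intro i hi
    rcases Finset.mem_insert.mp hi with rfl | hi
    · exact le_sup_right
    · exact (T_le_W a z hi).trans le_sup_left
  · exact sup_le (W_le_W a fun i hi => ⟨i, Finset.mem_insert_of_mem hi, rfl⟩)
      (T_le_W a z (Finset.mem_insert_self _ _))

omit [NormedAddCommGroup P] [NormedSpace ℂ P] [FiniteDimensional ℂ V] in
lemma W_singleton {α : Type*} (z : α → P) (y : α) : W a z {y} = T a (z y) := by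
  apply le_antisymm
  · rw [W_le_iff]
    intro i hi
    rw [Finset.mem_singleton.mp hi]
  · exact T_le_W a z (Finset.mem_singleton_self _)

/-- The maximal dimension of the span of `k` members of the family. -/
noncomputable def D (k : ℕ) : ℕ :=
  sSup (Set.range fun x : Fin k → P => finrank ℂ (W a x Finset.univ))

omit [NormedAddCommGroup P] [NormedSpace ℂ P] in
lemma D_bdd (k : ℕ) :
    BddAbove (Set.range fun x : Fin k → P => finrank ℂ (W a x Finset.univ)) :=
  ⟨finrank ℂ V, by rintro _ ⟨x, rfl⟩; exact Submodule.finrank_le _⟩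

omit [NormedSpace ℂ P] in
lemma D_attained (k : ℕ) : ∃ x : Fin k → P, finrank ℂ (W a x Finset.univ) = D a k :=
  Nat.sSup_mem (Set.range_nonempty _) (D_bdd a k)

omit [NormedSpace ℂ P] in
lemma D_le (k : ℕ) : D a k ≤ finrank ℂ V := by
  obtain ⟨x, hx⟩ := D_attained a k
  exact hx ▸ Submodule.finrank_le _

omit [NormedAddCommGroup P] [NormedSpace ℂ P] in
lemma le_D {α : Type*} (z : α → P) (S : Finset α) : finrank ℂ (W a z S) ≤ D a S.card := by
  have h : W a z S ≤ W a (fun i => z (S.equivFin.symm i)) Finset.univ :=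
    W_le_W a fun i hi => ⟨S.equivFin ⟨i, hi⟩, Finset.mem_univ _, by simp⟩
  exact (Submodule.finrank_mono h).trans (le_csSup (D_bdd a _) ⟨_, rfl⟩)

/-- Tuples all of whose subtuples span the maximal possible dimension. -/
def Gen (α : Type*) : Set (α → P) := {z | ∀ S : Finset α, D a S.card ≤ finrank ℂ (W a z S)}

variable {a}

lemma gen_big (ha : ∀ s, Differentiable ℂ (a s)) (α : Type*) [Fintype α] :
    Big (Gen a α) ∧ (Gen a α).Nonempty := by
  classical
  have h := Big.biInter (E := α → P) (Finset.univ : Finset (Finset α))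
    (fun S => {z | D a S.card ≤ finrank ℂ (W a z S)}) ?_ ?_
  · have e : Gen a α = ⋂ S ∈ (Finset.univ : Finset (Finset α)),
        {z | D a S.card ≤ finrank ℂ (W a z S)} := by
      ext z
      simp [Gen]
    rw [e]
    exact h
  · intro S
    exact big_rank (fun (p : S × σ) (z : α → P) => a p.2 (z p.1))
      (fun p => (ha p.2).comp (differentiable_apply _)) _
  · intro S
    obtain ⟨x, hx⟩ := D_attained a S.card
    refine ⟨fun i => if h : i ∈ S then x (S.equivFin ⟨i, h⟩) else 0, ?_⟩
    rw [Set.mem_ofPred_eq, ← hx]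
    refine Submodule.finrank_mono (W_le_W a fun j _ => ?_)
    refine ⟨S.equivFin.symm j, (S.equivFin.symm j).2, ?_⟩
    simp

omit [NormedAddCommGroup P] [NormedSpace ℂ P] in
lemma gen_eq {α : Type*} {z : α → P} (hz : z ∈ Gen a α) (S : Finset α) :
    finrank ℂ (W a z S) = D a S.card := le_antisymm (le_D a z S) (hz S)

omit [NormedAddCommGroup P] [NormedSpace ℂ P] in
lemma gen_inf {α : Type*} {z : α → P} (hz : z ∈ Gen a α) {S : Finset α} {y : α} (hy : y ∉ S) :
    D a (S.card + 1) + finrank ℂ (W a z S ⊓ T a (z y) : Submodule ℂ V)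
      = D a S.card + D a 1 := by
  classical
  have h := Submodule.finrank_sup_add_finrank_inf_eq (W a z S) (T a (z y))
  rw [← W_insert, gen_eq hz, gen_eq hz, Finset.card_insert_of_notMem hy] at h
  rw [h, ← W_singleton, gen_eq hz, Finset.card_singleton]

lemma D_concave (ha : ∀ s, Differentiable ℂ (a s)) (k : ℕ) :
    D a (k + 2) + D a k ≤ 2 * D a (k + 1) := by
  classical
  obtain ⟨z, hz⟩ := (gen_big ha (Option (Option (Fin k)))).2
  let S : Finset (Option (Option (Fin k))) := Finset.univ.image fun j : Fin k => some (some j)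
  have hS : S.card = k := by
    rw [Finset.card_image_of_injective _ (fun _ _ h => by simpa using h)]
    simp
  have h1 := gen_inf hz (S := S) (y := none) (by simp [S])
  have h2 := gen_inf hz (S := insert (some none) S) (y := none) (by simp [S])
  rw [Finset.card_insert_of_notMem (by simp [S])] at h2
  rw [hS] at h1 h2
  have h3 : finrank ℂ (W a z S ⊓ T a (z none) : Submodule ℂ V)
      ≤ finrank ℂ (W a z (insert (some none) S) ⊓ T a (z none) : Submodule ℂ V) :=
    Submodule.finrank_mono (inf_le_inf_right _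
      (W_le_W a fun i hi => ⟨i, Finset.mem_insert_of_mem hi, rfl⟩))
  have : k + 1 + 1 = k + 2 := rfl
  rw [this] at h2
  omega

lemma D_succ_le (ha : ∀ s, Differentiable ℂ (a s)) (k : ℕ) :
    D a (k + 1) ≤ D a k + D a 1 ∧ D a k ≤ D a (k + 1) := by
  classical
  obtain ⟨z, hz⟩ := (gen_big ha (Option (Fin k))).2
  let S : Finset (Option (Fin k)) := Finset.univ.image fun j : Fin k => some j
  have hS : S.card = k := by
    rw [Finset.card_image_of_injective _ (fun _ _ h => by simpa using h)]
    simp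
  have h1 := gen_inf hz (S := S) (y := none) (by simp [S])
  rw [hS] at h1
  have h2 : finrank ℂ (W a z S ⊓ T a (z none) : Submodule ℂ V) ≤ D a 1 := by
    have := le_D a z {none}
    rw [W_singleton, Finset.card_singleton] at this
    exact (Submodule.finrank_mono inf_le_right).trans this
  omega

omit [NormedAddCommGroup P] [NormedSpace ℂ P] in
lemma inf_step {α : Type*} [DecidableEq α] {k : ℕ}
    (hst : D a (k + 2) + D a k = 2 * D a (k + 1)) {z : α → P} (hz : z ∈ Gen a α)
    {S : Finset α} {y v : α} (hS : S.card = k) (hy : y ∉ S) (hv : v ∉ S) (hvy : y ≠ v) :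
    W a z S ⊓ T a (z y) = W a z (insert v S) ⊓ T a (z y) := by
  have h1 := gen_inf hz hy
  have h2 := gen_inf hz (S := insert v S) (y := y) (by simp [hy, hvy])
  rw [Finset.card_insert_of_notMem hv] at h2
  rw [hS] at h1 h2
  have : k + 1 + 1 = k + 2 := rfl
  rw [this] at h2
  refine Submodule.eq_of_le_of_finrank_eq (inf_le_inf_right _
      (W_le_W a fun i hi => ⟨i, Finset.mem_insert_of_mem hi, rfl⟩)) ?_
  omega

omit [NormedAddCommGroup P] [NormedSpace ℂ P] in
lemma inf_exchange {α : Type*} [DecidableEq α] {k : ℕ}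
    (hst : D a (k + 2) + D a k = 2 * D a (k + 1)) {z : α → P} (hz : z ∈ Gen a α) {y : α}
    (S' : Finset α) (hS' : S'.card = k) (hy' : y ∉ S') :
    ∀ (m : ℕ) (S : Finset α), S.card = k → y ∉ S → (S' \ S).card = m →
      W a z S ⊓ T a (z y) = W a z S' ⊓ T a (z y) := by
  intro m
  induction m with
  | zero =>
    intro S hS _ hm
    have h1 : S' ⊆ S := Finset.sdiff_eq_empty_iff_subset.mp (Finset.card_eq_zero.mp hm)
    rw [Finset.eq_of_subset_of_card_le h1 (by omega)]
  | succ m ih =>
    intro S hS hy hm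
    obtain ⟨v, hv⟩ : (S' \ S).Nonempty := Finset.card_pos.mp (by omega)
    have hc : (S \ S').card = (S' \ S).card := Finset.card_sdiff_comm (by omega)
    obtain ⟨u, hu⟩ : (S \ S').Nonempty := Finset.card_pos.mp (by omega)
    rw [Finset.mem_sdiff] at hu hv
    have hyv : y ≠ v := fun h => hy' (h ▸ hv.1)
    have hyu : y ≠ u := fun h => hy (h ▸ hu.1)
    have huv : u ≠ v := fun h => hv.2 (h ▸ hu.1)
    have hpos : 0 < S.card := Finset.card_pos.mpr ⟨u, hu.1⟩
    have hc2 : (insert v (S.erase u)).card = k := by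
      rw [Finset.card_insert_of_notMem (by simp [hv.2]), Finset.card_erase_of_mem hu.1]
      omega
    have hy2 : y ∉ insert v (S.erase u) := by simp [hyv, hy]
    have e1 := inf_step hst hz hS hy hv.2 hyv
    have e2 := inf_step hst hz hc2 hy2 (v := u) (by simp [huv]) hyu
    have e3 : insert u (insert v (S.erase u)) = insert v S := by
      rw [Finset.insert_comm, Finset.insert_erase hu.1]
    rw [e3] at e2
    rw [e1, ← e2]
    refine ih _ hc2 hy2 ?_
    have : S' \ insert v (S.erase u) = (S' \ S).erase v := by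
      ext w
      simp only [Finset.mem_sdiff, Finset.mem_insert, Finset.mem_erase]
      constructor
      · rintro ⟨h1, h2⟩
        refine ⟨fun h => h2 (Or.inl h), h1, fun h => h2 (Or.inr ⟨?_, h⟩)⟩
        rintro rfl
        exact hu.2 h1
      · rintro ⟨h1, h2, h3⟩
        exact ⟨h2, fun h => h.elim h1 fun h => h3 h.2⟩
    rw [this, Finset.card_erase_of_mem (Finset.mem_sdiff.mpr hv)]
    omega

/-- If the increments are stationary below the full value, a nonzero vector lies in every
span of maximal dimension. -/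
lemma common_vector (ha : ∀ s, Differentiable ℂ (a s)) {k : ℕ}
    (hst : D a (k + 2) + D a k = 2 * D a (k + 1)) (hlt : D a (k + 1) < D a k + D a 1) :
    ∃ u : V, u ≠ 0 ∧ ∀ x : Fin k → P, D a k ≤ finrank ℂ (W a x Finset.univ) →
      u ∈ W a x Finset.univ := by
  classical
  obtain ⟨hbig, z0, hz0⟩ := gen_big ha (Option (Fin k ⊕ Fin k))
  let S0 : Finset (Option (Fin k ⊕ Fin k)) := Finset.univ.image fun j : Fin k => some (.inl j)
  let S1 : Finset (Option (Fin k ⊕ Fin k)) := Finset.univ.image fun j : Fin k => some (.inr j)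
  have hS0 : S0.card = k := by
    rw [Finset.card_image_of_injective _ (fun _ _ h => by simpa using h)]
    simp
  have hS1 : S1.card = k := by
    rw [Finset.card_image_of_injective _ (fun _ _ h => by simpa using h)]
    simp
  have h1 := gen_inf hz0 (S := S0) (y := none) (by simp [S0])
  rw [hS0] at h1
  have hne : (W a z0 S0 ⊓ T a (z0 none) : Submodule ℂ V) ≠ ⊥ := by
    intro h
    rw [h, finrank_bot] at h1
    omega
  obtain ⟨u, hu, hu0⟩ := Submodule.exists_mem_ne_zero_of_ne_bot hne
  refine ⟨u, hu0, fun x0 hx0 => ?_⟩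
  let z : (Fin k → P) → Option (Fin k ⊕ Fin k) → P := fun x i =>
    match i with
    | some (.inr j) => x j
    | some (.inl j) => z0 (some (.inl j))
    | none => z0 none
  have hzd : Differentiable ℂ z := by
    refine differentiable_pi.mpr fun i => ?_
    rcases i with _ | j | j
    · exact differentiable_const _
    · exact differentiable_const _
    · exact differentiable_apply j
  have hΩ : Big (z ⁻¹' Gen a _) := hbig.preimage hzd
  have hΩne : (z ⁻¹' Gen a _).Nonempty := by
    refine ⟨fun j => z0 (some (.inr j)), ?_⟩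
    have : z (fun j => z0 (some (.inr j))) = z0 := by
      funext i
      rcases i with _ | j | j <;> rfl
    rw [Set.mem_preimage, this]
    exact hz0
  have hmem : ∀ x ∈ z ⁻¹' Gen a _, u ∈ W a x Finset.univ := by
    intro x hx
    have e := inf_exchange hst hx (y := none) S1 hS1 (by simp [S1]) _ S0 hS0 (by simp [S0]) rfl
    have h2 : W a z0 S0 ≤ W a (z x) S0 := by
      refine W_le_W a fun i hi => ⟨i, hi, ?_⟩
      obtain ⟨j, _, rfl⟩ := Finset.mem_image.mp hi
      rfl
    have h3 : W a (z x) S1 ≤ W a x Finset.univ := by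
      refine W_le_W a fun i hi => ?_
      obtain ⟨j, _, rfl⟩ := Finset.mem_image.mp hi
      exact ⟨j, Finset.mem_univ _, rfl⟩
    have h4 : u ∈ W a (z x) S0 ⊓ T a (z x none) := ⟨h2 hu.1, hu.2⟩
    rw [e] at h4
    exact h3 h4.1
  by_contra hnot
  let b : Option (↥(Finset.univ : Finset (Fin k)) × σ) → (Fin k → P) → V := fun o x =>
    match o with
    | none => u
    | some p => a p.2 (x p.1)
  have hb : ∀ o, Differentiable ℂ (b o) := by
    rintro (_ | p)
    · exact differentiable_const _
    · exact (ha p.2).comp (differentiable_apply _)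
  have hspan : ∀ x, span ℂ (Set.range fun o => b o x) = W a x Finset.univ ⊔ span ℂ {u} := by
    intro x
    unfold W
    rw [← span_union]
    congr 1
    ext w
    simp only [Set.mem_range, Set.mem_union, Set.mem_singleton_iff]
    constructor
    · rintro ⟨_ | p, rfl⟩
      · exact Or.inr rfl
      · exact Or.inl ⟨p, rfl⟩
    · rintro (⟨p, rfl⟩ | rfl)
      · exact ⟨some p, rfl⟩
      · exact ⟨none, rfl⟩
  have hB := big_rank b hb (D a k + 1)
  have hBne : {x | D a k + 1 ≤ finrank ℂ (span ℂ (Set.range fun o => b o x))}.Nonempty := by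
    refine ⟨x0, ?_⟩
    rw [Set.mem_ofPred_eq, hspan]
    have : W a x0 Finset.univ < W a x0 Finset.univ ⊔ span ℂ {u} := by
      refine lt_of_le_of_ne le_sup_left fun h => hnot ?_
      rw [h]
      exact (le_sup_right : span ℂ {u} ≤ _) (mem_span_singleton_self u)
    have := Submodule.finrank_lt_finrank_of_lt this
    omega
  obtain ⟨x, hx1, hx2⟩ := hΩ.inter_nonempty hB hΩne hBne
  have h5 : D a k + 1 ≤ finrank ℂ (span ℂ (Set.range fun o => b o x)) := hx2
  rw [hspan, sup_eq_left.mpr ((span_singleton_le_iff_mem _ _).mpr (hmem x hx1))] at h5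
  have h6 := le_D a x Finset.univ
  simp only [Finset.card_univ, Fintype.card_fin] at h6
  omega

lemma stationary (ha : ∀ s, Differentiable ℂ (a s)) (Γ : Set (V →ₗ[ℂ] V))
    (hΓ : ∀ γ ∈ Γ, ∃ (δ : V →ₗ[ℂ] V) (ψ : P → P), Function.Injective δ ∧
      ∀ x, (T a x).map δ ≤ T a (ψ x) ∧ (T a (ψ x)).map γ ≤ T a x)
    (irr : ∀ U : Submodule ℂ V, U ≠ ⊥ → (∀ γ ∈ Γ, U.map γ ≤ U) → U = ⊤) {k : ℕ}
    (hst : D a (k + 2) + D a k = 2 * D a (k + 1)) (hlt : D a (k + 1) < D a k + D a 1) :
    D a k = finrank ℂ V := by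
  obtain ⟨u, hu0, hu⟩ := common_vector ha hst hlt
  let U : Submodule ℂ V :=
    ⨅ x : {x : Fin k → P // D a k ≤ finrank ℂ (W a x Finset.univ)}, W a x.1 Finset.univ
  have hU : U = ⊤ := by
    refine irr U ?_ ?_
    · intro h
      have : u ∈ U := (Submodule.mem_iInf _).mpr fun x => hu x.1 x.2
      rw [h] at this
      exact hu0 this
    · intro γ hγ
      obtain ⟨δ, ψ, hδ, hψ⟩ := hΓ γ hγ
      refine le_iInf fun x => ?_
      have h1 : (W a x.1 Finset.univ).map δ ≤ W a (ψ ∘ x.1) Finset.univ := by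
        rw [Submodule.map_le_iff_le_comap, W_le_iff]
        intro i hi
        rw [← Submodule.map_le_iff_le_comap]
        exact (hψ _).1.trans (T_le_W a (ψ ∘ x.1) hi)
      have h2 : (W a (ψ ∘ x.1) Finset.univ).map γ ≤ W a x.1 Finset.univ := by
        rw [Submodule.map_le_iff_le_comap, W_le_iff]
        intro i hi
        rw [← Submodule.map_le_iff_le_comap]
        exact (hψ _).2.trans (T_le_W a x.1 hi)
      have h3 : D a k ≤ finrank ℂ (W a (ψ ∘ x.1) Finset.univ) := by
        refine x.2.trans (le_trans ?_ (Submodule.finrank_mono h1))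
        exact (LinearEquiv.finrank_eq (Submodule.equivMapOfInjective δ hδ _)).le
      have h4 : U ≤ W a (ψ ∘ x.1) Finset.univ :=
        iInf_le (fun x : {x : Fin k → P // D a k ≤ finrank ℂ (W a x Finset.univ)} =>
          W a x.1 Finset.univ) ⟨ψ ∘ x.1, h3⟩
      exact (Submodule.map_mono h4).trans h2
  obtain ⟨x, hx⟩ := D_attained a k
  have h4 : U ≤ W a x Finset.univ :=
    iInf_le (fun x : {x : Fin k → P // D a k ≤ finrank ℂ (W a x Finset.univ)} =>
      W a x.1 Finset.univ) ⟨x, hx.ge⟩
  have : W a x Finset.univ = ⊤ := top_le_iff.mp (hU ▸ h4)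
  rw [← hx, this, finrank_top]

/-- The arithmetic of the dimension sequence. -/
lemma seq_fill (d : ℕ → ℕ) (M N : ℕ) (hN : 0 < N) (hM : ∀ k, d k ≤ M)
    (hle : ∀ k, d (k + 1) ≤ d k + N ∧ d k ≤ d (k + 1))
    (hc : ∀ k, d (k + 2) + d k ≤ 2 * d (k + 1))
    (hs : ∀ k, d (k + 2) + d k = 2 * d (k + 1) → d (k + 1) < d k + N → d k = M) :
    d (M / N + N) = M := by
  have hmono : Monotone d := monotone_nat_of_le_succ fun k => (hle k).2
  have hdec : ∀ k j, d (k + j + 1) + d k ≤ d (k + 1) + d (k + j) := by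
    intro k j
    induction j with
    | zero => simp [add_comm]
    | succ j ih =>
      have := hc (k + j)
      have e1 : k + (j + 1) + 1 = k + j + 2 := by ring
      have e2 : k + (j + 1) = k + j + 1 := by ring
      rw [e1, e2]
      omega
  have hk0 : d (M / N + 1) < d (M / N) + N := by
    by_contra hcon
    have hall : ∀ j, j ≤ M / N + 1 → j * N ≤ d j := by
      intro j
      induction j with
      | zero => simp
      | succ j ih =>
        intro hj
        have h1 := ih (by omega)
        obtain ⟨i, hi⟩ : ∃ i, M / N = j + i := ⟨M / N - j, by omega⟩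
        have h2 := hdec j i
        rw [← hi] at h2
        rw [add_mul]
        omega
    have h1 := hall _ le_rfl
    have h2 := hM (M / N + 1)
    have h3 := Nat.lt_div_mul_add (a := M) hN
    rw [add_mul] at h1
    omega
  by_contra hne
  have hlt : ∀ j, j ≤ N → d (M / N + j + 1) + j + 1 ≤ d (M / N + j) + N := by
    intro j
    induction j with
    | zero => intro _; simpa using hk0
    | succ j ih =>
      intro hj
      have h1 := ih (by omega)
      have h2 := hc (M / N + j)
      have h3 := hs (M / N + j)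
      have h4 : d (M / N + j) ≤ d (M / N + N) := hmono (by omega)
      have h5 := hM (M / N + N)
      have e1 : M / N + (j + 1) + 1 = M / N + j + 2 := by ring
      have e2 : M / N + (j + 1) = M / N + j + 1 := by ring
      rw [e1, e2]
      omega
  have h1 := hlt N le_rfl
  have h2 := (hle (M / N + N)).2
  omega

theorem exists_spanning (ha : ∀ s, Differentiable ℂ (a s)) (Γ : Set (V →ₗ[ℂ] V))
    (hΓ : ∀ γ ∈ Γ, ∃ (δ : V →ₗ[ℂ] V) (ψ : P → P), Function.Injective δ ∧
      ∀ x, (T a x).map δ ≤ T a (ψ x) ∧ (T a (ψ x)).map γ ≤ T a x)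
    (irr : ∀ U : Submodule ℂ V, U ≠ ⊥ → (∀ γ ∈ Γ, U.map γ ≤ U) → U = ⊤)
    (N0 N1 : ℕ) (hpos : 0 < N0) (h0 : ∃ x, N0 ≤ finrank ℂ (T a x))
    (h1 : ∀ x, finrank ℂ (T a x) ≤ N1) :
    ∃ g, g ≤ finrank ℂ V / N0 + N1 ∧ ∃ x : Fin g → P, W a x Finset.univ = ⊤ := by
  have hN0 : N0 ≤ D a 1 := by
    obtain ⟨x, hx⟩ := h0
    have := le_D a (fun _ : Unit => x) {()}
    rw [W_singleton, Finset.card_singleton] at this
    exact hx.trans this
  have hN1 : D a 1 ≤ N1 := by
    obtain ⟨x, hx⟩ := D_attained a 1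
    have : (Finset.univ : Finset (Fin 1)) = {0} := rfl
    rw [this, W_singleton] at hx
    exact hx ▸ h1 _
  have h := seq_fill (D a) (finrank ℂ V) (D a 1) (by omega) (D_le a) (D_succ_le ha)
    (D_concave ha) (fun k => stationary ha Γ hΓ irr)
  refine ⟨finrank ℂ V / D a 1 + D a 1, ?_, ?_⟩
  · exact add_le_add (Nat.div_le_div_left hN0 hpos) hN1
  · obtain ⟨x, hx⟩ := D_attained a (finrank ℂ V / D a 1 + D a 1)
    exact ⟨x, Submodule.eq_top_of_finrank_eq (hx.trans h)⟩

end

end Pool.Agent.P.MP_098a67_ag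
end

-- part Pool.Agent.P.MP_098a67_ag.Tensor
section

/-!
Tensors in coordinates, tangent spaces of the cone of rank-one tensors, and the open mapping step.
-/

namespace Pool.Agent.P.MP_098a67_ag

open Module Submodule Function

variable {ι : Type} [Fintype ι] [DecidableEq ι] {κ : ι → Type} [∀ i, Fintype (κ i)]
  [∀ i, DecidableEq (κ i)]

/-- The pure tensor with factors `v i`. -/
def pure (v : ∀ i, κ i → ℂ) : (∀ i, κ i) → ℂ := fun j => ∏ i, v i (j i)

/-- The tensor is a sum of `r` pure tensors. -/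
def RankLE (X : (∀ i, κ i) → ℂ) (r : ℕ) : Prop :=
  ∃ v : Fin r → ∀ i, κ i → ℂ, X = ∑ k, pure (v k)

/-- Generators of the part of the tangent space at a pure tensor that moves the factors in `L`. -/
def tv (L : Finset ι) (s : Σ i : L, κ i) (x : ∀ i, κ i → ℂ) : (∀ i, κ i) → ℂ :=
  pure (update x s.1 (Pi.single s.2 1))

omit [∀ i, Fintype (κ i)] [∀ i, DecidableEq (κ i)] in
lemma pure_update (x : ∀ i, κ i → ℂ) (i : ι) (w : κ i → ℂ) (j : ∀ i, κ i) :
    pure (update x i w) j = w (j i) * ∏ l ∈ Finset.univ.erase i, x l (j l) := by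
  unfold pure
  rw [← Finset.mul_prod_erase _ _ (Finset.mem_univ i), update_self]
  congr 1
  refine Finset.prod_congr rfl fun l hl => ?_
  rw [update_of_ne (Finset.ne_of_mem_erase hl)]

omit [∀ i, Fintype (κ i)] [∀ i, DecidableEq (κ i)] in
lemma pure_eq (x : ∀ i, κ i → ℂ) (i : ι) (j : ∀ i, κ i) :
    pure x j = x i (j i) * ∏ l ∈ Finset.univ.erase i, x l (j l) := by
  rw [← pure_update, update_eq_self]

lemma pure_update_mem {L : Finset ι} (x : ∀ i, κ i → ℂ) {i : ι} (hi : i ∈ L) (w : κ i → ℂ) :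
    pure (update x i w) ∈ T (tv L) x := by
  have : pure (update x i w) = ∑ b, w b • tv L ⟨⟨i, hi⟩, b⟩ x := by
    funext j
    simp only [tv, Finset.sum_apply, Pi.smul_apply, pure_update, smul_eq_mul, Pi.single_apply]
    rw [Finset.sum_eq_single (j i)] <;> simp +contextual [eq_comm]
  rw [this]
  exact Submodule.sum_mem _ fun b _ => Submodule.smul_mem _ _ (subset_span ⟨⟨⟨i, hi⟩, b⟩, rfl⟩)

omit [DecidableEq ι] [∀ i, Fintype (κ i)] [∀ i, DecidableEq (κ i)] in
lemma rankLE_of_fintype {ρ : Type*} [Fintype ρ] (v : ρ → ∀ i, κ i → ℂ) :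
    RankLE (∑ k, pure (v k)) (Fintype.card ρ) :=
  ⟨fun k => v ((Fintype.equivFin ρ).symm k),
    (Equiv.sum_comp (Fintype.equivFin ρ).symm fun k => pure (v k)).symm⟩

omit [DecidableEq ι] [∀ i, Fintype (κ i)] [∀ i, DecidableEq (κ i)] in
lemma RankLE.add {X Y : (∀ i, κ i) → ℂ} {r s : ℕ} (hX : RankLE X r) (hY : RankLE Y s) :
    RankLE (X + Y) (r + s) := by
  obtain ⟨v, rfl⟩ := hX
  obtain ⟨w, rfl⟩ := hY
  have := rankLE_of_fintype (Sum.elim v w)
  simpa [Fintype.sum_sum_type] using this

omit [∀ i, Fintype (κ i)] [∀ i, DecidableEq (κ i)] in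
lemma RankLE.smul [Nonempty ι] {X : (∀ i, κ i) → ℂ} {r : ℕ} (hX : RankLE X r) (c : ℂ) :
    RankLE (c • X) r := by
  obtain ⟨v, rfl⟩ := hX
  obtain ⟨i⟩ := ‹Nonempty ι›
  refine ⟨fun k => update (v k) i (c • v k i), ?_⟩
  rw [Finset.smul_sum]
  refine Finset.sum_congr rfl fun k _ => ?_
  funext j
  rw [pure_update, Pi.smul_apply, pure_eq _ i]
  simp [mul_assoc]

omit [∀ i, Fintype (κ i)] [∀ i, DecidableEq (κ i)] in
lemma RankLE.mono [Nonempty ι] {X : (∀ i, κ i) → ℂ} {r s : ℕ} (hX : RankLE X r) (h : r ≤ s) :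
    RankLE X s := by
  obtain ⟨t, rfl⟩ := Nat.exists_eq_add_of_le h
  have h0 : RankLE (0 : (∀ i, κ i) → ℂ) t := by
    have := (show RankLE (κ := κ) (∑ _k : Fin t, pure 0) t from ⟨fun _ => 0, rfl⟩).smul 0
    simpa using this
  simpa using hX.add h0

omit [DecidableEq ι] [∀ i, DecidableEq (κ i)] in
lemma contDiff_sum_pure {𝕜 : Type*} [NontriviallyNormedField 𝕜] [NormedAlgebra 𝕜 ℂ]
    {ρ : Type*} [Fintype ρ] [DecidableEq ι] :
    ContDiff 𝕜 1 (fun y : ρ → ∀ i, κ i → ℂ => ∑ k, pure (y k)) := by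
  refine ContDiff.sum fun k _ => contDiff_pi.mpr fun j => ?_
  unfold pure
  refine contDiff_prod fun i _ => ?_
  exact contDiff_pi.mp (contDiff_pi.mp (contDiff_apply 𝕜 (∀ i, κ i → ℂ) k) i) (j i)

lemma tv_differentiable (L : Finset ι) (s : Σ i : L, κ i) :
    Differentiable ℂ (tv (κ := κ) L s) := by
  refine differentiable_pi.mpr fun j => ?_
  simp only [tv, pure_update]
  refine Differentiable.const_mul (diff_prod _ _ fun l _ => ?_) _
  fun_prop

/-- Open mapping step: if the tangent spaces at the points `x k` span everything and the sum of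
the points has rank at most `r`, every tensor has rank at most the number of points plus `r`. -/
lemma rankLE_of_spanning [Nonempty ι] {L : Finset ι} {ρ : Type} [Fintype ρ]
    (x : ρ → ∀ i, κ i → ℂ) (hx : W (tv L) x Finset.univ = ⊤) {r : ℕ} (hr : RankLE (∑ k, pure (x k)) r)
    (X : (∀ i, κ i) → ℂ) : RankLE X (Fintype.card ρ + r) := by
  classical
  set Φ : (ρ → ∀ i, κ i → ℂ) → (∀ i, κ i) → ℂ := fun y => ∑ k, pure (y k) with hΦ
  have hs : HasStrictFDerivAt Φ (fderiv ℂ Φ x) x :=
    (contDiff_sum_pure (𝕜 := ℂ)).contDiffAt.hasStrictFDerivAt one_ne_zero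
  have hsurj : (fderiv ℂ Φ x).range = ⊤ := by
    rw [← top_le_iff, ← hx, W_le_iff]
    intro k _
    unfold T
    rw [span_le]
    rintro _ ⟨⟨⟨i, hi⟩, b⟩, rfl⟩
    set e : ρ → ∀ i, κ i → ℂ := Pi.single k (Pi.single i (Pi.single b 1)) with he
    refine ⟨e, ?_⟩
    have h1 : HasDerivAt (fun t : ℂ => x + t • e) e 0 := by
      simpa using ((hasDerivAt_id (0 : ℂ)).smul_const e).const_add x
    have h2 : HasDerivAt (fun t : ℂ => Φ (x + t • e)) (fderiv ℂ Φ x e) 0 := by
      refine HasFDerivAt.comp_hasDerivAt_of_eq (0 : ℂ) hs.hasFDerivAt h1 (by simp)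
    have h3 : (fun t : ℂ => Φ (x + t • e)) = fun t => Φ x + t • tv L ⟨⟨i, hi⟩, b⟩ (x k) := by
      funext t
      simp only [hΦ]
      rw [← Finset.add_sum_erase _ _ (Finset.mem_univ k),
        ← Finset.add_sum_erase _ (fun k => pure (x k)) (Finset.mem_univ k), add_right_comm]
      congr 1
      · funext j
        have : (x + t • e) k = update (x k) i (x k i + t • Pi.single b 1) := by
          funext l
          by_cases hl : l = i
          · subst hl
            simp [he]
          · simp [he, update_of_ne hl, Pi.single_eq_of_ne hl]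
        rw [this, pure_update, Pi.add_apply (pure (x k)), pure_eq _ i]
        simp only [tv, Pi.smul_apply, pure_update, Pi.add_apply, smul_eq_mul]
        ring
      · refine Finset.sum_congr rfl fun l hl => ?_
        simp [he, Pi.single_eq_of_ne (Finset.ne_of_mem_erase hl)]
    have h4 : HasDerivAt (fun t : ℂ => Φ x + t • tv L ⟨⟨i, hi⟩, b⟩ (x k)) (tv L ⟨⟨i, hi⟩, b⟩ (x k)) 0 := by
      simpa using ((hasDerivAt_id (0 : ℂ)).smul_const (tv L ⟨⟨i, hi⟩, b⟩ (x k))).const_add (Φ x)
    rw [h3] at h2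
    exact h2.unique h4
  have hn : Set.range Φ ∈ nhds (Φ x) := by
    rw [← hs.map_nhds_eq_of_surj hsurj]
    exact Filter.range_mem_map
  have hc : Filter.Tendsto (fun t : ℂ => Φ x + t • X) (nhds 0) (nhds (Φ x)) := by
    have : Continuous fun t : ℂ => Φ x + t • X := by fun_prop
    simpa using this.tendsto 0
  have h5 : ∀ᶠ t in nhdsWithin (0 : ℂ) {0}ᶜ, Φ x + t • X ∈ Set.range Φ ∧ t ≠ 0 :=
    ((hc.eventually hn).filter_mono nhdsWithin_le_nhds).and self_mem_nhdsWithin
  obtain ⟨t, ⟨y, hy⟩, ht⟩ := h5.exists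
  have h6 : X = t⁻¹ • (Φ y + (-1 : ℂ) • Φ x) := by
    rw [hy]
    simp [smul_smul, ht]
  rw [h6]
  exact ((rankLE_of_fintype y).add (hr.smul _)).smul _

omit [DecidableEq ι] [∀ i, Fintype (κ i)] [∀ i, DecidableEq (κ i)] in
/-- Passing to a smaller format. -/
lemma rankLE_restrict {κ' : ι → Type} (f : ∀ i, κ i → κ' i) (g : ∀ i, κ' i → κ i)
    (hfg : ∀ i a, g i (f i a) = a) {r : ℕ} (h : ∀ X : (∀ i, κ' i) → ℂ, RankLE X r)
    (X : (∀ i, κ i) → ℂ) : RankLE X r := by
  obtain ⟨v, hv⟩ := h fun j => X fun i => g i (j i)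
  refine ⟨fun k i a => v k i (f i a), ?_⟩
  funext j
  have := congrFun hv fun i => f i (j i)
  simpa [hfg, pure] using this

/-- The slice bound. -/
lemma rankLE_slices (i : ι) (o : κ i) :
    ∃ r, r * Fintype.card (κ i) ≤ ∏ l, Fintype.card (κ l) ∧
      ∀ X : (∀ i, κ i) → ℂ, RankLE X r := by
  classical
  refine ⟨Fintype.card {j : ∀ i, κ i // j i = o}, ?_, fun X => ?_⟩
  · rw [← Fintype.card_prod, ← Fintype.card_pi]
    refine Fintype.card_le_of_injective (fun p => update p.1.1 i p.2) ?_
    rintro ⟨⟨j, hj⟩, a⟩ ⟨⟨j', hj'⟩, a'⟩ h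
    have h1 : a = a' := by simpa using congrFun h i
    have h2 : j = j' := by
      funext l
      by_cases hl : l = i
      · subst hl
        rw [hj, hj']
      · simpa [update_of_ne hl] using congrFun h l
    simp [h1, h2]
  · have := rankLE_of_fintype fun j : {j : ∀ i, κ i // j i = o} =>
      update (fun l => (Pi.single (j.1 l) 1 : κ l → ℂ)) i fun a => X (update j.1 i a)
    convert this using 1
    funext j
    rw [Finset.sum_apply, Finset.sum_eq_single ⟨update j i o, by simp⟩]
    · rw [pure_update, Finset.prod_eq_one]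
      · simp
      · intro l hl
        simp [update_of_ne (Finset.ne_of_mem_erase hl)]
    · rintro ⟨j', hj'⟩ _ hne
      rw [pure_update]
      have : ∃ l, l ≠ i ∧ j l ≠ j' l := by
        by_contra hcon
        push Not at hcon
        apply hne
        ext1
        funext l
        by_cases hl : l = i
        · subst hl
          simp [hj']
        · simp [update_of_ne hl, hcon l hl]
      obtain ⟨l, hl, hl'⟩ := this
      rw [Finset.prod_eq_zero (Finset.mem_erase.mpr ⟨hl, Finset.mem_univ l⟩)]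
      · simp
      · simp [Pi.single_eq_of_ne hl']
    · simp

omit [∀ i, DecidableEq (κ i)] in
/-- The dimension count. -/
lemma lower_bound {r : ℕ} (h : ∀ X : (∀ i, κ i) → ℂ, RankLE X r) :
    ∏ l, Fintype.card (κ l) ≤ r * ∑ l, Fintype.card (κ l) := by
  by_contra hlt
  have hd := (contDiff_sum_pure (𝕜 := ℝ) (κ := κ) (ρ := Fin r)).dense_compl_range_of_finrank_lt_finrank
    (by
      simp only [Module.finrank_pi_fintype, Complex.finrank_real_complex, Finset.sum_const,
        Finset.card_univ, Fintype.card_fin, smul_eq_mul, Fintype.card_pi, ← Finset.sum_mul]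
      rw [← mul_assoc]
      omega)
  obtain ⟨X, hX⟩ := hd.nonempty
  obtain ⟨v, hv⟩ := h X
  exact hX ⟨v, hv.symm⟩

end Pool.Agent.P.MP_098a67_ag
end

-- part Pool.Agent.P.MP_098a67_ag.Kron
section

/-!
Spanning families of tangent spaces, and the Kronecker product with a group tensor.
-/

namespace Pool.Agent.P.MP_098a67_ag

open Module Submodule Function

variable {ι : Type} [Fintype ι] [DecidableEq ι] {κ : ι → Type} [∀ i, Fintype (κ i)]
  [∀ i, DecidableEq (κ i)]

/-- A matrix acting on one factor. -/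
def act (i : ι) (g : Matrix (κ i) (κ i) ℂ) : ((∀ i, κ i) → ℂ) →ₗ[ℂ] ((∀ i, κ i) → ℂ) where
  toFun X := fun j => ∑ b, g (j i) b * X (update j i b)
  map_add' X Y := by
    funext j
    simp [mul_add, Finset.sum_add_distrib]
  map_smul' c X := by
    funext j
    simp [Finset.mul_sum, mul_left_comm]

omit [Fintype ι] [∀ i, DecidableEq (κ i)] in
lemma act_apply (i : ι) (g : Matrix (κ i) (κ i) ℂ) (X : (∀ i, κ i) → ℂ) (j : ∀ i, κ i) :
    act i g X j = ∑ b, g (j i) b * X (update j i b) := rfl

omit [Fintype ι] [∀ i, DecidableEq (κ i)] in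
lemma act_mul (i : ι) (g h : Matrix (κ i) (κ i) ℂ) (X : (∀ i, κ i) → ℂ) :
    act i g (act i h X) = act i (g * h) X := by
  funext j
  simp only [act_apply, update_self, update_idem, Matrix.mul_apply, Finset.mul_sum,
    Finset.sum_mul]
  rw [Finset.sum_comm]
  simp [mul_assoc]

omit [Fintype ι] in
lemma act_one (i : ι) (X : (∀ i, κ i) → ℂ) : act i (1 : Matrix (κ i) (κ i) ℂ) X = X := by
  funext j
  simp [act_apply, Matrix.one_apply]

omit [∀ i, DecidableEq (κ i)] in
lemma act_pure (i : ι) (g : Matrix (κ i) (κ i) ℂ) (x : ∀ i, κ i → ℂ) :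
    act i g (pure x) = pure (update x i (g.mulVec (x i))) := by
  funext j
  rw [act_apply, pure_update]
  simp only [Matrix.mulVec, dotProduct, Finset.sum_mul]
  refine Finset.sum_congr rfl fun b _ => ?_
  rw [pure_eq _ i, update_self, mul_assoc]
  congr 2
  refine Finset.prod_congr rfl fun l hl => ?_
  rw [update_of_ne (Finset.ne_of_mem_erase hl)]

lemma map_act_le (L : Finset ι) (i : ι) (g : Matrix (κ i) (κ i) ℂ) (x : ∀ i, κ i → ℂ) :
    (T (tv L) x).map (act i g) ≤ T (tv L) (update x i (g.mulVec (x i))) := by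
  rw [Submodule.map_le_iff_le_comap]
  conv_lhs => unfold T
  rw [span_le]
  rintro _ ⟨⟨⟨l, hL⟩, b⟩, rfl⟩
  show act i g (pure _) ∈ T (tv L) _
  rw [act_pure]
  by_cases hl : l = i
  · subst hl
    have := pure_update_mem (update x l (g.mulVec (x l))) hL (g.mulVec (Pi.single b 1))
    simpa using this
  · have := pure_update_mem (update x i (g.mulVec (x i))) hL (Pi.single b 1)
    rw [update_comm (Ne.symm hl)] at this
    simpa [update_of_ne (Ne.symm hl)] using this

lemma irreducible (U : Submodule ℂ ((∀ i, κ i) → ℂ)) (hU : U ≠ ⊥)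
    (h : ∀ (i : ι) (a b : κ i), U.map (act i (1 + Matrix.single a b 1)) ≤ U) : U = ⊤ := by
  obtain ⟨u, hu, hu0⟩ := Submodule.exists_mem_ne_zero_of_ne_bot hU
  obtain ⟨j0, hj0⟩ := Function.ne_iff.mp hu0
  have h1 : ∀ (i : ι) (a b : κ i), ∀ X ∈ U,
      (fun j => if j i = a then X (update j i b) else 0) ∈ U := by
    intro i a b X hX
    have h2 := U.sub_mem (h i a b ⟨X, hX, rfl⟩) hX
    convert h2 using 1
    funext j
    simp only [Pi.sub_apply, act_apply, Matrix.add_apply, add_mul, Finset.sum_add_distrib,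
      Matrix.one_apply, Matrix.single_apply]
    by_cases hj : j i = a
    · simp [hj.symm]
    · simp [hj, Ne.symm hj]
  have h3 : ∀ (j1 : ∀ i, κ i) (s : Finset ι),
      (fun j => if ∀ i ∈ s, j i = j1 i then u (s.piecewise j0 j) else 0) ∈ U := by
    intro j1 s
    induction s using Finset.induction_on with
    | empty => simpa using hu
    | insert i s hi ih =>
      convert h1 i (j1 i) (j0 i) _ ih using 2 with j
      have e1 : (∀ l ∈ s, update j i (j0 i) l = j1 l) ↔ ∀ l ∈ s, j l = j1 l := by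
        refine forall₂_congr fun l hl => ?_
        rw [update_of_ne (ne_of_mem_of_not_mem hl hi)]
      have e2 : s.piecewise j0 (update j i (j0 i)) = (insert i s).piecewise j0 j := by
        funext l
        by_cases hl : l = i
        · subst hl
          simp [hi]
        · by_cases hls : l ∈ s
          · simp [hls]
          · simp [hls, hl]
      simp only [Finset.forall_mem_insert, e1, e2]
      by_cases h4 : j i = j1 i <;> simp [h4]
  rw [← top_le_iff]
  intro X _
  have : X = ∑ j1, (X j1 / u j0) • fun j => if ∀ i ∈ (Finset.univ : Finset ι), j i = j1 i then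
      u ((Finset.univ : Finset ι).piecewise j0 j) else 0 := by
    funext j
    have h5 : u j0 ≠ 0 := hj0
    simp [Finset.sum_apply, ← funext_iff, h5]
  rw [this]
  exact U.sum_mem fun j1 _ => U.smul_mem _ (h3 j1 _)

/-- A spanning family of tangent spaces of nearly the expected size. -/
theorem exists_spanning_tv [∀ i, Nonempty (κ i)] (L : Finset ι)
    (hpos : 0 < ∑ i ∈ L, (Fintype.card (κ i) - 1)) :
    ∃ g, g ≤ (∏ i, Fintype.card (κ i)) / (∑ i ∈ L, (Fintype.card (κ i) - 1))
        + ∑ i ∈ L, Fintype.card (κ i) ∧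
      ∃ x : Fin g → ∀ i, κ i → ℂ, W (tv L) x Finset.univ = ⊤ := by
  have := exists_spanning (a := tv (κ := κ) L) (tv_differentiable L)
    {γ | ∃ (i : ι) (a b : κ i), γ = act (κ := κ) i (1 + Matrix.single a b 1)} ?_
    (fun U hU h => irreducible U hU fun i a b =>
      h (act i (1 + Matrix.single a b 1)) (Set.mem_ofPred_eq ▸ ⟨i, a, b, rfl⟩))
    (∑ i ∈ L, (Fintype.card (κ i) - 1)) (∑ i ∈ L, Fintype.card (κ i)) hpos ?_ ?_
  · simpa [Module.finrank_pi_fintype] using this
  · rintro _ ⟨i, a, b, rfl⟩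
    have hu : IsUnit (1 + Matrix.single a b (1 : ℂ)) := by
      by_cases hab : a = b
      · subst hab
        refine IsUnit.of_mul_eq_one (1 - (1 / 2 : ℂ) • Matrix.single a a 1) ?_
        simp only [mul_sub, add_mul, mul_one, one_mul, Matrix.mul_smul,
          Matrix.single_mul_single_same]
        module
      · refine IsUnit.of_mul_eq_one (1 - Matrix.single a b 1) ?_
        simp [mul_sub, add_mul, Matrix.single_mul_single_of_ne _ _ _ _ (Ne.symm hab)]
    obtain ⟨g, hg⟩ := hu
    refine ⟨act i g.inv, fun x => update x i (g.inv.mulVec (x i)), ?_, fun x =>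
      ⟨map_act_le _ _ _ _, ?_⟩⟩
    · refine LeftInverse.injective (g := act i g.val) fun X => ?_
      rw [act_mul, g.val_inv, act_one]
    · refine (map_act_le _ _ _ _).trans (le_of_eq ?_)
      beta_reduce
      rw [← hg, update_self, update_idem, Matrix.mulVec_mulVec, g.val_inv, Matrix.one_mulVec,
        update_eq_self]
  · let o : ∀ i, κ i := fun i => Classical.arbitrary _
    refine ⟨fun i => Pi.single (o i) 1, ?_⟩
    let f : (Σ i : L, {a : κ i // a ≠ o i}) → ∀ i, κ i := fun p => update o p.1 p.2.1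
    have hf : Injective f := by
      rintro ⟨⟨i, hiL⟩, a, ha⟩ ⟨⟨i', hiL'⟩, a', ha'⟩ h
      by_cases hi : i = i'
      · subst hi
        have : a = a' := by simpa [f] using congrFun h i
        subst this
        rfl
      · exact absurd (by simpa [f, update_of_ne hi] using congrFun h i) ha
    have hli : LinearIndependent ℂ fun p => (Pi.single (f p) 1 : (∀ i, κ i) → ℂ) :=
      (Pi.linearIndependent_single_one _ ℂ).comp f hf
    have h1 := finrank_span_eq_card hli
    have h2 : Fintype.card (Σ i : L, {a : κ i // a ≠ o i})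
        = ∑ i ∈ L, (Fintype.card (κ i) - 1) := by
      rw [← Finset.sum_coe_sort L]
      simp
    rw [← h2, ← h1]
    refine Submodule.finrank_mono (span_mono ?_)
    rintro _ ⟨⟨⟨i, hiL⟩, a, ha⟩, rfl⟩
    refine ⟨⟨⟨i, hiL⟩, a⟩, ?_⟩
    funext j
    simp only [tv, pure, f]
    by_cases hj : j = update o i a
    · subst hj
      rw [Pi.single_eq_same]
      refine Finset.prod_eq_one fun l _ => ?_
      by_cases hl : l = i
      · subst hl
        simp
      · simp [update_of_ne hl]
    · rw [Pi.single_eq_of_ne hj]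
      obtain ⟨l, hl'⟩ := Function.ne_iff.mp hj
      refine Finset.prod_eq_zero (Finset.mem_univ l) ?_
      by_cases hl : l = i
      · subst hl
        simp only [update_self] at hl' ⊢
        exact Pi.single_eq_of_ne hl' _
      · simp only [update_of_ne hl] at hl' ⊢
        exact Pi.single_eq_of_ne hl' _
  · intro x
    have := finrank_range_le_card (R := ℂ) fun s : Σ i : L, κ i => tv L s x
    rw [Fintype.card_sigma, Finset.sum_coe_sort L fun i => Fintype.card (κ i)] at this
    exact this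

/-- Placing a tensor in the block with label `z`. -/
def blk {H : ι → Type} [∀ i, DecidableEq (H i)] (z : ∀ i, H i) :
    ((∀ i, κ i) → ℂ) →ₗ[ℂ] ((∀ i, κ i × H i) → ℂ) where
  toFun X := fun j => X (fun i => (j i).1) * ∏ i, if (j i).2 = z i then 1 else 0
  map_add' X Y := by
    funext j
    simp [add_mul]
  map_smul' c X := by
    funext j
    simp [mul_assoc]

omit [DecidableEq ι] [∀ i, Fintype (κ i)] [∀ i, DecidableEq (κ i)] in
lemma blk_pure {H : ι → Type} [∀ i, DecidableEq (H i)] (z : ∀ i, H i) (x : ∀ i, κ i → ℂ) :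
    blk z (pure x) = pure fun i (p : κ i × H i) => x i p.1 * if p.2 = z i then 1 else 0 := by
  funext j
  simp only [blk, pure, LinearMap.coe_mk, AddHom.coe_mk, Finset.prod_mul_distrib]

/-- The Kronecker step. -/
theorem kron_step {G : Type} [AddCommGroup G] [Fintype G] [DecidableEq G] {g : ℕ}
    (L : Finset ι) (hL : L.Nonempty) (x : Fin g → ∀ i, κ i → ℂ)
    (hx : W (tv L) x Finset.univ = ⊤) (X : (∀ i, κ i × {c : G // i ∉ L → c = 0}) → ℂ) :
    RankLE X (g * (Fintype.card G ^ (L.card - 1) + Fintype.card G)) := by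
  classical
  obtain ⟨i0, hi0⟩ := hL
  have : Nonempty ι := ⟨i0⟩
  let x' : Fin g × {z : ∀ i, {c : G // i ∉ L → c = 0} // ∑ i, (z i).1 = 0} →
      ∀ i, κ i × {c : G // i ∉ L → c = 0} → ℂ :=
    fun q i p => x q.1 i p.1 * if p.2 = q.2.1 i then 1 else 0
  have hx' : W (tv L) x' Finset.univ = ⊤ := by
    have h1 : ∀ (z : ∀ i, {c : G // i ∉ L → c = 0}) (Y : (∀ i, κ i) → ℂ),
        blk z Y ∈ W (tv L) x' Finset.univ := by
      intro z Y
      have : W (tv L) x Finset.univ ≤ (W (tv L) x' Finset.univ).comap (blk z) := by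
        rw [W_le_iff]
        intro k _
        conv_lhs => unfold T
        rw [span_le]
        rintro _ ⟨⟨⟨i, hi⟩, b⟩, rfl⟩
        show blk z (pure _) ∈ W (tv L) x' Finset.univ
        let z' : {z : ∀ i, {c : G // i ∉ L → c = 0} // ∑ i, (z i).1 = 0} :=
          ⟨update z i ⟨-∑ l ∈ Finset.univ.erase i, (z l).1, fun h => absurd hi h⟩, by
            rw [← Finset.add_sum_erase _ (fun l => (update z i _ l).1) (Finset.mem_univ i),
              update_self, neg_add_eq_zero]
            exact Finset.sum_congr rfl fun l hl => by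
              rw [update_of_ne (Finset.ne_of_mem_erase hl)]⟩
        refine T_le_W (tv L) x' (Finset.mem_univ (k, z')) ?_
        have := pure_update_mem (x' (k, z')) hi
          (fun p => (Pi.single b 1 : κ i → ℂ) p.1 * if p.2 = z i then 1 else 0)
        rw [blk_pure]
        convert this using 2
        funext l
        by_cases hl : l = i
        · subst hl
          simp
        · simp [update_of_ne hl, x', z']
      exact this (hx ▸ Submodule.mem_top)
    rw [← top_le_iff]
    intro Y _
    have : Y = ∑ z : ∀ i, {c : G // i ∉ L → c = 0}, blk z fun j => Y fun i => (j i, z i) := by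
      funext j
      simp only [Finset.sum_apply, blk, LinearMap.coe_mk, AddHom.coe_mk]
      rw [Finset.sum_eq_single fun i => (j i).2]
      · simp
      · intro z _ hz
        obtain ⟨l, hl⟩ := Function.ne_iff.mp hz
        rw [Finset.prod_eq_zero (Finset.mem_univ l) (if_neg (Ne.symm hl)), mul_zero]
      · simp
    rw [this]
    exact Submodule.sum_mem _ fun z _ => h1 z _
  have hr : RankLE (∑ q, pure (x' q)) (g * Fintype.card G) := by
    have := (rankLE_of_fintype
      fun (q : Fin g × AddChar G ℂ) i (p : κ i × {c : G // i ∉ L → c = 0}) =>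
        x q.1 i p.1 * q.2 p.2.1).smul (Fintype.card G : ℂ)⁻¹
    rw [Fintype.card_prod, Fintype.card_fin, AddChar.card_eq] at this
    convert this using 1
    funext j
    simp only [Fintype.sum_prod_type, Finset.sum_apply, Pi.smul_apply, smul_eq_mul, pure, x',
      Finset.prod_mul_distrib, Finset.mul_sum]
    refine Finset.sum_congr rfl fun k _ => ?_
    have e1 : ∀ ψ : AddChar G ℂ, ∏ i, ψ (j i).2.1 = ψ (∑ i, (j i).2.1) := fun ψ => by
      have := map_prod ψ.toMonoidHom (fun i => Multiplicative.ofAdd (j i).2.1) Finset.univ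
      simpa [← ofAdd_sum] using this.symm
    have e2 : (Fintype.card G : ℂ) ≠ 0 := by exact_mod_cast Fintype.card_ne_zero
    simp only [e1, ← Finset.mul_sum, AddChar.sum_apply_eq_ite]
    by_cases hs : ∑ i, (j i).2.1 = 0
    · rw [if_pos hs, Finset.sum_eq_single ⟨fun i => (j i).2, hs⟩]
      · simp only [if_true, Finset.prod_const_one]
        field_simp
      · intro z _ hz
        have : z.1 ≠ fun i => (j i).2 := fun h => hz (Subtype.ext h)
        obtain ⟨l, hl⟩ := Function.ne_iff.mp this
        exact Finset.prod_eq_zero (Finset.mem_univ l) (if_neg (Ne.symm hl))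
      · simp
    · rw [if_neg hs, Finset.sum_eq_zero]
      · simp
      · intro z _
        have : z.1 ≠ fun i => (j i).2 := fun h => hs (by simpa [h] using z.2)
        obtain ⟨l, hl⟩ := Function.ne_iff.mp this
        exact Finset.prod_eq_zero (Finset.mem_univ l) (if_neg (Ne.symm hl))
  refine (rankLE_of_spanning x' hx' hr X).mono ?_
  rw [mul_add, Fintype.card_prod, Fintype.card_fin]
  refine add_le_add_left (Nat.mul_le_mul_left _ ?_) _
  have h2 : Fintype.card (L.erase i0 → G) = Fintype.card G ^ (L.card - 1) := by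
    rw [Fintype.card_fun, Fintype.card_coe, Finset.card_erase_of_mem hi0]
  rw [← h2]
  refine Fintype.card_le_of_injective (fun z l => (z.1 l.1).1) ?_
  rintro ⟨z, hz⟩ ⟨z', hz'⟩ h
  have h3 : ∀ l, l ≠ i0 → (z l).1 = (z' l).1 := by
    intro l hl
    by_cases hlL : l ∈ L
    · exact congrFun h ⟨l, Finset.mem_erase.mpr ⟨hl, hlL⟩⟩
    · rw [(z l).2 hlL, (z' l).2 hlL]
  ext l
  by_cases hl : l = i0
  · subst hl
    rw [← Finset.add_sum_erase _ _ (Finset.mem_univ l)] at hz hz'
    rw [Finset.sum_congr rfl fun m hm => h3 m (Finset.ne_of_mem_erase hm)] at hz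
    exact add_right_cancel (hz.trans hz'.symm)
  · exact h3 l hl

/-- The main inequality. -/
theorem core (L : Finset ι) (n t : ι → ℕ) (s : ℕ) (hn : ∀ i, 0 < n i)
    (hnt : ∀ i ∈ L, n i ≤ t i * s) (hnt' : ∀ i ∉ L, n i ≤ t i)
    (hpos : 0 < ∑ i ∈ L, (t i - 1)) (X : (∀ i, Fin (n i)) → ℂ) :
    RankLE X (((∏ i, t i) / (∑ i ∈ L, (t i - 1)) + ∑ i ∈ L, t i) * (s ^ (L.card - 1) + s)) := by
  have hL : L.Nonempty := Finset.nonempty_of_sum_ne_zero hpos.ne'
  obtain ⟨i0, hi0⟩ := id hL
  have : Nonempty ι := ⟨i0⟩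
  have hs : 0 < s := Nat.pos_of_mul_pos_left ((hn i0).trans_le (hnt i0 hi0))
  have : NeZero s := ⟨hs.ne'⟩
  have : ∀ i, Nonempty (Fin (t i)) := fun i => by
    refine ⟨⟨0, ?_⟩⟩
    by_cases hi : i ∈ L
    · exact Nat.pos_of_mul_pos_right ((hn i).trans_le (hnt i hi))
    · exact (hn i).trans_le (hnt' i hi)
  have : ∀ i, Nonempty (Fin (n i)) := fun i => ⟨⟨0, hn i⟩⟩
  obtain ⟨g, hg, x, hx⟩ := exists_spanning_tv (κ := fun i => Fin (t i)) L (by simpa using hpos)
  have h1 := kron_step (G := ZMod s) L hL x hx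
  have h2 : ∀ i, Nonempty (Fin (n i) ↪ Fin (t i) × {c : ZMod s // i ∉ L → c = 0}) := by
    intro i
    refine Function.Embedding.nonempty_of_card_le ?_
    by_cases hi : i ∈ L
    · simpa [hi] using hnt i hi
    · simpa [hi] using hnt' i hi
  let f : ∀ i, Fin (n i) ↪ Fin (t i) × {c : ZMod s // i ∉ L → c = 0} := fun i => (h2 i).some
  refine (rankLE_restrict (fun i => f i) (fun i => invFun (f i))
    (fun i a => leftInverse_invFun (f i).injective a) h1 X).mono ?_
  rw [ZMod.card]
  exact Nat.mul_le_mul_right _ (by simpa using hg)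

end Pool.Agent.P.MP_098a67_ag
end
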