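import Mathlib

-- part Pool.Agent.P.MP_098a67_ag.T3.Co
section

namespace Pool.Agent.P.MP_098a67_ag.T3

open Module

/-- A complex vector space with chosen coordinates. -/
class Co (V : Type) [AddCommGroup V] [Module ℂ V] where
  ι : Type
  fin : Fintype ι
  e : V ≃ₗ[ℂ] (ι → ℂ)

noncomputable instance coC : Co ℂ where
  ι := Unit
  fin := inferInstance
  e :=
    { toFun := fun z _ => z
      invFun := fun g => g ()
      map_add' := fun _ _ => rfl
      map_smul' := fun _ _ => rfl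
      left_inv := fun _ => rfl
      right_inv := fun _ => rfl }

noncomputable instance coProd (V W : Type) [AddCommGroup V] [Module ℂ V] [AddCommGroup W]
    [Module ℂ W] [a : Co V] [b : Co W] : Co (V × W) where
  ι := a.ι ⊕ b.ι
  fin := @instFintypeSum _ _ a.fin b.fin
  e :=
    { toFun := fun x => Sum.elim (a.e x.1) (b.e x.2)
      invFun := fun g => (a.e.symm (fun i => g (Sum.inl i)), b.e.symm (fun i => g (Sum.inr i)))
      map_add' := fun x y => by ext i; cases i <;> simp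
      map_smul' := fun c x => by ext i; cases i <;> simp
      left_inv := fun x => by simp
      right_inv := fun g => by ext i; cases i <;> simp }

noncomputable instance coPi (κ V : Type) [k : Fintype κ] [AddCommGroup V] [Module ℂ V] [a : Co V] :
    Co (κ → V) where
  ι := κ × a.ι
  fin := @instFintypeProd _ _ k a.fin
  e :=
    { toFun := fun x p => a.e (x p.1) p.2
      invFun := fun g j => a.e.symm (fun i => g (j, i))
      map_add' := fun x y => by ext i; simp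
      map_smul' := fun c x => by ext i; simp
      left_inv := fun x => by ext j; simp
      right_inv := fun g => by ext i; simp }

variable {V W X : Type} [AddCommGroup V] [Module ℂ V] [Co V] [AddCommGroup W] [Module ℂ W] [Co W]
  [AddCommGroup X] [Module ℂ X] [Co X]

instance coFin : Fintype (Co.ι V) := Co.fin

instance coFinite : Module.Finite ℂ V := Module.Finite.equiv (Co.e (V := V)).symm

/-- Apply an additive map to all coordinates. -/
noncomputable def act (π : ℂ →+ ℂ) : V →+ V where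
  toFun v := Co.e.symm fun i => π (Co.e v i)
  map_zero' := by
    apply (Co.e (V := V)).injective
    ext i
    simp
  map_add' x y := by
    apply (Co.e (V := V)).injective
    ext i
    simp

theorem e_act (π : ℂ →+ ℂ) (v : V) (i : Co.ι V) : Co.e (act π v) i = π (Co.e v i) := by
  simp [act]

theorem act_C (π : ℂ →+ ℂ) (z : ℂ) : act π z = π z := rfl

theorem act_prod (π : ℂ →+ ℂ) (x : V × W) : act π x = (act π x.1, act π x.2) := rfl

theorem act_pi {κ : Type} [Fintype κ] (π : ℂ →+ ℂ) (x : κ → V) (j : κ) :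
    act π x j = act π (x j) := rfl

def EL (E : Subfield ℂ) (π : ℂ →+ ℂ) : Prop := ∀ a ∈ E, ∀ z, π (a * z) = a * π z

def RV (E : Subfield ℂ) (v : V) : Prop := ∀ i, Co.e v i ∈ E

def RM (E : Subfield ℂ) (f : V →ₗ[ℂ] W) : Prop :=
  ∀ π, EL E π → ∀ v, act π (f v) = f (act π v)

def RS (E : Subfield ℂ) (S : Submodule ℂ V) : Prop := ∀ π, EL E π → ∀ v ∈ S, act π v ∈ S

variable {E E' : Subfield ℂ}

theorem EL.mono (h : E ≤ E') {π : ℂ →+ ℂ} (hπ : EL E' π) : EL E π := fun a ha => hπ a (h ha)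

theorem RV.mono {v : V} (hv : RV E v) (h : E ≤ E') : RV E' v := fun i => h (hv i)

theorem RM.mono {f : V →ₗ[ℂ] W} (hf : RM E f) (h : E ≤ E') : RM E' f :=
  fun π hπ => hf π (hπ.mono h)

theorem RS.mono {S : Submodule ℂ V} (hS : RS E S) (h : E ≤ E') : RS E' S :=
  fun π hπ => hS π (hπ.mono h)

theorem rv_C {z : ℂ} : RV E z ↔ z ∈ E := ⟨fun h => h (), fun h _ => h⟩

theorem rv_prod {x : V × W} : RV E x ↔ RV E x.1 ∧ RV E x.2 :=
  ⟨fun h => ⟨fun i => h (Sum.inl i), fun i => h (Sum.inr i)⟩,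
    fun h i => by cases i with
      | inl i => exact h.1 i
      | inr i => exact h.2 i⟩

theorem RV.fst {x : V × W} (h : RV E x) : RV E x.1 := (rv_prod.1 h).1

theorem RV.snd {x : V × W} (h : RV E x) : RV E x.2 := (rv_prod.1 h).2

theorem RV.mk {v : V} {w : W} (hv : RV E v) (hw : RV E w) : RV E (v, w) := rv_prod.2 ⟨hv, hw⟩

theorem rv_pi {κ : Type} [Fintype κ] {x : κ → V} : RV E x ↔ ∀ j, RV E (x j) :=
  ⟨fun h j i => h (j, i), fun h p => h p.1 p.2⟩

theorem RV.zero : RV E (0 : V) := fun i => by simp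

theorem RV.add {v w : V} (hv : RV E v) (hw : RV E w) : RV E (v + w) := fun i => by
  simpa using add_mem (hv i) (hw i)

theorem RV.neg {v : V} (hv : RV E v) : RV E (-v) := fun i => by
  simpa using hv i

theorem RV.sub {v w : V} (hv : RV E v) (hw : RV E w) : RV E (v - w) := fun i => by
  simpa using sub_mem (hv i) (hw i)

theorem RV.smul {a : ℂ} {v : V} (ha : a ∈ E) (hv : RV E v) : RV E (a • v) := fun i => by
  simpa using mul_mem ha (hv i)

theorem RV.sum {κ : Type} (s : Finset κ) {v : κ → V} (h : ∀ j ∈ s, RV E (v j)) :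
    RV E (∑ j ∈ s, v j) := fun i => by
  simpa using sum_mem fun j hj => h j hj i

theorem act_smul {π : ℂ →+ ℂ} (hπ : EL E π) {a : ℂ} (ha : a ∈ E) (v : V) :
    act π (a • v) = a • act π v := by
  apply (Co.e (V := V)).injective
  ext i
  simp [e_act, hπ a ha]

theorem act_smul_rv {π : ℂ →+ ℂ} (hπ : EL E π) (z : ℂ) {v : V} (hv : RV E v) :
    act π (z • v) = π z • v := by
  apply (Co.e (V := V)).injective
  ext i
  simp only [e_act, map_smul, Pi.smul_apply, smul_eq_mul]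
  rw [mul_comm z, hπ _ (hv i), mul_comm]

theorem RV.act_eq {π : ℂ →+ ℂ} (hπ : EL E π) {v : V} (hv : RV E v) : act π v = π 1 • v := by
  rw [← act_smul_rv hπ 1 hv, one_smul]

theorem exists_pi0 (E : Subfield ℂ) : ∃ π : ℂ →+ ℂ, EL E π ∧ π 1 = 1 ∧ ∀ z, π z ∈ E := by
  obtain ⟨g, hg⟩ := (Algebra.linearMap E ℂ).exists_leftInverse_of_injective
    (LinearMap.ker_eq_bot.2 Subtype.val_injective)
  refine ⟨((Algebra.linearMap E ℂ).comp g).toAddMonoidHom, fun a ha z => ?_, ?_,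
    fun z => (g z).2⟩
  · have := g.map_smul (⟨a, ha⟩ : E) z
    have h2 : ((⟨a, ha⟩ : E) • z : ℂ) = a * z := rfl
    rw [h2] at this
    show ((g (a * z) : E) : ℂ) = a * (g z : E)
    rw [this]
    rfl
  · have := LinearMap.congr_fun hg 1
    have h2 : g 1 = 1 := by simpa using this
    show ((g 1 : E) : ℂ) = 1
    rw [h2]
    rfl

theorem rv_act {π : ℂ →+ ℂ} (h : ∀ z, π z ∈ E) (v : V) : RV E (act π v) := fun i => by
  rw [e_act]; exact h _

theorem RM.rv {f : V →ₗ[ℂ] W} (hf : RM E f) {v : V} (hv : RV E v) : RV E (f v) := by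
  obtain ⟨π, h1, h2, h3⟩ := exists_pi0 E
  have : act π (f v) = f v := by rw [hf π h1, hv.act_eq h1, h2, one_smul]
  rw [← this]
  exact rv_act h3 _

/-- A rational injective map reflects rationality. -/
theorem RM.rv_of_inj {f : V →ₗ[ℂ] W} (hf : RM E f) (hi : Function.Injective f) {v : V}
    (hv : RV E (f v)) : RV E v := by
  obtain ⟨π, h1, h2, h3⟩ := exists_pi0 E
  have : act π v = v := by
    apply hi
    rw [← hf π h1, hv.act_eq h1, h2, one_smul]
  rw [← this]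
  exact rv_act h3 _

theorem RM.id : RM E (LinearMap.id : V →ₗ[ℂ] V) := fun _ _ _ => rfl

theorem RM.zero : RM E (0 : V →ₗ[ℂ] W) := fun _ _ _ => by simp

theorem RM.comp {g : W →ₗ[ℂ] X} {f : V →ₗ[ℂ] W} (hg : RM E g) (hf : RM E f) : RM E (g ∘ₗ f) :=
  fun π hπ v => by simp only [LinearMap.comp_apply]; rw [hg π hπ, hf π hπ]

theorem RM.add {f g : V →ₗ[ℂ] W} (hf : RM E f) (hg : RM E g) : RM E (f + g) :=
  fun π hπ v => by simp only [LinearMap.add_apply, map_add]; rw [hg π hπ, hf π hπ]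

theorem RM.neg {f : V →ₗ[ℂ] W} (hf : RM E f) : RM E (-f) :=
  fun π hπ v => by simp only [LinearMap.neg_apply, map_neg]; rw [hf π hπ]

theorem RM.sub {f g : V →ₗ[ℂ] W} (hf : RM E f) (hg : RM E g) : RM E (f - g) :=
  fun π hπ v => by simp only [LinearMap.sub_apply, map_sub]; rw [hg π hπ, hf π hπ]

theorem RM.smul {a : ℂ} (ha : a ∈ E) {f : V →ₗ[ℂ] W} (hf : RM E f) : RM E (a • f) :=
  fun π hπ v => by simp only [LinearMap.smul_apply]; rw [act_smul hπ ha, hf π hπ]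

theorem RM.fst : RM E (LinearMap.fst ℂ V W) := fun _ _ _ => rfl

theorem RM.snd : RM E (LinearMap.snd ℂ V W) := fun _ _ _ => rfl

theorem RM.inl : RM E (LinearMap.inl ℂ V W) := fun π _ v => by simp [act_prod]

theorem RM.inr : RM E (LinearMap.inr ℂ V W) := fun π _ v => by simp [act_prod]

theorem RM.prod {f : V →ₗ[ℂ] W} {g : V →ₗ[ℂ] X} (hf : RM E f) (hg : RM E g) : RM E (f.prod g) :=
  fun π hπ v => Prod.ext (hf π hπ v) (hg π hπ v)

theorem RM.coprod {f : V →ₗ[ℂ] X} {g : W →ₗ[ℂ] X} (hf : RM E f) (hg : RM E g) :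
    RM E (f.coprod g) :=
  fun π hπ v => by
    simp only [LinearMap.coprod_apply, act_prod, map_add]; rw [hg π hπ, hf π hπ]

theorem RS.top : RS E (⊤ : Submodule ℂ V) := fun _ _ _ _ => trivial

theorem RS.bot : RS E (⊥ : Submodule ℂ V) := fun π _ v hv => by
  rw [Submodule.mem_bot] at hv ⊢
  simp [hv]

theorem RS.inf {S T : Submodule ℂ V} (hS : RS E S) (hT : RS E T) : RS E (S ⊓ T) :=
  fun π hπ v hv => ⟨hS π hπ v hv.1, hT π hπ v hv.2⟩

theorem RS.sup {S T : Submodule ℂ V} (hS : RS E S) (hT : RS E T) : RS E (S ⊔ T) :=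
  fun π hπ v hv => by
    obtain ⟨a, ha, b, hb, rfl⟩ := Submodule.mem_sup.1 hv
    rw [map_add]
    exact Submodule.add_mem_sup (hS π hπ a ha) (hT π hπ b hb)

theorem RS.comap {f : V →ₗ[ℂ] W} {S : Submodule ℂ W} (hf : RM E f) (hS : RS E S) :
    RS E (S.comap f) := fun π hπ v hv => by
  rw [Submodule.mem_comap, ← hf π hπ]
  exact hS π hπ _ hv

theorem RS.map {f : V →ₗ[ℂ] W} {S : Submodule ℂ V} (hf : RM E f) (hS : RS E S) :
    RS E (S.map f) := fun π hπ v hv => by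
  obtain ⟨a, ha, rfl⟩ := hv
  rw [hf π hπ]
  exact ⟨_, hS π hπ a ha, rfl⟩

theorem RS.ker {f : V →ₗ[ℂ] W} (hf : RM E f) : RS E (LinearMap.ker f) := RS.comap hf RS.bot

theorem RS.range {f : V →ₗ[ℂ] W} (hf : RM E f) : RS E (LinearMap.range f) := by
  rw [LinearMap.range_eq_map]; exact RS.map hf RS.top

theorem RS.prod {S : Submodule ℂ V} {T : Submodule ℂ W} (hS : RS E S) (hT : RS E T) :
    RS E (S.prod T) := fun π hπ v hv => ⟨hS π hπ _ hv.1, hT π hπ _ hv.2⟩

theorem RS.span_single {v : V} (hv : RV E v) : RS E (ℂ ∙ v) := fun π hπ w hw => by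
  obtain ⟨a, rfl⟩ := Submodule.mem_span_singleton.1 hw
  rw [act_smul_rv hπ a hv]
  exact Submodule.smul_mem _ _ (Submodule.mem_span_singleton_self v)

/-- Families of vectors in a subspace. -/
def cols (κ : Type) (S : Submodule ℂ V) : Submodule ℂ (κ → V) := Submodule.pi Set.univ fun _ => S

theorem mem_cols {κ : Type} {S : Submodule ℂ V} {Φ : κ → V} : Φ ∈ cols κ S ↔ ∀ j, Φ j ∈ S := by
  simp [cols, Submodule.mem_pi]

theorem RS.cols {κ : Type} [Fintype κ] {S : Submodule ℂ V} (hS : RS E S) : RS E (cols κ S) :=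
  fun π hπ v hv => mem_cols.2 fun j => hS π hπ _ (mem_cols.1 hv j)

/-- The linear map with given columns. -/
noncomputable def lin {κ : Type} [Fintype κ] (Φ : κ → V) : (κ → ℂ) →ₗ[ℂ] V :=
  Fintype.linearCombination ℂ Φ

theorem lin_apply {κ : Type} [Fintype κ] (Φ : κ → V) (y : κ → ℂ) : lin Φ y = ∑ j, y j • Φ j := by
  simp [lin, Fintype.linearCombination_apply]

/-- Evaluation of a family of columns at a coefficient vector. -/
noncomputable def ev {κ : Type} [Fintype κ] (y : κ → ℂ) : (κ → V) →ₗ[ℂ] V where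
  toFun Φ := lin Φ y
  map_add' a b := by simp [lin_apply, Finset.sum_add_distrib]
  map_smul' c a := by simp [lin_apply, Finset.smul_sum, smul_comm c]

theorem ev_apply {κ : Type} [Fintype κ] (y : κ → ℂ) (Φ : κ → V) : ev y Φ = lin Φ y := rfl

theorem lin_mem {κ : Type} [Fintype κ] {S : Submodule ℂ V} {Φ : κ → V} (h : Φ ∈ cols κ S)
    (y : κ → ℂ) : lin Φ y ∈ S := by
  rw [lin_apply]
  exact S.sum_mem fun j _ => S.smul_mem _ (mem_cols.1 h j)

theorem RM.lin {κ : Type} [Fintype κ] {Φ : κ → V} (h : RV E Φ) : RM E (lin Φ) := fun π hπ y => by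
  simp only [lin_apply, map_sum]
  exact Finset.sum_congr rfl fun j _ => act_smul_rv hπ _ (rv_pi.1 h j)

theorem RM.ev {κ : Type} [Fintype κ] {y : κ → ℂ} (h : RV E y) :
    RM E (ev y : (κ → V) →ₗ[ℂ] V) := fun π hπ Φ => by
  simp only [ev_apply, lin_apply, map_sum]
  exact Finset.sum_congr rfl fun j _ => act_smul hπ (rv_C.1 (rv_pi.1 h j)) _

/-- A rational subspace is spanned by its rational vectors. -/
theorem RS.le_span {S : Submodule ℂ V} (hS : RS E S) :
    S ≤ Submodule.span ℂ {v | v ∈ S ∧ RV E v} := by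
  classical
  intro v hv
  let b := Basis.ofVectorSpace E ℂ
  let π : Basis.ofVectorSpaceIndex E ℂ → ℂ →+ ℂ := fun α =>
    ((Algebra.linearMap E ℂ).comp (b.coord α)).toAddMonoidHom
  have hπ : ∀ α, EL E (π α) := fun α a ha z => by
    have := (b.coord α).map_smul (⟨a, ha⟩ : E) z
    have h2 : ((⟨a, ha⟩ : E) • z : ℂ) = a * z := rfl
    rw [h2] at this
    show ((b.coord α (a * z) : E) : ℂ) = a * (b.coord α z : E)
    rw [this]
    rfl
  let s := Finset.univ.biUnion fun i : Co.ι V => (b.repr (Co.e v i)).support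
  have key : v = ∑ α ∈ s, b α • act (π α) v := by
    apply (Co.e (V := V)).injective
    ext i
    simp only [map_sum, map_smul, Finset.sum_apply, Pi.smul_apply, e_act, smul_eq_mul]
    have h1 := b.linearCombination_repr (Co.e v i)
    rw [Finsupp.linearCombination_apply, Finsupp.sum_of_support_subset _ (s := s)
      (Finset.subset_biUnion_of_mem (fun i : Co.ι V => (b.repr (Co.e v i)).support)
        (Finset.mem_univ i)) _ (by simp)] at h1
    rw [← h1]
    refine Finset.sum_congr rfl fun α _ => ?_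
    rw [h1]
    exact mul_comm _ _
  rw [key]
  exact Submodule.sum_mem _ fun α _ => Submodule.smul_mem _ _
    (Submodule.subset_span ⟨hS _ (hπ α) v hv, rv_act (fun z => (b.coord α z).2) v⟩)

/-- A rational subspace has a rational basis. -/
theorem RS.basis {S : Submodule ℂ V} (hS : RS E S) :
    ∃ b : Fin (finrank ℂ S) → V, RV E b ∧ Function.Injective (lin b) ∧
      LinearMap.range (lin b) = S := by
  have hsp : Submodule.span ℂ {v | v ∈ S ∧ RV E v} = S :=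
    le_antisymm (Submodule.span_le.2 fun v hv => hv.1) hS.le_span
  obtain ⟨t, ht1, ht2, ht3⟩ := exists_linearIndependent ℂ {v | v ∈ S ∧ RV E v}
  have hfin : Finite t := ht3.finite
  have := Fintype.ofFinite t
  have hc : Fintype.card t = finrank ℂ S := by
    have h1 := finrank_span_eq_card ht3
    rw [Subtype.range_coe, ht2, hsp] at h1
    exact h1.symm
  let q := (Fintype.equivFinOfCardEq hc).symm
  refine ⟨fun j => (q j : V), rv_pi.2 fun j => (ht1 (q j).2).2, ?_, ?_⟩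
  · exact linearIndependent_iff_injective_fintypeLinearCombination.1 (ht3.comp q q.injective)
  · rw [lin, Fintype.range_linearCombination]
    refine Eq.trans ?_ (ht2.trans hsp)
    congr 1
    ext v
    constructor
    · rintro ⟨j, rfl⟩
      exact (q j).2
    · intro hv
      exact ⟨q.symm ⟨v, hv⟩, by simp⟩

end Pool.Agent.P.MP_098a67_ag.T3
end

-- part Pool.Agent.P.MP_098a67_ag.T3.LA
section

namespace Pool.Agent.P.MP_098a67_ag.T3

open Module Submodule

variable {V W X : Type} [AddCommGroup V] [Module ℂ V] [Module.Finite ℂ V]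
  [AddCommGroup W] [Module ℂ W] [Module.Finite ℂ W] [AddCommGroup X] [Module ℂ X]
  [Module.Finite ℂ X]

/-- Dimension of a subspace. -/
noncomputable def dm (S : Submodule ℂ V) : ℕ := finrank ℂ S

theorem dm_mono {S T : Submodule ℂ V} (h : S ≤ T) : dm S ≤ dm T := Submodule.finrank_mono h

theorem dm_bot : dm (⊥ : Submodule ℂ V) = 0 := finrank_bot ℂ V

theorem dm_top : dm (⊤ : Submodule ℂ V) = finrank ℂ V := finrank_top ℂ V

theorem dm_le (S : Submodule ℂ V) : dm S ≤ finrank ℂ V := S.finrank_le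

theorem dm_eq_zero {S : Submodule ℂ V} : dm S = 0 ↔ S = ⊥ := Submodule.finrank_eq_zero

theorem dm_zero {S : Submodule ℂ V} (h : ∀ v ∈ S, v = 0) : dm S = 0 :=
  dm_eq_zero.2 ((Submodule.eq_bot_iff S).2 h)

theorem dm_sup_inf (S T : Submodule ℂ V) : dm (S ⊔ T) + dm (S ⊓ T) = dm S + dm T :=
  Submodule.finrank_sup_add_finrank_inf_eq S T

theorem dm_sup_le (S T : Submodule ℂ V) : dm (S ⊔ T) ≤ dm S + dm T := by
  have := dm_sup_inf S T; omega

theorem dm_sup_eq {S T : Submodule ℂ V} (h : ∀ v ∈ S, v ∈ T → v = 0) :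
    dm (S ⊔ T) = dm S + dm T := by
  have h1 := dm_sup_inf S T
  have h2 : dm (S ⊓ T) = 0 := dm_zero fun v hv => h v hv.1 hv.2
  omega

theorem eq_of_dm_le {S T : Submodule ℂ V} (h : S ≤ T) (hd : dm T ≤ dm S) : S = T :=
  Submodule.eq_of_le_of_finrank_le h hd

theorem eq_top_of_dm {S : Submodule ℂ V} (hd : finrank ℂ V ≤ dm S) : S = ⊤ :=
  eq_of_dm_le le_top (by rw [dm_top]; exact hd)

theorem dm_lt {S T : Submodule ℂ V} (h : S ≤ T) {v : V} (hv : v ∈ T) (hn : v ∉ S) :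
    dm S < dm T :=
  Submodule.finrank_lt_finrank_of_lt (lt_of_le_of_ne h fun e => hn (e ▸ hv))

theorem dm_span_single {v : V} (hv : v ≠ 0) : dm (ℂ ∙ v) = 1 := finrank_span_singleton hv

theorem dm_span_le (v : V) : dm (ℂ ∙ v) ≤ 1 := by
  by_cases hv : v = 0
  · rw [hv, Submodule.span_zero_singleton, dm_bot]; omega
  · exact (dm_span_single hv).le

theorem dm_map_ker (f : V →ₗ[ℂ] W) (S : Submodule ℂ V) :
    dm (S.map f) + dm (S ⊓ LinearMap.ker f) = dm S := by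
  have h := (f.domRestrict S).finrank_range_add_finrank_ker
  rw [LinearMap.range_domRestrict, LinearMap.ker_domRestrict,
    ← Submodule.finrank_map_subtype_eq, Submodule.map_comap_subtype] at h
  exact h

theorem dm_range_ker (f : V →ₗ[ℂ] W) :
    dm (LinearMap.range f) + dm (LinearMap.ker f) = finrank ℂ V :=
  f.finrank_range_add_finrank_ker

theorem dm_map_le (f : V →ₗ[ℂ] W) (S : Submodule ℂ V) : dm (S.map f) ≤ dm S := by
  have := dm_map_ker f S; omega

theorem dm_range_le (f : V →ₗ[ℂ] W) : dm (LinearMap.range f) ≤ finrank ℂ V := by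
  have := dm_range_ker f; omega

theorem dm_le_map_add (f : V →ₗ[ℂ] W) (S : Submodule ℂ V) :
    dm S ≤ dm (S.map f) + dm (LinearMap.ker f) := by
  have h1 := dm_map_ker f S
  have h2 := dm_mono (inf_le_right : S ⊓ LinearMap.ker f ≤ _)
  omega

theorem dm_map_eq {f : V →ₗ[ℂ] W} {S : Submodule ℂ V} (h : ∀ v ∈ S, f v = 0 → v = 0) :
    dm (S.map f) = dm S := by
  have h1 := dm_map_ker f S
  have h2 : dm (S ⊓ LinearMap.ker f) = 0 := dm_zero fun v hv => h v hv.1 hv.2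
  omega

theorem dm_range_eq {f : V →ₗ[ℂ] W} (h : ∀ v, f v = 0 → v = 0) :
    dm (LinearMap.range f) = finrank ℂ V := by
  rw [LinearMap.range_eq_map, dm_map_eq fun v _ => h v, dm_top]

/-- An injection of subspaces. -/
theorem dm_le_of_inj (f : V →ₗ[ℂ] W) {S : Submodule ℂ V} {T : Submodule ℂ W}
    (h1 : ∀ v ∈ S, f v ∈ T) (h2 : ∀ v ∈ S, f v = 0 → v = 0) : dm S ≤ dm T := by
  rw [← dm_map_eq h2]
  exact dm_mono (Submodule.map_le_iff_le_comap.2 h1)

/-- Image plus kernel; the kernel injects into another space. -/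
theorem dm_le_add (f : V →ₗ[ℂ] W) (g : V →ₗ[ℂ] X) {S : Submodule ℂ V} {T : Submodule ℂ W}
    {K : Submodule ℂ X} (h1 : ∀ v ∈ S, f v ∈ T) (h2 : ∀ v ∈ S, f v = 0 → g v ∈ K)
    (h3 : ∀ v ∈ S, f v = 0 → g v = 0 → v = 0) : dm S ≤ dm T + dm K := by
  have a1 := dm_map_ker f S
  have a2 : dm (S.map f) ≤ dm T := dm_mono (Submodule.map_le_iff_le_comap.2 h1)
  have a3 : dm (S ⊓ LinearMap.ker f) ≤ dm K :=
    dm_le_of_inj g (fun v hv => h2 v hv.1 hv.2) fun v hv => h3 v hv.1 hv.2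
  omega

/-- A surjection of subspaces. -/
theorem dm_le_of_surj (f : V →ₗ[ℂ] W) {S : Submodule ℂ V} {T : Submodule ℂ W}
    (h : ∀ w ∈ T, ∃ v ∈ S, f v = w) : dm T ≤ dm S :=
  (dm_mono (show T ≤ S.map f from fun w hw => h w hw)).trans (dm_map_le f S)

theorem dm_comap (f : V →ₗ[ℂ] W) (S : Submodule ℂ V) (D : Submodule ℂ W) :
    dm (S ⊓ D.comap f) + dm (S.map f ⊔ D) = dm S + dm D := by
  have a1 := dm_map_ker f S
  have a2 := dm_map_ker f (S ⊓ D.comap f)
  have a3 := dm_sup_inf (S.map f) D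
  have e1 : (S ⊓ D.comap f).map f = S.map f ⊓ D := by
    apply le_antisymm
    · rintro _ ⟨v, hv, rfl⟩
      exact ⟨⟨v, hv.1, rfl⟩, hv.2⟩
    · rintro _ ⟨⟨v, hv, rfl⟩, h2⟩
      exact ⟨v, ⟨hv, h2⟩, rfl⟩
  have e2 : S ⊓ D.comap f ⊓ LinearMap.ker f = S ⊓ LinearMap.ker f := by
    apply le_antisymm
    · exact fun v hv => ⟨hv.1.1, hv.2⟩
    · refine fun v hv => ⟨⟨hv.1, ?_⟩, hv.2⟩
      have : f v = 0 := hv.2
      show f v ∈ D
      rw [this]; exact D.zero_mem
  rw [e1, e2] at a2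
  omega

theorem dm_comap_top (f : V →ₗ[ℂ] W) (D : Submodule ℂ W) :
    dm (D.comap f) + dm (LinearMap.range f ⊔ D) = finrank ℂ V + dm D := by
  have := dm_comap f ⊤ D
  rwa [top_inf_eq, ← LinearMap.range_eq_map, dm_top] at this

theorem dm_comap_le (f : V →ₗ[ℂ] W) (D : Submodule ℂ W) :
    dm (D.comap f) ≤ dm (LinearMap.ker f) + dm D := by
  have a1 := dm_comap_top f D
  have a2 := dm_range_ker f
  have a3 := dm_mono (le_sup_left : LinearMap.range f ≤ LinearMap.range f ⊔ D)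
  omega

theorem dm_comap_sup_le (f : V →ₗ[ℂ] W) (D G : Submodule ℂ W) :
    dm ((D ⊔ G).comap f) ≤ dm (D.comap f) + dm G := by
  have a1 := dm_comap_top f D
  have a2 := dm_comap_top f (D ⊔ G)
  have a3 := dm_mono (sup_le_sup_left (le_sup_left : D ≤ D ⊔ G) (LinearMap.range f))
  have a4 := dm_sup_le D G
  omega

theorem dm_inf_ge (S T : Submodule ℂ V) : dm S + dm T ≤ finrank ℂ V + dm (S ⊓ T) := by
  have a1 := dm_sup_inf S T
  have a2 := dm_le (S ⊔ T)
  omega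

theorem dm_prod (S : Submodule ℂ V) (T : Submodule ℂ W) : dm (S.prod T) = dm S + dm T := by
  have a1 := dm_map_ker (LinearMap.fst ℂ V W) (S.prod T)
  have e1 : (S.prod T).map (LinearMap.fst ℂ V W) = S := Submodule.prod_map_fst S T
  have e2 : S.prod T ⊓ LinearMap.ker (LinearMap.fst ℂ V W) = T.map (LinearMap.inr ℂ V W) := by
    apply le_antisymm
    · rintro ⟨v, w⟩ ⟨h1, h2⟩
      have : v = 0 := h2
      exact ⟨w, h1.2, by simp [this]⟩
    · rintro _ ⟨w, hw, rfl⟩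
      exact ⟨⟨S.zero_mem, hw⟩, rfl⟩
  rw [e1, e2, dm_map_eq (f := LinearMap.inr ℂ V W) fun v _ h => (Prod.ext_iff.1 h).2] at a1
  exact a1.symm

/-- The image of a bigger space is not much bigger. -/
theorem dm_map_sup_le (f : V →ₗ[ℂ] W) (S : Submodule ℂ V) (D : Submodule ℂ W) :
    dm (LinearMap.range f ⊔ D) + dm S ≤ dm (S.map f ⊔ D) + finrank ℂ V := by
  have a1 := dm_comap f S D
  have a2 := dm_comap_top f D
  have a3 := dm_mono (inf_le_right : S ⊓ D.comap f ≤ _)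
  omega

theorem exists_le_dm (S : Submodule ℂ V) {d : ℕ} (h : d ≤ dm S) :
    ∃ T, T ≤ S ∧ dm T = d := by
  obtain ⟨f, hf⟩ := exists_linearIndependent_of_le_finrank (R := ℂ) (M := S) h
  refine ⟨(Submodule.span ℂ (Set.range f)).map S.subtype, Submodule.map_subtype_le _ _, ?_⟩
  rw [dm, Submodule.finrank_map_subtype_eq, finrank_span_eq_card hf, Fintype.card_fin]

/-- A projection onto `D` killing `Z`. -/
theorem exists_proj {D Z : Submodule ℂ V} (h : ∀ v ∈ D, v ∈ Z → v = 0) :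
    ∃ p : V →ₗ[ℂ] V, (∀ d ∈ D, p d = d) ∧ (∀ z ∈ Z, p z = 0) ∧ ∀ v, p v ∈ D := by
  have hd : Disjoint Z D := Submodule.disjoint_def.2 fun v h1 h2 => h v h2 h1
  obtain ⟨Z', h1, h2⟩ := hd.exists_isCompl
  exact ⟨D.projection Z' h2.symm, fun d hd => Submodule.projection_apply_of_mem_left _ hd,
    fun z hz => (Submodule.projection_apply_eq_zero_iff _).2 (h1 hz),
    fun v => Submodule.projection_apply_mem _ v⟩

/-- A linear map with a given kernel. -/
theorem exists_ker (Z : Submodule ℂ V) : ∃ p : V →ₗ[ℂ] V, LinearMap.ker p = Z := by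
  obtain ⟨D, h⟩ := Z.exists_isCompl
  exact ⟨D.projection Z h.symm, Submodule.ker_projection _⟩

/-- A relative complement. -/
theorem exists_compl_in {S T : Submodule ℂ V} (h : S ≤ T) :
    ∃ C, C ≤ T ∧ (∀ v ∈ S, v ∈ C → v = 0) ∧ S ⊔ C = T := by
  obtain ⟨D, hD⟩ := S.exists_isCompl
  refine ⟨D ⊓ T, inf_le_right, fun v h1 h2 => Submodule.disjoint_def.1 hD.disjoint v h1 h2.1, ?_⟩
  rw [← sup_inf_assoc_of_le D h, hD.sup_eq_top, top_inf_eq]

/-- A generalized inverse. -/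
theorem exists_ginv (f : V →ₗ[ℂ] W) : ∃ σ : W →ₗ[ℂ] V, ∀ v, f (σ (f v)) = f v := by
  obtain ⟨p, h1, _, h3⟩ := exists_proj (D := LinearMap.range f) (Z := ⊥) fun _ _ h => h
  obtain ⟨g, hg⟩ := f.rangeRestrict.exists_rightInverse_of_surjective f.range_rangeRestrict
  refine ⟨g ∘ₗ p.codRestrict _ h3, fun v => ?_⟩
  have := congrArg Subtype.val (LinearMap.congr_fun hg (p.codRestrict _ h3 (f v)))
  simp only [LinearMap.comp_apply, LinearMap.id_apply, LinearMap.codRestrict_apply,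
    LinearMap.rangeRestrict] at this ⊢
  rw [this, h1 _ ⟨v, rfl⟩]

/-- A functional separating a vector from a subspace. -/
theorem exists_fun {Z : Submodule ℂ V} {v : V} (h : v ∉ Z) :
    ∃ φ : V →ₗ[ℂ] ℂ, φ v = 1 ∧ ∀ z ∈ Z, φ z = 0 := by
  obtain ⟨φ, h1, h2⟩ := Z.exists_dual_map_eq_bot_of_notMem h inferInstance
  refine ⟨(φ v)⁻¹ • φ, by simp [h1], fun z hz => ?_⟩
  have : φ z ∈ Z.map φ := ⟨z, hz, rfl⟩
  rw [h2, Submodule.mem_bot] at this
  simp [this]

section Perp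

variable {m n k : Type} [Fintype m] [Fintype n] [Fintype k] [DecidableEq m] [DecidableEq n]
  [DecidableEq k]

/-- The annihilator for the standard bilinear form. -/
def perp (S : Submodule ℂ (n → ℂ)) : Submodule ℂ (n → ℂ) where
  carrier := {ξ | ∀ v ∈ S, ξ ⬝ᵥ v = 0}
  add_mem' ha hb v hv := by rw [add_dotProduct, ha v hv, hb v hv, add_zero]
  zero_mem' v _ := zero_dotProduct v
  smul_mem' c a ha v hv := by rw [smul_dotProduct, ha v hv, smul_zero]

theorem mem_perp {S : Submodule ℂ (n → ℂ)} {ξ : n → ℂ} : ξ ∈ perp S ↔ ∀ v ∈ S, ξ ⬝ᵥ v = 0 :=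
  Iff.rfl

theorem dm_perp (S : Submodule ℂ (n → ℂ)) : dm S + dm (perp S) = Fintype.card n := by
  have e : perp S = S.dualAnnihilator.comap (dotProductEquiv ℂ n).toLinearMap := by
    ext ξ
    simp [mem_perp, Submodule.mem_dualAnnihilator]
  have h := Subspace.finrank_add_finrank_dualAnnihilator_eq S
  rw [Module.finrank_fintype_fun_eq_card] at h
  rw [e, dm, dm, ← h, Submodule.comap_equiv_eq_map_symm, LinearEquiv.finrank_map_eq]

theorem perp_anti {S T : Submodule ℂ (n → ℂ)} (h : S ≤ T) : perp T ≤ perp S :=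
  fun _ hξ v hv => hξ v (h hv)

theorem le_perp_perp (S : Submodule ℂ (n → ℂ)) : S ≤ perp (perp S) :=
  fun v hv ξ hξ => by rw [dotProduct_comm]; exact hξ v hv

theorem perp_perp (S : Submodule ℂ (n → ℂ)) : perp (perp S) = S := by
  refine (eq_of_dm_le (le_perp_perp S) ?_).symm
  have a1 := dm_perp S
  have a2 := dm_perp (perp S)
  omega

theorem perp_sup (S T : Submodule ℂ (n → ℂ)) : perp (S ⊔ T) = perp S ⊓ perp T := by
  apply le_antisymm (le_inf (perp_anti le_sup_left) (perp_anti le_sup_right))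
  intro ξ hξ v hv
  obtain ⟨a, ha, b, hb, rfl⟩ := Submodule.mem_sup.1 hv
  rw [dotProduct_add, hξ.1 a ha, hξ.2 b hb, add_zero]

theorem perp_inf (S T : Submodule ℂ (n → ℂ)) : perp (S ⊓ T) = perp S ⊔ perp T := by
  rw [← perp_perp (perp S ⊔ perp T), perp_sup, perp_perp, perp_perp]

theorem eq_top_of_perp {S : Submodule ℂ (n → ℂ)} (h : ∀ ξ ∈ perp S, ξ = 0) : S = ⊤ := by
  apply eq_top_of_dm
  have a1 := dm_perp S
  have a2 := dm_zero h
  rw [Module.finrank_fintype_fun_eq_card]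
  omega

theorem le_of_perp {S T : Submodule ℂ (n → ℂ)} (h : perp T ≤ perp S) : S ≤ T := by
  rw [← perp_perp S, ← perp_perp T]; exact perp_anti h

/-- The transpose of a linear map. -/
noncomputable def tr (f : (n → ℂ) →ₗ[ℂ] (m → ℂ)) : (m → ℂ) →ₗ[ℂ] (n → ℂ) :=
  Matrix.toLin' (LinearMap.toMatrix' f).transpose

theorem tr_dot (f : (n → ℂ) →ₗ[ℂ] (m → ℂ)) (ξ : m → ℂ) (v : n → ℂ) :
    tr f ξ ⬝ᵥ v = ξ ⬝ᵥ f v := by
  rw [tr, Matrix.toLin'_apply, Matrix.mulVec_transpose, ← Matrix.dotProduct_mulVec,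
    LinearMap.toMatrix'_mulVec]

theorem eq_of_dot {a b : n → ℂ} (h : ∀ v, a ⬝ᵥ v = b ⬝ᵥ v) : a = b := by
  ext i
  simpa using h (Pi.single i 1)

theorem tr_tr (f : (n → ℂ) →ₗ[ℂ] (m → ℂ)) : tr (tr f) = f := by simp [tr]

theorem tr_add (f g : (n → ℂ) →ₗ[ℂ] (m → ℂ)) : tr (f + g) = tr f + tr g := by
  simp [tr, Matrix.transpose_add]

theorem tr_sub (f g : (n → ℂ) →ₗ[ℂ] (m → ℂ)) : tr (f - g) = tr f - tr g := by
  simp [tr, Matrix.transpose_sub]

theorem tr_smul (c : ℂ) (f : (n → ℂ) →ₗ[ℂ] (m → ℂ)) : tr (c • f) = c • tr f := by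
  simp [tr, Matrix.transpose_smul]

theorem tr_zero : tr (0 : (n → ℂ) →ₗ[ℂ] (m → ℂ)) = 0 := by simp [tr]

theorem tr_id : tr (LinearMap.id : (n → ℂ) →ₗ[ℂ] (n → ℂ)) = LinearMap.id := by simp [tr]

theorem tr_comp (g : (m → ℂ) →ₗ[ℂ] (k → ℂ)) (f : (n → ℂ) →ₗ[ℂ] (m → ℂ)) :
    tr (g ∘ₗ f) = tr f ∘ₗ tr g := by
  refine LinearMap.ext fun ξ => ?_
  apply eq_of_dot
  intro v
  simp only [tr_dot, LinearMap.comp_apply]

theorem perp_map (f : (n → ℂ) →ₗ[ℂ] (m → ℂ)) (S : Submodule ℂ (n → ℂ)) :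
    perp (S.map f) = (perp S).comap (tr f) := by
  ext ξ
  simp only [mem_perp, Submodule.mem_comap, tr_dot]
  constructor
  · exact fun h v hv => h _ ⟨v, hv, rfl⟩
  · rintro h _ ⟨v, hv, rfl⟩
    exact h v hv

theorem perp_range (f : (n → ℂ) →ₗ[ℂ] (m → ℂ)) :
    perp (LinearMap.range f) = LinearMap.ker (tr f) := by
  ext ξ
  simp only [mem_perp, LinearMap.mem_ker]
  constructor
  · intro h
    apply eq_of_dot
    intro v
    rw [tr_dot, h _ ⟨v, rfl⟩, zero_dotProduct]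
  · rintro h _ ⟨v, rfl⟩
    rw [← tr_dot, h, zero_dotProduct]

theorem perp_comap (f : (n → ℂ) →ₗ[ℂ] (m → ℂ)) (D : Submodule ℂ (m → ℂ)) :
    perp (D.comap f) = (perp D).map (tr f) := by
  rw [← perp_perp ((perp D).map (tr f)), perp_map, perp_perp, tr_tr]

theorem dm_range_tr (f : (n → ℂ) →ₗ[ℂ] (m → ℂ)) :
    dm (LinearMap.range (tr f)) = dm (LinearMap.range f) := by
  have a1 := dm_perp (LinearMap.range f)
  have a2 := dm_range_ker (tr f)
  rw [perp_range] at a1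
  rw [Module.finrank_fintype_fun_eq_card] at a2
  omega

theorem dm_ker_tr (f : (n → ℂ) →ₗ[ℂ] (n → ℂ)) :
    dm (LinearMap.ker (tr f)) = dm (LinearMap.ker f) := by
  have a1 := dm_range_tr f
  have a2 := dm_range_ker (tr f)
  have a3 := dm_range_ker f
  omega

theorem dm_range_sup (f g : (n → ℂ) →ₗ[ℂ] (m → ℂ)) :
    dm (LinearMap.range f ⊔ LinearMap.range g) +
      dm (LinearMap.ker (tr f) ⊓ LinearMap.ker (tr g)) = Fintype.card m := by
  rw [← perp_range, ← perp_range, ← perp_sup, dm_perp]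

end Perp

end Pool.Agent.P.MP_098a67_ag.T3
end

-- part Pool.Agent.P.MP_098a67_ag.T3.Gen
section

namespace Pool.Agent.P.MP_098a67_ag.T3

open Module

variable {V W X : Type} [AddCommGroup V] [Module ℂ V] [Co V] [AddCommGroup W] [Module ℂ W] [Co W]
  [AddCommGroup X] [Module ℂ X] [Co X] {E E' E'' : Subfield ℂ}

/-- `E'` lies in an extension of `E` by at most `s` elements. -/
def Ext (E E' : Subfield ℂ) (s : ℕ) : Prop :=
  E ≤ E' ∧ ∃ S : Finset ℂ, S.card ≤ s ∧ E' ≤ Subfield.closure ((E : Set ℂ) ∪ S)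

theorem Ext.le {s : ℕ} (h : Ext E E' s) : E ≤ E' := h.1

theorem Ext.refl (E : Subfield ℂ) : Ext E E 0 :=
  ⟨le_rfl, ∅, le_rfl, fun _ hx => Subfield.subset_closure (Or.inl hx)⟩

theorem Ext.trans {s t : ℕ} (h : Ext E E' s) (h' : Ext E' E'' t) : Ext E E'' (s + t) := by
  classical
  obtain ⟨h1, S, hS, h2⟩ := h
  obtain ⟨h3, T, hT, h4⟩ := h'
  refine ⟨h1.trans h3, S ∪ T, (Finset.card_union_le _ _).trans (by omega), h4.trans ?_⟩
  rw [Subfield.closure_le]
  rintro x (hx | hx)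
  · refine Subfield.closure_mono ?_ (h2 hx)
    exact Set.union_subset_union_right _ (by simp)
  · exact Subfield.subset_closure (Or.inr (by simp [Finset.mem_coe.1 hx]))

theorem ext_fun {κ : Type} [Fintype κ] (E : Subfield ℂ) (c : κ → ℂ) :
    ∃ E', Ext E E' (Fintype.card κ) ∧ ∀ j, c j ∈ E' := by
  classical
  refine ⟨Subfield.closure ((E : Set ℂ) ∪ (Finset.univ.image c : Finset ℂ)),
    ⟨fun x hx => Subfield.subset_closure (Or.inl hx), _, Finset.card_image_le, le_rfl⟩,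
    fun j => Subfield.subset_closure (Or.inr (by simp))⟩

theorem ext1 (E : Subfield ℂ) (a : ℂ) : ∃ E', Ext E E' 1 ∧ a ∈ E' := by
  obtain ⟨E', h1, h2⟩ := ext_fun E fun _ : Unit => a
  exact ⟨E', h1, h2 ()⟩

theorem ext2 (E : Subfield ℂ) (a b : ℂ) : ∃ E', Ext E E' 2 ∧ a ∈ E' ∧ b ∈ E' := by
  obtain ⟨E', h1, h2⟩ := ext_fun E ![a, b]
  exact ⟨E', h1, h2 0, h2 1⟩

theorem ext3 (E : Subfield ℂ) (a b c : ℂ) : ∃ E', Ext E E' 3 ∧ a ∈ E' ∧ b ∈ E' ∧ c ∈ E' := by
  obtain ⟨E', h1, h2⟩ := ext_fun E ![a, b, c]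
  exact ⟨E', h1, h2 0, h2 1, h2 2⟩

theorem ext_vec {κ : Type} [Fintype κ] (E : Subfield ℂ) (y : κ → ℂ) :
    ∃ E', Ext E E' (Fintype.card κ) ∧ RV E' y := by
  obtain ⟨E', h1, h2⟩ := ext_fun E y
  exact ⟨E', h1, rv_pi.2 fun j => rv_C.2 (h2 j)⟩

/-- A point of a rational affine subspace costs at most its dimension. -/
theorem cost {S : Submodule ℂ V} (hS : RS E S) {x x0 : V} (h0 : RV E x0) (h : x - x0 ∈ S) :
    ∃ E', Ext E E' (dm S) ∧ RV E' x := by
  obtain ⟨b, h1, _, h3⟩ := hS.basis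
  rw [← h3] at h
  obtain ⟨c, hc⟩ := h
  obtain ⟨E', e1, e2⟩ := ext_vec E c
  rw [Fintype.card_fin] at e1
  refine ⟨E', e1, ?_⟩
  have : x = lin b c + x0 := by rw [hc]; simp
  rw [this]
  exact ((RM.lin (h1.mono e1.le)).rv e2).add (h0.mono e1.le)

theorem exists_indep (E : Subfield ℂ) (hE : Countable E) (d : ℕ) :
    ∃ c : Fin d → ℂ, ∀ E' s, Ext E E' s → (∀ j, c j ∈ E') → d ≤ s := by
  classical
  obtain ⟨B, hB⟩ := exists_isTranscendenceBasis E ℂ
  have hc : Cardinal.aleph0 < Cardinal.mk ℂ := by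
    rw [Cardinal.mk_complex]; exact Cardinal.aleph0_lt_continuum
  have h1 := IsAlgClosed.cardinal_eq_cardinal_transcendence_basis_of_aleph0_lt' _ hB
    Cardinal.mk_le_aleph0 hc
  have hinf : Infinite B := Cardinal.aleph0_le_mk_iff.1 (h1 ▸ hc.le)
  let j : Fin d ↪ B := Fin.valEmbedding.trans (Infinite.natEmbedding B)
  refine ⟨fun i => j i, fun E' s hs hm => ?_⟩
  obtain ⟨_, S, hS, h2⟩ := hs
  have hind : (AlgebraicIndependent.matroid E ℂ).Indep (Set.range fun i => (j i : ℂ)) := by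
    refine Matroid.Indep.subset (J := B) hB.1 ?_
    rintro _ ⟨i, rfl⟩
    exact (j i).2
  have hsub : (Set.range fun i => (j i : ℂ)) ⊆ (AlgebraicIndependent.matroid E ℂ).closure S := by
    rintro _ ⟨i, rfl⟩
    rw [AlgebraicIndependent.matroid_closure_eq]
    have key : ∀ z ∈ Subfield.closure ((E : Set ℂ) ∪ S),
        z ∈ Subalgebra.algebraicClosure (Algebra.adjoin E (S : Set ℂ)) ℂ := by
      intro z hz
      induction hz using Subfield.closure_induction with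
      | mem x hx =>
        rcases hx with hx | hx
        · exact isAlgebraic_algebraMap (⟨x, (Algebra.adjoin E (S : Set ℂ)).algebraMap_mem
            (⟨x, hx⟩ : E)⟩ : Algebra.adjoin E (S : Set ℂ))
        · exact isAlgebraic_algebraMap
            (⟨x, Algebra.subset_adjoin hx⟩ : Algebra.adjoin E (S : Set ℂ))
      | one => exact one_mem _
      | add x y _ _ hx hy => exact add_mem hx hy
      | neg x _ hx => exact neg_mem hx
      | inv x _ hx => exact IsAlgebraic.inv hx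
      | mul x y _ _ hx hy => exact mul_mem hx hy
    exact key _ (h2 (hm i))
  have h3 := hind.encard_le_eRk_of_subset hsub
  rw [Matroid.eRk_closure_eq] at h3
  have h4 := h3.trans (Matroid.eRk_le_encard _ _)
  have hinj : Function.Injective fun i => (j i : ℂ) := Subtype.val_injective.comp j.injective
  have h5 := hinj.encard_range.trans h4
  rw [Set.encard_coe_eq_coe_finsetCard] at h5
  simp only [ENat.card_eq_coe_fintype_card, Fintype.card_fin, Nat.cast_le] at h5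
  omega

/-- `x` is a generic point of `S`, up to a defect `s`. -/
def GenIn (E : Subfield ℂ) (x : V) (S : Submodule ℂ V) (s : ℕ) : Prop :=
  x ∈ S ∧ RS E S ∧ ∀ E' m, Ext E E' m → RV E' x → dm S ≤ s + m

theorem GenIn.mem {x : V} {S : Submodule ℂ V} {s : ℕ} (h : GenIn E x S s) : x ∈ S := h.1

theorem GenIn.ext {x : V} {S : Submodule ℂ V} {s t : ℕ} (h : GenIn E x S s) (h' : Ext E E' t) :
    GenIn E' x S (s + t) :=
  ⟨h.1, h.2.1.mono h'.le, fun E'' m h1 h2 => by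
    have := h.2.2 E'' _ (h'.trans h1) h2
    omega⟩

/-- Holds for all large enough fields of definition. -/
def Ev (P : Subfield ℂ → Prop) : Prop :=
  ∃ E0 : Subfield ℂ, Countable E0 ∧ ∀ E, E0 ≤ E → P E

theorem countable_closure {s : Set ℂ} (h : s.Countable) : Countable (Subfield.closure s) := by
  have := h.to_subtype
  rw [← Cardinal.mk_le_aleph0_iff]
  exact (Subfield.cardinalMk_closure_le_max s).trans (max_le Cardinal.mk_le_aleph0 le_rfl)

theorem Ev.and {P Q : Subfield ℂ → Prop} (h1 : Ev P) (h2 : Ev Q) : Ev fun E => P E ∧ Q E := by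
  obtain ⟨E1, c1, p1⟩ := h1
  obtain ⟨E2, c2, p2⟩ := h2
  refine ⟨Subfield.closure ((E1 : Set ℂ) ∪ E2), countable_closure
    ((Set.countable_coe_iff.1 c1).union (Set.countable_coe_iff.1 c2)), fun E hE => ⟨p1 E ?_, p2 E ?_⟩⟩
  · exact fun x hx => hE (Subfield.subset_closure (Or.inl hx))
  · exact fun x hx => hE (Subfield.subset_closure (Or.inr hx))

theorem ev_rv (v : V) : Ev fun E => RV E v :=
  ⟨Subfield.closure (Set.range (Co.e v)), countable_closure (Set.countable_range _),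
    fun _ hE i => hE (Subfield.subset_closure ⟨i, rfl⟩)⟩

theorem ev_rm (f : V →ₗ[ℂ] W) : Ev fun E => RM E f := by
  classical
  obtain ⟨E0, c0, p0⟩ := ev_rv fun i : Co.ι V => f (Co.e.symm (Pi.single i 1))
  refine ⟨E0, c0, fun E hE π hπ v => ?_⟩
  have key : ∀ v : V, f v = lin (fun i : Co.ι V => f (Co.e.symm (Pi.single i 1))) (Co.e v) := by
    intro v
    rw [lin_apply]
    simp only [← map_smul, ← map_sum]
    congr 1
    apply (Co.e (V := V)).injective
    ext i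
    simp [Finset.sum_apply, Pi.single_apply]
  rw [key, key (act π v), RM.lin (p0 E hE) π hπ]
  congr 1
  ext i
  rw [e_act]
  rfl

theorem ev_rs (S : Submodule ℂ V) : Ev fun E => RS E S := by
  obtain ⟨p, hp⟩ := exists_ker S
  obtain ⟨E0, c0, p0⟩ := ev_rm p
  exact ⟨E0, c0, fun E hE => hp ▸ RS.ker (p0 E hE)⟩

theorem exists_genIn (S : Submodule ℂ V) {P : Subfield ℂ → Prop} (h : Ev P) :
    ∃ E x, P E ∧ GenIn E x S 0 := by
  obtain ⟨E, c, p⟩ := h.and (ev_rs S)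
  obtain ⟨p1, p2⟩ := p E le_rfl
  obtain ⟨b, h1, h2, h3⟩ := p2.basis
  obtain ⟨y, hy⟩ := exists_indep E c (finrank ℂ S)
  refine ⟨E, lin b y, p1, h3.le ⟨y, rfl⟩, p2, fun E' m e1 e2 => ?_⟩
  have := (RM.lin (h1.mono e1.le)).rv_of_inj h2 e2
  rw [zero_add]
  exact hy E' m e1 fun j => rv_C.1 (rv_pi.1 this j)

/-- A generic point satisfies no rational affine condition of rank above the defect. -/
theorem GenIn.ga {x : V} {S : Submodule ℂ V} {s : ℕ} (h : GenIn E x S s) {L : V →ₗ[ℂ] W}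
    (hL : RM E L) {D : Submodule ℂ W} (hD : RS E D) {ρ : W} (hρ : RV E ρ) (hx : L x - ρ ∈ D)
    {T : Submodule ℂ W} (hT : ∀ w ∈ T, ∃ v ∈ S, L v = w) : dm (T ⊔ D) ≤ dm D + s := by
  obtain ⟨π, h1, h2, h3⟩ := exists_pi0 E
  have a1 : L (act π x) - ρ ∈ D := by
    have := hD π h1 _ hx
    rwa [map_sub, hL π h1, hρ.act_eq h1, h2, one_smul] at this
  have a2 : x - act π x ∈ S ⊓ D.comap L := by
    refine ⟨S.sub_mem h.1 (h.2.1 π h1 x h.1), ?_⟩
    have := D.sub_mem hx a1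
    rw [sub_sub_sub_cancel_right, ← map_sub] at this
    exact this
  obtain ⟨E', e1, e2⟩ := cost (h.2.1.inf (RS.comap hL hD)) (rv_act h3 x) a2
  have a3 := h.2.2 E' _ e1 e2
  have a4 := dm_comap L S D
  have a5 : dm (T ⊔ D) ≤ dm (S.map L ⊔ D) := dm_mono (sup_le_sup_right (fun w hw => hT w hw) D)
  omega

theorem GenIn.ga0 {x : V} {S : Submodule ℂ V} {s : ℕ} (h : GenIn E x S s) {L : V →ₗ[ℂ] W}
    (hL : RM E L) {ρ : W} (hρ : RV E ρ) (hx : L x = ρ)
    {T : Submodule ℂ W} (hT : ∀ w ∈ T, ∃ v ∈ S, L v = w) : dm T ≤ s := by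
  have := h.ga hL RS.bot hρ (by rw [hx, sub_self]; exact Submodule.zero_mem _) hT
  rwa [sup_bot_eq, dm_bot, zero_add] at this

theorem rat_compl_aux {Ω D : Submodule ℂ V} (hΩ : RS E Ω) (hD : D ≤ Ω) (k : ℕ) :
    ∀ C : Submodule ℂ V, RS E C → C ≤ Ω → (∀ v ∈ D, v ∈ C → v = 0) → dm Ω ≤ dm (D ⊔ C) + k →
      ∃ C : Submodule ℂ V, RS E C ∧ C ≤ Ω ∧ (∀ v ∈ D, v ∈ C → v = 0) ∧ D ⊔ C = Ω := by
  induction k with
  | zero => exact fun C h1 h2 h3 h4 => ⟨C, h1, h2, h3, eq_of_dm_le (sup_le hD h2) h4⟩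
  | succ k ih =>
    intro C h1 h2 h3 h4
    by_cases hle : Ω ≤ D ⊔ C
    · exact ⟨C, h1, h2, h3, le_antisymm (sup_le hD h2) hle⟩
    · have : ∃ r, r ∈ Ω ∧ RV E r ∧ r ∉ D ⊔ C := by
        by_contra hc
        refine hle (hΩ.le_span.trans (Submodule.span_le.2 fun r hr => ?_))
        by_contra hn
        exact hc ⟨r, hr.1, hr.2, hn⟩
      obtain ⟨r, r1, r2, r3⟩ := this
      refine ih (C ⊔ ℂ ∙ r) (h1.sup (RS.span_single r2))
        (sup_le h2 ((Submodule.span_singleton_le_iff_mem _ _).2 r1)) (fun v v1 v2 => ?_) ?_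
      · obtain ⟨c, hc, w, hw, rfl⟩ := Submodule.mem_sup.1 v2
        obtain ⟨a, rfl⟩ := Submodule.mem_span_singleton.1 hw
        by_cases ha : a = 0
        · rw [ha, zero_smul, add_zero] at v1 ⊢
          exact h3 c v1 hc
        · exfalso
          apply r3
          have : r = a⁻¹ • ((c + a • r) - c) := by
            rw [add_sub_cancel_left, smul_smul, inv_mul_cancel₀ ha, one_smul]
          rw [this]
          exact Submodule.smul_mem _ _
            (Submodule.sub_mem _ (Submodule.mem_sup_left v1) (Submodule.mem_sup_right hc))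
      · have : dm (D ⊔ C) < dm (D ⊔ (C ⊔ ℂ ∙ r)) :=
          dm_lt (sup_le_sup_left le_sup_left D) (Submodule.mem_sup_right
            (Submodule.mem_sup_right (Submodule.mem_span_singleton_self r))) r3
        omega

/-- A cheap vector of a subspace outside finitely many subspaces. -/
theorem pv {Ω D : Submodule ℂ V} (hΩ : RS E Ω) (hD : D ≤ Ω) {κ : Type} [Finite κ]
    (Z : κ → Submodule ℂ V) (hZ : ∀ i, ¬ D ≤ Z i) :
    ∃ ω ∈ D, (∀ i, ω ∉ Z i) ∧ ∃ E' s, Ext E E' s ∧ s + dm D = dm Ω ∧ RV E' ω := by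
  obtain ⟨C, c1, c2, c3, c4⟩ := rat_compl_aux hΩ hD (dm Ω) ⊥ RS.bot bot_le (fun _ _ h => h)
    (by omega)
  obtain ⟨p, p1, p2, p3⟩ := exists_proj c3
  let Q : Submodule E V :=
    { carrier := {d | d ∈ D ∧ ∃ r, RV E r ∧ d - r ∈ C}
      add_mem' := by
        rintro a b ⟨a1, r, a2, a3⟩ ⟨b1, r', b2, b3⟩
        exact ⟨D.add_mem a1 b1, r + r', a2.add b2, by
          rw [add_sub_add_comm]; exact C.add_mem a3 b3⟩
      zero_mem' := ⟨D.zero_mem, 0, RV.zero, by simp⟩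
      smul_mem' := by
        rintro c a ⟨a1, r, a2, a3⟩
        refine ⟨D.smul_mem (c : ℂ) a1, (c : ℂ) • r, a2.smul c.2, ?_⟩
        have : c • a - (c : ℂ) • r = (c : ℂ) • (a - r) := by rw [smul_sub]; rfl
        rw [this]
        exact C.smul_mem _ a3 }
  have hspan : ∀ T : Submodule ℂ V, (∀ q ∈ Q, q ∈ T) → D ≤ T := by
    intro T hT d hd
    have : Ω ≤ T.comap p := by
      refine hΩ.le_span.trans (Submodule.span_le.2 fun r hr => hT _ ⟨p3 r, r, hr.2, ?_⟩)
      have hr1 := hr.1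
      rw [← c4] at hr1
      obtain ⟨a, ha, b, hb, rfl⟩ := Submodule.mem_sup.1 hr1
      rw [map_add, p1 a ha, p2 b hb, add_zero, sub_add_cancel_left]
      exact C.neg_mem hb
    have h2 : p d ∈ T := this (hD hd)
    rwa [p1 d hd] at h2
  obtain ⟨q, hq⟩ := Submodule.exists_forall_notMem_of_forall_ne_top
    (fun i => ((Z i).restrictScalars E).comap Q.subtype) fun i hi => hZ i (hspan _ fun q hq => by
      have : (⟨q, hq⟩ : Q) ∈ ((Z i).restrictScalars E).comap Q.subtype := by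
        rw [hi]; trivial
      exact this)
  obtain ⟨q1, r, q2, q3⟩ := q.2
  obtain ⟨E', e1, e2⟩ := cost c1 q2 q3
  refine ⟨q, q1, hq, E', _, e1, ?_, e2⟩
  rw [← c4, dm_sup_eq c3, add_comm]

theorem pv1 {Ω D Z : Submodule ℂ V} (hΩ : RS E Ω) (hD : D ≤ Ω) (hZ : ¬ D ≤ Z) :
    ∃ ω ∈ D, ω ∉ Z ∧ ∃ E' s, Ext E E' s ∧ s + dm D = dm Ω ∧ RV E' ω := by
  obtain ⟨ω, h1, h2, h3⟩ := pv hΩ hD (fun _ : Unit => Z) fun _ => hZ
  exact ⟨ω, h1, h2 (), h3⟩

theorem pv2 {Ω D Z Z' : Submodule ℂ V} (hΩ : RS E Ω) (hD : D ≤ Ω) (hZ : ¬ D ≤ Z)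
    (hZ' : ¬ D ≤ Z') :
    ∃ ω ∈ D, ω ∉ Z ∧ ω ∉ Z' ∧ ∃ E' s, Ext E E' s ∧ s + dm D = dm Ω ∧ RV E' ω := by
  obtain ⟨ω, h1, h2, h3⟩ := pv hΩ hD ![Z, Z'] fun i => by fin_cases i <;> assumption
  exact ⟨ω, h1, h2 0, h2 1, h3⟩

/-- A nonzero vector can be rescaled so that it costs one parameter less. -/
theorem pv_norm (E : Subfield ℂ) {v : V} (hv : v ≠ 0) :
    ∃ c : ℂ, c ≠ 0 ∧ ∃ E' s, Ext E E' s ∧ s + 1 = finrank ℂ V ∧ RV E' (c • v) := by
  obtain ⟨ω, h1, h2, E', s, h3, h4, h5⟩ := pv1 (D := ℂ ∙ v) (Z := ⊥) (RS.top (E := E)) le_top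
    fun h => hv (h (Submodule.mem_span_singleton_self v))
  obtain ⟨c, rfl⟩ := Submodule.mem_span_singleton.1 h1
  rw [dm_span_single hv, dm_top] at h4
  exact ⟨c, fun h => h2 (by simp [h]), E', s, h3, h4, h5⟩

theorem RS.exists_le {S : Submodule ℂ V} (hS : RS E S) {d : ℕ} (h : d ≤ dm S) :
    ∃ T, T ≤ S ∧ RS E T ∧ dm T = d := by
  obtain ⟨b, h1, h2, h3⟩ := hS.basis
  have hb : ∀ j, b j ∈ S := fun j => by
    rw [← h3]
    exact ⟨Pi.single j 1, by simp [lin]⟩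
  have hi : LinearIndependent ℂ (b ∘ Fin.castLE h) :=
    (linearIndependent_iff_injective_fintypeLinearCombination.2 h2).comp _ (Fin.castLE_injective h)
  refine ⟨LinearMap.range (lin (b ∘ Fin.castLE h)), ?_,
    RS.range (RM.lin (rv_pi.2 fun j => rv_pi.1 h1 _)), ?_⟩
  · rintro _ ⟨y, rfl⟩
    exact lin_mem (mem_cols.2 fun j => hb _) y
  · rw [dm_range_eq fun v hv => linearIndependent_iff_injective_fintypeLinearCombination.1 hi
      (by rw [map_zero]; exact hv), Module.finrank_fintype_fun_eq_card, Fintype.card_fin]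

/-- Columns with a prescribed value at `y` and vanishing on a subspace. -/
theorem exists_cols {κ : Type} [Fintype κ] {y : κ → ℂ} {Z : Submodule ℂ (κ → ℂ)} (h : y ∉ Z)
    {S : Submodule ℂ V} {w : V} (hw : w ∈ S) :
    ∃ Φ ∈ cols κ S, lin Φ y = w ∧ ∀ z ∈ Z, lin Φ z = 0 := by
  classical
  obtain ⟨φ, h1, h2⟩ := exists_fun h
  have key : ∀ z, lin (fun j => φ (Pi.single j 1) • w) z = φ z • w := by
    intro z
    rw [lin_apply]
    simp only [smul_smul, ← Finset.sum_smul]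
    congr 1
    rw [LinearMap.pi_apply_eq_sum_univ φ z]
    refine Finset.sum_congr rfl fun j _ => ?_
    rw [smul_eq_mul]
    congr 2
    ext i
    simp [Pi.single_apply, eq_comm]
  exact ⟨fun j => φ (Pi.single j 1) • w, mem_cols.2 fun j => S.smul_mem _ hw,
    by rw [key, h1, one_smul], fun z hz => by rw [key, h2 z hz, zero_smul]⟩

theorem exists_cols1 {κ : Type} [Fintype κ] {y : κ → ℂ} (h : y ≠ 0)
    {S : Submodule ℂ V} {w : V} (hw : w ∈ S) : ∃ Φ ∈ cols κ S, lin Φ y = w := by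
  obtain ⟨Φ, h1, h2, _⟩ := exists_cols (Z := ⊥) h hw
  exact ⟨Φ, h1, h2⟩

end Pool.Agent.P.MP_098a67_ag.T3
end

-- part Pool.Agent.P.MP_098a67_ag.T3.GL
section

namespace Pool.Agent.P.MP_098a67_ag.T3

open Module

variable {V W κ : Type} [AddCommGroup V] [Module ℂ V] [Co V] [AddCommGroup W] [Module ℂ W] [Co W]
  [Fintype κ] {E : Subfield ℂ} {Φ : κ → V} {S : Submodule ℂ V} {s : ℕ}

theorem card_fun : finrank ℂ (κ → ℂ) = Fintype.card κ := Module.finrank_fintype_fun_eq_card ℂ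

/-- One rational coefficient vector. -/
theorem g0 (h : GenIn E Φ (cols κ S) s) {f : V →ₗ[ℂ] W} (rf : RM E f) {D : Submodule ℂ W}
    (rD : RS E D) {y : κ → ℂ} (ry : RV E y) (hy : y ≠ 0) {ρ : W} (rρ : RV E ρ)
    (hm : f (lin Φ y) - ρ ∈ D) : dm (S.map f ⊔ D) ≤ dm D + s :=
  h.ga (rf.comp (RM.ev ry)) rD rρ hm (by
    rintro _ ⟨w, hw, rfl⟩
    obtain ⟨Ψ, h1, h2⟩ := exists_cols1 hy hw
    exact ⟨Ψ, h1, by rw [← h2]; rfl⟩)

/-- The coefficient vectors mapped into a rational subspace. -/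
theorem g1 (h : GenIn E Φ (cols κ S) s) {f : V →ₗ[ℂ] W} (rf : RM E f) {D : Submodule ℂ W}
    (rD : RS E D) : dm (D.comap (f ∘ₗ lin Φ)) = 0 ∨
      dm (S.map f ⊔ D) + dm (D.comap (f ∘ₗ lin Φ)) ≤ dm D + s + Fintype.card κ := by
  by_cases h0 : D.comap (f ∘ₗ lin Φ) ≤ ⊥
  · exact Or.inl (dm_zero h0)
  · right
    obtain ⟨y, o1, o2, E1, s1, e1, o3, o4⟩ := pv1 (RS.top (E := E)) le_top h0
    have := g0 (h.ext e1) (rf.mono e1.le) (rD.mono e1.le) o4 o2 RV.zero
      (by rw [sub_zero]; exact o1)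
    rw [dm_top, card_fun] at o3
    omega

theorem g1e (h : GenIn E Φ (cols κ S) s) {f : V →ₗ[ℂ] W} (rf : RM E f) {D : Submodule ℂ W}
    (rD : RS E D) {y : κ → ℂ} (hm : f (lin Φ y) ∈ D)
    (hd : dm D + s + Fintype.card κ ≤ dm (S.map f ⊔ D)) : y = 0 := by
  have : dm (D.comap (f ∘ₗ lin Φ)) = 0 := by
    rcases g1 h rf rD with h1 | h1 <;> omega
  have h2 : y ∈ D.comap (f ∘ₗ lin Φ) := hm
  rwa [dm_eq_zero.1 this] at h2

/-- Two rational coefficient vectors. -/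
theorem g2 (h : GenIn E Φ (cols κ S) s) {f g : V →ₗ[ℂ] W} (rf : RM E f) (rg : RM E g)
    {D : Submodule ℂ W} (rD : RS E D) {y z : κ → ℂ} (ry : RV E y) (rz : RV E z) (hy : y ∉ ℂ ∙ z)
    (hm : f (lin Φ y) + g (lin Φ z) ∈ D) : dm (S.map f ⊔ D) ≤ dm D + s :=
  h.ga ((rf.comp (RM.ev ry)).add (rg.comp (RM.ev rz))) rD RV.zero (by rw [sub_zero]; exact hm) (by
    rintro _ ⟨w, hw, rfl⟩
    obtain ⟨Ψ, h1, h2, h3⟩ := exists_cols hy hw
    refine ⟨Ψ, h1, ?_⟩
    show f (lin Ψ y) + g (lin Ψ z) = f w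
    rw [h2, h3 z (Submodule.mem_span_singleton_self z), map_zero, add_zero])

theorem g2' (h : GenIn E Φ (cols κ S) s) {f g : V →ₗ[ℂ] W} (rf : RM E f) (rg : RM E g)
    {D : Submodule ℂ W} (rD : RS E D) {y z : κ → ℂ} (hm : f (lin Φ y) + g (lin Φ z) ∈ D)
    (hd : dm D + s + 2 * Fintype.card κ < dm (S.map f)) : ∃ a : ℂ, a • z = y := by
  by_contra hy
  obtain ⟨E1, e1, ry⟩ := ext_vec E y
  obtain ⟨E2, e2, rz⟩ := ext_vec E1 z
  have l := e1.le.trans e2.le
  have a1 := g2 ((h.ext e1).ext e2) (rf.mono l) (rg.mono l) (rD.mono l) (ry.mono e2.le) rz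
    (fun hm => hy (Submodule.mem_span_singleton.1 hm)) hm
  have a2 := dm_mono (le_sup_left : S.map f ≤ S.map f ⊔ D)
  omega

/-- Three coefficient vectors. -/
theorem g3' (h : GenIn E Φ (cols κ S) s) {f g k : V →ₗ[ℂ] W} (rf : RM E f) (rg : RM E g)
    (rk : RM E k) {y z u : κ → ℂ} (hm : f (lin Φ y) + g (lin Φ z) + k (lin Φ u) = 0)
    (hd : s + 3 * Fintype.card κ < dm (S.map f)) : ∃ a b : ℂ, a • z + b • u = y := by
  by_contra hy
  obtain ⟨E1, e1, ry⟩ := ext_vec E y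
  obtain ⟨E2, e2, rz⟩ := ext_vec E1 z
  obtain ⟨E3, e3, ru⟩ := ext_vec E2 u
  have l := (e1.le.trans e2.le).trans e3.le
  have a1 := (((h.ext e1).ext e2).ext e3).ga0
    ((((rf.mono l).comp (RM.ev ((ry.mono e2.le).mono e3.le))).add
      ((rg.mono l).comp (RM.ev (rz.mono e3.le)))).add ((rk.mono l).comp (RM.ev ru))) RV.zero hm
    (T := S.map f) (by
      rintro _ ⟨w, hw, rfl⟩
      obtain ⟨Ψ, h1, h2, h3⟩ := exists_cols (y := y) (Z := Submodule.span ℂ {z, u})
        (fun hm => hy (Submodule.mem_span_pair.1 hm)) hw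
      refine ⟨Ψ, h1, ?_⟩
      show f (lin Ψ y) + g (lin Ψ z) + k (lin Ψ u) = f w
      rw [h2, h3 z (Submodule.subset_span (by simp)), h3 u (Submodule.subset_span (by simp)),
        map_zero, map_zero, add_zero, add_zero])
  omega

section Dot

variable {n : Type} [Fintype n] [DecidableEq n]

/-- Pairing of a vector with all columns. -/
noncomputable def pairC (κ : Type) (η : n → ℂ) : (κ → n → ℂ) →ₗ[ℂ] (κ → ℂ) :=
  (dotProductEquiv ℂ n η).compLeft κ

theorem pairC_apply (η : n → ℂ) (Φ : κ → n → ℂ) (j : κ) : pairC κ η Φ j = η ⬝ᵥ Φ j := rfl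

theorem RM.pairC {η : n → ℂ} (h : RV E η) : RM E (pairC κ η) := fun π hπ Φ => by
  ext j
  show π (∑ i, η i * Φ j i) = ∑ i, η i * π (Φ j i)
  rw [map_sum]
  exact Finset.sum_congr rfl fun i _ => hπ _ (rv_C.1 (rv_pi.1 h i)) _

theorem pairC_eq_zero {η : n → ℂ} {Φ : κ → n → ℂ} (h : η ∈ perp (LinearMap.range (lin Φ))) :
    pairC κ η Φ = 0 := by
  classical
  ext j
  exact h _ ⟨Pi.single j 1, by simp [lin]⟩

theorem pairC_surj {η : n → ℂ} {S : Submodule ℂ (n → ℂ)} (h : η ∉ perp S) (z : κ → ℂ) :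
    ∃ Ψ ∈ cols κ S, pairC κ η Ψ = z := by
  have : ∃ w ∈ S, η ⬝ᵥ w ≠ 0 := by
    by_contra hc
    exact h fun w hw => by_contra fun h0 => hc ⟨w, hw, h0⟩
  obtain ⟨w, hw, h0⟩ := this
  refine ⟨fun j => (z j * (η ⬝ᵥ w)⁻¹) • w, mem_cols.2 fun j => S.smul_mem _ hw, ?_⟩
  ext j
  rw [pairC_apply, dotProduct_smul, smul_eq_mul, mul_assoc, inv_mul_cancel₀ h0, mul_one]

/-- A rational vector orthogonal to generic columns. -/
theorem gf0 {Φ : κ → n → ℂ} {S : Submodule ℂ (n → ℂ)} (h : GenIn E Φ (cols κ S) s)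
    {η : n → ℂ} (rη : RV E η) (h1 : η ∉ perp S) (h2 : η ∈ perp (LinearMap.range (lin Φ))) :
    Fintype.card κ ≤ s := by
  have := h.ga0 (RM.pairC rη) RV.zero (pairC_eq_zero h2) (T := ⊤) fun z _ => pairC_surj h1 z
  rwa [dm_top, card_fun] at this

/-- Vectors whose image is orthogonal to generic columns. -/
theorem gf {Φ : κ → n → ℂ} {S : Submodule ℂ (n → ℂ)} (h : GenIn E Φ (cols κ S) s)
    {g : W →ₗ[ℂ] (n → ℂ)} (rg : RM E g) {Ω D : Submodule ℂ W} (rΩ : RS E Ω) (hD : D ≤ Ω)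
    (h2 : ∀ η ∈ D, g η ∈ perp (LinearMap.range (lin Φ))) :
    D ≤ (perp S).comap g ∨ dm D + Fintype.card κ ≤ dm Ω + s := by
  by_cases h0 : D ≤ (perp S).comap g
  · exact Or.inl h0
  · right
    obtain ⟨η, o1, o2, E1, s1, e1, o3, o4⟩ := pv1 rΩ hD h0
    have := gf0 (h.ext e1) ((rg.mono e1.le).rv o4) o2 (h2 η o1)
    omega

theorem perp_top : perp (⊤ : Submodule ℂ (n → ℂ)) = ⊥ :=
  dm_eq_zero.1 (by
    have := dm_perp (⊤ : Submodule ℂ (n → ℂ))
    rw [dm_top, card_fun] at this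
    omega)

end Dot

end Pool.Agent.P.MP_098a67_ag.T3
end

-- part Pool.Agent.P.MP_098a67_ag.T3.Rk
section

namespace Pool.Agent.P.MP_098a67_ag.T3

open Module

section Basic

variable {V W V' W' ι ι' : Type} [AddCommGroup V] [Module ℂ V] [AddCommGroup W] [Module ℂ W]
  [AddCommGroup V'] [Module ℂ V'] [AddCommGroup W'] [Module ℂ W']

/-- A family of linear maps lies in the span of at most `r` maps of rank one. -/
def RK (f : ι → V →ₗ[ℂ] W) (r : ℕ) : Prop :=
  ∃ (s : Type) (_ : Fintype s), Fintype.card s ≤ r ∧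
    ∃ (φ : s → V →ₗ[ℂ] ℂ) (w : s → W) (c : s → ι → ℂ), ∀ k v, f k v = ∑ l, (c l k * φ l v) • w l

theorem RK.mono {f : ι → V →ₗ[ℂ] W} {r r' : ℕ} (h : RK f r) (hr : r ≤ r') : RK f r' := by
  obtain ⟨s, i, h1, h2⟩ := h
  exact ⟨s, i, h1.trans hr, h2⟩

theorem RK.of {f : ι → V →ₗ[ℂ] W} {g : ι' → V' →ₗ[ℂ] W'} {r : ℕ} (h : RK f r) (j : ι' → ι)
    (L : W →ₗ[ℂ] W') (R : V' →ₗ[ℂ] V) (hg : ∀ k v, g k v = L (f (j k) (R v))) : RK g r := by
  obtain ⟨s, i, h1, φ, w, c, h2⟩ := h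
  refine ⟨s, i, h1, fun l => φ l ∘ₗ R, fun l => L (w l), fun l k => c l (j k), fun k v => ?_⟩
  rw [hg, h2]
  simp

theorem RK.re {f : ι → V →ₗ[ℂ] W} {g : ι' → V →ₗ[ℂ] W} {r : ℕ} (h : RK f r) (j : ι' → ι)
    (hg : ∀ k v, g k v = f (j k) v) : RK g r :=
  h.of j LinearMap.id LinearMap.id hg

theorem RK.add {f g u : ι → V →ₗ[ℂ] W} {r r' : ℕ} (h : RK f r) (h' : RK g r')
    (hu : ∀ k v, u k v = f k v + g k v) : RK u (r + r') := by
  obtain ⟨s, i, h1, φ, w, c, h2⟩ := h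
  obtain ⟨s', i', h1', φ', w', c', h2'⟩ := h'
  refine ⟨s ⊕ s', inferInstance, by rw [Fintype.card_sum]; omega, Sum.elim φ φ', Sum.elim w w',
    Sum.elim c c', fun k v => ?_⟩
  rw [hu, h2, h2', Fintype.sum_sum_type]
  rfl

theorem rk_one [Module.Finite ℂ W] (f : V →ₗ[ℂ] W) :
    RK (fun a : ℂ => a • f) (dm (LinearMap.range f)) := by
  let b := Module.finBasis ℂ (LinearMap.range f)
  refine ⟨Fin (finrank ℂ (LinearMap.range f)), inferInstance, by simp [dm],
    fun l => b.coord l ∘ₗ f.rangeRestrict, fun l => b l, fun _ a => a, fun a v => ?_⟩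
  have := congrArg Subtype.val (b.sum_repr (f.rangeRestrict v))
  simp only [Submodule.coe_sum, Submodule.coe_smul, LinearMap.codRestrict_apply,
    LinearMap.rangeRestrict] at this
  simp only [LinearMap.smul_apply, ← smul_smul, ← Finset.smul_sum]
  congr 1
  exact this.symm

/-- Rank of a pencil. -/
def RK2 (P Q : V →ₗ[ℂ] W) (r : ℕ) : Prop := RK (fun p : ℂ × ℂ => p.1 • P + p.2 • Q) r

theorem rk2_of {s : Type} [Fintype s] {P Q : V →ₗ[ℂ] W} (φ : s → V →ₗ[ℂ] ℂ) (w : s → W)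
    (α β : s → ℂ) (hP : ∀ v, P v = ∑ l, (α l * φ l v) • w l)
    (hQ : ∀ v, Q v = ∑ l, (β l * φ l v) • w l) : RK2 P Q (Fintype.card s) := by
  refine ⟨s, inferInstance, le_rfl, φ, w, fun l p => p.1 * α l + p.2 * β l, fun p v => ?_⟩
  simp only [LinearMap.add_apply, LinearMap.smul_apply, hP, hQ, Finset.smul_sum, smul_smul,
    ← Finset.sum_add_distrib, ← add_smul]
  refine Finset.sum_congr rfl fun l _ => ?_
  congr 1
  ring

theorem RK2.of {P Q : V →ₗ[ℂ] W} {P' Q' : V' →ₗ[ℂ] W'} {r : ℕ} (h : RK2 P Q r)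
    (L : W →ₗ[ℂ] W') (R : V' →ₗ[ℂ] V) (hP : ∀ v, P' v = L (P (R v)))
    (hQ : ∀ v, Q' v = L (Q (R v))) : RK2 P' Q' r :=
  RK.of h id L R fun p v => by simp [hP, hQ]

theorem RK2.swap {P Q : V →ₗ[ℂ] W} {r : ℕ} (h : RK2 P Q r) : RK2 Q P r :=
  RK.re h Prod.swap fun p v => by simp [add_comm]

/-- A pencil without Jordan chains is diagonalisable. -/
theorem rk2_diag [Module.Finite ℂ V] [Module.Finite ℂ W] {P Q : V →ₗ[ℂ] W}
    (hd : finrank ℂ V = finrank ℂ W) (hQ : ∀ v, Q v = 0 → v = 0)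
    (hJ : ∀ (μ : ℂ) v w, P v + μ • Q v = 0 → P w + μ • Q w = Q v → v = 0) :
    RK2 P Q (finrank ℂ V) := by
  have hi : Function.Injective Q := LinearMap.ker_eq_bot.1 (LinearMap.ker_eq_bot'.2 hQ)
  let e : V ≃ₗ[ℂ] W := LinearEquiv.ofBijective Q
    ⟨hi, (LinearMap.injective_iff_surjective_of_finrank_eq_finrank hd).1 hi⟩
  let f : Module.End ℂ V := e.symm.toLinearMap ∘ₗ P
  have hf : ∀ v, Q (f v) = P v := fun v => e.apply_symm_apply (P v)
  have h1 : ∀ (μ : ℂ) (k : ℕ) x, ((f - μ • 1) ^ (k + 1)) x = 0 → (f - μ • 1) x = 0 := by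
    intro μ k
    induction k with
    | zero => intro x hx; simpa using hx
    | succ k ih =>
      intro x hx
      rw [pow_succ, Module.End.mul_apply] at hx
      have h2 := ih _ hx
      have h3 : ∀ y, P y + (-μ) • Q y = Q ((f - μ • 1) y) := fun y => by
        simp [hf, sub_eq_add_neg]
      exact hJ (-μ) _ x (by rw [h3, h2, map_zero]) (h3 x)
  have h2 : ⊤ ≤ Submodule.span ℂ {v | ∃ μ : ℂ, f v = μ • v} := by
    rw [← Module.End.iSup_maxGenEigenspace_eq_top f]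
    refine iSup_le fun μ x hx => Submodule.subset_span ⟨μ, ?_⟩
    obtain ⟨k, hk⟩ := (Module.End.mem_maxGenEigenspace f μ x).1 hx
    have := h1 μ k x (by rw [pow_succ', Module.End.mul_apply, hk, map_zero])
    simpa [sub_eq_zero] using this
  obtain ⟨t, ht1, ht2, ht3⟩ := exists_linearIndependent ℂ {v | ∃ μ : ℂ, f v = μ • v}
  have hfin : Finite t := ht3.finite
  have := Fintype.ofFinite t
  let b : Basis t ℂ V := Basis.mk ht3 (by rw [Subtype.range_coe, ht2]; exact h2)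
  choose μ hμ using fun l : t => ht1 l.2
  rw [Module.finrank_eq_card_basis b]
  refine rk2_of (fun l => b.coord l) (fun l => Q (b l)) μ (fun _ => 1) (fun v => ?_) fun v => ?_
  · conv_lhs => rw [← b.sum_repr v]
    rw [map_sum]
    refine Finset.sum_congr rfl fun l _ => ?_
    have : b l = l := Basis.mk_apply _ _ _
    rw [map_smul, ← hf, this, hμ l, map_smul, smul_smul, mul_comm]
    rfl
  · conv_lhs => rw [← b.sum_repr v]
    rw [map_sum]
    refine Finset.sum_congr rfl fun l _ => ?_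
    rw [map_smul, one_mul]
    rfl

end Basic

section Tr

variable {m n ι : Type} [Fintype m] [Fintype n] [DecidableEq m] [DecidableEq n]

theorem RK.tr {f : ι → (n → ℂ) →ₗ[ℂ] (m → ℂ)} {r : ℕ} (h : RK f r) :
    RK (fun k => tr (f k)) r := by
  obtain ⟨s, i, h1, φ, w, c, h2⟩ := h
  refine ⟨s, i, h1, fun l => dotProductEquiv ℂ m (w l), fun l => (dotProductEquiv ℂ n).symm (φ l),
    c, fun k ξ => eq_of_dot fun v => ?_⟩
  rw [tr_dot, h2, dotProduct_sum, sum_dotProduct]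
  refine Finset.sum_congr rfl fun l _ => ?_
  have : (dotProductEquiv ℂ n).symm (φ l) ⬝ᵥ v = φ l v :=
    LinearMap.congr_fun ((dotProductEquiv ℂ n).apply_symm_apply (φ l)) v
  rw [dotProduct_smul, smul_dotProduct, this, smul_eq_mul, smul_eq_mul]
  show _ = c l k * (w l ⬝ᵥ ξ) * _
  rw [dotProduct_comm ξ]
  ring

theorem RK.of_tr {f : ι → (n → ℂ) →ₗ[ℂ] (m → ℂ)} {r : ℕ} (h : RK (fun k => T3.tr (f k)) r) :
    RK f r := by
  have := h.tr
  simpa only [tr_tr] using this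

theorem RK2.of_tr {P Q : (n → ℂ) →ₗ[ℂ] (m → ℂ)} {r : ℕ} (h : RK2 (tr P) (tr Q) r) :
    RK2 P Q r :=
  RK.of_tr (by simpa only [RK2, tr_add, tr_smul] using h)

end Tr

section Border

variable {W : Type} [AddCommGroup W] [Module ℂ W] [Co W] {n : Type} [Fintype n]

theorem two_surj {a b : ℂ} (hab : a ≠ 0 ∨ b ≠ 0) {y : n → ℂ} (hy : y ≠ 0) (w : W) :
    ∃ x : (n → W) × (n → W), a • lin x.1 y + b • lin x.2 y = w := by
  rcases hab with h | h
  · obtain ⟨Φ, _, h2⟩ := exists_cols1 hy (S := ⊤) (w := a⁻¹ • w) trivial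
    refine ⟨(Φ, 0), ?_⟩
    simp [h2, lin_apply, smul_smul, mul_inv_cancel₀ h]
  · obtain ⟨Φ, _, h2⟩ := exists_cols1 hy (S := ⊤) (w := b⁻¹ • w) trivial
    refine ⟨(0, Φ), ?_⟩
    simp [h2, lin_apply, smul_smul, mul_inv_cancel₀ h]

/-- Generic new rows make all members injective. -/
theorem border_rows (P Q : (n → ℂ) →ₗ[ℂ] W) (κ : ℕ)
    (h : ∀ a b : ℂ, a ≠ 0 ∨ b ≠ 0 → dm (LinearMap.ker (a • P + b • Q)) ≤ κ) :
    ∃ C D : (n → ℂ) →ₗ[ℂ] (Fin (κ + 2) → ℂ), ∀ a b : ℂ, a ≠ 0 ∨ b ≠ 0 → ∀ v,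
      a • P v + b • Q v = 0 → a • C v + b • D v = 0 → v = 0 := by
  obtain ⟨E, x, ⟨rP, rQ⟩, hx⟩ := exists_genIn
    (⊤ : Submodule ℂ ((n → Fin (κ + 2) → ℂ) × (n → Fin (κ + 2) → ℂ))) ((ev_rm P).and (ev_rm Q))
  refine ⟨lin x.1, lin x.2, fun a b hab v h1 h2 => ?_⟩
  by_contra hv
  obtain ⟨E1, e1, ha, hb⟩ := ext2 E a b
  obtain ⟨ω, o1, o2, E2, s, e2, o3, o4⟩ := pv1 (D := ℂ ∙ v) (Z := ⊥)
    (RS.ker (((rP.mono e1.le).smul ha).add ((rQ.mono e1.le).smul hb)))
    ((Submodule.span_singleton_le_iff_mem _ _).2 h1)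
    fun h => hv (h (Submodule.mem_span_singleton_self v))
  obtain ⟨c, rfl⟩ := Submodule.mem_span_singleton.1 o1
  have := ((hx.ext e1).ext e2).ga0
    ((((RM.ev o4).comp RM.fst).smul (e2.le ha)).add (((RM.ev o4).comp RM.snd).smul (e2.le hb)))
    RV.zero (T := ⊤) (by
      show a • lin x.1 (c • v) + b • lin x.2 (c • v) = 0
      rw [map_smul, map_smul, smul_comm a, smul_comm b, ← smul_add, h2, smul_zero])
    fun w _ => by
      obtain ⟨z, hz⟩ := two_surj hab o2 w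
      exact ⟨z, trivial, hz⟩
  have h3 := h a b hab
  rw [dm_span_single hv] at o3
  rw [dm_top, Module.finrank_fintype_fun_eq_card, Fintype.card_fin] at this
  omega

/-- Generic new columns make the pencil diagonalisable. -/
theorem border_cols (P Q : (n → ℂ) →ₗ[ℂ] W)
    (h : ∀ a b : ℂ, a ≠ 0 ∨ b ≠ 0 → ∀ v, a • P v + b • Q v = 0 → v = 0) :
    RK2 P Q (finrank ℂ W) := by
  have hle : Fintype.card n ≤ finrank ℂ W := by
    have h1 := dm_range_eq (f := P) fun v hv => h 1 0 (Or.inl one_ne_zero) v (by simp [hv])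
    have h2 := dm_le (LinearMap.range P)
    rw [Module.finrank_fintype_fun_eq_card] at h1
    omega
  obtain ⟨k, hk⟩ := Nat.exists_eq_add_of_le hle
  have hd : finrank ℂ ((n → ℂ) × (Fin k → ℂ)) = finrank ℂ W := by
    rw [Module.finrank_prod, hk]; simp
  obtain ⟨E, x, ⟨rP, rQ⟩, hx⟩ := exists_genIn
    (⊤ : Submodule ℂ ((Fin k → W) × (Fin k → W))) ((ev_rm P).and (ev_rm Q))
  have hQ : ∀ v, Q.coprod (lin x.2) v = 0 → v = 0 := by
    intro v hv
    by_contra hv0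
    obtain ⟨c, hc, E1, s, e1, o1, o2⟩ := pv_norm E hv0
    have hv2 : (c • v).2 ≠ 0 := by
      intro h0
      have h1 : v.2 = 0 := (smul_eq_zero.1 h0).resolve_left hc
      rw [LinearMap.coprod_apply, h1, map_zero, add_zero] at hv
      exact hv0 (Prod.ext (h 0 1 (Or.inr one_ne_zero) _ (by simp [hv])) h1)
    have := (hx.ext e1).ga0 ((RM.ev o2.snd).comp RM.snd) ((rQ.mono e1.le).rv o2.fst).neg (T := ⊤)
      (by
        show lin x.2 (c • v).2 = -Q (c • v).1
        rw [eq_neg_iff_add_eq_zero, add_comm, ← LinearMap.coprod_apply, map_smul, hv, smul_zero])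
      fun w _ => by
        obtain ⟨Φ, _, h2⟩ := exists_cols1 hv2 (S := ⊤) (w := w) trivial
        exact ⟨(0, Φ), trivial, h2⟩
    rw [dm_top] at this
    omega
  have key := rk2_diag (P := P.coprod (lin x.1)) hd hQ fun μ v w h1 h2 => by
    by_contra hv0
    obtain ⟨E1, e1, hμ⟩ := ext1 E μ
    let M := P.coprod (lin x.1) + μ • Q.coprod (lin x.2)
    let D : Submodule ℂ (((n → ℂ) × (Fin k → ℂ)) × ((n → ℂ) × (Fin k → ℂ))) :=
      LinearMap.ker ((M ∘ₗ LinearMap.fst ℂ _ _).prod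
        (M ∘ₗ LinearMap.snd ℂ _ _ - Q.coprod (lin x.2) ∘ₗ LinearMap.fst ℂ _ _))
    have mD : ∀ z, z ∈ D ↔ M z.1 = 0 ∧ M z.2 - Q.coprod (lin x.2) z.1 = 0 := fun z => Prod.ext_iff
    have m1 : (v, w) ∈ D := (mD _).2 ⟨h1, sub_eq_zero.2 h2⟩
    have m2 : (0, v) ∈ D := (mD _).2 ⟨map_zero _, by rw [map_zero, sub_zero]; exact h1⟩
    have d2 : 2 ≤ dm D := by
      have a1 : dm (ℂ ∙ ((0 : (n → ℂ) × (Fin k → ℂ)), v)) < dm D :=
        dm_lt ((Submodule.span_singleton_le_iff_mem _ _).2 m2) m1 fun hm => by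
          obtain ⟨a, ha⟩ := Submodule.mem_span_singleton.1 hm
          exact hv0 (by simpa using (Prod.ext_iff.1 ha).1.symm)
      rw [dm_span_single fun h0 => hv0 (Prod.ext_iff.1 h0).2] at a1
      omega
    obtain ⟨ω, o1, o2, E2, s, e2, o3, o4⟩ := pv1 (D := D)
      (Z := LinearMap.ker (LinearMap.snd ℂ _ _ ∘ₗ LinearMap.fst ℂ _ _)) (RS.top (E := E1)) le_top
      fun hle => by
        have h3 : v.2 = 0 := hle m1
        simp only [LinearMap.coprod_apply, h3, map_zero, add_zero] at h1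
        exact hv0 (Prod.ext (h 1 μ (Or.inl one_ne_zero) _ (by rw [one_smul]; exact h1)) h3)
    obtain ⟨q1, q2⟩ := (mD ω).1 o1
    have hμ2 := e2.le hμ
    have r1 := (rP.mono e1.le).mono e2.le
    have r2 := (rQ.mono e1.le).mono e2.le
    have := ((hx.ext e1).ext e2).ga0
      ((((RM.ev o4.fst.snd).comp RM.fst).add (((RM.ev o4.fst.snd).comp RM.snd).smul hμ2)).prod
        ((((RM.ev o4.snd.snd).comp RM.fst).add (((RM.ev o4.snd.snd).comp RM.snd).smul hμ2)).sub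
          ((RM.ev o4.fst.snd).comp RM.snd)))
      (((r1.rv o4.fst.fst).add ((r2.rv o4.fst.fst).smul hμ2)).neg.mk
        ((r2.rv o4.fst.fst).sub ((r1.rv o4.snd.fst).add ((r2.rv o4.snd.fst).smul hμ2)))) (T := ⊤)
      (by
        simp only [M, LinearMap.add_apply, LinearMap.smul_apply, LinearMap.coprod_apply] at q1 q2
        refine Prod.ext ?_ ?_
        · show lin x.1 ω.1.2 + μ • lin x.2 ω.1.2 = -(P ω.1.1 + μ • Q ω.1.1)
          linear_combination (norm := module) q1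
        · show lin x.1 ω.2.2 + μ • lin x.2 ω.2.2 - lin x.2 ω.1.2 =
            Q ω.1.1 - (P ω.2.1 + μ • Q ω.2.1)
          linear_combination (norm := module) q2)
      fun z _ => by
        obtain ⟨Φ, _, h3⟩ := exists_cols1 (y := ω.1.2) o2 (S := ⊤) (w := z.1) trivial
        obtain ⟨Ψ, _, h4⟩ := exists_cols1 (y := ω.1.2) o2 (S := ⊤) (w := lin Φ ω.2.2 - z.2) trivial
        refine ⟨(Φ - μ • Ψ, Ψ), trivial, Prod.ext ?_ ?_⟩
        · show ev ω.1.2 (Φ - μ • Ψ) + μ • ev ω.1.2 Ψ = z.1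
          rw [map_sub, map_smul, sub_add_cancel, ev_apply, h3]
        · show ev ω.2.2 (Φ - μ • Ψ) + μ • ev ω.2.2 Ψ - ev ω.1.2 Ψ = z.2
          rw [map_sub, map_smul, sub_add_cancel, ev_apply, ev_apply, h4, sub_sub_cancel]
    rw [dm_top, Module.finrank_prod] at this o3
    omega
  rw [hd] at key
  exact key.of LinearMap.id (LinearMap.inl ℂ _ _) (fun v => by simp) fun v => by simp

theorem pt_core (P Q : (n → ℂ) →ₗ[ℂ] W) (κ : ℕ)
    (h : ∀ a b : ℂ, a ≠ 0 ∨ b ≠ 0 → dm (LinearMap.ker (a • P + b • Q)) ≤ κ) :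
    RK2 P Q (finrank ℂ W + κ + 2) := by
  obtain ⟨C, D, hCD⟩ := border_rows P Q κ h
  have := border_cols (P.prod C) (Q.prod D) fun a b hab v hv =>
    hCD a b hab v (Prod.ext_iff.1 hv).1 (Prod.ext_iff.1 hv).2
  rw [Module.finrank_prod, Module.finrank_fintype_fun_eq_card, Fintype.card_fin] at this
  exact this.of (LinearMap.fst ℂ _ _) LinearMap.id (fun _ => rfl) fun _ => rfl

end Border

end Pool.Agent.P.MP_098a67_ag.T3
end
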