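import Pool.Agent.K.MP_098a67_ag.C1
import Mathlib

-- part Pool.Agent.P.MP_098a67_ag.T3.PT
section

namespace Pool.Agent.P.MP_098a67_ag.T3

open Module LinearMap

variable {V W : Type} [AddCommGroup V] [Module ℂ V] [Module.Finite ℂ V]
  [AddCommGroup W] [Module ℂ W] [Module.Finite ℂ W]

/-- Coordinates on a subspace, vanishing on a disjoint subspace. -/
theorem exists_param {S Z : Submodule ℂ V} (h : ∀ v ∈ S, v ∈ Z → v = 0) :
    ∃ (i : (Fin (dm S) → ℂ) →ₗ[ℂ] V) (j : V →ₗ[ℂ] (Fin (dm S) → ℂ)), (∀ y, i y ∈ S) ∧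
      (∀ y, j (i y) = y) ∧ (∀ v ∈ S, i (j v) = v) ∧ ∀ z ∈ Z, j z = 0 := by
  obtain ⟨p, p1, p2, p3⟩ := exists_proj h
  let e : S ≃ₗ[ℂ] (Fin (dm S) → ℂ) := (Module.finBasis ℂ S).equivFun
  refine ⟨S.subtype ∘ₗ e.symm.toLinearMap, e.toLinearMap ∘ₗ p.codRestrict S p3,
    fun y => (e.symm y).2, fun y => ?_, fun v hv => ?_, fun z hz => ?_⟩
  · have : p.codRestrict S p3 (e.symm y) = e.symm y := Subtype.ext (p1 _ (e.symm y).2)
    show e (p.codRestrict S p3 (e.symm y)) = y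
    rw [this, e.apply_symm_apply]
  · show ((e.symm (e (p.codRestrict S p3 v)) : S) : V) = v
    rw [e.symm_apply_apply]
    exact p1 v hv
  · have : p.codRestrict S p3 z = 0 := Subtype.ext (p2 z hz)
    show e (p.codRestrict S p3 z) = 0
    rw [this, map_zero]

theorem pt0 (P Q : V →ₗ[ℂ] W) (Wp : Submodule ℂ W) (U : Submodule ℂ V) (z r : ℕ)
    (hP : ∀ v, P v ∈ Wp) (hQ : ∀ v, Q v ∈ Wp) (hU : ∀ u ∈ U, P u = 0 ∧ Q u = 0)
    (h : ∀ a b : ℂ, a ≠ 0 ∨ b ≠ 0 → dm (ker (a • P + b • Q)) ≤ z)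
    (hr : dm Wp + z + 2 ≤ r + dm U) : RK2 P Q r := by
  obtain ⟨C, hC⟩ := U.exists_isCompl
  have hd : ∀ v ∈ C, v ∈ U → v = 0 := fun v h1 h2 =>
    Submodule.disjoint_def.1 hC.disjoint v h2 h1
  obtain ⟨j, j', j1, j2, j3, j4⟩ := exists_param hd
  obtain ⟨i, i', _, _, i3, _⟩ := exists_param (S := Wp) (Z := ⊥) fun _ _ h => h
  have hUz : dm U ≤ z := (dm_mono fun u hu => by simp [(hU u hu).1]).trans
    (h 1 0 (Or.inl one_ne_zero))
  have key := pt_core (i' ∘ₗ P ∘ₗ j) (i' ∘ₗ Q ∘ₗ j) (z - dm U) fun a b hab => by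
    have a1 := h a b hab
    have a2 : dm ((ker (a • (i' ∘ₗ P ∘ₗ j) + b • (i' ∘ₗ Q ∘ₗ j))).map j ⊔ U) ≤
        dm (ker (a • P + b • Q)) := by
      refine dm_mono (sup_le ?_ fun u hu => by simp [(hU u hu).1, (hU u hu).2])
      rintro _ ⟨y, hy, rfl⟩
      have b1 : i' (a • P (j y) + b • Q (j y)) = 0 := by simpa using hy
      have b2 := i3 _ (Wp.add_mem (Wp.smul_mem a (hP (j y))) (Wp.smul_mem b (hQ (j y))))
      rw [b1, map_zero] at b2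
      exact b2.symm
    rw [dm_sup_eq (by rintro _ ⟨y, _, rfl⟩ hu; exact hd _ (j1 y) hu),
      dm_map_eq fun y _ hy => by rw [← j2 y, hy, map_zero]] at a2
    omega
  rw [Module.finrank_fintype_fun_eq_card, Fintype.card_fin] at key
  have hj : ∀ (R : V →ₗ[ℂ] W), (∀ u ∈ U, R u = 0) → ∀ v, R (j (j' v)) = R v := by
    intro R hR v
    have : v ∈ U ⊔ C := by rw [hC.sup_eq_top]; trivial
    obtain ⟨u, hu, c, hc, rfl⟩ := Submodule.mem_sup.1 this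
    rw [map_add, j4 u hu, zero_add, j3 c hc, map_add, hR u hu, zero_add]
  refine RK.mono (key.of i j' (fun v => ?_) fun v => ?_) (by omega)
  · simp only [comp_apply]
    rw [i3 _ (hP _), hj P fun u hu => (hU u hu).1]
  · simp only [comp_apply]
    rw [i3 _ (hQ _), hj Q fun u hu => (hU u hu).2]

theorem pt0' (P Q : V →ₗ[ℂ] W) (ρ r : ℕ)
    (h : ∀ a b : ℂ, a ≠ 0 ∨ b ≠ 0 → ρ ≤ dm (range (a • P + b • Q)))
    (hr : dm (range P ⊔ range Q) + finrank ℂ V + 2 ≤ r + dm (ker P ⊓ ker Q) + ρ) :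
    RK2 P Q r := by
  have a1 := (h 1 0 (Or.inl one_ne_zero)).trans (dm_range_le _)
  refine pt0 P Q (range P ⊔ range Q) (ker P ⊓ ker Q) (finrank ℂ V - ρ) r
    (fun v => Submodule.mem_sup_left ⟨v, rfl⟩) (fun v => Submodule.mem_sup_right ⟨v, rfl⟩)
    (fun u hu => hu) (fun a b hab => ?_) (by omega)
  have a2 := h a b hab
  have a3 := dm_range_ker (a • P + b • Q)
  omega

theorem dm_range_add_le (f g : V →ₗ[ℂ] W) : dm (range (f + g)) ≤ dm (range f) + dm (range g) :=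
  (dm_mono (range_add_le f g)).trans (dm_sup_le _ _)

theorem dm_range_smul {a : ℂ} (ha : a ≠ 0) (f : V →ₗ[ℂ] W) :
    dm (range (a • f)) = dm (range f) := by rw [range_smul f a ha]

/-- Removing the columns on which only `Q` acts. -/
theorem ct_step (P Q : V →ₗ[ℂ] W) : ∃ (R : V →ₗ[ℂ] W) (k : ℕ), dm (range R) ≤ k ∧
    dm (range P ⊔ (ker P).map Q) ≤ dm (range P) + k ∧
    dm (range P ⊔ range (Q - R)) + k ≤ dm (range P ⊔ range Q) ∧
    dm (ker P ⊓ ker Q) + k ≤ dm (ker P ⊓ ker (Q - R)) ∧ range (Q - R) ≤ range Q := by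
  obtain ⟨T, t1, t2, t3⟩ := exists_compl_in (inf_le_right : range P ⊓ (ker P).map Q ≤ _)
  obtain ⟨π, p1, p2, p3⟩ := exists_proj (D := T) (Z := range P) fun v h1 h2 =>
    t2 v ⟨h2, t1 h1⟩ h1
  have hT : T ≤ range Q := t1.trans map_le_range
  have hR : range (Q - π ∘ₗ Q) ≤ range Q := by
    rintro _ ⟨v, rfl⟩
    exact Submodule.sub_mem _ ⟨v, rfl⟩ (hT (p3 _))
  refine ⟨π ∘ₗ Q, dm T, dm_mono ?_, ?_, ?_, ?_, hR⟩
  · rintro _ ⟨v, rfl⟩
    exact p3 _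
  · refine le_trans (dm_mono ?_) (dm_sup_le (range P) T)
    rw [← t3]
    exact sup_le le_sup_left (sup_le (inf_le_left.trans le_sup_left) le_sup_right)
  · have a1 := dm_map_ker π (range P ⊔ range Q)
    have a2 : dm T ≤ dm ((range P ⊔ range Q).map π) :=
      dm_mono fun t ht => ⟨t, Submodule.mem_sup_right (hT ht), p1 t ht⟩
    have a3 : dm (range P ⊔ range (Q - π ∘ₗ Q)) ≤ dm ((range P ⊔ range Q) ⊓ ker π) := by
      refine dm_mono (sup_le (le_inf le_sup_left p2) (le_inf (hR.trans le_sup_right) ?_))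
      rintro _ ⟨v, rfl⟩
      show π (Q v - π (Q v)) = 0
      rw [map_sub, p1 _ (p3 _), sub_self]
    omega
  · have a1 := dm_comap Q (ker P) T
    have a2 := dm_map_ker Q (ker P)
    rw [sup_eq_left.2 t1] at a1
    have a3 : dm (ker P ⊓ T.comap Q) ≤ dm (ker P ⊓ ker (Q - π ∘ₗ Q)) := by
      refine dm_mono fun v hv => ⟨hv.1, ?_⟩
      show Q v - π (Q v) = 0
      rw [p1 _ hv.2, sub_self]
    omega

theorem rk2_step {P Q R : V →ₗ[ℂ] W} {k r : ℕ} (hR : dm (range R) ≤ k) (hk : k ≤ r)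
    (h : RK2 P (Q - R) (r - k)) : RK2 P Q r := by
  refine RK.mono (RK.add h (((rk_one R).mono hR).re (g := fun p : ℂ × ℂ => p.2 • R) Prod.snd
    fun _ _ => rfl) fun p v => ?_) (by omega)
  simp only [LinearMap.add_apply, LinearMap.smul_apply, LinearMap.sub_apply]
  module

theorem rank_step (P Q R : V →ₗ[ℂ] W) (a b : ℂ) :
    dm (range (a • P + b • Q)) ≤ dm (range (a • P + b • (Q - R))) + dm (range R) := by
  have e : a • P + b • Q = (a • P + b • (Q - R)) + b • R := by module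
  have a1 := dm_range_add_le (a • P + b • (Q - R)) (b • R)
  have a2 : dm (range (b • R)) ≤ dm (range R) := dm_mono (range_smul_le_range R b)
  rw [e]
  omega

theorem pt1 (P Q : V →ₗ[ℂ] W) (ρ r : ℕ)
    (h : ∀ a b : ℂ, b ≠ 0 → ρ ≤ dm (range (a • P + b • Q)))
    (h1 : ρ ≤ dm (range P ⊔ (ker P).map Q))
    (hr : dm (range P ⊔ range Q) + finrank ℂ V + 2 ≤ r + dm (ker P ⊓ ker Q) + ρ) :
    RK2 P Q r := by
  obtain ⟨R, k, c1, c2, c3, c4, _⟩ := ct_step P Q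
  have a1 : dm (range P ⊔ (ker P).map Q) ≤ dm (range P ⊔ range Q) :=
    dm_mono (sup_le_sup_left map_le_range _)
  have a2 := dm_le (ker P ⊓ ker (Q - R))
  refine rk2_step c1 (by omega) (pt0' P (Q - R) (ρ - k) _ (fun a b hab => ?_) (by omega))
  by_cases hb : b = 0
  · rw [hb, zero_smul, add_zero, dm_range_smul (hab.resolve_right (not_not.2 hb))]
    omega
  · have a3 := h a b hb
    have a4 := rank_step P Q R a b
    omega

theorem pt2 {m n : Type} [Fintype m] [Fintype n] [DecidableEq m] [DecidableEq n]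
    (P Q : (n → ℂ) →ₗ[ℂ] (m → ℂ)) (ρ r : ℕ)
    (h : ∀ a b : ℂ, a ≠ 0 → b ≠ 0 → ρ ≤ dm (range (a • P + b • Q)))
    (h1 : ρ ≤ dm (range P ⊔ (ker P).map Q))
    (h2 : ρ ≤ dm (range (tr Q) ⊔ (ker (tr Q)).map (tr P)))
    (hr : dm (range P ⊔ range Q) + Fintype.card n + 2 ≤ r + dm (ker P ⊓ ker Q) + ρ) :
    RK2 P Q r := by
  obtain ⟨R, k, c1, c2, c3, c4, c5⟩ := ct_step P Q
  have a1 : dm (range P ⊔ (ker P).map Q) ≤ dm (range P ⊔ range Q) :=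
    dm_mono (sup_le_sup_left map_le_range _)
  have a2 := dm_le (ker P ⊓ ker (Q - R))
  rw [Module.finrank_fintype_fun_eq_card] at a2
  refine rk2_step c1 (by omega) (RK2.of_tr (RK2.swap
    (pt1 (tr (Q - R)) (tr P) (ρ - k) _ (fun a b hb => ?_) ?_ ?_)))
  · rw [← tr_smul, ← tr_smul, ← tr_add, dm_range_tr, add_comm]
    by_cases ha : a = 0
    · rw [ha, zero_smul, add_zero, dm_range_smul hb]
      omega
    · have a3 := h b a hb ha
      have a4 := rank_step P Q R b a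
      omega
  · have a3 : range (tr Q) ⊔ (ker (tr Q)).map (tr P) ≤
        (range (tr (Q - R)) ⊔ (ker (tr (Q - R))).map (tr P)) ⊔ range (tr R) := by
      refine sup_le ?_ (le_sup_of_le_left (le_sup_of_le_right (Submodule.map_mono ?_)))
      · rintro _ ⟨ξ, rfl⟩
        have : tr Q ξ = tr (Q - R) ξ + tr R ξ := by rw [tr_sub]; simp
        rw [this]
        exact Submodule.add_mem_sup (Submodule.mem_sup_left ⟨ξ, rfl⟩) ⟨ξ, rfl⟩
      · rw [← perp_range, ← perp_range]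
        exact perp_anti c5
    have a4 := (dm_mono a3).trans (dm_sup_le _ _)
    rw [dm_range_tr] at a4
    omega
  · have a3 := dm_range_sup (tr (Q - R)) (tr P)
    have a4 := dm_range_sup P (Q - R)
    rw [tr_tr, tr_tr, inf_comm] at a3
    rw [inf_comm] at a4
    rw [Module.finrank_fintype_fun_eq_card]
    omega

/-- The bound for an arbitrary square pencil. -/
theorem rk2_square (P Q : V →ₗ[ℂ] V) (h : ℕ) (hn : finrank ℂ V = 4 * h) : RK2 P Q (6 * h + 1) := by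
  by_cases hc : ∀ a b : ℂ, a ≠ 0 ∨ b ≠ 0 → 2 * h + 1 ≤ dm (range (a • P + b • Q))
  · have := dm_le (range P ⊔ range Q)
    exact pt0' P Q _ _ hc (by omega)
  · have key : ∀ P Q : V →ₗ[ℂ] V, ∀ a b : ℂ, a ≠ 0 → dm (range (a • P + b • Q)) ≤ 2 * h →
        RK2 P Q (6 * h + 1) := by
      intro P Q a b ha hr
      have := dm_le (range Q)
      refine RK.mono (RK.add
        ((rk_one (a • P + b • Q)).re (g := fun p : ℂ × ℂ => (p.1 / a) • (a • P + b • Q))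
          (fun p => p.1 / a) fun _ _ => rfl)
        ((rk_one Q).re (g := fun p : ℂ × ℂ => (p.2 - p.1 / a * b) • Q)
          (fun p => p.2 - p.1 / a * b) fun _ _ => rfl) fun p v => ?_) (by omega)
      simp only [LinearMap.add_apply, LinearMap.smul_apply]
      match_scalars <;> field_simp <;> ring
    push Not at hc
    obtain ⟨a, b, hab, hr⟩ := hc
    rcases hab with ha | hb
    · exact key P Q a b ha (by omega)
    · exact (key Q P b a hb (by rw [add_comm]; omega)).swap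

end Pool.Agent.P.MP_098a67_ag.T3
end

-- part Pool.Agent.P.MP_098a67_ag.T3.GL2
section

namespace Pool.Agent.P.MP_098a67_ag.T3

open Module
open LinearMap (ker range)

variable {V W Y κ κ' : Type} [AddCommGroup V] [Module ℂ V] [Co V] [AddCommGroup W] [Module ℂ W]
  [Co W] [AddCommGroup Y] [Module ℂ Y] [Co Y] [Fintype κ] [Fintype κ'] {E : Subfield ℂ} {s : ℕ}

theorem GenIn.swap {x : V} {y : W} {S : Submodule ℂ V} {T : Submodule ℂ W}
    (h : GenIn E (x, y) (S.prod T) s) : GenIn E (y, x) (T.prod S) s := by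
  refine ⟨⟨h.1.2, h.1.1⟩, fun π hπ v hv => ?_, fun E' m e r => ?_⟩
  · have := h.2.1 π hπ (v.2, v.1) ⟨hv.2, hv.1⟩
    exact ⟨this.2, this.1⟩
  · have := h.2.2 E' m e (r.snd.mk r.fst)
    rw [dm_prod] at this ⊢
    omega

theorem GenIn.fst {x : V} {y : W} {S : Submodule ℂ V} {T : Submodule ℂ W}
    (h : GenIn E (x, y) (S.prod T) s) : GenIn E x S s := by
  refine ⟨h.1.1, fun π hπ v hv => (h.2.1 π hπ (v, 0) ⟨hv, T.zero_mem⟩).1, fun E' m e r => ?_⟩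
  have rT : RS E T := fun π hπ v hv => (h.2.1 π hπ (0, v) ⟨S.zero_mem, hv⟩).2
  obtain ⟨E2, e2, r2⟩ := cost (rT.mono e.le) (x := y) RV.zero (by rw [sub_zero]; exact h.1.2)
  have := h.2.2 E2 _ (e.trans e2) ((r.mono e2.le).mk r2)
  rw [dm_prod] at this
  omega

theorem GenIn.snd {x : V} {y : W} {S : Submodule ℂ V} {T : Submodule ℂ W}
    (h : GenIn E (x, y) (S.prod T) s) : GenIn E y T s := h.swap.fst

variable {Φ : κ → V} {Ψ : κ' → V} {S S' : Submodule ℂ V}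

theorem gm (h : GenIn E Φ (cols κ S) s) {f : V →ₗ[ℂ] W} (rf : RM E f) {ν : Y →ₗ[ℂ] (κ → ℂ)}
    (rν : RM E ν) {ρ : Y →ₗ[ℂ] W} (rρ : RM E ρ) {C : Submodule ℂ W} (rC : RS E C)
    {Ω D : Submodule ℂ Y} (rΩ : RS E Ω) (hD : D ≤ Ω) (hm : ∀ ω ∈ D, f (lin Φ (ν ω)) - ρ ω ∈ C)
    (h0 : ¬ D ≤ ker ν) : dm (S.map f ⊔ C) + dm D ≤ dm C + s + dm Ω := by
  obtain ⟨ω, o1, o2, E1, s1, e1, o3, o4⟩ := pv1 rΩ hD h0
  have := g0 (h.ext e1) (rf.mono e1.le) (rC.mono e1.le) ((rν.mono e1.le).rv o4) o2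
    ((rρ.mono e1.le).rv o4) (hm ω o1)
  omega

theorem gj (h : GenIn E (Φ, Ψ) ((cols κ S).prod (cols κ' S')) s) {f g : V →ₗ[ℂ] W} (rf : RM E f)
    (rg : RM E g) {C : Submodule ℂ W} (rC : RS E C) {y : κ → ℂ} {z : κ' → ℂ} (ry : RV E y)
    (rz : RV E z) (hy : y ≠ 0) (hz : z ≠ 0) {ρ : W} (rρ : RV E ρ)
    (hm : f (lin Φ y) + g (lin Ψ z) - ρ ∈ C) : dm (S.map f ⊔ S'.map g ⊔ C) ≤ dm C + s :=
  h.ga ((rf.comp ((RM.ev ry).comp RM.fst)).add (rg.comp ((RM.ev rz).comp RM.snd))) rC rρ hm (by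
    intro w hw
    obtain ⟨_, ⟨a, ha, rfl⟩, _, ⟨b, hb, rfl⟩, rfl⟩ := Submodule.mem_sup.1 hw
    obtain ⟨A, h1, h2⟩ := exists_cols1 hy ha
    obtain ⟨B, h3, h4⟩ := exists_cols1 hz hb
    exact ⟨(A, B), ⟨h1, h3⟩, by rw [← h2, ← h4]; rfl⟩)

theorem gm2 (h : GenIn E (Φ, Ψ) ((cols κ S).prod (cols κ' S')) s) {f g : V →ₗ[ℂ] W}
    (rf : RM E f) (rg : RM E g) {ν : Y →ₗ[ℂ] (κ → ℂ)} (rν : RM E ν) {μ : Y →ₗ[ℂ] (κ' → ℂ)}
    (rμ : RM E μ) {ρ : Y →ₗ[ℂ] W} (rρ : RM E ρ) {C : Submodule ℂ W} (rC : RS E C)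
    {Ω D : Submodule ℂ Y} (rΩ : RS E Ω) (hD : D ≤ Ω)
    (hm : ∀ ω ∈ D, f (lin Φ (ν ω)) + g (lin Ψ (μ ω)) - ρ ω ∈ C)
    (h0 : ¬ D ≤ ker ν) (h1 : ¬ D ≤ ker μ) :
    dm (S.map f ⊔ S'.map g ⊔ C) + dm D ≤ dm C + s + dm Ω := by
  obtain ⟨ω, o1, o2, o2', E1, s1, e1, o3, o4⟩ := pv2 rΩ hD h0 h1
  have := gj (h.ext e1) (rf.mono e1.le) (rg.mono e1.le) (rC.mono e1.le) ((rν.mono e1.le).rv o4)
    ((rμ.mono e1.le).rv o4) o2 o2' ((rρ.mono e1.le).rv o4) (hm ω o1)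
  omega

theorem gf2 {n : Type} [Fintype n] [DecidableEq n] {Φ : κ → n → ℂ} {Ψ : κ' → n → ℂ}
    {S S' : Submodule ℂ (n → ℂ)} (h : GenIn E (Φ, Ψ) ((cols κ S).prod (cols κ' S')) s)
    {f g : W →ₗ[ℂ] (n → ℂ)} (rf : RM E f) (rg : RM E g) {Ω D : Submodule ℂ W} (rΩ : RS E Ω)
    (hD : D ≤ Ω) (h2 : ∀ η ∈ D, f η ∈ perp (range (lin Φ)))
    (h3 : ∀ η ∈ D, g η ∈ perp (range (lin Ψ))) (h0 : ¬ D ≤ (perp S).comap f)
    (h1 : ¬ D ≤ (perp S').comap g) : dm D + Fintype.card κ + Fintype.card κ' ≤ dm Ω + s := by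
  obtain ⟨η, o1, o2, o2', E1, s1, e1, o3, o4⟩ := pv2 rΩ hD h0 h1
  have := (h.ext e1).ga0 (((RM.pairC ((rf.mono e1.le).rv o4)).comp RM.fst).prod
    ((RM.pairC ((rg.mono e1.le).rv o4)).comp RM.snd)) RV.zero
    (Prod.ext (pairC_eq_zero (h2 η o1)) (pairC_eq_zero (h3 η o1))) (T := ⊤) fun z _ => by
      obtain ⟨A, a1, a2⟩ := pairC_surj o2 z.1
      obtain ⟨B, b1, b2⟩ := pairC_surj o2' z.2
      exact ⟨(A, B), ⟨a1, b1⟩, Prod.ext a2 b2⟩
  rw [dm_top, Module.finrank_prod, card_fun, card_fun] at this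
  omega

end Pool.Agent.P.MP_098a67_ag.T3
end

-- part Pool.Agent.P.MP_098a67_ag.R3.Num
section

namespace Pool.Agent.P.MP_098a67_ag.R3

/-- The numerical inequalities used by the construction. -/
structure Nums (M N h γ γ' g g' κ k ks r ρ t q : ℕ) : Prop where
  hh : 4 ≤ h
  e1 : γ + M = γ' + N
  e2 : g + M = g' + N
  ht : t = h - γ' - κ - 4
  hq : q = h + ks - γ - 4
  f0 : κ + 2 * t + γ ≤ N
  n0 : h ≤ M
  n1 : h + q ≤ r
  n2 : t ≠ 0 → κ + 2 * t + 2 + g' + 2 * γ' + 2 * q < M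
  n3 : t ≠ 0 → h + t + q + 4 ≤ r ∨ 2 * γ' + 3 * q + h + t + 4 ≤ M
  n4 : t ≠ 0 → 2 * t + h + g' + 2 * γ' + q ≤ M + 2 ∨ (q = 0 ∧
    3 * t + h + 2 * γ' + 2 * κ ≤ N + 2 ∧ 2 * t + h + 2 * γ' + κ + ks ≤ ρ + γ)
  n5 : t ≠ 0 → g + t + h + g' + 2 * γ' + q ≤ γ + 4 + M ∨ t + ks + h ≤ q + γ + 4 ∨
    t + h + γ' + κ + q ≤ γ + 4
  n6 : t ≠ 0 → 4 * t + 2 * h + 2 * g' + 4 * γ' + 4 * q + κ + γ + 1 ≤ 2 * M + N ∨
    4 * t + 2 * h + 2 * g' + 2 * γ' + 4 * q + κ + γ + 1 ≤ 2 * ρ + N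
  n7 : t ≠ 0 ∨ q ≠ 0 → 2 * q + 7 + κ + 2 * t + γ ≤ N
  n8 : 2 * g + 2 * h ≤ N + γ + κ + 7
  n9 : 2 * g' + 2 * h ≤ M + κ + γ' + 7
  n10 : h + q + t + γ ≤ N + 2
  n11 : h + γ < N
  n12 : 2 * q + 2 * h + γ' ≤ M + κ + 2 ∨ 4 * q + 2 * h ≤ M + γ' + κ + 2
  n13 : q ≠ 0 → 3 * q + γ' + 2 * γ < M + k + ks
  n14 : q ≠ 0 → 2 * q + 2 + 2 * γ < 2 * h + k + ks
  n15 : q ≠ 0 → 2 * g' + q + h + 2 * γ ≤ M + k + ks + t + κ + γ' + 4 ∨ q + h ≤ t + κ + γ' + 4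

theorem nums {M N h γ γ' g g' κ k ks r ρ t q : ℕ} (hM : M ≤ N) (hF : 4 * h ≤ N ∨ M + 2 * h ≤ N)
    (hh : 4 ≤ h) (e1 : γ + M = γ' + N) (e2 : g + M = g' + N) (ht : t = h - γ' - κ - 4)
    (hq : q = h + ks - γ - 4) (c1 : g ≤ γ) (c2 : 2 * g ≤ N + κ) (c3 : κ + γ ≤ N) (c4 : ks ≤ k)
    (c5 : k + ks ≤ γ) (c6 : h < r) (c7 : r + γ ≤ N) (c8 : r ≤ ρ) (c9 : g + g' < r + h)
    (c10 : κ ≤ g)
    (hR : (g = γ ∧ ks ≤ κ ∧ (2 * h ≤ r ∨ M + 5 ≤ r + h) ∧ (t ≠ 0 → q ≠ 0 → M + 5 ≤ r + h)) ∨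
      (t = 0 ∧ (q = 0 ∨ (2 * h ≤ r ∧ h ≤ γ' + 4 ∧ g + g' ≤ 2 * h))) ∨
      (2 * h ≤ γ + 8 ∧ 2 * h ≤ ρ ∧ M ≤ r + γ' ∧ 2 * h ≤ M ∧ 4 * h ≤ N)) :
    Nums M N h γ γ' g g' κ k ks r ρ t q := by
  refine ⟨hh, e1, e2, ht, hq, ?_, ?_, ?_, ?_, ?_, ?_, ?_, ?_, ?_, ?_, ?_, ?_, ?_, ?_, ?_, ?_, ?_⟩
  all_goals omega

end Pool.Agent.P.MP_098a67_ag.R3
end

-- part Pool.Agent.P.MP_098a67_ag.R3.Pre
section

namespace Pool.Agent.P.MP_098a67_ag.R3

open Module T3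
open LinearMap (ker range)

section

variable {V W : Type} [AddCommGroup V] [Module ℂ V] [AddCommGroup W] [Module ℂ W]

/-- Rank of a triple. -/
def RK3 (A B C : V →ₗ[ℂ] W) (r : ℕ) : Prop :=
  RK (fun x : ℂ × ℂ × ℂ => x.1 • A + x.2.1 • B + x.2.2 • C) r

theorem rk3_free {S P Q Y1 Y2 : V →ₗ[ℂ] W} {ρ r : ℕ} (h1 : RK3 S Y1 Y2 ρ)
    (h2 : RK2 (P - Y1) (Q - Y2) r) : RK3 S P Q (ρ + r) := by
  refine RK.add h1 (h2.re (g := fun x : ℂ × ℂ × ℂ => x.2.1 • (P - Y1) + x.2.2 • (Q - Y2))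
    Prod.snd fun _ _ => rfl) fun x v => ?_
  simp only [LinearMap.add_apply, LinearMap.smul_apply, LinearMap.sub_apply]
  module

theorem rk3_first [Module.Finite ℂ W] {A B P Q : V →ₗ[ℂ] W} {k r : ℕ}
    (h1 : dm (range (A - B)) ≤ k) (h2 : RK3 B P Q r) : RK3 A P Q (k + r) := by
  refine RK.add (((rk_one (A - B)).mono h1).re (g := fun x : ℂ × ℂ × ℂ => x.1 • (A - B))
    Prod.fst fun _ _ => rfl) h2 fun x v => ?_
  simp only [LinearMap.add_apply, LinearMap.smul_apply, LinearMap.sub_apply]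
  module

theorem rk2_two [Module.Finite ℂ W] (P Q : V →ₗ[ℂ] W) {a b : ℂ} (ha : a ≠ 0) :
    RK2 P Q (dm (range (a • P + b • Q)) + dm (range Q)) := by
  refine RK.add
    ((rk_one (a • P + b • Q)).re (g := fun p : ℂ × ℂ => (p.1 / a) • (a • P + b • Q))
      (fun p => p.1 / a) fun _ _ => rfl)
    ((rk_one Q).re (g := fun p : ℂ × ℂ => (p.2 - p.1 / a * b) • Q)
      (fun p => p.2 - p.1 / a * b) fun _ _ => rfl) fun p v => ?_
  simp only [LinearMap.add_apply, LinearMap.smul_apply]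
  match_scalars <;> field_simp <;> ring

/-- The bound for an arbitrary pencil. -/
theorem rk2_rect [Module.Finite ℂ V] [Module.Finite ℂ W] (P Q : V →ₗ[ℂ] W) {h r : ℕ}
    (hF : 4 * h ≤ finrank ℂ V ∨ finrank ℂ W + 2 * h ≤ finrank ℂ V)
    (hr : finrank ℂ W + finrank ℂ V + 1 ≤ r + 2 * h) : RK2 P Q r := by
  have a1 := dm_le (range P)
  have a2 := dm_le (range Q)
  rcases hF with hF | hF
  swap
  · have := dm_le (range ((1 : ℂ) • P + (0 : ℂ) • Q))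
    exact RK.mono (rk2_two P Q (a := 1) (b := 0) one_ne_zero) (by omega)
  by_cases hc : ∀ a b : ℂ, a ≠ 0 ∨ b ≠ 0 → 2 * h + 1 ≤ dm (range (a • P + b • Q))
  · have := dm_le (range P ⊔ range Q)
    exact pt0' P Q _ _ hc (by omega)
  · push Not at hc
    obtain ⟨a, b, hab, hr⟩ := hc
    rcases hab with ha | hb
    · exact RK.mono (rk2_two P Q (b := b) ha) (by omega)
    · rw [add_comm] at hr
      exact RK2.swap (RK.mono (rk2_two Q P (b := a) hb) (by omega))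

theorem two_span (P Q : V →ₗ[ℂ] W) (N : Submodule ℂ V) {a b c d : ℂ} (h : a * d ≠ b * c) :
    N.map P ⊔ N.map Q ≤ N.map (a • P + b • Q) ⊔ N.map (c • P + d • Q) := by
  have h1 := mul_inv_cancel₀ (sub_ne_zero.2 h)
  generalize (a * d - b * c)⁻¹ = e at h1
  refine sup_le ?_ ?_ <;> rintro _ ⟨v, hv, rfl⟩
  · have : P v = (e * d) • (a • P + b • Q) v + (-(e * b)) • (c • P + d • Q) v := by
      simp only [LinearMap.add_apply, LinearMap.smul_apply]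
      linear_combination (norm := module) (-h1) • P v
    rw [this]
    exact Submodule.add_mem_sup (Submodule.smul_mem _ _ ⟨v, hv, rfl⟩)
      (Submodule.smul_mem _ _ ⟨v, hv, rfl⟩)
  · have : Q v = (-(e * c)) • (a • P + b • Q) v + (e * a) • (c • P + d • Q) v := by
      simp only [LinearMap.add_apply, LinearMap.smul_apply]
      linear_combination (norm := module) (-h1) • Q v
    rw [this]
    exact Submodule.add_mem_sup (Submodule.smul_mem _ _ ⟨v, hv, rfl⟩)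
      (Submodule.smul_mem _ _ ⟨v, hv, rfl⟩)

theorem two_zero {p q : W} {a b c d : ℂ}
    (h : a * d ≠ b * c) (h1 : a • p + b • q = 0) (h2 : c • p + d • q = 0) : p = 0 ∧ q = 0 := by
  have h3 := sub_ne_zero.2 h
  refine ⟨(smul_eq_zero_iff_right h3).1 ?_, (smul_eq_zero_iff_right h3).1 ?_⟩
  · linear_combination (norm := module) d • h1 - b • h2
  · linear_combination (norm := module) a • h2 - c • h1

theorem dm_range_fin [Module.Finite ℂ W] {d : ℕ}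
    (f : (Fin d → ℂ) →ₗ[ℂ] W) : dm (range f) ≤ d := by
  have := dm_range_le f
  rwa [card_fun, Fintype.card_fin] at this

theorem map_smul_id {a : ℂ} (ha : a ≠ 0) (S : Submodule ℂ V) :
    S.map (a • LinearMap.id) = S := by
  rw [Submodule.map_smul _ _ _ ha, Submodule.map_id]

/-- The image of a subspace of small codimension. -/
theorem dm_map_ge [Module.Finite ℂ V] [Module.Finite ℂ W] (f : V →ₗ[ℂ] W) {S T : Submodule ℂ V}
    (h : S ≤ T) (D : Submodule ℂ W) : dm (T.map f ⊔ D) + dm S ≤ dm (S.map f ⊔ D) + dm T := by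
  have a1 := dm_comap f S D
  have a2 := dm_comap f T D
  have a3 := dm_mono (inf_le_inf_right (D.comap f) h)
  omega

end

theorem exists_max {α : Type} {S : Set α} (hS : S.Nonempty) (f : α → ℕ) (N : ℕ)
    (hN : ∀ x, f x ≤ N) : ∃ x ∈ S, ∀ y ∈ S, f y ≤ f x := by
  obtain ⟨_, ⟨x, hx, rfl⟩, h⟩ := Set.exists_max_image (f '' S) id
    ((Set.finite_Iic N).subset (by rintro _ ⟨x, _, rfl⟩; exact hN x)) (hS.image f)
  exact ⟨x, hx, fun y hy => h _ ⟨y, hy, rfl⟩⟩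

theorem fin_zero {t : ℕ} (ht : t = 0) (y : Fin t → ℂ) : y = 0 := by
  subst ht
  exact Subsingleton.elim _ _

section

variable {X : Type} [AddCommGroup X] [Module ℂ X] [Module.Finite ℂ X] {x y z : X}

/-- The span of two vectors. -/
def pen (x y : X) : Submodule ℂ X := (ℂ ∙ x) ⊔ (ℂ ∙ y)

theorem mem_pen : z ∈ pen x y ↔ ∃ a b : ℂ, a • x + b • y = z := by
  constructor
  · intro h
    obtain ⟨_, h1, _, h2, rfl⟩ := Submodule.mem_sup.1 h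
    obtain ⟨a, rfl⟩ := Submodule.mem_span_singleton.1 h1
    obtain ⟨b, rfl⟩ := Submodule.mem_span_singleton.1 h2
    exact ⟨a, b, rfl⟩
  · rintro ⟨a, b, rfl⟩
    exact Submodule.add_mem_sup (Submodule.mem_span_singleton.2 ⟨a, rfl⟩)
      (Submodule.mem_span_singleton.2 ⟨b, rfl⟩)

theorem left_pen (x y : X) : x ∈ pen x y := mem_pen.2 ⟨1, 0, by simp⟩

theorem right_pen (x y : X) : y ∈ pen x y := mem_pen.2 ⟨0, 1, by simp⟩

theorem pen_le {S : Submodule ℂ X} (hx : x ∈ S) (hy : y ∈ S) : pen x y ≤ S := fun z hz => by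
  obtain ⟨a, b, rfl⟩ := mem_pen.1 hz
  exact S.add_mem (S.smul_mem _ hx) (S.smul_mem _ hy)

theorem dm_sup_span {S : Submodule ℂ X} (hy : y ∉ S) : dm (S ⊔ ℂ ∙ y) = dm S + 1 := by
  have := dm_lt (le_sup_left : S ≤ S ⊔ ℂ ∙ y)
    (Submodule.mem_sup_right (Submodule.mem_span_singleton_self y)) hy
  have := dm_sup_le S (ℂ ∙ y)
  have := dm_span_le y
  omega

theorem dm_pen (hx : x ≠ 0) (hy : y ∉ ℂ ∙ x) : dm (pen x y) = 2 := by
  rw [pen, dm_sup_span hy, dm_span_single hx]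

theorem exists_notMem {S T : Submodule ℂ X} (h : dm S < dm T) : ∃ y ∈ T, y ∉ S := by
  by_contra hc
  push Not at hc
  exact absurd (dm_mono hc) (by omega)

theorem exists_off (hX : finrank ℂ X = 3) (x y : X) : ∃ z, z ∉ pen x y := by
  have := dm_sup_le (ℂ ∙ x) (ℂ ∙ y)
  have := dm_span_le x
  have := dm_span_le y
  obtain ⟨z, _, hz⟩ := exists_notMem (S := pen x y) (T := ⊤) (by rw [dm_top, pen]; omega)
  exact ⟨z, hz⟩

theorem span3 (hX : finrank ℂ X = 3) (hx : x ≠ 0) (hy : y ∉ ℂ ∙ x) (hz : z ∉ pen x y) (w : X) :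
    ∃ p : ℂ × ℂ × ℂ, p.1 • x + p.2.1 • y + p.2.2 • z = w := by
  have : w ∈ pen x y ⊔ ℂ ∙ z := by
    rw [eq_top_of_dm (S := pen x y ⊔ ℂ ∙ z) (by rw [dm_sup_span hz, dm_pen hx hy, hX])]
    trivial
  obtain ⟨_, h1, _, h2, rfl⟩ := Submodule.mem_sup.1 this
  obtain ⟨a, b, rfl⟩ := mem_pen.1 h1
  obtain ⟨c, rfl⟩ := Submodule.mem_span_singleton.1 h2
  exact ⟨(a, b, c), rfl⟩

theorem mem_of_comb {S : Submodule ℂ X} {b : ℂ} (hb : b ≠ 0) (hx : x ∈ S) (h : x + b • y ∈ S) :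
    y ∈ S := (S.smul_mem_iff hb).1 ((S.add_mem_iff_right hx).1 h)

theorem exch (h : z ∈ pen x y) (hz : z ∉ ℂ ∙ x) : y ∈ pen x z := by
  obtain ⟨a, b, e⟩ := mem_pen.1 h
  refine mem_of_comb (b := b) (fun hb => hz (Submodule.mem_span_singleton.2 ⟨a, ?_⟩))
    (Submodule.smul_mem _ a (left_pen x z)) (by rw [e]; exact right_pen x z)
  rw [← e, hb, zero_smul, add_zero]

theorem meet (hX : finrank ℂ X = 3) {P Q : Submodule ℂ X} (hP : dm P = 2) (hQ : dm Q = 2) :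
    ∃ w, w ∈ P ∧ w ∈ Q ∧ w ≠ 0 := by
  have := dm_inf_ge P Q
  obtain ⟨w, hw, h0⟩ := exists_notMem (S := ⊥) (T := P ⊓ Q) (by rw [dm_bot]; omega)
  exact ⟨w, hw.1, hw.2, h0⟩

theorem ind3 (hx : x ≠ 0) (hy : y ∉ ℂ ∙ x) (hz : z ∉ pen x y) {a b c : ℂ}
    (h : a • x + b • y + c • z = 0) : a = 0 ∧ b = 0 ∧ c = 0 := by
  have hc : c = 0 := by
    by_contra hc
    exact hz (mem_of_comb hc (mem_pen.2 ⟨a, b, rfl⟩) (by rw [h]; exact Submodule.zero_mem _))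
  rw [hc, zero_smul, add_zero] at h
  have hb : b = 0 := by
    by_contra hb
    exact hy (mem_of_comb hb (Submodule.smul_mem _ a (Submodule.mem_span_singleton_self x))
      (by rw [h]; exact Submodule.zero_mem _))
  rw [hb, zero_smul, add_zero, smul_eq_zero_iff_left hx] at h
  exact ⟨h, hb, hc⟩

theorem dm_pen_aff (hx : x ≠ 0) (hy : y ∉ ℂ ∙ x) (hz : z ∉ pen x y) (α β : ℂ) :
    dm (pen (y + α • x) (z + β • x)) = 2 := by
  refine dm_pen (fun e => one_ne_zero (ind3 hx hy hz (a := α) (b := 1) (c := 0) ?_).2.1) fun e => ?_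
  · linear_combination (norm := module) e
  · obtain ⟨c, e⟩ := Submodule.mem_span_singleton.1 e
    refine one_ne_zero (ind3 hx hy hz (a := β - c * α) (b := -c) (c := 1) ?_).2.2
    linear_combination (norm := module) -e

theorem inf_pts (hX : finrank ℂ X = 3) : {P : Submodule ℂ X | dm P = 2}.Infinite := by
  obtain ⟨x, hx⟩ := exists_off hX 0 0
  have hx : x ≠ 0 := fun e => hx (by rw [e]; exact Submodule.zero_mem _)
  obtain ⟨y, hy⟩ := exists_off hX x x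
  have hy : y ∉ ℂ ∙ x := fun e => hy (Submodule.mem_sup_left e)
  obtain ⟨z, hz⟩ := exists_off hX x y
  refine Set.infinite_of_injective_forall_mem (f := fun α : ℂ => pen (y + α • x) (z + (0 : ℂ) • x))
    (fun α β e => ?_) fun α => dm_pen_aff hx hy hz α 0
  have h1 := left_pen (y + α • x) (z + (0 : ℂ) • x)
  dsimp only at e
  rw [e] at h1
  obtain ⟨a, b, e1⟩ := mem_pen.1 h1
  obtain ⟨h2, h3, _⟩ := ind3 hx hy hz (a := a * β - α) (b := a - 1) (c := b)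
    (by linear_combination (norm := module) e1)
  linear_combination β * h3 - h2

end

section

variable {V W κ : Type} [AddCommGroup V] [Module ℂ V] [Co V] [AddCommGroup W] [Module ℂ W] [Co W]
  [Fintype κ] {E : Subfield ℂ} {Φ : κ → V} {S : Submodule ℂ V} {s : ℕ}

/-- Two independent rational coefficient vectors. -/
theorem g2s (h : GenIn E Φ (cols κ S) s) {f g : V →ₗ[ℂ] W} (rf : RM E f) (rg : RM E g)
    {D : Submodule ℂ W} (rD : RS E D) {y z : κ → ℂ} (ry : RV E y) (rz : RV E z) (hy : y ∉ ℂ ∙ z)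
    (hz : z ≠ 0) (hm : f (lin Φ y) + g (lin Φ z) ∈ D) :
    dm (S.map f ⊔ S.map g ⊔ D) ≤ dm D + s :=
  h.ga ((rf.comp (RM.ev ry)).add (rg.comp (RM.ev rz))) rD RV.zero (by rw [sub_zero]; exact hm) (by
    intro w hw
    obtain ⟨_, ⟨w1, hw1, rfl⟩, _, ⟨w2, hw2, rfl⟩, rfl⟩ := Submodule.mem_sup.1 hw
    have hz' : z ∉ ℂ ∙ y := fun e => by
      obtain ⟨c, rfl⟩ := Submodule.mem_span_singleton.1 e
      exact hy (Submodule.mem_span_singleton.2 ⟨c⁻¹, by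
        rw [smul_smul, inv_mul_cancel₀ (left_ne_zero_of_smul hz), one_smul]⟩)
    obtain ⟨Ψ, h1, h2, h3⟩ := exists_cols hy hw1
    obtain ⟨Ψ', k1, k2, k3⟩ := exists_cols hz' hw2
    refine ⟨Ψ + Ψ', Submodule.add_mem _ h1 k1, ?_⟩
    show f (ev y (Ψ + Ψ')) + g (ev z (Ψ + Ψ')) = f w1 + g w2
    rw [map_add, map_add (ev z), ev_apply, ev_apply, ev_apply, ev_apply, h2, k2,
      h3 z (Submodule.mem_span_singleton_self z), k3 y (Submodule.mem_span_singleton_self y),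
      add_zero, zero_add])

/-- Three rational coefficient vectors. -/
theorem g3s (h : GenIn E Φ (cols κ S) s) {f g k : V →ₗ[ℂ] W} (rf : RM E f) (rg : RM E g)
    (rk : RM E k) {D : Submodule ℂ W} (rD : RS E D) {y z u : κ → ℂ} (ry : RV E y) (rz : RV E z)
    (ru : RV E u) (hy : y ∉ pen z u) (hu : u ∉ pen z y)
    (hm : f (lin Φ y) + g (lin Φ z) + k (lin Φ u) ∈ D) :
    dm (S.map f ⊔ S.map k ⊔ D) ≤ dm D + s :=
  h.ga (((rf.comp (RM.ev ry)).add (rg.comp (RM.ev rz))).add (rk.comp (RM.ev ru))) rD RV.zero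
    (by rw [sub_zero]; exact hm) (by
    intro w hw
    obtain ⟨_, ⟨w1, hw1, rfl⟩, _, ⟨w2, hw2, rfl⟩, rfl⟩ := Submodule.mem_sup.1 hw
    obtain ⟨Ψ, h1, h2, h3⟩ := exists_cols hy hw1
    obtain ⟨Ψ', k1, k2, k3⟩ := exists_cols hu hw2
    refine ⟨Ψ + Ψ', Submodule.add_mem _ h1 k1, ?_⟩
    show f (ev y (Ψ + Ψ')) + g (ev z (Ψ + Ψ')) + k (ev u (Ψ + Ψ')) = f w1 + k w2
    simp only [map_add, ev_apply, h2, k2, h3 z (left_pen _ _), h3 u (right_pen _ _),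
      k3 z (left_pen _ _), k3 y (right_pen _ _), map_zero, add_zero, zero_add])

theorem rm_sl {A1 A2 A3 : V →ₗ[ℂ] W} (r1 : RM E A1) (r2 : RM E A2) (r3 : RM E A3) {x1 x2 x3 : ℂ}
    (h1 : x1 ∈ E) (h2 : x2 ∈ E) (h3 : x3 ∈ E) : RM E (x1 • A1 + x2 • A2 + x3 • A3) :=
  ((r1.smul h1).add (r2.smul h2)).add (r3.smul h3)

end

variable {m n : Type} [Fintype m] [DecidableEq m] [Fintype n] [DecidableEq n]
  {A1 A2 A3 : (n → ℂ) →ₗ[ℂ] (m → ℂ)}

theorem rs_perp {E : Subfield ℂ} {S : Submodule ℂ (n → ℂ)} (hS : RS E S) : RS E (perp S) := by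
  intro π hπ η hη v hv
  refine Submodule.span_induction (p := fun v _ => act π η ⬝ᵥ v = 0) (fun w hw => ?_)
    (dotProduct_zero _) (fun a b _ _ ha hb => by rw [dotProduct_add, ha, hb, add_zero])
    (fun c a _ ha => by rw [dotProduct_smul, ha, smul_zero]) (hS.le_span hv)
  have h1 : π (η ⬝ᵥ w) = act π η ⬝ᵥ w := by
    show π (∑ i, η i * w i) = ∑ i, π (η i) * w i
    rw [map_sum]
    refine Finset.sum_congr rfl fun i _ => ?_
    rw [mul_comm, hπ _ (rv_C.1 (rv_pi.1 hw.2 i)), mul_comm]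
  rw [← h1, hη w hw.1, map_zero]

theorem dm_rk (f : (n → ℂ) →ₗ[ℂ] (m → ℂ)) : dm (range f) + dm (ker f) = Fintype.card n := by
  rw [dm_range_ker, card_fun]

theorem dm_rk' (f : (n → ℂ) →ₗ[ℂ] (m → ℂ)) :
    dm (range f) + dm (ker (tr f)) = Fintype.card m := by
  rw [← dm_range_tr, dm_rk]

theorem rm_trsl {E : Subfield ℂ} (r1 : RM E (tr A1)) (r2 : RM E (tr A2)) (r3 : RM E (tr A3))
    {x1 x2 x3 : ℂ} (h1 : x1 ∈ E) (h2 : x2 ∈ E) (h3 : x3 ∈ E) :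
    RM E (tr (x1 • A1 + x2 • A2 + x3 • A3)) := by
  rw [tr_add, tr_add, tr_smul, tr_smul, tr_smul]
  exact rm_sl r1 r2 r3 h1 h2 h3

theorem rm_trM {E : Subfield ℂ} (r2 : RM E (tr A2)) (r3 : RM E (tr A3))
    {a b : ℂ} (h2 : a ∈ E) (h3 : b ∈ E) : RM E (tr (a • A2 + b • A3)) := by
  rw [tr_add, tr_smul, tr_smul]
  exact (r2.smul h2).add (r3.smul h3)

theorem tr_sl (x1 x2 x3 : ℂ) (η : m → ℂ) : tr (x1 • A1 + x2 • A2 + x3 • A3) η =
    x1 • tr A1 η + x2 • tr A2 η + x3 • tr A3 η := by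
  rw [tr_add, tr_add, tr_smul, tr_smul, tr_smul]
  rfl

theorem tr_M (a c : ℂ) (η : m → ℂ) : tr (a • A2 + c • A3) η = a • tr A2 η + c • tr A3 η := by
  rw [tr_add, tr_smul, tr_smul]
  rfl

end Pool.Agent.P.MP_098a67_ag.R3
end

-- part Pool.Agent.P.MP_098a67_ag.R3.StX
section

namespace Pool.Agent.P.MP_098a67_ag.R3

open Module T3
open LinearMap (ker range)

variable {m n : Type} [Fintype m] [DecidableEq m] [Fintype n] [DecidableEq n]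

/-- The data of a good triangle of slices. -/
structure Base (A1 A2 A3 : (n → ℂ) →ₗ[ℂ] (m → ℂ)) (σ : (m → ℂ) →ₗ[ℂ] (n → ℂ))
    (K W0 : Submodule ℂ (n → ℂ)) (X0 : Submodule ℂ (m → ℂ))
    (M N h γ γ' g g' κ k ks r ρ t q : ℕ) : Prop where
  nm : Nums M N h γ γ' g g' κ k ks r ρ t q
  hM : Fintype.card m = M
  hN : Fintype.card n = N
  g1 : dm (ker A1) = γ
  g2 : dm (ker A2) = g
  g3 : dm (ker A3) = g
  sig : ∀ v, A1 (σ (A1 v)) = A1 v
  K2 : ∀ v ∈ K, A2 v = 0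
  K3 : ∀ v ∈ K, A3 v = 0
  KK : ∀ v, A2 v = 0 → A3 v = 0 → v ∈ K
  dK : dm K = κ
  KN : ∀ v ∈ K, A1 v = 0 → v = 0
  hr : ∀ x1 x2 x3 : ℂ, x1 ≠ 0 ∨ x2 ≠ 0 ∨ x3 ≠ 0 → r ≤ dm (range (x1 • A1 + x2 • A2 + x3 • A3))
  hρ : ∀ a b : ℂ, a ≠ 0 ∨ b ≠ 0 → ρ ≤ dm (range (a • A2 + b • A3))
  l1 : ∀ a b : ℂ, a ≠ 0 ∨ b ≠ 0 → ∀ η, tr A1 η = 0 → tr (a • A2 + b • A3) η = 0 → η = 0
  l2 : ∀ x1 x2 x3 : ℂ, x1 ≠ 0 ∨ x3 ≠ 0 → ∀ η, tr A2 η = 0 →
    tr (x1 • A1 + x2 • A2 + x3 • A3) η = 0 → η = 0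
  l3 : ∀ x1 x2 x3 : ℂ, x1 ≠ 0 ∨ x2 ≠ 0 → ∀ η, tr A3 η = 0 →
    tr (x1 • A1 + x2 • A2 + x3 • A3) η = 0 → η = 0
  n2 : γ ≤ dm ((ker A1).map A2) + ks
  n3 : γ ≤ dm ((ker A1).map A3) + ks
  W2 : ∀ w ∈ W0, A2 w ∈ range A1
  W3 : ∀ w ∈ W0, A3 w ∈ range A1
  dW : N ≤ dm W0 + 2 * γ'
  dW2 : g ≤ dm (W0 ⊓ ker A2) + γ'
  dW3 : g ≤ dm (W0 ⊓ ker A3) + γ'
  X2 : X0 ≤ perp ((ker A1).map A2)
  X3 : X0 ≤ perp ((ker A1).map A3)
  dX : M + k + ks ≤ dm X0 + 2 * γ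
  s2 : q ≠ 0 → ∀ β : ℂ, 2 * h ≤ dm (range (β • A1 + A2))
  s3 : q ≠ 0 → ∀ β : ℂ, 2 * h ≤ dm (range (β • A1 + A3))
  x1 : q ≠ 0 → ∀ x1 x2 x3 : ℂ, x1 ≠ 0 ∨ x2 ≠ 0 ∨ x3 ≠ 0 →
    q + 3 ≤ dm (X0.map (tr (x1 • A1 + x2 • A2 + x3 • A3)))
  u1 : t ≠ 0 → ∀ x1 x2 x3 : ℂ, x1 ≠ 0 ∨ x2 ≠ 0 ∨ x3 ≠ 0 →
    κ + t + 3 + 2 * q ≤ dm (W0.map (x1 • A1 + x2 • A2 + x3 • A3))

variable {A1 A2 A3 : (n → ℂ) →ₗ[ℂ] (m → ℂ)} {σ : (m → ℂ) →ₗ[ℂ] (n → ℂ)}
  {K W0 : Submodule ℂ (n → ℂ)} {X0 T : Submodule ℂ (m → ℂ)} {M N h γ γ' g g' κ k ks r ρ t q : ℕ}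

theorem Base.swap (b : Base A1 A2 A3 σ K W0 X0 M N h γ γ' g g' κ k ks r ρ t q) :
    Base A1 A3 A2 σ K W0 X0 M N h γ γ' g g' κ k ks r ρ t q :=
  { b with
    g2 := b.g3
    g3 := b.g2
    K2 := b.K3
    K3 := b.K2
    KK := fun v h1 h2 => b.KK v h2 h1
    hr := fun x1 x2 x3 hx => by rw [add_right_comm]; exact b.hr x1 x3 x2 (by tauto)
    hρ := fun a c hx => by rw [add_comm]; exact b.hρ c a hx.symm
    l1 := fun a c hx => by rw [add_comm]; exact b.l1 c a hx.symm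
    l2 := fun x1 x2 x3 hx => by rw [add_right_comm]; exact b.l3 x1 x3 x2 hx
    l3 := fun x1 x2 x3 hx => by rw [add_right_comm]; exact b.l2 x1 x3 x2 hx
    n2 := b.n3
    n3 := b.n2
    W2 := b.W3
    W3 := b.W2
    dW2 := b.dW3
    dW3 := b.dW2
    X2 := b.X3
    X3 := b.X2
    s2 := b.s3
    s3 := b.s2
    x1 := fun q0 x1 x2 x3 hx => by rw [add_right_comm]; exact b.x1 q0 x1 x3 x2 (by tauto)
    u1 := fun t0 x1 x2 x3 hx => by
      rw [add_right_comm (x1 • A1)]; exact b.u1 t0 x1 x3 x2 (by tauto) }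

namespace Base

variable (b : Base A1 A2 A3 σ K W0 X0 M N h γ γ' g g' κ k ks r ρ t q)
include b

theorem sig' {v : m → ℂ} (hv : v ∈ range A1) : A1 (σ v) = v := by
  obtain ⟨w, rfl⟩ := hv
  exact b.sig w

theorem c1 : dm (ker (tr A1)) = γ' := by
  have := dm_rk A1
  have := dm_rk' A1
  have := b.nm.e1
  have := b.g1
  have := b.hM
  have := b.hN
  omega

theorem c2 : dm (ker (tr A2)) = g' := by
  have := dm_rk A2
  have := dm_rk' A2
  have := b.nm.e2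
  have := b.g2
  have := b.hM
  have := b.hN
  omega

theorem hrM {a c : ℂ} (ha : a ≠ 0 ∨ c ≠ 0) : r ≤ dm (range (a • A2 + c • A3)) := by
  have := b.hr 0 a c (Or.inr ha)
  rwa [zero_smul, zero_add] at this

theorem k12 : dm (ker A1 ⊓ ker A2) ≤ ks := by
  have := dm_map_ker A2 (ker A1)
  have := b.n2
  have := b.g1
  omega

end Base

/-- The rationality of the basic data. -/
def Rat0 (A1 A2 A3 : (n → ℂ) →ₗ[ℂ] (m → ℂ)) (σ : (m → ℂ) →ₗ[ℂ] (n → ℂ))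
    (K : Submodule ℂ (n → ℂ)) (T : Submodule ℂ (m → ℂ)) (E : Subfield ℂ) : Prop :=
  RM E A1 ∧ RM E A2 ∧ RM E A3 ∧ RM E σ ∧ RM E (tr A1) ∧ RM E (tr A2) ∧ RM E (tr A3) ∧
    RS E K ∧ RS E T

theorem ev_rat0 : Ev (Rat0 A1 A2 A3 σ K T) :=
  (ev_rm A1).and ((ev_rm A2).and ((ev_rm A3).and ((ev_rm σ).and ((ev_rm _).and ((ev_rm _).and
    ((ev_rm _).and ((ev_rs K).and (ev_rs T))))))))

theorem Rat0.swap {E : Subfield ℂ} (r : Rat0 A1 A2 A3 σ K T E) : Rat0 A1 A3 A2 σ K T E := by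
  obtain ⟨r1, r2, r3, r4, r5, r6, r7, r8⟩ := r
  exact ⟨r1, r3, r2, r4, r5, r7, r6, r8⟩

theorem Rat0.mono {E E' : Subfield ℂ} (r : Rat0 A1 A2 A3 σ K T E) (e : E ≤ E') :
    Rat0 A1 A2 A3 σ K T E' := by
  obtain ⟨r1, r2, r3, r4, r5, r6, r7, r8, r9⟩ := r
  exact ⟨r1.mono e, r2.mono e, r3.mono e, r4.mono e, r5.mono e, r6.mono e, r7.mono e, r8.mono e,
    r9.mono e⟩

theorem Rat0.te {E : Subfield ℂ} (r : Rat0 A1 A2 A3 σ K T E) {Te : Submodule ℂ (m → ℂ)}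
    (hT : Te = ⊥ ∨ Te = T) : RS E Te := by
  rcases hT with rfl | rfl
  · exact RS.bot
  · exact r.2.2.2.2.2.2.2.2

/-- Properties of the generic space of killed rows. -/
structure StX (A1 A2 A3 : (n → ℂ) →ₗ[ℂ] (m → ℂ)) (h γ' κ t q : ℕ)
    (ξ : (Fin q → ℂ) →ₗ[ℂ] (m → ℂ)) : Prop where
  n2 : ∀ y v, A1 v = 0 → ξ y ⬝ᵥ A2 v = 0
  xall : ∀ θ y2 y3, tr A1 (ξ θ) + tr A2 (ξ y2) + tr A3 (ξ y3) = 0 → θ = 0 ∧ y2 = 0 ∧ y3 = 0
  x3 : dm (((ker (tr A2)).map (tr A1)).comap (tr A3 ∘ₗ ξ)) + h ≤ t + κ + γ' + 4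

theorem stX (b : Base A1 A2 A3 σ K W0 X0 M N h γ γ' g g' κ k ks r ρ t q) {E : Subfield ℂ}
    {Φ : Fin q → m → ℂ} (p : Rat0 A1 A2 A3 σ K T E) (hΦ : GenIn E Φ (cols (Fin q) X0) 0) :
    StX A1 A2 A3 h γ' κ t q (lin Φ) := by
  have dX := b.dX
  have hM := b.hM
  obtain ⟨_, _, _, _, r1, r2, r3, _⟩ := p
  refine ⟨fun y v hv => b.X2 (lin_mem hΦ.mem y) _ ⟨v, hv, rfl⟩, fun θ y2 y3 h4 => ?_, ?_⟩
  · by_cases q0 : q = 0
    · exact ⟨fin_zero q0 θ, fin_zero q0 y2, fin_zero q0 y3⟩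
    have m1 := dm_le_map_add (tr A1) X0
    have n13 := b.nm.n13 q0
    have n14 := b.nm.n14 q0
    rw [b.c1] at m1
    obtain ⟨α, β, rfl⟩ := g3' hΦ r1 r2 r3 h4 (by rw [Fintype.card_fin]; omega)
    obtain ⟨E1, e1, hα, hβ⟩ := ext2 E α β
    have a1 := dm_le_map_add (tr (β • A1 + A3)) X0
    have a2 := b.s3 q0 β
    have a3 := dm_rk' (β • A1 + A3)
    obtain ⟨μ, rfl⟩ := g2' (hΦ.ext e1) (f := tr (β • A1 + A3))
      (by rw [tr_add, tr_smul]; exact ((r1.mono e1.le).smul hβ).add (r3.mono e1.le))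
      (((r1.mono e1.le).smul hα).add (r2.mono e1.le)) RS.bot (y := y3) (z := y2) (by
        rw [Submodule.mem_bot, tr_add, tr_smul]
        simp only [map_add, map_smul, LinearMap.add_apply, LinearMap.smul_apply] at h4 ⊢
        linear_combination (norm := module) h4) (by rw [Fintype.card_fin, dm_bot]; omega)
    obtain ⟨E2, e2, h1, h2, h3⟩ := ext3 E (α + β * μ) 1 μ
    have hy : y2 = 0 := by
      refine g1e (hΦ.ext e2) (rm_trsl (r1.mono e2.le) (r2.mono e2.le) (r3.mono e2.le) h1 h2 h3)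
        RS.bot ?_ ?_
      · rw [Submodule.mem_bot, tr_sl]
        simp only [map_add, map_smul] at h4
        linear_combination (norm := module) h4
      · have := b.x1 q0 (α + β * μ) 1 μ (by simp)
        rw [Fintype.card_fin, sup_bot_eq, dm_bot]
        omega
    simp [hy]
  · have a1 := g1 hΦ r3 (RS.map r1 (RS.ker r2))
    have a2 := dm_le (((ker (tr A2)).map (tr A1)).comap (tr A3 ∘ₗ lin Φ))
    have a3 := dm_map_le (tr A1) (ker (tr A2))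
    have a4 := dm_mono (le_sup_left : X0.map (tr A3) ≤ _ ⊔ (ker (tr A2)).map (tr A1))
    have m3 := dm_le_map_add (tr A3) X0
    have ht := b.nm.ht
    have n15 := b.nm.n15
    rw [b.c2] at a3
    rw [b.swap.c2] at m3
    rw [card_fun] at a2
    rw [Fintype.card_fin] at a1 a2
    omega

end Pool.Agent.P.MP_098a67_ag.R3
end

-- part Pool.Agent.P.MP_098a67_ag.R3.StU
section

namespace Pool.Agent.P.MP_098a67_ag.R3

open Module T3
open LinearMap (ker range)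

variable {m n : Type} [Fintype m] [DecidableEq m] [Fintype n] [DecidableEq n]

/-- Properties of the generic space of killed columns. -/
structure StU (A1 A2 A3 : (n → ℂ) →ₗ[ℂ] (m → ℂ)) (σ : (m → ℂ) →ₗ[ℂ] (n → ℂ))
    (K : Submodule ℂ (n → ℂ)) (T : Submodule ℂ (m → ℂ)) (M N h γ κ ks t q : ℕ)
    (u : (Fin t → ℂ) →ₗ[ℂ] (n → ℂ)) : Prop where
  w2 : ∀ y, A2 (u y) ∈ range A1
  up : ∀ r1 r2 : ℂ, r1 ≠ 0 ∨ r2 ≠ 0 → ∀ y y',
    r1 • A1 (u y) + r2 • A2 (u y) + A3 (u y') ∈ K.map A1 → y = 0 ∧ y' = 0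
  u23 : ∀ a b : ℂ, a ≠ 0 → ∀ Te, Te = ⊥ ∨ Te = T →
    γ ≤ dm ((ker A1).map (a • A2 + b • A3) ⊔ Te) + ks →
    ∀ D : Submodule ℂ (((Fin t → ℂ) × (Fin t → ℂ)) × (Fin t → ℂ)),
    (∀ ω ∈ D, a • A2 (u ω.1.1) - (a • A2 + b • A3) (σ (A2 (u ω.1.2))) ∈
      (ker A1).map (a • A2 + b • A3) ⊔ Te) →
    (∀ ω ∈ D, A1 (u ω.1.1) - A2 (u ω.1.2) + A3 (u ω.2) ∈ K.map A1) →
    dm D + h ≤ dm ((ker A1).map (a • A2 + b • A3) ⊔ Te) + q + 4
  u2 : ∀ x1 x2 x3 : ℂ, x1 ≠ 0 ∨ x2 ≠ 0 →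
    dm ((range (A3 ∘ₗ u)).comap (x1 • A1 + x2 • A2 + x3 • A3)) + q + h ≤ N
  u3 : dm (((ker A2).map A1).comap (A3 ∘ₗ u)) + dm (ker A1 ⊓ ker A2) + h ≤ q + γ + 4
  u4 : ∀ a b : ℂ, a ≠ 0 →
    dm (ker (tr (a • A2 + b • A3)) ⊓ perp (range (A3 ∘ₗ u))) + q + t + h ≤ M + 2
  uΓ : t ≠ 0 → ∀ a b : ℂ, a ≠ 0 ∨ b ≠ 0 → ∀ Te, Te = ⊥ ∨ Te = T →
    γ ≤ dm ((ker A1).map (a • A2 + b • A3) ⊔ Te) + ks → ∀ f, N ≤ 2 * f + 1 + κ + 2 * t + γ →
    t + h ≤ dm (range (A3 ∘ₗ u) ⊔ (range (((a • A2 + b • A3) ∘ₗ σ ∘ₗ A3) ∘ₗ u) ⊔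
      ((ker A1).map (a • A2 + b • A3) ⊔ Te))) + f + 2

variable {A1 A2 A3 : (n → ℂ) →ₗ[ℂ] (m → ℂ)} {σ : (m → ℂ) →ₗ[ℂ] (n → ℂ)}
  {K W0 W : Submodule ℂ (n → ℂ)} {X0 T : Submodule ℂ (m → ℂ)} {M N h γ γ' g g' κ k ks r ρ t q : ℕ}
  {E : Subfield ℂ} {Φ : Fin t → n → ℂ}

theorem g1r {V Y : Type} [AddCommGroup V] [Module ℂ V] [Co V] [AddCommGroup Y] [Module ℂ Y] [Co Y]
    {Φ : Fin t → V} {S : Submodule ℂ V} {s : ℕ} (h : GenIn E Φ (cols (Fin t) S) s) {f : V →ₗ[ℂ] Y}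
    (rf : RM E f) {D : Submodule ℂ Y} (rD : RS E D) :
    dm D + t ≤ dm (range (f ∘ₗ lin Φ) ⊔ D) ∨ dm (S.map f ⊔ D) ≤ dm (range (f ∘ₗ lin Φ) ⊔ D) + s := by
  have a1 := g1 h rf rD
  have a2 := dm_comap_top (f ∘ₗ lin Φ) D
  rw [card_fun] at a2
  rw [Fintype.card_fin] at a1 a2
  omega

theorem prod_bound (f f' k : (n → ℂ) →ₗ[ℂ] (m → ℂ)) (W : Submodule ℂ (n → ℂ))
    (D : Submodule ℂ ((m → ℂ) × (m → ℂ))) :
    dm (W.map f') + dm (W.map k) ≤ dm (W.map (f.prod f') ⊔ W.map (k.prod 0) ⊔ D) := by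
  have b1 : W.map (f.prod f') ≤ W.map (f.prod f') ⊔ W.map (k.prod 0) ⊔ D :=
    le_sup_left.trans le_sup_left
  have b2 : W.map (k.prod 0) ≤ W.map (f.prod f') ⊔ W.map (k.prod 0) ⊔ D :=
    le_sup_right.trans le_sup_left
  generalize W.map (f.prod f') ⊔ W.map (k.prod 0) ⊔ D = Q at b1 b2 ⊢
  have a2 := dm_map_ker (LinearMap.snd ℂ _ _) Q
  have a3 : dm (W.map f') ≤ dm (Q.map (LinearMap.snd ℂ _ _)) := dm_mono (by
    rintro _ ⟨v, hv, rfl⟩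
    exact ⟨_, b1 ⟨v, hv, rfl⟩, rfl⟩)
  have a4 : dm (W.map k) ≤ dm (Q ⊓ ker (LinearMap.snd ℂ _ _)) :=
    dm_le_of_inj (LinearMap.inl ℂ _ _) (by
      rintro _ ⟨v, hv, rfl⟩
      exact ⟨b2 ⟨v, hv, rfl⟩, rfl⟩)
      fun v _ e => congrArg Prod.fst e
  omega

section

variable (b : Base A1 A2 A3 σ K W0 X0 M N h γ γ' g g' κ k ks r ρ t q) (hW : W ≤ W0)
  (dW : dm W0 ≤ dm W + 2 * q) (p : Rat0 A1 A2 A3 σ K T E) (hΦ : GenIn E Φ (cols (Fin t) W) 0)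
include b hW dW

theorem lam (t0 : t ≠ 0) {x1 x2 x3 : ℂ} (hx : x1 ≠ 0 ∨ x2 ≠ 0) :
    dm (ker (tr (x1 • A1 + x2 • A2 + x3 • A3)) ⊓ perp (W.map A3)) + h + t + q + 4 ≤ M := by
  have a1 := b.hr x1 x2 x3 (by tauto)
  have a2 := dm_rk' (x1 • A1 + x2 • A2 + x3 • A3)
  have a3 := dm_mono (inf_le_left :
    ker (tr (x1 • A1 + x2 • A2 + x3 • A3)) ⊓ perp (W.map A3) ≤ _)
  have a4 := dm_le_of_inj (tr A3) (S := ker (tr (x1 • A1 + x2 • A2 + x3 • A3)) ⊓ perp (W.map A3))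
    (T := perp W) (fun η hη => by
      have := hη.2
      rwa [perp_map] at this) fun η hη e => b.l3 x1 x2 x3 hx η e hη.1
  have a5 := dm_perp W
  have a6 := b.nm.n3 t0
  have a7 := b.dW
  have a8 := b.hM
  have a9 := b.hN
  omega

theorem m3 : M ≤ dm (W.map A3) + g' + 2 * γ' + 2 * q := by
  have a1 := dm_le_map_add A3 W
  have a2 := b.g3
  have a3 := b.dW
  have a4 := b.nm.e2
  omega

include p hΦ

theorem up_U {x1 x2 : ℂ} (hx : x1 ≠ 0 ∨ x2 ≠ 0) (y y' : Fin t → ℂ)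
    (hy : x1 • A1 (lin Φ y) + x2 • A2 (lin Φ y) + A3 (lin Φ y') ∈ K.map A1) : y = 0 ∧ y' = 0 := by
  by_cases t0 : t = 0
  · exact ⟨fin_zero t0 y, fin_zero t0 y'⟩
  have dK : dm (K.map A1) ≤ κ := b.dK ▸ dm_map_le A1 K
  obtain ⟨E1, e1, h1, h2⟩ := ext2 E x1 x2
  obtain ⟨r1, r2, r3, _, _, _, _, rK, _⟩ := p.mono e1.le
  have a1 := m3 b hW dW
  have a2 := b.nm.n2 t0
  obtain ⟨a, rfl⟩ := g2' (hΦ.ext e1) r3 ((r1.smul h1).add (r2.smul h2)) (RS.map r1 rK)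
    (y := y') (z := y) (by rw [add_comm]; exact hy) (by rw [Fintype.card_fin]; omega)
  have : y = 0 := by
    obtain ⟨E2, e2, h1, h2, h3⟩ := ext3 E x1 x2 a
    obtain ⟨r1, r2, r3, _, _, _, _, rK, _⟩ := p.mono e2.le
    refine g1e (hΦ.ext e2) (rm_sl r1 r2 r3 h1 h2 h3) (RS.map r1 rK) (by simpa using hy) ?_
    have a3 := b.u1 t0 x1 x2 a (by tauto)
    have a4 := dm_map_ge (x1 • A1 + x2 • A2 + a • A3) hW ⊥
    have a5 := dm_mono (le_sup_left : W.map (x1 • A1 + x2 • A2 + a • A3) ≤ _ ⊔ K.map A1)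
    rw [sup_bot_eq, sup_bot_eq] at a4
    rw [Fintype.card_fin]
    omega
  simp [this]

theorem u23_U {a c : ℂ} (ha : a ≠ 0) {Te : Submodule ℂ (m → ℂ)} (hT : Te = ⊥ ∨ Te = T)
    (hΓ : γ ≤ dm ((ker A1).map (a • A2 + c • A3) ⊔ Te) + ks)
    (D : Submodule ℂ (((Fin t → ℂ) × (Fin t → ℂ)) × (Fin t → ℂ)))
    (h2 : ∀ ω ∈ D, a • A2 (lin Φ ω.1.1) - (a • A2 + c • A3) (σ (A2 (lin Φ ω.1.2))) ∈
      (ker A1).map (a • A2 + c • A3) ⊔ Te)
    (h1 : ∀ ω ∈ D, A1 (lin Φ ω.1.1) - A2 (lin Φ ω.1.2) + A3 (lin Φ ω.2) ∈ K.map A1) :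
    dm D + h ≤ dm ((ker A1).map (a • A2 + c • A3) ⊔ Te) + q + 4 := by
  have hq := b.nm.hq
  have up := fun x1 x2 hx => up_U b hW dW p hΦ (x1 := x1) (x2 := x2) hx
  have d0 : dm (D.map (LinearMap.fst ℂ _ _)) = dm D := dm_map_eq fun ω hω e => by
    have e1 := h1 ω hω
    have e2 : ω.1 = 0 := e
    rw [e2] at e1
    exact Prod.ext e2 (up 1 0 (Or.inl one_ne_zero) 0 ω.2 (by simpa using e1)).2
  by_cases h0 : D.map (LinearMap.fst ℂ _ _) ≤ ⊥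
  · have := dm_zero h0
    omega
  obtain ⟨_, ⟨⟨⟨w, y2⟩, y3⟩, hω, rfl⟩, o2, E1, s, e1, o3, o4⟩ := pv1 (RS.top (E := E)) le_top h0
  replace h1 := h1 _ hω
  replace h2 := h2 _ hω
  dsimp only at h1 h2
  rw [LinearMap.fst_apply] at o2 o4
  obtain ⟨o5, o6⟩ := rv_prod.1 o4
  dsimp only at o2 o5 o6
  rw [Submodule.mem_bot] at o2
  rw [dm_top, Module.finrank_prod, card_fun, Fintype.card_fin] at o3
  have t0 : t ≠ 0 := fun t0 => o2 (Prod.ext (fin_zero t0 _) (fin_zero t0 _))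
  have hw : w ∉ ℂ ∙ y2 := fun e => by
    obtain ⟨μ, rfl⟩ := Submodule.mem_span_singleton.1 e
    have := (up μ (-1) (Or.inr (by simp)) y2 y3 (by simpa [sub_eq_add_neg] using h1)).1
    exact o2 (by simp [this])
  have hy2 : y2 ∉ ℂ ∙ w := fun e => by
    obtain ⟨μ, rfl⟩ := Submodule.mem_span_singleton.1 e
    have := (up 1 (-μ) (Or.inl one_ne_zero) w y3 (by simpa [sub_eq_add_neg] using h1)).1
    exact o2 (by simp [this])
  have dK : dm (K.map A1) ≤ κ := b.dK ▸ dm_map_le A1 K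
  have m2 := m3 b.swap hW dW
  have dW0 := b.dW
  obtain ⟨E2, e2, ha2, hc2⟩ := ext2 E1 a c
  have l2 := e1.le.trans e2.le
  obtain ⟨r1, r2, r3, rσ, _, _, _, rK, _⟩ := p.mono l2
  have rM := (r2.smul ha2).add (r3.smul hc2)
  have rΓ := (RS.map rM (RS.ker r1)).sup ((p.mono l2).te hT)
  rcases b.nm.n4 t0 with n4 | ⟨q0, n4, n5⟩
  · have a1 := g2 ((hΦ.ext e1).ext e2) (r2.smul ha2) (rM.comp (rσ.comp r2)).neg rΓ (o5.mono e2.le)
      (o6.mono e2.le) hw (by rw [sub_eq_add_neg] at h2; exact h2)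
    have a2 := dm_mono (le_sup_left : W.map A2 ≤ _ ⊔ ((ker A1).map (a • A2 + c • A3) ⊔ Te))
    rw [Submodule.map_smul _ _ _ ha] at a1
    omega
  by_cases hy3 : y3 ∈ pen y2 w
  · obtain ⟨β, α, rfl⟩ := mem_pen.1 hy3
    obtain ⟨E3, e3, hα, hβ⟩ := ext2 E2 α β
    have a1 := g2 (((hΦ.ext e1).ext e2).ext e3)
      (((r2.mono e3.le).smul (neg_mem (one_mem E3))).add ((r3.mono e3.le).smul hβ))
      ((r1.mono e3.le).add ((r3.mono e3.le).smul hα)) ((RS.map r1 rK).mono e3.le)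
      (o6.mono (e2.le.trans e3.le)) (o5.mono (e2.le.trans e3.le)) hy2 (by
        have : ((-1 : ℂ) • A2 + β • A3) (lin Φ y2) + (A1 + α • A3) (lin Φ w) =
            A1 (lin Φ w) - A2 (lin Φ y2) + A3 (lin Φ (β • y2 + α • w)) := by
          simp only [map_add, map_smul, LinearMap.add_apply, LinearMap.smul_apply]
          module
        rwa [this])
    have a2 := b.hρ (-1) β (Or.inl (by simp))
    have a3 := dm_map_sup_le ((-1 : ℂ) • A2 + β • A3) W (K.map A1)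
    have a4 := dm_mono (le_sup_left : range ((-1 : ℂ) • A2 + β • A3) ≤ _ ⊔ K.map A1)
    rw [card_fun, b.hN] at a3
    omega
  · obtain ⟨E3, e3, o7⟩ := ext_vec E2 y3
    have l3 := e2.le.trans e3.le
    have a1 := g3s (((hΦ.ext e1).ext e2).ext e3) ((r1.prod (r2.smul ha2)).mono e3.le)
      ((r2.prod (rM.comp (rσ.comp r2))).neg.mono e3.le) ((r3.prod RM.zero).mono e3.le)
      (((RS.map r1 rK).prod rΓ).mono e3.le) (o5.mono l3) (o6.mono l3) o7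
      (fun e => hy3 (exch e hw)) hy3 ⟨by simpa [sub_eq_add_neg] using h1,
        by simpa [sub_eq_add_neg] using h2⟩
    have a3 := prod_bound A1 (a • A2) A3 W
      ((K.map A1).prod ((ker A1).map (a • A2 + c • A3) ⊔ Te))
    have a5 := dm_map_ker A2 W
    have a6 := dm_le_add A3 LinearMap.id (S := W ⊓ ker A2) (T := W.map A3) (K := K)
      (fun v hv => ⟨v, hv.1, rfl⟩) (fun v hv e => b.KK v hv.2 e) fun _ _ _ e => e
    have a7 := b.dK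
    rw [Submodule.map_smul _ _ _ ha] at a3
    rw [dm_prod, Fintype.card_fin] at a1
    omega

theorem stU : StU A1 A2 A3 σ K T M N h γ κ ks t q (lin Φ) := by
  have hM := b.hM
  have hN := b.hN
  have hq := b.nm.hq
  have n1 := b.nm.n1
  have m3 := m3 b hW dW
  have dW0 := b.dW
  refine ⟨fun y => b.W2 _ (hW (lin_mem hΦ.mem y)), fun x1 x2 hx => up_U b hW dW p hΦ hx,
    fun a c ha Te hT => u23_U b hW dW p hΦ ha hT, fun x1 x2 x3 hx => ?_, ?_, fun a c ha => ?_,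
    fun t0 a c hac Te hT hΓ f hf => ?_⟩
  · obtain ⟨E1, e1, h1, h2, h3⟩ := ext3 E x1 x2 x3
    obtain ⟨r1, r2, r3, _⟩ := p.mono e1.le
    have a1 := b.hr x1 x2 x3 (by tauto)
    have a2 := fun t0 => lam b hW dW t0 (x3 := x3) hx
    have a3 := g1 (hΦ.ext e1) r3 (RS.range (rm_sl r1 r2 r3 h1 h2 h3))
    generalize x1 • A1 + x2 • A2 + x3 • A3 = B at a1 a2 a3 ⊢
    have a4 := dm_comap_top B (range (A3 ∘ₗ lin Φ))
    have a5 := dm_sup_inf (range B) (range (A3 ∘ₗ lin Φ))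
    have a6 : dm (range B ⊓ range (A3 ∘ₗ lin Φ)) ≤ dm ((range B).comap (A3 ∘ₗ lin Φ)) :=
      dm_le_of_surj (A3 ∘ₗ lin Φ) (by
        rintro _ ⟨h1, y, rfl⟩
        exact ⟨y, h1, rfl⟩)
    have a8 := dm_perp (W.map A3 ⊔ range B)
    have a10 := dm_le ((range B).comap (A3 ∘ₗ lin Φ))
    rw [perp_sup, perp_range, inf_comm] at a8
    rw [card_fun] at a4 a10
    rw [Fintype.card_fin] at a3 a10
    omega
  · obtain ⟨r1, r2, r3, _⟩ := p
    have a1 := g1 hΦ r3 (RS.map r1 (RS.ker r2))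
    have a2 := dm_le (((ker A2).map A1).comap (A3 ∘ₗ lin Φ))
    have a3 := dm_mono (le_sup_left : W.map A3 ≤ _ ⊔ (ker A2).map A1)
    have a4 := dm_map_ker A1 (ker A2)
    have a5 := b.k12
    have a6 := dm_le_add A3 LinearMap.id (S := W ⊓ ker A2) (T := W.map A3) (K := K)
      (fun v hv => ⟨v, hv.1, rfl⟩) (fun v hv e => b.KK v hv.2 e) fun _ _ _ e => e
    have a7 := dm_sup_inf W (W0 ⊓ ker A2)
    have a8 := dm_mono (sup_le hW inf_le_left : W ⊔ W0 ⊓ ker A2 ≤ W0)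
    have a9 := dm_mono (inf_le_inf_left W (inf_le_right : W0 ⊓ ker A2 ≤ _))
    have a10 := b.dW2
    have a11 := b.nm.n5
    have a12 := b.dK
    have a13 := b.g2
    rw [inf_comm (ker A2)] at a4
    rw [card_fun] at a2
    rw [Fintype.card_fin] at a1 a2
    omega
  · obtain ⟨E1, e1, ha1, hc1⟩ := ext2 E a c
    obtain ⟨_, _, _, _, _, r2, r3, _⟩ := p.mono e1.le
    have a1 := b.hrM (a := a) (c := c) (Or.inl ha)
    have a2 := fun t0 => lam b hW dW t0 (x1 := 0) (x3 := c) (Or.inr ha)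
    have a4 := dm_rk' (a • A2 + c • A3)
    rw [zero_smul, zero_add] at a2
    have a3 := dm_mono (inf_le_left :
      ker (tr (a • A2 + c • A3)) ⊓ perp (range (A3 ∘ₗ lin Φ)) ≤ _)
    rcases gf (hΦ.ext e1) r3 (RS.ker (rm_trM r2 r3 ha1 hc1))
      (D := ker (tr (a • A2 + c • A3)) ⊓ perp (range (A3 ∘ₗ lin Φ))) inf_le_left (fun η hη => by
        have := hη.2
        rwa [LinearMap.range_comp, perp_map] at this) with h1 | h1
    · rw [← perp_map] at h1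
      have a5 := dm_mono (le_inf inf_le_left h1)
      omega
    · rw [Fintype.card_fin] at h1
      omega
  · obtain ⟨E1, e1, ha1, hc1⟩ := ext2 E a c
    obtain ⟨r1, r2, r3, rσ, _⟩ := p.mono e1.le
    have rM := (r2.smul ha1).add (r3.smul hc1)
    have rΓ := (RS.map rM (RS.ker r1)).sup ((p.mono e1.le).te hT)
    have a1 := g1r (hΦ.ext e1) r3 rΓ
    have a2 := g1r (hΦ.ext e1) (rM.comp (rσ.comp r3)) rΓ
    have a3 := b.hρ a c hac
    generalize a • A2 + c • A3 = B at *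
    have a4 := dm_mono (sup_le_sup_left (le_sup_right : (ker A1).map B ⊔ Te ≤
      range ((B ∘ₗ σ ∘ₗ A3) ∘ₗ lin Φ) ⊔ _) (range (A3 ∘ₗ lin Φ)))
    have a5 := dm_mono (le_sup_right : range ((B ∘ₗ σ ∘ₗ A3) ∘ₗ lin Φ) ⊔ ((ker A1).map B ⊔ Te) ≤
      range (A3 ∘ₗ lin Φ) ⊔ _)
    have a6 : dm (ker A1 ⊔ W.map (σ ∘ₗ A3)) = dm (ker A1) + dm (W.map (σ ∘ₗ A3)) :=
      dm_sup_eq (by
        rintro _ h0 ⟨w, hw, rfl⟩
        have h2 : A1 (σ (A3 w)) = 0 := h0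
        rw [b.sig' (b.W3 w (hW hw))] at h2
        simp [h2])
    have a7 : dm (W.map A3) ≤ dm (W.map (σ ∘ₗ A3)) := dm_le_of_surj A1 (by
      rintro _ ⟨w, hw, rfl⟩
      exact ⟨_, ⟨w, hw, rfl⟩, b.sig' (b.W3 w (hW hw))⟩)
    have a8 := dm_le_map_add B (ker A1 ⊔ W.map (σ ∘ₗ A3))
    have a9 : (ker A1 ⊔ W.map (σ ∘ₗ A3)).map B ≤ W.map (B ∘ₗ σ ∘ₗ A3) ⊔ ((ker A1).map B ⊔ Te) := by
      rw [Submodule.map_sup, ← Submodule.map_comp]
      exact sup_le (le_sup_left.trans le_sup_right) le_sup_left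
    have a10 := dm_mono a9
    have a11 := dm_mono (le_sup_left : W.map A3 ≤ _ ⊔ ((ker A1).map B ⊔ Te))
    have a12 := dm_rk B
    have a13 := b.nm.n6 t0
    have a14 := b.nm.n7 (Or.inl t0)
    have a15 := b.g1
    have a16 := b.nm.e1
    omega

end

end Pool.Agent.P.MP_098a67_ag.R3
end

-- part Pool.Agent.P.MP_098a67_ag.R3.StF
section

namespace Pool.Agent.P.MP_098a67_ag.R3

open Module T3
open LinearMap (ker range)

variable {m n : Type} [Fintype m] [DecidableEq m] [Fintype n] [DecidableEq n]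

/-- The fixed part of the column decomposition. -/
noncomputable def Cs (A1 : (n → ℂ) →ₗ[ℂ] (m → ℂ)) (σ : (m → ℂ) →ₗ[ℂ] (n → ℂ))
    (A : (n → ℂ) →ₗ[ℂ] (m → ℂ)) (K : Submodule ℂ (n → ℂ)) {t : ℕ}
    (u : (Fin t → ℂ) →ₗ[ℂ] (n → ℂ)) : Submodule ℂ (n → ℂ) :=
  ker A1 ⊔ K ⊔ range (σ ∘ₗ A ∘ₗ u)

/-- A block of columns. -/
noncomputable def Hs (σ : (m → ℂ) →ₗ[ℂ] (n → ℂ)) (A : (n → ℂ) →ₗ[ℂ] (m → ℂ)) {t f : ℕ}
    (u : (Fin t → ℂ) →ₗ[ℂ] (n → ℂ))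
    (F : Fin f → n → ℂ) : Submodule ℂ (n → ℂ) :=
  range (σ ∘ₗ A ∘ₗ u) ⊔ range (lin F)

theorem mem_Hs {σ : (m → ℂ) →ₗ[ℂ] (n → ℂ)} {A : (n → ℂ) →ₗ[ℂ] (m → ℂ)}
    {t f : ℕ} {u : (Fin t → ℂ) →ₗ[ℂ] (n → ℂ)}
    {F : Fin f → n → ℂ} {v : n → ℂ} : v ∈ Hs σ A u F ↔ ∃ y x, σ (A (u y)) + lin F x = v := by
  constructor
  · intro hv
    obtain ⟨_, ⟨y, rfl⟩, _, ⟨x, rfl⟩, rfl⟩ := Submodule.mem_sup.1 hv
    exact ⟨y, x, rfl⟩
  · rintro ⟨y, x, rfl⟩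
    exact Submodule.add_mem_sup ⟨y, rfl⟩ ⟨x, rfl⟩

theorem mem_Cs {A1 A : (n → ℂ) →ₗ[ℂ] (m → ℂ)} {σ : (m → ℂ) →ₗ[ℂ] (n → ℂ)}
    {K : Submodule ℂ (n → ℂ)} {t : ℕ}
    {u : (Fin t → ℂ) →ₗ[ℂ] (n → ℂ)} {v : n → ℂ} :
    v ∈ Cs A1 σ A K u ↔ ∃ ν κ y, A1 ν = 0 ∧ κ ∈ K ∧ ν + κ + σ (A (u y)) = v := by
  constructor
  · intro hv
    obtain ⟨_, h1, _, ⟨y, rfl⟩, rfl⟩ := Submodule.mem_sup.1 hv
    obtain ⟨ν, hν, κ, hκ, rfl⟩ := Submodule.mem_sup.1 h1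
    exact ⟨ν, κ, y, hν, hκ, rfl⟩
  · rintro ⟨ν, κ, y, hν, hκ, rfl⟩
    exact Submodule.add_mem_sup (Submodule.add_mem_sup hν hκ) ⟨y, rfl⟩

theorem mem_J {A1 A : (n → ℂ) →ₗ[ℂ] (m → ℂ)} {σ : (m → ℂ) →ₗ[ℂ] (n → ℂ)}
    {K : Submodule ℂ (n → ℂ)} {t f : ℕ}
    {u : (Fin t → ℂ) →ₗ[ℂ] (n → ℂ)} {F : Fin f → n → ℂ} {v : n → ℂ}
    (hv : v ∈ ker A1 ⊔ K ⊔ Hs σ A u F) : ∃ x, v - lin F x ∈ Cs A1 σ A K u := by
  obtain ⟨a, ha, b, hb, rfl⟩ := Submodule.mem_sup.1 hv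
  obtain ⟨y, x, rfl⟩ := mem_Hs.1 hb
  refine ⟨x, ?_⟩
  rw [← add_assoc, add_sub_cancel_right]
  exact Submodule.add_mem_sup ha ⟨y, rfl⟩

/-- All data before the third stage. -/
structure Ctx (A1 A2 A3 : (n → ℂ) →ₗ[ℂ] (m → ℂ)) (σ : (m → ℂ) →ₗ[ℂ] (n → ℂ))
    (K W0 : Submodule ℂ (n → ℂ)) (X0 T : Submodule ℂ (m → ℂ))
    (M N h γ γ' g g' κ k ks r ρ t q f2 f3 : ℕ) (u : (Fin t → ℂ) →ₗ[ℂ] (n → ℂ))
    (ξ : (Fin q → ℂ) →ₗ[ℂ] (m → ℂ)) (E : Subfield ℂ) (F2 : Fin f2 → n → ℂ)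
    (F3 : Fin f3 → n → ℂ) : Prop where
  b : Base A1 A2 A3 σ K W0 X0 M N h γ γ' g g' κ k ks r ρ t q
  su : StU A1 A2 A3 σ K T M N h γ κ ks t q u
  su' : StU A1 A3 A2 σ K T M N h γ κ ks t q u
  sx : StX A1 A2 A3 h γ' κ t q ξ
  sx' : StX A1 A3 A2 h γ' κ t q ξ
  xa : ∀ y y', ξ y ⬝ᵥ A2 (σ (A3 (u y'))) = 0
  xa' : ∀ y y', ξ y ⬝ᵥ A3 (σ (A2 (u y'))) = 0
  r : Rat0 A1 A2 A3 σ K T E
  ru : RM E u
  rξ : RM E ξ
  gen : GenIn E (F2, F3) ((cols (Fin f2) (perp (range (tr A3 ∘ₗ ξ)))).prod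
    (cols (Fin f3) (perp (range (tr A2 ∘ₗ ξ))))) 0
  hf : f2 + f3 + κ + 2 * t + γ = N
  hf2 : f2 ≤ f3 + 1
  hf3 : f3 ≤ f2 + 1

variable {A1 A2 A3 : (n → ℂ) →ₗ[ℂ] (m → ℂ)} {σ : (m → ℂ) →ₗ[ℂ] (n → ℂ)}
  {K W0 : Submodule ℂ (n → ℂ)} {X0 T : Submodule ℂ (m → ℂ)}
  {M N h γ γ' g g' κ k ks r ρ t q f2 f3 : ℕ} {u : (Fin t → ℂ) →ₗ[ℂ] (n → ℂ)}
  {ξ : (Fin q → ℂ) →ₗ[ℂ] (m → ℂ)} {E : Subfield ℂ} {F2 : Fin f2 → n → ℂ} {F3 : Fin f3 → n → ℂ}

namespace Ctx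

variable (c : Ctx A1 A2 A3 σ K W0 X0 T M N h γ γ' g g' κ k ks r ρ t q f2 f3 u ξ E F2 F3)
include c

theorem swap : Ctx A1 A3 A2 σ K W0 X0 T M N h γ γ' g g' κ k ks r ρ t q f3 f2 u ξ E F3 F2 :=
  ⟨c.b.swap, c.su', c.su, c.sx', c.sx, c.xa', c.xa, c.r.swap, c.ru, c.rξ, c.gen.swap,
    by have := c.hf; omega, c.hf3, c.hf2⟩

theorem dL : N ≤ dm (perp (range (tr A2 ∘ₗ ξ))) + q := by
  have a1 := dm_perp (range (tr A2 ∘ₗ ξ))
  have a2 := dm_range_fin (tr A2 ∘ₗ ξ)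
  have a3 := c.b.hN
  omega

theorem xp {r1 r2 : ℂ} (hr : r1 ≠ 0 ∨ r2 ≠ 0) (y y' : Fin q → ℂ)
    (e : r1 • tr A1 (ξ y) + r2 • tr A2 (ξ y) + tr A3 (ξ y') = 0) : y = 0 ∧ y' = 0 := by
  obtain ⟨h1, h2, h3⟩ := c.sx.xall (r1 • y) (r2 • y) y' (by simpa only [map_smul] using e)
  rcases hr with hr | hr
  · exact ⟨(smul_eq_zero_iff_right hr).1 h1, h3⟩
  · exact ⟨(smul_eq_zero_iff_right hr).1 h2, h3⟩

theorem dC : dm (Cs A1 σ A2 K u) ≤ γ + κ + t := by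
  have a1 := dm_sup_le (ker A1 ⊔ K) (range (σ ∘ₗ A2 ∘ₗ u))
  have a2 := dm_sup_le (ker A1) K
  have a3 := dm_range_fin (σ ∘ₗ A2 ∘ₗ u)
  have a4 := c.b.g1
  have a5 := c.b.dK
  rw [Cs]
  omega

theorem rC : RS E (Cs A1 σ A2 K u) := by
  obtain ⟨r1, r2, _, rσ, _, _, _, rK, _⟩ := c.r
  exact ((RS.ker r1).sup rK).sup (RS.range (rσ.comp (r2.comp c.ru)))

theorem s2 (y : Fin t → ℂ) : A1 (σ (A2 (u y))) = A2 (u y) := c.b.sig' (c.su.w2 y)

theorem inj3 (y : Fin t → ℂ) (hy : A3 (u y) = 0) : y = 0 :=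
  (c.su.up 1 0 (Or.inl one_ne_zero) 0 y (by simp [hy])).2

theorem num : (t ≠ 0 ∨ q ≠ 0 → q + 3 ≤ f2 ∧ q + 3 ≤ f3) ∧ f2 + f3 + κ + 2 * t + γ = N ∧
    f2 ≤ f3 + 1 ∧ f3 ≤ f2 + 1 := by
  have := c.b.nm.n7
  have := c.hf
  have := c.hf2
  have := c.hf3
  omega

theorem d2a {r1 r2 : ℂ} (hr : r1 ≠ 0 ∨ r2 ≠ 0) (y : Fin t → ℂ)
    (hy : r1 • A1 (u y) + r2 • A2 (u y) ∈ (K ⊔ Hs σ A3 u F3).map A1) : y = 0 := by
  by_cases t0 : t = 0
  · exact fin_zero t0 y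
  obtain ⟨_, hv, e⟩ := hy
  obtain ⟨v0, hκ, _, hb, rfl⟩ := Submodule.mem_sup.1 hv
  obtain ⟨y3, x3, rfl⟩ := mem_Hs.1 hb
  rw [map_add, map_add, c.swap.s2] at e
  obtain ⟨E1, e1, h1, h2⟩ := ext2 E r1 r2
  obtain ⟨p1, p2, p3, _, _, _, _, pK, _⟩ := c.r.mono e1.le
  have pu := c.ru.mono e1.le
  have hx : x3 = 0 := by
    refine g1e (c.gen.snd.ext e1) p1 (((RS.range (((p1.smul h1).add (p2.smul h2)).comp pu)).sup
      (RS.range (p3.comp pu))).sup (RS.map p1 pK)) ?_ ?_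
    · have : A1 (lin F3 x3) = (r1 • A1 (u y) + r2 • A2 (u y)) + A3 (u (-y3)) + A1 (-v0) := by
        simp only [map_neg]
        linear_combination (norm := module) e
      rw [this]
      exact Submodule.add_mem_sup (Submodule.add_mem_sup ⟨y, rfl⟩ ⟨-y3, rfl⟩)
        ⟨-v0, K.neg_mem hκ, rfl⟩
    · have a1 := dm_sup_le (range ((r1 • A1 + r2 • A2) ∘ₗ u) ⊔ range (A3 ∘ₗ u)) (K.map A1)
      have a2 := dm_sup_le (range ((r1 • A1 + r2 • A2) ∘ₗ u)) (range (A3 ∘ₗ u))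
      have a3 := dm_range_fin ((r1 • A1 + r2 • A2) ∘ₗ u)
      have a4 := dm_range_fin (A3 ∘ₗ u)
      have a5 := dm_map_le A1 K
      have a6 := dm_le_map_add A1 (perp (range (tr A2 ∘ₗ ξ)))
      have a7 := dm_mono (le_sup_left : (perp (range (tr A2 ∘ₗ ξ))).map A1 ≤
        _ ⊔ (range ((r1 • A1 + r2 • A2) ∘ₗ u) ⊔ range (A3 ∘ₗ u) ⊔ K.map A1))
      have a8 := c.dL
      have a9 := c.num
      have a10 := c.b.dK
      have a11 := c.b.g1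
      rw [Fintype.card_fin]
      omega
  rw [hx, map_zero, map_zero, add_zero] at e
  refine (c.su.up r1 r2 hr y (-y3) ⟨v0, hκ, ?_⟩).1
  simp only [map_neg]
  linear_combination (norm := module) e

theorem d2b {r1 r2 : ℂ} (hr : r1 ≠ 0 ∨ r2 ≠ 0) (y : Fin q → ℂ)
    (hy : r1 • tr A1 (ξ y) + r2 • tr A2 (ξ y) ∈ perp (range (lin F2))) : y = 0 := by
  by_cases q0 : q = 0
  · exact fin_zero q0 y
  by_cases hm : r1 • tr A1 (ξ y) + r2 • tr A2 (ξ y) ∈ perp (perp (range (tr A3 ∘ₗ ξ)))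
  · rw [perp_perp] at hm
    obtain ⟨y', hy'⟩ := hm
    refine (c.xp hr y (-y') ?_).1
    rw [← hy', map_neg, map_neg]
    exact add_neg_cancel _
  · obtain ⟨E1, e1, h1, h2⟩ := ext2 E r1 r2
    obtain ⟨E2, e2, h3⟩ := ext_vec E1 y
    obtain ⟨_, _, _, _, p1, p2, _⟩ := c.r.mono (e1.le.trans e2.le)
    have py := (c.rξ.mono (e1.le.trans e2.le)).rv h3
    have a1 := gf0 ((c.gen.fst.ext e1).ext e2)
      (((p1.rv py).smul (e2.le h1)).add ((p2.rv py).smul (e2.le h2))) hm hy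
    have a2 := c.num
    rw [Fintype.card_fin, Fintype.card_fin] at a1
    omega

theorem m1 {a b : ℂ} (ha : a ≠ 0) {Te : Submodule ℂ (m → ℂ)} (hT : Te = ⊥ ∨ Te = T)
    (hΓ : γ ≤ dm ((ker A1).map (a • A2 + b • A3) ⊔ Te) + ks) :
    t + f3 + h ≤ dm ((ker A1).map (a • A2 + b • A3) ⊔ Te ⊔
      (Hs σ A3 u F3).map (a • A2 + b • A3) ⊔ (Hs σ A3 u F3).map A1) + 4 := by
  have num := c.num
  have dL := c.dL
  have hq := c.b.nm.hq
  have hh := c.b.nm.hh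
  obtain ⟨E1, e1, ha1, hb1⟩ := ext2 E a b
  obtain ⟨p1, p2, p3, pσ, _⟩ := c.r.mono e1.le
  have pu := c.ru.mono e1.le
  have pM := (p2.smul ha1).add (p3.smul hb1)
  have pTe := (c.r.mono e1.le).te hT
  have b0 := fun t0 => c.su.uΓ t0 a b (Or.inl ha) Te hT hΓ f3 (by omega)
  have b1 := fun μ => c.su.u2 μ a b (Or.inr ha)
  have b2 := dm_range_sup A1 (a • A2 + b • A3)
  rw [dm_zero (S := ker (tr A1) ⊓ ker (tr (a • A2 + b • A3)))
    fun η hη => c.b.l1 a b (Or.inl ha) η hη.1 hη.2, c.b.hM] at b2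
  simp only [add_assoc] at b1
  generalize a • A2 + b • A3 = B at *
  obtain ⟨C, C1, C2, C3, C4⟩ := rat_compl_aux ((RS.range (p3.comp pu)).sup
    ((RS.range ((pM.comp (pσ.comp p3)).comp pu)).sup ((RS.map pM (RS.ker p1)).sup pTe)))
    le_sup_left _ ⊥ RS.bot bot_le (fun _ _ h => h) (Nat.le_add_left _ _)
  have d2 := dm_range_fin (A3 ∘ₗ u)
  have d3 := dm_sup_eq C3
  have d4 := dm_mono ((le_sup_right : (ker A1).map B ⊔ Te ≤
    range ((B ∘ₗ σ ∘ₗ A3) ∘ₗ u) ⊔ _).trans (le_sup_right : _ ≤ range (A3 ∘ₗ u) ⊔ _))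
  rw [C4] at d3
  obtain ⟨Γ, Γ1, Γ2, Γ3⟩ := C1.exists_le (d := h - 4 - f3) (by omega)
  obtain ⟨P, _, P2, P3⟩ := (RS.top (E := E1) (V := Fin f3 → ℂ)).exists_le (d := min f3 (h - 4))
    (by rw [dm_top, card_fun, Fintype.card_fin]; omega)
  have b3 : range (A3 ∘ₗ u) ≤ (Hs σ A3 u F3).map A1 := by
    rintro _ ⟨y, rfl⟩
    exact ⟨σ (A3 (u y)), Submodule.mem_sup_left ⟨y, rfl⟩, c.swap.s2 y⟩
  have b4 : C ≤ (ker A1).map B ⊔ Te ⊔ (Hs σ A3 u F3).map B ⊔ (Hs σ A3 u F3).map A1 := by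
    refine C2.trans (sup_le (b3.trans le_sup_right) (sup_le ?_ (le_sup_left.trans le_sup_left)))
    rintro _ ⟨y, rfl⟩
    exact Submodule.mem_sup_left (Submodule.mem_sup_right
      ⟨σ (A3 (u y)), Submodule.mem_sup_left ⟨y, rfl⟩, rfl⟩)
  have key := dm_le_of_inj
    (LinearMap.id.coprod ((B ∘ₗ lin F3).coprod ((A3 ∘ₗ u).coprod (A1 ∘ₗ lin F3))))
    (S := Γ.prod (P.prod ⊤))
    (T := (ker A1).map B ⊔ Te ⊔ (Hs σ A3 u F3).map B ⊔ (Hs σ A3 u F3).map A1) (by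
      rintro ⟨g, x, y, z⟩ ⟨h1, _⟩
      show g + (B (lin F3 x) + (A3 (u y) + A1 (lin F3 z))) ∈ _
      exact Submodule.add_mem _ (b4 (Γ1 h1)) (Submodule.add_mem _ (Submodule.mem_sup_left
        (Submodule.mem_sup_right ⟨_, Submodule.mem_sup_right ⟨x, rfl⟩, rfl⟩))
        (Submodule.mem_sup_right (Submodule.add_mem _ (b3 ⟨y, rfl⟩)
          ⟨_, Submodule.mem_sup_right ⟨z, rfl⟩, rfl⟩)))) (by
      rintro ⟨g, x, y, z⟩ ⟨h1, h2, _⟩ e
      replace e : g + (B (lin F3 x) + (A3 (u y) + A1 (lin F3 z))) = 0 := e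
      have hD : A1 (lin F3 z) + B (lin F3 x) ∈ range (A3 ∘ₗ u) ⊔ Γ := by
        have : A1 (lin F3 z) + B (lin F3 x) = A3 (u (-y)) + -g := by
          simp only [map_neg]
          linear_combination (norm := module) e
        rw [this]
        exact Submodule.add_mem_sup ⟨-y, rfl⟩ (Γ.neg_mem h1)
      have pD := (RS.range (p3.comp pu)).sup Γ2
      have d1 := dm_sup_le (range (A3 ∘ₗ u)) Γ
      have a2 := dm_le_map_add A1 (perp (range (tr A2 ∘ₗ ξ)))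
      have a4 := c.b.g1
      have hx : x = 0 := by
        by_contra hx
        obtain ⟨E2, e2, px⟩ := cost P2 (x := x) RV.zero (by rw [sub_zero]; exact h2)
        by_cases hz : z ∈ ℂ ∙ x
        · obtain ⟨μ, rfl⟩ := Submodule.mem_span_singleton.1 hz
          obtain ⟨E3, e3, pμ⟩ := ext1 E2 μ
          have l3 := e2.le.trans e3.le
          have a1 := g0 (((c.gen.snd.ext e1).ext e2).ext e3) RM.id
            (RS.comap (((p1.mono l3).smul pμ).add (pM.mono l3)) (pD.mono l3)) (px.mono e3.le) hx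
            RV.zero (by
              rw [sub_zero]
              show μ • A1 (lin F3 x) + B (lin F3 x) ∈ range (A3 ∘ₗ u) ⊔ Γ
              rwa [map_smul, map_smul] at hD)
          have a3 := dm_comap_sup_le (μ • A1 + B) (range (A3 ∘ₗ u)) Γ
          have a5 := dm_mono (le_sup_left : perp (range (tr A2 ∘ₗ ξ)) ≤
            _ ⊔ (range (A3 ∘ₗ u) ⊔ Γ).comap (μ • A1 + B))
          have a6 := b1 μ
          rw [Submodule.map_id] at a1
          omega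
        · obtain ⟨E3, e3, pz⟩ := ext_vec E2 z
          have l3 := e2.le.trans e3.le
          have a1 := g2s (((c.gen.snd.ext e1).ext e2).ext e3) (p1.mono l3) (pM.mono l3)
            (pD.mono l3) pz (px.mono e3.le) hz hx hD
          have a3 := dm_mono (le_sup_left : (perp (range (tr A2 ∘ₗ ξ))).map A1 ⊔
            (perp (range (tr A2 ∘ₗ ξ))).map B ≤ _ ⊔ (range (A3 ∘ₗ u) ⊔ Γ))
          have a5 := dm_mono (le_sup_left : (perp (range (tr A2 ∘ₗ ξ))).map A1 ≤ _ ⊔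
            (perp (range (tr A2 ∘ₗ ξ))).map B)
          have a6 := dm_map_sup_le A1 (perp (range (tr A2 ∘ₗ ξ))) (range B)
          have a7 := dm_map_sup_le B (perp (range (tr A2 ∘ₗ ξ)))
            ((perp (range (tr A2 ∘ₗ ξ))).map A1)
          have a8 := c.b.nm.n12
          have a9 := c.b.nm.e1
          rw [sup_comm (range B), sup_comm (Submodule.map B _)] at a7
          rw [card_fun, c.b.hN] at a6 a7
          rw [Fintype.card_fin] at a1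
          omega
      subst hx
      simp only [map_zero, add_zero, zero_add] at e hD
      have hz : z = 0 := by
        refine g1e (c.gen.snd.ext e1) p1 pD hD ?_
        have a3 := dm_mono (le_sup_left : (perp (range (tr A2 ∘ₗ ξ))).map A1 ≤
          _ ⊔ (range (A3 ∘ₗ u) ⊔ Γ))
        have a5 := c.b.nm.n10
        have a6 := c.b.nm.n11
        rw [Fintype.card_fin]
        omega
      subst hz
      simp only [map_zero, add_zero] at e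
      have hg : g = 0 := C3 g ⟨-y, by
        show A3 (u (-y)) = g
        rw [map_neg, map_neg]
        linear_combination (norm := module) -e⟩ (Γ1 h1)
      rw [hg, zero_add] at e
      simp [hg, c.inj3 y e])
  rw [dm_prod, dm_prod, dm_top, Module.finrank_prod, card_fun, card_fun, Fintype.card_fin,
    Fintype.card_fin] at key
  omega

theorem va : dm ((ker A1 ⊔ K ⊔ Hs σ A3 u F3) ⊓ ker A2) + h ≤ κ + q + γ + 4 := by
  have num := c.num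
  have dL := c.dL
  have dC := c.swap.dC
  obtain ⟨_, p2, _⟩ := c.r
  let D : Submodule ℂ ((n → ℂ) × (Fin f3 → ℂ)) :=
    (Cs A1 σ A3 K u).prod ⊤ ⊓ ker (A2 ∘ₗ LinearMap.id.coprod (lin F3))
  have a1 : dm ((ker A1 ⊔ K ⊔ Hs σ A3 u F3) ⊓ ker A2) ≤ dm D :=
    dm_le_of_surj (LinearMap.id.coprod (lin F3)) fun v hv => by
      obtain ⟨x, hx⟩ := mem_J hv.1
      have e : LinearMap.id.coprod (lin F3) (v - lin F3 x, x) = v := sub_add_cancel _ _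
      exact ⟨(v - lin F3 x, x), ⟨⟨hx, trivial⟩, by
        show A2 (LinearMap.id.coprod (lin F3) (v - lin F3 x, x)) = 0
        rw [e]; exact hv.2⟩, e⟩
  by_cases h0 : D ≤ ker (LinearMap.snd ℂ _ _)
  · let P : Submodule ℂ (((n → ℂ) × (n → ℂ)) × (Fin t → ℂ)) := ((ker A1).prod K).prod ⊤ ⊓
      ker (A2 ∘ₗ (LinearMap.fst ℂ _ _).coprod (σ ∘ₗ A3 ∘ₗ u))
    have a2 : dm D ≤ dm P := dm_le_of_surj (LinearMap.inl ℂ _ _ ∘ₗ
        (LinearMap.id.coprod LinearMap.id).coprod (σ ∘ₗ A3 ∘ₗ u)) fun ω hω => by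
      obtain ⟨ν, v0, y, hν, hκ, e⟩ := mem_Cs.1 hω.1.1
      have h1 : A2 (ω.1 + lin F3 ω.2) = 0 := hω.2
      rw [show ω.2 = 0 from h0 hω, map_zero, add_zero, ← e, add_right_comm, map_add,
        c.b.K2 v0 hκ, add_zero] at h1
      exact ⟨((ν, v0), y), ⟨⟨⟨hν, hκ⟩, trivial⟩, h1⟩, Prod.ext e (h0 hω).symm⟩
    have a3 := dm_le_add (LinearMap.snd ℂ _ _) (LinearMap.fst ℂ _ _) (S := P)
      (T := ((ker A2).map A1).comap (A3 ∘ₗ u)) (K := (ker A1 ⊓ ker A2).prod K)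
      (fun ω hω => ⟨ω.1.1 + σ (A3 (u ω.2)), hω.2, by
        rw [map_add, show A1 ω.1.1 = 0 from hω.1.1.1, c.swap.s2, zero_add]; rfl⟩)
      (fun ω hω e => ⟨⟨hω.1.1.1, by
        have h1 : A2 (ω.1.1 + σ (A3 (u ω.2))) = 0 := hω.2
        rwa [show ω.2 = 0 from e, map_zero, map_zero, map_zero, add_zero] at h1⟩, hω.1.1.2⟩)
      fun ω _ e e' => Prod.ext e' e
    have a4 := c.su.u3
    rw [dm_prod, c.b.dK] at a3
    omega
  · have a2 := gm c.gen.snd p2 RM.snd (p2.comp RM.fst).neg RS.bot (c.swap.rC.prod RS.top)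
      (D := D) inf_le_left (fun ω hω => by
        have h1 : A2 (ω.1 + lin F3 ω.2) = 0 := hω.2
        rw [Submodule.mem_bot, ← h1, map_add, add_comm]
        exact sub_neg_eq_add _ _) h0
    have a3 := dm_le_map_add A2 (perp (range (tr A2 ∘ₗ ξ)))
    have a4 := c.b.g2
    have a5 := c.b.nm.n8
    rw [sup_bot_eq, dm_bot, dm_prod, dm_top, card_fun, Fintype.card_fin] at a2
    omega

theorem vb : dm (ker (tr A2) ⊓ perp ((range (lin F2)).map A1)) + h ≤ t + κ + γ' + 4 := by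
  have num := c.num
  obtain ⟨_, _, _, _, p1, p2, _⟩ := c.r
  rcases gf c.gen.fst p1 (RS.ker p2) (D := ker (tr A2) ⊓ perp ((range (lin F2)).map A1))
    inf_le_left (fun η hη => by
      have := hη.2
      rwa [perp_map] at this) with h1 | h1
  · rw [perp_perp] at h1
    have a1 := dm_le_of_inj (tr A1) (S := ker (tr A2) ⊓ perp ((range (lin F2)).map A1))
      (T := (((ker (tr A2)).map (tr A1)).comap (tr A3 ∘ₗ ξ)).map (tr A3 ∘ₗ ξ)) (fun η hη => by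
        obtain ⟨y, hy⟩ := h1 hη
        exact ⟨y, ⟨η, hη.1, hy.symm⟩, hy⟩) fun η hη h0 =>
        c.b.l1 1 0 (Or.inl one_ne_zero) η h0 (by rw [one_smul, zero_smul, add_zero]; exact hη.1)
    have a2 := dm_map_le (tr A3 ∘ₗ ξ) (((ker (tr A2)).map (tr A1)).comap (tr A3 ∘ₗ ξ))
    have a3 := c.sx.x3
    omega
  · have a1 := c.b.nm.n9
    have a2 := c.b.nm.e1
    rw [Fintype.card_fin, c.b.c2] at h1
    omega

end Ctx

end Pool.Agent.P.MP_098a67_ag.R3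
end

-- part Pool.Agent.P.MP_098a67_ag.R3.StG
section

namespace Pool.Agent.P.MP_098a67_ag.R3

open Module T3
open LinearMap (ker range)

variable {m n : Type} [Fintype m] [DecidableEq m] [Fintype n] [DecidableEq n]
  {A1 A2 A3 : (n → ℂ) →ₗ[ℂ] (m → ℂ)} {σ : (m → ℂ) →ₗ[ℂ] (n → ℂ)}
  {K W0 : Submodule ℂ (n → ℂ)} {X0 T : Submodule ℂ (m → ℂ)}
  {M N h γ γ' g g' κ k ks r ρ t q f2 f3 : ℕ} {u : (Fin t → ℂ) →ₗ[ℂ] (n → ℂ)}
  {ξ : (Fin q → ℂ) →ₗ[ℂ] (m → ℂ)} {E : Subfield ℂ} {F2 : Fin f2 → n → ℂ} {F3 : Fin f3 → n → ℂ}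

namespace Ctx

variable (c : Ctx A1 A2 A3 σ K W0 X0 T M N h γ γ' g g' κ k ks r ρ t q f2 f3 u ξ E F2 F3)
include c

theorem dCC : dm (Cs A1 σ A2 K u ⊔ Cs A1 σ A3 K u) ≤ γ + κ + 2 * t := by
  have a1 : Cs A1 σ A2 K u ⊔ Cs A1 σ A3 K u ≤ Cs A1 σ A2 K u ⊔ range (σ ∘ₗ A3 ∘ₗ u) :=
    sup_le le_sup_left (sup_le (le_sup_of_le_left le_sup_left) le_sup_right)
  have a2 := (dm_mono a1).trans (dm_sup_le _ _)
  have a3 := c.dC
  have a4 := dm_range_fin (σ ∘ₗ A3 ∘ₗ u)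
  omega

theorem d1x {x : Fin f2 → ℂ} (hx : lin F2 x ∈ Cs A1 σ A2 K u ⊔ Cs A1 σ A3 K u) : x = 0 := by
  refine g1e c.gen.fst RM.id (c.rC.sup c.swap.rC) hx ?_
  have a1 := c.dCC
  have a2 := c.swap.dL
  have a3 := c.num
  have a4 := dm_mono (le_sup_left : perp (range (tr A3 ∘ₗ ξ)) ≤
    _ ⊔ (Cs A1 σ A2 K u ⊔ Cs A1 σ A3 K u))
  rw [Submodule.map_id, Fintype.card_fin]
  omega

theorem d1b {x2 : Fin f2 → ℂ} {x3 : Fin f3 → ℂ}
    (hx : lin F2 x2 + lin F3 x3 ∈ Cs A1 σ A2 K u ⊔ Cs A1 σ A3 K u) : x2 = 0 ∧ x3 = 0 := by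
  by_cases h3 : x3 = 0
  · rw [h3, map_zero, add_zero] at hx
    exact ⟨c.d1x hx, h3⟩
  by_cases h2 : x2 = 0
  · rw [h2, map_zero, zero_add, sup_comm] at hx
    exact ⟨h2, c.swap.d1x hx⟩
  exfalso
  obtain ⟨a, ha, E1, s, e1, o1, o2⟩ := pv_norm E (v := (x2, x3)) fun h => h2 (Prod.ext_iff.1 h).1
  have a1 := gj (c.gen.ext e1) RM.id RM.id ((c.rC.sup c.swap.rC).mono e1.le) o2.fst o2.snd
    (smul_ne_zero ha h2) (smul_ne_zero ha h3) RV.zero (by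
      rw [sub_zero]
      show lin F2 (a • x2) + lin F3 (a • x3) ∈ _
      rw [map_smul, map_smul, ← smul_add]
      exact Submodule.smul_mem _ _ hx)
  have a2 : perp (range (tr A3 ∘ₗ ξ)) ⊔ perp (range (tr A2 ∘ₗ ξ)) = ⊤ := eq_top_of_perp fun η hη => by
    rw [perp_sup, perp_perp, perp_perp] at hη
    obtain ⟨⟨y3, e3⟩, y2, e2⟩ := hη
    have := (c.xp (r1 := 0) (r2 := -1) (Or.inr (by simp)) y2 y3 (by
      rw [show tr A2 (ξ y2) = η from e2, show tr A3 (ξ y3) = η from e3]; simp)).1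
    rw [← e2, this, map_zero]
  have a3 := c.dCC
  have a4 := c.hf
  have a5 := c.b.hN
  rw [Submodule.map_id, Submodule.map_id, a2, top_sup_eq, dm_top, card_fun] at a1
  rw [Module.finrank_prod, card_fun, card_fun, Fintype.card_fin, Fintype.card_fin] at o1
  omega

theorem d1 {ν v0 : n → ℂ} (hν : A1 ν = 0) (hv0 : v0 ∈ K) {y2 y3 : Fin t → ℂ} {x2 : Fin f2 → ℂ}
    {x3 : Fin f3 → ℂ}
    (e : ν + v0 + (σ (A2 (u y2)) + lin F2 x2) + (σ (A3 (u y3)) + lin F3 x3) = 0) :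
    ν = 0 ∧ v0 = 0 ∧ y2 = 0 ∧ x2 = 0 ∧ y3 = 0 ∧ x3 = 0 := by
  obtain ⟨h2, h3⟩ := c.d1b (x2 := x2) (x3 := x3) (by
    have : lin F2 x2 + lin F3 x3 = -((ν + v0 + σ (A2 (u y2))) + (0 + 0 + σ (A3 (u y3)))) := by
      linear_combination (norm := module) e
    rw [this]
    exact Submodule.neg_mem _ (Submodule.add_mem_sup (mem_Cs.2 ⟨_, _, _, hν, hv0, rfl⟩)
      (mem_Cs.2 ⟨_, _, _, map_zero _, K.zero_mem, rfl⟩)))
  subst h2 h3
  simp only [map_zero, add_zero] at e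
  have e1 := congrArg A1 e
  rw [map_add, map_add, map_add, hν, c.s2, c.swap.s2, map_zero] at e1
  obtain ⟨h4, h5⟩ := c.su.up 0 1 (Or.inr one_ne_zero) y2 y3 ⟨-v0, K.neg_mem hv0, by
    rw [map_neg]
    linear_combination (norm := module) -e1⟩
  subst h4 h5
  simp only [map_zero, add_zero, zero_add] at e e1
  have h6 := c.b.KN v0 hv0 e1
  subst h6
  exact ⟨by simpa using e, rfl, rfl, rfl, rfl, rfl⟩

theorem dj (v : n → ℂ) (h2 : v ∈ Hs σ A2 u F2) (h3 : v ∈ ker A1 ⊔ K ⊔ Hs σ A3 u F3) : v = 0 := by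
  obtain ⟨a, ha, b, hb, e⟩ := Submodule.mem_sup.1 h3
  obtain ⟨ν, hν, v0, hv0, rfl⟩ := Submodule.mem_sup.1 ha
  obtain ⟨y3, x3, rfl⟩ := mem_Hs.1 hb
  obtain ⟨y2, x2, e2⟩ := mem_Hs.1 (Submodule.neg_mem _ h2)
  obtain ⟨_, _, h4, h5, _⟩ := c.d1 hν hv0 (y2 := y2) (x2 := x2) (y3 := y3) (x3 := x3) (by
    rw [e2, add_right_comm, e, add_neg_cancel])
  rw [h4, h5] at e2
  simpa using e2.symm

theorem top : ker A1 ⊔ K ⊔ Hs σ A3 u F3 ⊔ Hs σ A2 u F2 = ⊤ := by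
  apply eq_top_of_dm
  have a1 := dm_le_of_inj ((LinearMap.id.coprod LinearMap.id).coprod
      (((σ ∘ₗ A2 ∘ₗ u).coprod (lin F2)).coprod ((σ ∘ₗ A3 ∘ₗ u).coprod (lin F3))))
    (S := ((ker A1).prod K).prod ⊤) (T := ker A1 ⊔ K ⊔ Hs σ A3 u F3 ⊔ Hs σ A2 u F2) (by
      rintro ⟨⟨ν, v0⟩, ⟨y2, x2⟩, y3, x3⟩ ⟨⟨h1, h2⟩, _⟩
      show ν + v0 + ((σ (A2 (u y2)) + lin F2 x2) + (σ (A3 (u y3)) + lin F3 x3)) ∈ _
      rw [add_comm (σ (A2 (u y2)) + lin F2 x2), ← add_assoc]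
      exact Submodule.add_mem_sup (Submodule.add_mem_sup (Submodule.add_mem_sup h1 h2)
        (mem_Hs.2 ⟨_, _, rfl⟩)) (mem_Hs.2 ⟨_, _, rfl⟩)) (by
      rintro ⟨⟨ν, v0⟩, ⟨y2, x2⟩, y3, x3⟩ ⟨⟨h1, h2⟩, _⟩ e
      obtain ⟨rfl, rfl, rfl, rfl, rfl, rfl⟩ := c.d1 h1 h2 (y2 := y2) (x2 := x2) (y3 := y3)
        (x3 := x3) (by rw [add_assoc]; exact e)
      rfl)
  have a2 := c.hf
  have a3 := c.b.hN
  simp only [dm_prod, dm_top, Module.finrank_prod, card_fun, Fintype.card_fin, c.b.g1,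
    c.b.dK] at a1
  rw [card_fun]
  omega

theorem dH : dm (Hs σ A2 u F2) ≤ t + f2 :=
  (dm_sup_le _ _).trans (Nat.add_le_add (dm_range_fin _) (dm_range_fin _))

theorem dJ : dm (ker A1 ⊔ K ⊔ Hs σ A3 u F3) ≤ γ + κ + t + f3 := by
  have a1 := dm_sup_le (ker A1 ⊔ K) (Hs σ A3 u F3)
  have a2 := dm_sup_le (ker A1) K
  have a3 := c.swap.dH
  have a4 := c.b.g1
  have a5 := c.b.dK
  omega

/-- Pairs with one entry in the fixed part. -/
theorem o_half (t0 : t ≠ 0) {a b : ℂ} (hb : b ≠ 0) {Te : Submodule ℂ (m → ℂ)}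
    (hT : Te = ⊥ ∨ Te = T) (hΓ : γ ≤ dm ((ker A1).map (a • A2 + b • A3) ⊔ Te) + ks)
    (S : Submodule ℂ ((n → ℂ) × (n → ℂ))) (p r : (n → ℂ) × (n → ℂ) →ₗ[ℂ] (n → ℂ))
    (h0 : ∀ ω ω', p ω = p ω' → r ω = r ω' → ω = ω') (h1 : ∀ ω ∈ S, p ω ∈ Cs A1 σ A3 K u)
    (h2 : ∀ ω ∈ S, r ω - p ω ∈ range u) (h3 : ∀ ω ∈ S, a • A2 (p ω) + b • A3 (r ω) ∈ Te) :
    dm S + h ≤ γ + κ + t + f3 + 2 + dm Te := by
  have num := c.num
  have a0 := c.su.uΓ t0 a b (Or.inr hb) Te hT hΓ f3 (by omega)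
  have a1 := dm_comap ((a • A2 + b • A3).coprod (b • (A3 ∘ₗ u))) ((Cs A1 σ A3 K u).prod ⊤) Te
  have a2 : dm (S.map (p.prod r)) ≤ dm ((Cs A1 σ A3 K u).prod ⊤ ⊓
      Te.comap ((a • A2 + b • A3).coprod (b • (A3 ∘ₗ u)))) :=
    dm_le_of_surj ((LinearMap.fst ℂ _ _).prod (LinearMap.id.coprod u)) (by
      rintro _ ⟨ω, hω, rfl⟩
      obtain ⟨y, hy⟩ := h2 ω hω
      have e : p ω + u y = r ω := by rw [hy, add_sub_cancel]
      refine ⟨(p ω, y), ⟨⟨h1 ω hω, trivial⟩, ?_⟩, Prod.ext rfl e⟩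
      show a • A2 (p ω) + b • A3 (p ω) + b • A3 (u y) ∈ Te
      rw [add_assoc, ← smul_add, ← map_add, e]
      exact h3 ω hω)
  have a3 : dm (S.map (p.prod r)) = dm S := dm_map_eq fun ω _ e =>
    h0 ω 0 (by rw [map_zero]; exact congrArg Prod.fst e) (by rw [map_zero]; exact congrArg Prod.snd e)
  have a4 : range (A3 ∘ₗ u) ⊔ (range (((a • A2 + b • A3) ∘ₗ σ ∘ₗ A3) ∘ₗ u) ⊔
      ((ker A1).map (a • A2 + b • A3) ⊔ Te)) ≤
      ((Cs A1 σ A3 K u).prod ⊤).map ((a • A2 + b • A3).coprod (b • (A3 ∘ₗ u))) ⊔ Te := by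
    refine sup_le ?_ (sup_le ?_ (sup_le_sup_right ?_ _))
    · rintro _ ⟨y, rfl⟩
      exact Submodule.mem_sup_left ⟨(0, b⁻¹ • y), ⟨Submodule.zero_mem _, trivial⟩, by
        simp [smul_smul, hb]⟩
    · rintro _ ⟨y, rfl⟩
      exact Submodule.mem_sup_left ⟨(σ (A3 (u y)), 0), ⟨Submodule.mem_sup_right ⟨y, rfl⟩, trivial⟩,
        by simp⟩
    · rintro _ ⟨v, hv, rfl⟩
      exact ⟨(v, 0), ⟨Submodule.mem_sup_left (Submodule.mem_sup_left hv), trivial⟩, by simp⟩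
  have a5 := dm_mono a4
  have a6 := c.swap.dC
  rw [dm_prod, dm_top, card_fun, Fintype.card_fin] at a1
  omega

/-- Pairs with both entries in the fixed parts. -/
theorem o_none {a b : ℂ} (ha : a ≠ 0) {Te : Submodule ℂ (m → ℂ)}
    (hT : Te = ⊥ ∨ Te = T) (hΓ : γ ≤ dm ((ker A1).map (a • A2 + b • A3) ⊔ Te) + ks)
    (S : Submodule ℂ ((n → ℂ) × (n → ℂ))) (s2 : ∀ ω ∈ S, ω.1 ∈ Cs A1 σ A3 K u)
    (s3 : ∀ ω ∈ S, ω.2 ∈ Cs A1 σ A2 K u) (su : ∀ ω ∈ S, ω.2 - ω.1 ∈ range u)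
    (se : ∀ ω ∈ S, a • A2 ω.1 + b • A3 ω.2 ∈ Te) : dm S + h ≤ κ + dm Te + q + γ + 4 := by
  let Y := ((Fin t → ℂ) × (Fin t → ℂ)) × (Fin t → ℂ)
  let w : Y →ₗ[ℂ] (Fin t → ℂ) := LinearMap.fst ℂ _ _ ∘ₗ LinearMap.fst ℂ _ _
  let y2 : Y →ₗ[ℂ] (Fin t → ℂ) := LinearMap.snd ℂ _ _ ∘ₗ LinearMap.fst ℂ _ _
  let P : Submodule ℂ (Y × (n → ℂ)) :=
    ((K.map A1).comap (A1 ∘ₗ u ∘ₗ w - A2 ∘ₗ u ∘ₗ y2 + A3 ∘ₗ u ∘ₗ LinearMap.snd ℂ _ _)).prod
      (ker A1 ⊔ K) ⊓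
    Te.comap (((a • A2 + b • A3) ∘ₗ σ ∘ₗ A2 ∘ₗ u ∘ₗ y2 - a • (A2 ∘ₗ u ∘ₗ w)).coprod (a • A2 + b • A3))
  have mP : ∀ ω : Y × (n → ℂ), ω ∈ P ↔
      (A1 (u ω.1.1.1) - A2 (u ω.1.1.2) + A3 (u ω.1.2) ∈ K.map A1 ∧ ω.2 ∈ ker A1 ⊔ K) ∧
      (a • A2 + b • A3) (σ (A2 (u ω.1.1.2))) - a • A2 (u ω.1.1.1) + (a • A2 + b • A3) ω.2 ∈ Te :=
    fun _ => Iff.rfl
  have a1 : dm S ≤ dm P := dm_le_of_surj (((σ ∘ₗ A2 ∘ₗ u ∘ₗ y2 - u ∘ₗ w).coprod LinearMap.id).prod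
      ((σ ∘ₗ A2 ∘ₗ u ∘ₗ y2).coprod LinearMap.id)) fun ω hω => by
    obtain ⟨z, hz⟩ := su ω hω
    obtain ⟨ν2, v2, z2, hν2, hv2, e2⟩ := mem_Cs.1 (s3 ω hω)
    obtain ⟨ν3, v3, z3, hν3, hv3, e3⟩ := mem_Cs.1 (s2 ω hω)
    refine ⟨(((z, z2), z3), ν2 + v2), (mP _).2 ⟨⟨⟨v2 - v3, K.sub_mem hv2 hv3, ?_⟩,
      Submodule.add_mem_sup hν2 hv2⟩, ?_⟩, Prod.ext ?_ ?_⟩
    · dsimp only
      rw [hz, ← e2, ← e3]
      simp only [map_sub, map_add, hν2, hν3, c.s2, c.swap.s2]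
      abel
    · dsimp only
      have : (a • A2 + b • A3) (σ (A2 (u z2))) - a • A2 (u z) + (a • A2 + b • A3) (ν2 + v2) =
          a • A2 ω.1 + b • A3 ω.2 := by
        rw [hz, map_sub, ← e2]
        simp only [map_add, LinearMap.add_apply, LinearMap.smul_apply]
        module
      rw [this]
      exact se ω hω
    · show σ (A2 (u z2)) - u z + (ν2 + v2) = ω.1
      rw [hz, ← e2]
      abel
    · show σ (A2 (u z2)) + (ν2 + v2) = ω.2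
      rw [← e2]
      abel
  have a2 := dm_le_add (LinearMap.fst ℂ _ _) (LinearMap.snd ℂ _ _) (S := P)
    (T := P.map (LinearMap.fst ℂ _ _)) (K := (ker A1 ⊔ K) ⊓ Te.comap (a • A2 + b • A3))
    (fun ω hω => ⟨ω, hω, rfl⟩) (fun ω hω e => ⟨((mP ω).1 hω).1.2, by
      have := ((mP ω).1 hω).2
      rw [show ω.1 = 0 from e] at this
      simpa using this⟩) fun ω _ e e' => Prod.ext e e'
  have a3 : dm (P.map (LinearMap.fst ℂ Y (n → ℂ))) + h ≤ _ := c.su.u23 a b ha Te hT hΓ _ (by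
    rintro _ ⟨ω, hω, rfl⟩
    obtain ⟨⟨_, h1⟩, h2⟩ := (mP ω).1 hω
    obtain ⟨ν, hν, v, hv, e⟩ := Submodule.mem_sup.1 h1
    have : a • A2 (u ω.1.1.1) - (a • A2 + b • A3) (σ (A2 (u ω.1.1.2))) = (a • A2 + b • A3) ν +
        -((a • A2 + b • A3) (σ (A2 (u ω.1.1.2))) - a • A2 (u ω.1.1.1) + (a • A2 + b • A3) ω.2) := by
      rw [← e]
      simp only [map_add, LinearMap.add_apply, LinearMap.smul_apply, c.b.K2 v hv, c.b.K3 v hv]
      module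
    rw [LinearMap.fst_apply, this]
    exact Submodule.add_mem_sup ⟨ν, hν, rfl⟩ (Te.neg_mem h2)) (by
    rintro _ ⟨ω, hω, rfl⟩
    exact ((mP ω).1 hω).1.1)
  have a4 := dm_comap (a • A2 + b • A3) (ker A1 ⊔ K) Te
  have a5 := dm_sup_le (ker A1) K
  have a6 := dm_mono (sup_le_sup_right
    (Submodule.map_mono (f := a • A2 + b • A3) (le_sup_left : ker A1 ≤ ker A1 ⊔ K)) Te)
  have a7 := c.b.g1
  have a8 := c.b.dK
  omega

theorem o {a b : ℂ} (ha : a ≠ 0) (hb : b ≠ 0) {Te : Submodule ℂ (m → ℂ)} (hT : Te = ⊥ ∨ Te = T)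
    (hΓ : γ ≤ dm ((ker A1).map (a • A2 + b • A3) ⊔ Te) + ks)
    (S : Submodule ℂ ((n → ℂ) × (n → ℂ)))
    (s2 : ∀ ω ∈ S, ω.1 ∈ ker A1 ⊔ K ⊔ Hs σ A3 u F3) (s3 : ∀ ω ∈ S, ω.2 ∈ ker A1 ⊔ K ⊔ Hs σ A2 u F2)
    (su : ∀ ω ∈ S, ω.2 - ω.1 ∈ range u) (se : ∀ ω ∈ S, a • A2 ω.1 + b • A3 ω.2 ∈ Te) :
    dm S + h ≤ κ + dm Te + q + γ + 4 := by
  have num := c.num
  have dL3 := c.dL
  have dL2 := c.swap.dL
  have dC2 := c.dC
  have dC3 := c.swap.dC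
  obtain ⟨E1, e1, ha1, hb1⟩ := ext2 E a b
  obtain ⟨_, p2, p3, _⟩ := c.r.mono e1.le
  have pC2 := c.rC.mono e1.le
  have pC3 := c.swap.rC.mono e1.le
  have pTe := (c.r.mono e1.le).te hT
  let Ω : Submodule ℂ ((n → ℂ) × (n → ℂ)) :=
    (range u).comap (LinearMap.snd ℂ _ _ - LinearMap.fst ℂ _ _) ⊓
      Te.comap (a • (A2 ∘ₗ LinearMap.fst ℂ _ _) + b • (A3 ∘ₗ LinearMap.snd ℂ _ _))
  have pΩ : RS E1 Ω := (RS.comap (RM.snd.sub RM.fst) (RS.range (c.ru.mono e1.le))).inf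
    (RS.comap (((p2.comp RM.fst).smul ha1).add ((p3.comp RM.snd).smul hb1)) pTe)
  let D : Submodule ℂ (((n → ℂ) × (n → ℂ)) × ((Fin f2 → ℂ) × (Fin f3 → ℂ))) :=
    Ω.prod ⊤ ⊓ ((Cs A1 σ A2 K u).comap (lin F2 ∘ₗ LinearMap.fst ℂ _ _ ∘ₗ LinearMap.snd ℂ _ _ -
      LinearMap.snd ℂ _ _ ∘ₗ LinearMap.fst ℂ _ _) ⊓
    (Cs A1 σ A3 K u).comap (lin F3 ∘ₗ LinearMap.snd ℂ _ _ ∘ₗ LinearMap.snd ℂ _ _ -
      LinearMap.fst ℂ _ _ ∘ₗ LinearMap.fst ℂ _ _))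
  have mD : ∀ ω ∈ D, (ω.1.2 - ω.1.1 ∈ range u ∧ a • A2 ω.1.1 + b • A3 ω.1.2 ∈ Te) ∧
      lin F2 ω.2.1 - ω.1.2 ∈ Cs A1 σ A2 K u ∧ lin F3 ω.2.2 - ω.1.1 ∈ Cs A1 σ A3 K u :=
    fun ω hω => ⟨hω.1.1, hω.2⟩
  have a1 : dm S ≤ dm D := dm_le_of_surj (LinearMap.fst ℂ _ _) fun ω hω => by
    obtain ⟨x3, h3⟩ := mem_J (s2 ω hω)
    obtain ⟨x2, h2⟩ := mem_J (s3 ω hω)
    exact ⟨(ω, x2, x3), ⟨⟨⟨su ω hω, se ω hω⟩, trivial⟩, sub_mem_comm_iff.1 h2,
      sub_mem_comm_iff.1 h3⟩, rfl⟩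
  have t0 : t = 0 → ∀ ω ∈ D, ω.2.1 = 0 ∧ ω.2.2 = 0 := fun t0 ω hω => by
    obtain ⟨⟨⟨y, hy⟩, _⟩, h2, h3⟩ := mD ω hω
    rw [fin_zero t0 y, map_zero] at hy
    have := c.d1b (x2 := ω.2.1) (x3 := -ω.2.2) (by
      have : lin F2 ω.2.1 + lin F3 (-ω.2.2) =
          (lin F2 ω.2.1 - ω.1.2) + -(lin F3 ω.2.2 - ω.1.1) := by
        rw [map_neg]
        linear_combination (norm := module) -hy
      rw [this]
      exact Submodule.add_mem_sup h2 (Submodule.neg_mem _ h3))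
    exact ⟨this.1, neg_eq_zero.1 this.2⟩
  by_cases z2 : D ≤ ker (LinearMap.fst ℂ _ _ ∘ₗ LinearMap.snd ℂ _ _) <;>
    by_cases z3 : D ≤ ker (LinearMap.snd ℂ _ _ ∘ₗ LinearMap.snd ℂ _ _)
  · have a2 : dm (D.map (LinearMap.fst ℂ _ _)) = dm D := dm_map_eq fun ω hω e =>
      Prod.ext e (Prod.ext (z2 hω) (z3 hω))
    have a3 := c.o_none ha hT hΓ (D.map (LinearMap.fst ℂ _ _)) (by
      rintro _ ⟨ω, hω, rfl⟩
      have h3 := (mD ω hω).2.2
      rwa [show ω.2.2 = 0 from z3 hω, map_zero, zero_sub, neg_mem_iff] at h3) (by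
      rintro _ ⟨ω, hω, rfl⟩
      have h2 := (mD ω hω).2.1
      rwa [show ω.2.1 = 0 from z2 hω, map_zero, zero_sub, neg_mem_iff] at h2) (by
      rintro _ ⟨ω, hω, rfl⟩
      exact (mD ω hω).1.1) (by
      rintro _ ⟨ω, hω, rfl⟩
      exact (mD ω hω).1.2)
    omega
  · have tn : t ≠ 0 := fun h => z3 fun ω hω => (t0 h ω hω).2
    have a2 := gm (Y := ((n → ℂ) × (n → ℂ)) × ((Fin f2 → ℂ) × (Fin f3 → ℂ)))
      (c.gen.snd.ext e1) RM.id (RM.snd.comp RM.snd) (RM.fst.comp RM.fst) pC3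
      ((pΩ.inf (RS.comap RM.snd pC2)).prod (RS.bot.prod RS.top)) (D := D) (fun ω hω => by
        have h2 := (mD ω hω).2.1
        rw [show ω.2.1 = 0 from z2 hω, map_zero, zero_sub, neg_mem_iff] at h2
        exact ⟨⟨hω.1.1, h2⟩, z2 hω, trivial⟩) (fun ω hω => (mD ω hω).2.2) z3
    have a3 := c.swap.o_half tn (a := b) ha hT (by rwa [add_comm (b • A3)]) (Ω ⊓ (Cs A1 σ A2 K u).comap (LinearMap.snd ℂ _ _))
      (LinearMap.snd ℂ _ _) (LinearMap.fst ℂ _ _) (fun _ _ h1 h2 => Prod.ext h2 h1)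
      (fun ω hω => hω.2) (fun ω hω => sub_mem_comm_iff.1 hω.1.1) fun ω hω => by
        rw [add_comm]; exact hω.1.2
    have a4 := dm_mono (le_sup_left : perp (range (tr A2 ∘ₗ ξ)) ≤ _ ⊔ Cs A1 σ A3 K u)
    rw [Submodule.map_id, dm_prod, dm_prod, dm_bot, dm_top, card_fun, Fintype.card_fin] at a2
    omega
  · have tn : t ≠ 0 := fun h => z2 fun ω hω => (t0 h ω hω).1
    have a2 := gm (Y := ((n → ℂ) × (n → ℂ)) × ((Fin f2 → ℂ) × (Fin f3 → ℂ)))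
      (c.gen.fst.ext e1) RM.id (RM.fst.comp RM.snd) (RM.snd.comp RM.fst) pC2
      ((pΩ.inf (RS.comap RM.fst pC3)).prod (RS.top.prod RS.bot)) (D := D) (fun ω hω => by
        have h2 := (mD ω hω).2.2
        rw [show ω.2.2 = 0 from z3 hω, map_zero, zero_sub, neg_mem_iff] at h2
        exact ⟨⟨hω.1.1, h2⟩, trivial, z3 hω⟩) (fun ω hω => (mD ω hω).2.1) z2
    have a3 := c.o_half tn (a := a) hb hT hΓ (Ω ⊓ (Cs A1 σ A3 K u).comap (LinearMap.fst ℂ _ _))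
      (LinearMap.fst ℂ _ _) (LinearMap.snd ℂ _ _) (fun _ _ h1 h2 => Prod.ext h1 h2)
      (fun ω hω => hω.2) (fun ω hω => hω.1.1) fun ω hω => hω.1.2
    have a4 := dm_mono (le_sup_left : perp (range (tr A3 ∘ₗ ξ)) ≤ _ ⊔ Cs A1 σ A2 K u)
    rw [Submodule.map_id, dm_prod, dm_prod, dm_bot, dm_top, card_fun, Fintype.card_fin] at a2
    omega
  · have a2 := gm2 (Y := ((n → ℂ) × (n → ℂ)) × ((Fin f2 → ℂ) × (Fin f3 → ℂ))) (c.gen.ext e1)
      (RM.inl (W := n → ℂ)) RM.inr (RM.fst.comp RM.snd)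
      (RM.snd.comp RM.snd) ((RM.snd.comp RM.fst).prod (RM.fst.comp RM.fst)) (pC2.prod pC3)
      (pΩ.prod RS.top) (D := D) inf_le_left (fun ω hω => by
        obtain ⟨_, h2, h3⟩ := mD ω hω
        exact ⟨by simpa using h2, by simpa using h3⟩) z2 z3
    have a3 : dm Ω ≤ dm Te + dm ((range (A2 ∘ₗ u)).comap (a • A2 + b • A3)) :=
      dm_le_add (a • (A2 ∘ₗ LinearMap.fst ℂ _ _) + b • (A3 ∘ₗ LinearMap.snd ℂ _ _))
        (LinearMap.snd ℂ _ _) (fun ω hω => hω.2) (fun ω hω e => by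
          obtain ⟨w, hw⟩ := hω.1
          replace hw : u w = ω.2 - ω.1 := hw
          replace e : a • A2 ω.1 + b • A3 ω.2 = 0 := e
          refine ⟨a • w, ?_⟩
          show A2 (u (a • w)) = a • A2 ω.2 + b • A3 ω.2
          rw [map_smul, map_smul, hw, map_sub]
          linear_combination (norm := module) -e) fun ω hω e e' => by
          obtain ⟨w, hw⟩ := hω.1
          replace e' : ω.2 = 0 := e'
          replace hw : u w = ω.2 - ω.1 := hw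
          replace e : a • A2 ω.1 + b • A3 ω.2 = 0 := e
          rw [e', map_zero, smul_zero, add_zero] at e
          have h1 : A2 (u w) = 0 := by
            rw [hw, e', zero_sub, map_neg, (smul_eq_zero.1 e).resolve_left ha, neg_zero]
          rw [c.swap.inj3 w h1, map_zero, e', zero_sub] at hw
          exact Prod.ext (neg_eq_zero.1 hw.symm) e'
    have a4 := c.su'.u2 0 b a (Or.inr hb)
    rw [zero_smul, zero_add, add_comm (b • A3)] at a4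
    have a5 := dm_mono (le_sup_left : (perp (range (tr A3 ∘ₗ ξ))).prod
      (perp (range (tr A2 ∘ₗ ξ))) ≤ _ ⊔ (Cs A1 σ A2 K u).prod (Cs A1 σ A3 K u))
    rw [← LinearMap.prod_eq_sup_map] at a2
    simp only [dm_prod, dm_top, Module.finrank_prod, card_fun, Fintype.card_fin] at a2 a5
    omega

theorem oo_half {a b : ℂ} (ha : a ≠ 0) (S : Submodule ℂ ((m → ℂ) × (m → ℂ)))
    (p r : (m → ℂ) × (m → ℂ) →ₗ[ℂ] (m → ℂ)) (h0 : ∀ ω, p ω = 0 → r ω = 0 → ω = 0)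
    (h1 : ∀ ω ∈ S, tr A1 (r ω) ∈ range (tr A2 ∘ₗ ξ)) (h2 : ∀ ω ∈ S, r ω - p ω ∈ range ξ)
    (h3 : ∀ ω ∈ S, a • tr A2 (p ω) + b • tr A3 (r ω) = 0) :
    dm S ≤ γ' + q ∧ dm S ≤ 2 * q := by
  have a1 := dm_le_of_inj r (S := S) (T := (range (tr A2 ∘ₗ ξ)).comap (tr A1)) h1
    fun ω hω e => by
      obtain ⟨y, hy⟩ := h2 ω hω
      have e2 := h3 ω hω
      rw [e, map_zero, smul_zero, add_zero] at e2
      rw [e, zero_sub] at hy
      have e3 := (c.xp (r1 := 0) (r2 := 1) (Or.inr one_ne_zero) y 0 (by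
        rw [hy, map_neg (tr A2), (smul_eq_zero.1 e2).resolve_left ha]; simp)).1
      rw [e3, map_zero] at hy
      exact h0 ω (neg_eq_zero.1 hy.symm) e
  have a2 := dm_comap_le (tr A1) (range (tr A2 ∘ₗ ξ))
  have a3 := dm_range_fin (tr A2 ∘ₗ ξ)
  have a4 := dm_le_of_inj ((r - p).prod (tr A1 ∘ₗ r)) (S := S)
    (T := (range ξ).prod (range (tr A2 ∘ₗ ξ))) (fun ω hω => ⟨h2 ω hω, h1 ω hω⟩) fun ω hω e => by
      have e1 : r ω = p ω := sub_eq_zero.1 (congrArg Prod.fst e)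
      have e2 := c.b.l1 a b (Or.inl ha) (r ω) (congrArg Prod.snd e) (by
        rw [tr_M, ← h3 ω hω, e1])
      exact h0 ω (e1 ▸ e2) e2
  have a5 := dm_range_fin ξ
  rw [dm_prod] at a4
  rw [c.b.c1] at a2
  omega

theorem oo {a b : ℂ} (ha : a ≠ 0) (hb : b ≠ 0) (S : Submodule ℂ ((m → ℂ) × (m → ℂ)))
    (s2 : ∀ ω ∈ S, ω.1 ∈ perp ((Hs σ A2 u F2).map A1))
    (s3 : ∀ ω ∈ S, ω.2 ∈ perp ((Hs σ A3 u F3).map A1)) (su : ∀ ω ∈ S, ω.2 - ω.1 ∈ range ξ)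
    (se : ∀ ω ∈ S, a • tr A2 ω.1 + b • tr A3 ω.2 = 0) : dm S + h ≤ t + κ + γ' + 4 := by
  have num := c.num
  have n12 := c.b.nm.n12
  have n0 := c.b.nm.e1
  obtain ⟨E1, e1, ha1, hb1⟩ := ext2 E a b
  obtain ⟨_, _, q3, _, p1, p2, p3, _⟩ := c.r.mono e1.le
  have pξ := c.rξ.mono e1.le
  let Ω : Submodule ℂ ((m → ℂ) × (m → ℂ)) :=
    (range ξ).comap (LinearMap.snd ℂ _ _ - LinearMap.fst ℂ _ _) ⊓
      ker (a • (tr A2 ∘ₗ LinearMap.fst ℂ _ _) + b • (tr A3 ∘ₗ LinearMap.snd ℂ _ _))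
  have pΩ : RS E1 Ω := (RS.comap (RM.snd.sub RM.fst) (RS.range pξ)).inf
    (RS.ker (((p2.comp RM.fst).smul ha1).add ((p3.comp RM.snd).smul hb1)))
  have hΩ : S ≤ Ω := fun ω hω => ⟨su ω hω, se ω hω⟩
  have k2 : ∀ ω ∈ S, (tr A1 ∘ₗ LinearMap.fst ℂ _ _) ω ∈ perp (range (lin F2)) := fun ω hω => by
    have := s2 ω hω
    rw [perp_map] at this
    exact perp_anti le_sup_right this
  have k3 : ∀ ω ∈ S, (tr A1 ∘ₗ LinearMap.snd ℂ _ _) ω ∈ perp (range (lin F3)) := fun ω hω => by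
    have := s3 ω hω
    rw [perp_map] at this
    exact perp_anti le_sup_right this
  by_cases z2 : S ≤ (range (tr A3 ∘ₗ ξ)).comap (tr A1 ∘ₗ LinearMap.fst ℂ _ _) <;>
    by_cases z3 : S ≤ (range (tr A2 ∘ₗ ξ)).comap (tr A1 ∘ₗ LinearMap.snd ℂ _ _)
  · have key : ∀ ω ∈ S, ω.1 = ω.2 ∧ tr A1 ω.2 = 0 := fun ω hω => by
      obtain ⟨θ, hθ⟩ := su ω hω
      obtain ⟨y3, h3⟩ := z2 hω
      obtain ⟨y2, h2⟩ := z3 hω
      obtain ⟨h4, h5, -⟩ := c.sx.xall θ (-y2) y3 (by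
        rw [hθ, map_neg, map_neg, map_sub, show tr A3 (ξ y3) = tr A1 ω.1 from h3,
          show tr A2 (ξ y2) = tr A1 ω.2 from h2]
        abel)
      rw [neg_eq_zero] at h5
      rw [h4, map_zero] at hθ
      rw [h5, map_zero] at h2
      exact ⟨(sub_eq_zero.1 hθ.symm).symm, h2.symm⟩
    have a1 := dm_zero (S := S) fun ω hω => by
      have e := c.b.l1 a b (Or.inl ha) ω.2 (key ω hω).2 (by rw [tr_M, ← se ω hω, (key ω hω).1])
      exact Prod.ext ((key ω hω).1.trans e) e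
    have a2 := c.b.nm.ht
    omega
  · have a1 := gf (c.gen.snd.ext e1) (p1.comp RM.snd)
      (pΩ.inf (RS.comap (p1.comp RM.fst) (RS.range (p3.comp pξ)))) (le_inf hΩ z2) k3
    have a2 := c.swap.oo_half (b := a) hb
      (Ω ⊓ (range (tr A3 ∘ₗ ξ)).comap (tr A1 ∘ₗ LinearMap.fst ℂ _ _)) (LinearMap.snd ℂ _ _)
      (LinearMap.fst ℂ _ _) (fun ω h1 h2 => Prod.ext h2 h1) (fun ω hω => hω.2)
      (fun ω hω => sub_mem_comm_iff.1 hω.1.1) fun ω hω => by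
        rw [add_comm]; exact hω.1.2
    rw [perp_perp, Fintype.card_fin] at a1
    rcases a1 with a1 | a1
    · exact absurd a1 z3
    · omega
  · have a1 := gf (c.gen.fst.ext e1) (p1.comp RM.fst)
      (pΩ.inf (RS.comap (p1.comp RM.snd) (RS.range (p2.comp pξ)))) (le_inf hΩ z3) k2
    have a2 := c.oo_half (b := b) ha
      (Ω ⊓ (range (tr A2 ∘ₗ ξ)).comap (tr A1 ∘ₗ LinearMap.snd ℂ _ _)) (LinearMap.fst ℂ _ _)
      (LinearMap.snd ℂ _ _) (fun ω h1 h2 => Prod.ext h1 h2) (fun ω hω => hω.2)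
      (fun ω hω => hω.1.1) fun ω hω => hω.1.2
    rw [perp_perp, Fintype.card_fin] at a1
    rcases a1 with a1 | a1
    · exact absurd a1 z2
    · omega
  · have a1 := gf2 (c.gen.ext e1) (p1.comp RM.fst) (p1.comp RM.snd)
      (pΩ.inf (RS.comap RM.snd (rs_perp (RS.range (q3.comp (c.ru.mono e1.le)))))) (D := S)
      (le_inf hΩ (by
        rintro ω hω _ ⟨y, rfl⟩
        exact s3 ω hω _ ⟨σ (A3 (u y)), Submodule.mem_sup_left ⟨y, rfl⟩, c.swap.s2 y⟩)) k2 k3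
      (by rwa [perp_perp]) (by rwa [perp_perp])
    have a2 := dm_le_add (LinearMap.snd ℂ _ _ - LinearMap.fst ℂ _ _) (LinearMap.snd ℂ _ _)
      (S := Ω ⊓ (perp (range (A3 ∘ₗ u))).comap (LinearMap.snd ℂ _ _)) (T := range ξ)
      (K := ker (tr (a • A2 + b • A3)) ⊓ perp (range (A3 ∘ₗ u))) (fun ω hω => hω.1.1)
      (fun ω hω e => ⟨by
        have e1 : a • tr A2 ω.1 + b • tr A3 ω.2 = 0 := hω.1.2
        show tr (a • A2 + b • A3) ω.2 = 0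
        rw [tr_M, ← e1, sub_eq_zero.1 (show ω.2 - ω.1 = 0 from e)], hω.2⟩) fun ω _ e e' =>
        Prod.ext ((sub_eq_zero.1 (show ω.2 - ω.1 = 0 from e)).symm.trans e') e'
    have a3 := c.su.u4 a b ha
    have a4 := dm_range_fin ξ
    rw [Fintype.card_fin, Fintype.card_fin] at a1
    omega

end Ctx

end Pool.Agent.P.MP_098a67_ag.R3
end

-- part Pool.Agent.P.MP_098a67_ag.R3.StY
section

namespace Pool.Agent.P.MP_098a67_ag.R3

open Module T3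
open LinearMap (ker range)

variable {m n : Type} [Fintype m] [DecidableEq m] [Fintype n] [DecidableEq n]

/-- The map subtracted from the second slice. -/
structure YD (A1 A2 : (n → ℂ) →ₗ[ℂ] (m → ℂ)) (H J : Submodule ℂ (n → ℂ)) {t q : ℕ}
    (u : (Fin t → ℂ) →ₗ[ℂ] (n → ℂ)) (ξ : (Fin q → ℂ) →ₗ[ℂ] (m → ℂ))
    (π : (n → ℂ) →ₗ[ℂ] (n → ℂ)) (Y : (n → ℂ) →ₗ[ℂ] (m → ℂ))
    (ν : (n → ℂ) →ₗ[ℂ] (n → ℂ)) : Prop where
  p1 : ∀ v ∈ H, π v = v
  p2 : ∀ v ∈ J, π v = 0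
  p3 : ∀ v, π v ∈ H
  p4 : ∀ v, v - π v ∈ J
  y1 : ∀ v ∈ J, Y v = 0
  y2 : ∀ v, Y v ∈ H.map A1
  y3 : ∀ y, Y (u y) = A2 (u y)
  y4 : ∀ y v, ξ y ⬝ᵥ Y v = ξ y ⬝ᵥ A2 v
  kν : ker ν = J ⊔ range u

variable {A1 A2 A3 : (n → ℂ) →ₗ[ℂ] (m → ℂ)} {σ : (m → ℂ) →ₗ[ℂ] (n → ℂ)}
  {K W0 H J : Submodule ℂ (n → ℂ)} {X0 T : Submodule ℂ (m → ℂ)}
  {M N h γ γ' g g' κ k ks r ρ t q f2 f3 : ℕ} {u : (Fin t → ℂ) →ₗ[ℂ] (n → ℂ)}
  {ξ : (Fin q → ℂ) →ₗ[ℂ] (m → ℂ)} {E E4 : Subfield ℂ} {F2 : Fin f2 → n → ℂ} {F3 : Fin f3 → n → ℂ}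
  {π ν π' ν' : (n → ℂ) →ₗ[ℂ] (n → ℂ)} {Y Y' : (n → ℂ) →ₗ[ℂ] (m → ℂ)} {Φ Φ' : n → m → ℂ}

theorem YD.add (d : YD A1 A2 H J u ξ π Y ν) (hΦ : Φ ∈ cols n (H.map A1 ⊓ perp (range ξ))) :
    YD A1 A2 H J u ξ π (Y + lin Φ ∘ₗ ν) ν := by
  have h0 : ∀ v ∈ J ⊔ range u, lin Φ (ν v) = 0 := fun v hv => by
    rw [← d.kν] at hv
    rw [show ν v = 0 from hv, map_zero]
  refine { d with y1 := fun v hv => ?_, y2 := fun v => ?_, y3 := fun y => ?_, y4 := fun y v => ?_ }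
  · show Y v + lin Φ (ν v) = 0
    rw [d.y1 v hv, h0 v (Submodule.mem_sup_left hv), add_zero]
  · exact Submodule.add_mem _ (d.y2 v) (lin_mem hΦ _).1
  · show Y (u y) + lin Φ (ν (u y)) = _
    rw [d.y3, h0 _ (Submodule.mem_sup_right ⟨y, rfl⟩), add_zero]
  · show ξ y ⬝ᵥ (Y v + lin Φ (ν v)) = _
    rw [dotProduct_add, d.y4, dotProduct_comm _ (lin Φ _), (lin_mem hΦ _).2 _ ⟨y, rfl⟩, add_zero]

theorem YD.mem_ker (d : YD A1 A2 H J u ξ π Y ν) {v : n → ℂ} (hv : v ∈ ker ν) :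
    ∃ j ∈ J, ∃ y, j + u y = v := by
  rw [d.kν] at hv
  obtain ⟨j, hj, _, ⟨y, rfl⟩, e⟩ := Submodule.mem_sup.1 hv
  exact ⟨j, hj, y, e⟩

theorem YD.perp_mem (d : YD A1 A2 H J u ξ π Y ν) (v : n → ℂ) : A2 v - Y v ∈ perp (range ξ) := by
  rintro _ ⟨y, rfl⟩
  rw [dotProduct_comm, dotProduct_sub, d.y4, sub_self]

theorem mem_perp_I {ζ : m → ℂ} (hζ : ζ ∈ perp (T ⊓ perp (range ξ))) :
    ∃ η ∈ perp T, ∃ y, η + ξ y = ζ := by
  rw [perp_inf, perp_perp] at hζ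
  obtain ⟨η, hη, _, ⟨y, rfl⟩, e⟩ := Submodule.mem_sup.1 hζ
  exact ⟨η, hη, y, e⟩

theorem map_J {v : n → ℂ} (hv : v ∈ ker A1 ⊔ K ⊔ H) : A1 v ∈ (K ⊔ H).map A1 := by
  rw [sup_assoc] at hv
  obtain ⟨a, ha, b, hb, rfl⟩ := Submodule.mem_sup.1 hv
  rw [map_add, show A1 a = 0 from ha, zero_add]
  exact ⟨b, hb, rfl⟩

namespace Ctx

variable (c : Ctx A1 A2 A3 σ K W0 X0 T M N h γ γ' g g' κ k ks r ρ t q f2 f3 u ξ E F2 F3)
include c

theorem exY : ∃ π Y ν, YD A1 A2 (Hs σ A2 u F2) (ker A1 ⊔ K ⊔ Hs σ A3 u F3) u ξ π Y ν := by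
  obtain ⟨π, p1, p2, p3⟩ := exists_proj c.dj
  have p4 : ∀ v, v - π v ∈ ker A1 ⊔ K ⊔ Hs σ A3 u F3 := fun v => by
    have : v ∈ ker A1 ⊔ K ⊔ Hs σ A3 u F3 ⊔ Hs σ A2 u F2 := by rw [c.top]; trivial
    obtain ⟨a, ha, b, hb, rfl⟩ := Submodule.mem_sup.1 this
    rw [map_add, p1 b hb, p2 a ha, zero_add, add_sub_cancel_right]
    exact ha
  obtain ⟨ν, hν⟩ := exists_ker (ker A1 ⊔ K ⊔ Hs σ A3 u F3 ⊔ range u)
  obtain ⟨p, hp⟩ := (π ∘ₗ u).exists_leftInverse_of_injective (LinearMap.ker_eq_bot'.2 fun y hy => by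
    have := p4 (u y)
    rw [show π (u y) = 0 from hy, sub_zero] at this
    exact c.d2a (r1 := 1) (r2 := 0) (Or.inl one_ne_zero) y (by simpa using map_J this))
  obtain ⟨G, hg⟩ := (tr ξ ∘ₗ ((Hs σ A2 u F2).map A1).subtype).exists_rightInverse_of_surjective (by
    rw [LinearMap.range_comp, Submodule.range_subtype]
    refine eq_top_of_perp fun y hy => ?_
    rw [perp_map, tr_tr, Submodule.mem_comap, perp_map] at hy
    exact c.d2b (r1 := 1) (r2 := 0) (Or.inl one_ne_zero) y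
      (by simpa using perp_anti le_sup_right hy))
  have hg' : ∀ z, tr ξ (G z) = z := fun z => LinearMap.congr_fun hg z
  have hJ : ∀ v ∈ ker A1 ⊔ K ⊔ Hs σ A3 u F3, tr ξ (A2 v) = 0 := fun v hv =>
    eq_of_dot fun y => by
      rw [tr_dot, zero_dotProduct, dotProduct_comm]
      obtain ⟨x, hx⟩ := mem_J hv
      obtain ⟨ν, v0, y', h1, h2, e⟩ := mem_Cs.1 hx
      have h3 := lin_mem c.gen.snd.mem x _ ⟨y, rfl⟩
      rw [dotProduct_comm, LinearMap.comp_apply, tr_dot] at h3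
      rw [← sub_add_cancel v (lin F3 x), ← e]
      simp only [map_add, dotProduct_add, c.sx.n2 y ν h1, c.b.K2 v0 h2, c.xa, h3,
        dotProduct_zero, add_zero]
  have hπ : ∀ v, tr ξ (A2 (π v)) = tr ξ (A2 v) := fun v => by
    have := hJ _ (p4 v)
    rw [map_sub, map_sub] at this
    exact (sub_eq_zero.1 this).symm
  let Y := (A2 ∘ₗ u ∘ₗ p + ((Hs σ A2 u F2).map A1).subtype ∘ₗ G ∘ₗ
    (tr ξ ∘ₗ A2 - tr ξ ∘ₗ A2 ∘ₗ u ∘ₗ p)) ∘ₗ π
  have hY : ∀ v, Y v = A2 (u (p (π v))) + G (tr ξ (A2 (π v)) - tr ξ (A2 (u (p (π v))))) :=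
    fun _ => rfl
  refine ⟨π, Y, ν, p1, p2, p3, p4, fun v hv => ?_, fun v => ?_, fun y => ?_, fun y v => ?_, hν⟩
  · rw [hY, p2 v hv]
    simp
  · rw [hY]
    exact Submodule.add_mem _ ⟨_, Submodule.mem_sup_left ⟨_, rfl⟩, c.s2 _⟩ (G _).2
  · rw [hY, show p (π (u y)) = y from LinearMap.congr_fun hp y, hπ, sub_self]
    simp
  · have : tr ξ (Y v) = tr ξ (A2 v) := by rw [hY, map_add, hg', hπ, add_sub_cancel]
    rw [dotProduct_comm, ← tr_dot, this, tr_dot, dotProduct_comm]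

theorem dHJ : dm (Hs σ A2 u F2) + dm (ker A1 ⊔ K ⊔ Hs σ A3 u F3) = N := by
  rw [← dm_sup_eq c.dj, sup_comm, c.top, dm_top, card_fun, c.b.hN]

variable (d : YD A1 A2 (Hs σ A2 u F2) (ker A1 ⊔ K ⊔ Hs σ A3 u F3) u ξ π Y ν)
  (gΦ : GenIn E4 Φ (cols n ((Hs σ A2 u F2).map A1 ⊓ perp (range ξ))) 0)
  (r1 : RM E4 A1) (r2 : RM E4 A2) (rπ : RM E4 π) (rY : RM E4 Y) (rν : RM E4 ν)
  (rI : RS E4 ((Hs σ A2 u F2).map A1 ⊓ perp (range ξ)))
include d gΦ r1 r2 rπ rY rν rI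

theorem small : RK2 (A1 ∘ₗ π) (Y + lin Φ ∘ₗ ν) (t + f2 + 4) := by
  have d' := d.add gΦ.mem
  have a1 := c.dHJ
  have a2 := c.dH
  have a3 := dm_map_le A1 (Hs σ A2 u F2)
  refine pt0 _ _ ((Hs σ A2 u F2).map A1) (ker A1 ⊔ K ⊔ Hs σ A3 u F3)
    (N + 2 - dm ((Hs σ A2 u F2).map A1)) _ (fun v => ⟨_, d.p3 v, rfl⟩) d'.y2
    (fun v hv => ⟨by simp [d.p2 v hv], d'.y1 v hv⟩) (fun a b hab => ?_) (by omega)
  suffices ker (a • (A1 ∘ₗ π) + b • (Y + lin Φ ∘ₗ ν)) ≤ ker A1 ⊔ K ⊔ Hs σ A3 u F3 ∨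
      dm (ker (a • (A1 ∘ₗ π) + b • (Y + lin Φ ∘ₗ ν))) + dm ((Hs σ A2 u F2).map A1) ≤ N + 2 by
    rcases this with h1 | h1
    · have := dm_mono h1
      omega
    · omega
  by_cases hb : b = 0
  · refine Or.inl fun v hv => ?_
    have ha := hab.resolve_right (not_not.2 hb)
    have h1 : A1 (π v) = 0 := by simpa [hb, ha] using hv
    have h2 := d.p4 v
    rwa [c.dj _ (d.p3 v) (Submodule.mem_sup_left (Submodule.mem_sup_left h1)), sub_zero] at h2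
  by_cases z : ker (a • (A1 ∘ₗ π) + b • (Y + lin Φ ∘ₗ ν)) ≤ ker ν
  · refine Or.inl fun v hv => ?_
    obtain ⟨j, hj, y, rfl⟩ := d.mem_ker (z hv)
    have h1 : a • A1 (π (j + u y)) + b • (Y + lin Φ ∘ₗ ν) (j + u y) = 0 := hv
    rw [map_add, map_add (Y + lin Φ ∘ₗ ν), d.p2 j hj, d'.y1 j hj, d'.y3, zero_add, zero_add] at h1
    have h2 : y = 0 := c.d2a hab y (by
      have : a • A1 (u y) + b • A2 (u y) = a • A1 (u y - π (u y)) := by
        rw [map_sub]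
        linear_combination (norm := module) h1
      rw [this]
      exact Submodule.smul_mem _ _ (map_J (d.p4 _)))
    rwa [h2, map_zero, add_zero]
  · right
    obtain ⟨E5, e5, ha5, hb5⟩ := ext2 E4 a b
    have rB := (((r1.mono e5.le).comp (rπ.mono e5.le)).smul ha5).add ((rY.mono e5.le).smul hb5)
    have hv : ∀ v ∈ ker (a • (A1 ∘ₗ π) + b • (Y + lin Φ ∘ₗ ν)),
        (a • (A1 ∘ₗ π) + b • Y) v = -(b • lin Φ (ν v)) := fun v hv => by
      have h1 : a • A1 (π v) + b • (Y v + lin Φ (ν v)) = 0 := hv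
      show a • A1 (π v) + b • Y v = _
      linear_combination (norm := module) h1
    have b1 := gm (gΦ.ext e5) (RM.id.smul hb5) (rν.mono e5.le) rB.neg RS.bot
      (RS.comap rB (rI.mono e5.le)) (fun v h1 => by
        rw [Submodule.mem_comap, hv v h1]
        exact Submodule.neg_mem _ (Submodule.smul_mem _ _ (lin_mem gΦ.mem _))) (fun v h1 => by
        rw [LinearMap.neg_apply, hv v h1]
        simp) z
    have b2 := dm_comap_top (a • (A1 ∘ₗ π) + b • Y) ((Hs σ A2 u F2).map A1 ⊓ perp (range ξ))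
    have b3 : (Hs σ A2 u F2).map A1 ≤
        range (a • (A1 ∘ₗ π) + b • Y) ⊔ (Hs σ A2 u F2).map A1 ⊓ perp (range ξ) := by
      refine le_of_perp fun ζ hζ => ?_
      rw [perp_sup] at hζ
      obtain ⟨η, hη, y, rfl⟩ := mem_perp_I hζ.2
      have hy : y = 0 := c.d2b hab y (by
        rintro _ ⟨x, rfl⟩
        have h1 := hζ.1 _ ⟨lin F2 x, rfl⟩
        have h2 : lin F2 x ∈ Hs σ A2 u F2 := Submodule.mem_sup_right ⟨x, rfl⟩
        simp only [LinearMap.add_apply, LinearMap.smul_apply, LinearMap.comp_apply, d.p1 _ h2,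
          add_dotProduct, dotProduct_add, dotProduct_smul, hη _ ⟨_, h2, rfl⟩, hη _ (d.y2 _),
          d.y4, smul_zero, zero_add] at h1
        simp only [add_dotProduct, smul_dotProduct, tr_dot]
        exact h1)
      rwa [hy, map_zero, add_zero]
    have b4 := dm_mono b3
    rw [map_smul_id hb, sup_bot_eq, dm_bot] at b1
    rw [card_fun, c.b.hN] at b2
    omega

theorem vertex : dm (ker (A2 - (Y + lin Φ ∘ₗ ν))) + h ≤ t + κ + q + γ + 4 := by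
  have d' := d.add gΦ.mem
  by_cases z : ker (A2 - (Y + lin Φ ∘ₗ ν)) ≤ ker ν
  · have a1 : ker (A2 - (Y + lin Φ ∘ₗ ν)) ≤ (ker A1 ⊔ K ⊔ Hs σ A3 u F3) ⊓ ker A2 ⊔ range u := by
      intro v hv
      obtain ⟨j, hj, y, rfl⟩ := d.mem_ker (z hv)
      have h1 : A2 (j + u y) - (Y + lin Φ ∘ₗ ν) (j + u y) = 0 := hv
      rw [map_add, map_add (Y + lin Φ ∘ₗ ν), d'.y1 j hj, d'.y3, zero_add,
        add_sub_cancel_right] at h1
      exact Submodule.add_mem_sup ⟨hj, h1⟩ ⟨y, rfl⟩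
    have a2 := (dm_mono a1).trans (dm_sup_le _ _)
    have a3 := dm_range_fin u
    have a4 := c.va
    omega
  · have hv : ∀ v ∈ ker (A2 - (Y + lin Φ ∘ₗ ν)), (A2 - Y) v = lin Φ (ν v) := fun v hv => by
      have h1 : A2 v - (Y v + lin Φ (ν v)) = 0 := hv
      show A2 v - Y v = _
      linear_combination (norm := module) h1
    have b1 := gm gΦ RM.id rν (r2.sub rY) RS.bot (RS.comap (r2.sub rY) rI) (fun v h1 => by
        rw [Submodule.mem_comap, hv v h1]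
        exact lin_mem gΦ.mem _) (fun v h1 => by
        rw [hv v h1]
        simp) z
    have b2 := dm_comap_top (A2 - Y) ((Hs σ A2 u F2).map A1 ⊓ perp (range ξ))
    have b3 := dm_perp (range (A2 - Y) ⊔ (Hs σ A2 u F2).map A1 ⊓ perp (range ξ))
    have b4 : perp (range (A2 - Y) ⊔ (Hs σ A2 u F2).map A1 ⊓ perp (range ξ)) ≤
        ker (tr A2) ⊓ perp ((range (lin F2)).map A1) ⊔ range ξ := by
      intro ζ hζ
      rw [perp_sup] at hζ
      obtain ⟨η, hη, y, rfl⟩ := mem_perp_I hζ.2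
      refine Submodule.add_mem_sup ⟨eq_of_dot fun v => ?_,
        perp_anti (Submodule.map_mono le_sup_right) hη⟩ ⟨y, rfl⟩
      have h1 := hζ.1 _ ⟨v, rfl⟩
      simp only [LinearMap.sub_apply, add_dotProduct, dotProduct_sub, hη _ (d.y2 _), d.y4,
        sub_self, sub_zero, add_zero] at h1
      rw [tr_dot, zero_dotProduct]
      linear_combination h1
    have b5 := (dm_mono b4).trans (dm_sup_le _ _)
    have b6 := dm_range_fin ξ
    have b7 := c.vb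
    have b8 := c.b.hM
    have b9 := c.b.hN
    have b10 := c.b.nm.e1
    rw [Submodule.map_id, sup_bot_eq, dm_bot] at b1
    rw [card_fun] at b2
    omega

end Ctx

end Pool.Agent.P.MP_098a67_ag.R3
end

-- part Pool.Agent.P.MP_098a67_ag.R3.StZ
section

namespace Pool.Agent.P.MP_098a67_ag.R3

open Module T3
open LinearMap (ker range)

variable {m n : Type} [Fintype m] [DecidableEq m] [Fintype n] [DecidableEq n]

/-- The data of the last stage. -/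
structure S4 (A1 A2 A3 : (n → ℂ) →ₗ[ℂ] (m → ℂ)) (σ : (m → ℂ) →ₗ[ℂ] (n → ℂ))
    (K : Submodule ℂ (n → ℂ)) (T : Submodule ℂ (m → ℂ)) {t q f2 f3 : ℕ}
    (u : (Fin t → ℂ) →ₗ[ℂ] (n → ℂ)) (ξ : (Fin q → ℂ) →ₗ[ℂ] (m → ℂ)) (F2 : Fin f2 → n → ℂ)
    (F3 : Fin f3 → n → ℂ) (E : Subfield ℂ) (π : (n → ℂ) →ₗ[ℂ] (n → ℂ))
    (Y : (n → ℂ) →ₗ[ℂ] (m → ℂ)) (ν π' : (n → ℂ) →ₗ[ℂ] (n → ℂ)) (Y' : (n → ℂ) →ₗ[ℂ] (m → ℂ))
    (ν' : (n → ℂ) →ₗ[ℂ] (n → ℂ)) (Φ Φ' : n → m → ℂ) : Prop where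
  d : YD A1 A2 (Hs σ A2 u F2) (ker A1 ⊔ K ⊔ Hs σ A3 u F3) u ξ π Y ν
  d' : YD A1 A3 (Hs σ A3 u F3) (ker A1 ⊔ K ⊔ Hs σ A2 u F2) u ξ π' Y' ν'
  g : GenIn E (Φ, Φ') ((cols n ((Hs σ A2 u F2).map A1 ⊓ perp (range ξ))).prod
    (cols n ((Hs σ A3 u F3).map A1 ⊓ perp (range ξ)))) 0
  r1 : RM E A1
  r2 : RM E A2
  r3 : RM E A3
  rπ : RM E π
  rY : RM E Y
  rν : RM E ν
  rπ' : RM E π'
  rY' : RM E Y'
  rν' : RM E ν'
  rI : RS E ((Hs σ A2 u F2).map A1 ⊓ perp (range ξ))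
  rI' : RS E ((Hs σ A3 u F3).map A1 ⊓ perp (range ξ))
  rT : RS E T
  hT : T ≤ perp (range ξ)

variable {A1 A2 A3 : (n → ℂ) →ₗ[ℂ] (m → ℂ)} {σ : (m → ℂ) →ₗ[ℂ] (n → ℂ)}
  {K W0 D : Submodule ℂ (n → ℂ)} {X0 T Te : Submodule ℂ (m → ℂ)}
  {M N h γ γ' g g' κ k ks r ρ t q f2 f3 : ℕ} {u : (Fin t → ℂ) →ₗ[ℂ] (n → ℂ)}
  {ξ : (Fin q → ℂ) →ₗ[ℂ] (m → ℂ)} {E E4 : Subfield ℂ} {F2 : Fin f2 → n → ℂ} {F3 : Fin f3 → n → ℂ}
  {π ν π' ν' : (n → ℂ) →ₗ[ℂ] (n → ℂ)} {Y Y' : (n → ℂ) →ₗ[ℂ] (m → ℂ)} {Φ Φ' : n → m → ℂ} {a b : ℂ}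

theorem S4.swap (s : S4 A1 A2 A3 σ K T u ξ F2 F3 E4 π Y ν π' Y' ν' Φ Φ') :
    S4 A1 A3 A2 σ K T u ξ F3 F2 E4 π' Y' ν' π Y ν Φ' Φ :=
  ⟨s.d', s.d, s.g.swap, s.r1, s.r3, s.r2, s.rπ', s.rY', s.rν', s.rπ, s.rY, s.rν, s.rI', s.rI,
    s.rT, s.hT⟩

theorem S4.te (s : S4 A1 A2 A3 σ K T u ξ F2 F3 E4 π Y ν π' Y' ν' Φ Φ') (hT : Te = ⊥ ∨ Te = T) :
    RS E4 Te ∧ Te ≤ perp (range ξ) := by
  rcases hT with rfl | rfl
  · exact ⟨RS.bot, bot_le⟩
  · exact ⟨s.rT, s.hT⟩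

theorem S4.p0 (s : S4 A1 A2 A3 σ K T u ξ F2 F3 E4 π Y ν π' Y' ν' Φ Φ') (a b : ℂ) (v : n → ℂ) :
    (a • (A2 - Y) + b • (A3 - Y')) v ∈ perp (range ξ) :=
  Submodule.add_mem _ (Submodule.smul_mem _ _ (s.d.perp_mem v))
    (Submodule.smul_mem _ _ (s.d'.perp_mem v))

namespace Ctx

variable (c : Ctx A1 A2 A3 σ K W0 X0 T M N h γ γ' g g' κ k ks r ρ t q f2 f3 u ξ E F2 F3)
  (s : S4 A1 A2 A3 σ K T u ξ F2 F3 E4 π Y ν π' Y' ν' Φ Φ') (ha : a ≠ 0) (hb : b ≠ 0)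
  (hT : Te = ⊥ ∨ Te = T) (hΓ : γ ≤ dm ((ker A1).map (a • A2 + b • A3) ⊔ Te) + ks)
include c s ha hb hT hΓ

theorem mix (hD : ∀ v ∈ D, a • (A2 v - (Y v + lin Φ (ν v))) +
      b • (A3 v - (Y' v + lin Φ' (ν' v))) ∈ Te) (z : D ≤ ker ν) (z' : ¬ D ≤ ker ν') :
    dm D + h ≤ t + κ + q + γ + 6 + dm Te := by
  obtain ⟨E5, e5, ha5, hb5⟩ := ext2 E4 a b
  obtain ⟨rT, pT⟩ := s.te hT
  have rP : RM E5 (a • (A2 - Y) + b • (A3 - Y')) :=
    (((s.r2.sub s.rY).mono e5.le).smul ha5).add (((s.r3.sub s.rY').mono e5.le).smul hb5)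
  have hv : ∀ v ∈ D, (a • (A2 - Y) + b • (A3 - Y')) v - b • lin Φ' (ν' v) ∈ Te := fun v hv => by
    have h1 := hD v hv
    rw [show ν v = 0 from z hv, map_zero, add_zero] at h1
    have : (a • (A2 - Y) + b • (A3 - Y')) v - b • lin Φ' (ν' v) =
        a • (A2 v - Y v) + b • (A3 v - (Y' v + lin Φ' (ν' v))) := by
      simp only [LinearMap.add_apply, LinearMap.smul_apply, LinearMap.sub_apply]
      module
    rwa [this]
  have b1 := gm (s.g.snd.ext e5) (RM.id.smul hb5) (s.rν'.mono e5.le) rP (rT.mono e5.le)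
    ((RS.ker (s.rν.mono e5.le)).inf (RS.comap rP ((s.rI'.sup rT).mono e5.le)))
    (fun v h1 => ⟨z h1, by
      rw [SetLike.mem_coe, Submodule.mem_comap, ← add_sub_cancel (b • lin Φ' (ν' v))
        ((a • (A2 - Y) + b • (A3 - Y')) v)]
      exact Submodule.add_mem_sup (Submodule.smul_mem _ _ (lin_mem s.g.snd.mem _)) (hv v h1)⟩)
    (fun v h1 => sub_mem_comm_iff.1 (hv v h1)) z'
  rw [map_smul_id hb] at b1
  have b2 := dm_comap (a • (A2 - Y) + b • (A3 - Y')) (ker ν)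
    ((Hs σ A3 u F3).map A1 ⊓ perp (range ξ) ⊔ Te)
  have b3 : dm (ker ν) ≤ γ + κ + t + f3 + t := by
    have a1 := dm_sup_le (ker A1 ⊔ K ⊔ Hs σ A3 u F3) (range u)
    have a2 := c.dJ
    have a3 := dm_range_fin u
    rw [s.d.kν]
    omega
  have b4 := c.m1 (b := b) ha hT hΓ
  have b5 : (ker A1).map (a • A2 + b • A3) ⊔ Te ⊔ (Hs σ A3 u F3).map (a • A2 + b • A3) ⊔
      (Hs σ A3 u F3).map A1 ≤ ((ker ν).map (a • (A2 - Y) + b • (A3 - Y')) ⊔ Te) ⊔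
      (Hs σ A3 u F3).map A1 := by
    have key : ∀ v ∈ ker A1 ⊔ K ⊔ Hs σ A3 u F3, (a • A2 + b • A3) v ∈
        ((ker ν).map (a • (A2 - Y) + b • (A3 - Y')) ⊔ Te) ⊔ (Hs σ A3 u F3).map A1 := fun v hv => by
      have : (a • A2 + b • A3) v = (a • (A2 - Y) + b • (A3 - Y')) v + b • Y' v := by
        simp only [LinearMap.add_apply, LinearMap.smul_apply, LinearMap.sub_apply, s.d.y1 v hv]
        module
      rw [this]
      refine Submodule.add_mem_sup (Submodule.mem_sup_left ⟨v, ?_, rfl⟩)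
        (Submodule.smul_mem _ _ (s.d'.y2 v))
      rw [s.d.kν]
      exact Submodule.mem_sup_left hv
    refine sup_le (sup_le (sup_le ?_ (le_sup_right.trans le_sup_left)) ?_) le_sup_right
    · rintro _ ⟨v, hv, rfl⟩
      exact key v (Submodule.mem_sup_left (Submodule.mem_sup_left hv))
    · rintro _ ⟨v, hv, rfl⟩
      exact key v (Submodule.mem_sup_right hv)
  have b6 := dm_mono b5
  have b7 := dm_inf_ge (((ker ν).map (a • (A2 - Y) + b • (A3 - Y')) ⊔ Te) ⊔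
    (Hs σ A3 u F3).map A1) (perp (range ξ))
  rw [sup_inf_assoc_of_le _ (sup_le (by rintro _ ⟨v, _, rfl⟩; exact s.p0 a b v) pT),
    sup_assoc _ Te (_ ⊓ _), sup_comm Te (_ ⊓ _), card_fun] at b7
  have b8 := dm_perp (range ξ)
  have b9 := dm_range_fin ξ
  omega

theorem member (hD : ∀ v ∈ D, a • (A2 v - (Y v + lin Φ (ν v))) +
      b • (A3 v - (Y' v + lin Φ' (ν' v))) ∈ Te) : dm D + h ≤ t + κ + q + γ + 6 + dm Te := by
  by_cases z : D ≤ ker ν <;> by_cases z' : D ≤ ker ν'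
  · let S : Submodule ℂ ((n → ℂ) × (n → ℂ)) :=
      (ker A1 ⊔ K ⊔ Hs σ A3 u F3).prod (ker A1 ⊔ K ⊔ Hs σ A2 u F2) ⊓
      (range u).comap (LinearMap.snd ℂ _ _ - LinearMap.fst ℂ _ _) ⊓
      Te.comap ((a • A2).coprod (b • A3))
    have a1 := c.o ha hb hT hΓ S (fun ω h1 => h1.1.1.1) (fun ω h1 => h1.1.1.2)
      (fun ω h1 => h1.1.2) (fun ω h1 => h1.2)
    have a2 : D ≤ S.map (LinearMap.fst ℂ _ _) ⊔ range u := fun v hv => by
      have h1 := hD v hv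
      rw [show ν v = 0 from z hv, show ν' v = 0 from z' hv, map_zero, map_zero, add_zero,
        add_zero] at h1
      obtain ⟨j, hj, y, e⟩ := s.d.mem_ker (z hv)
      obtain ⟨j', hj', y', e'⟩ := s.d'.mem_ker (z' hv)
      have h2 : A2 v - Y v = A2 j := by
        rw [← e, map_add, map_add, s.d.y1 j hj, s.d.y3, zero_add, add_sub_cancel_right]
      have h3 : A3 v - Y' v = A3 j' := by
        rw [← e', map_add, map_add, s.d'.y1 j' hj', s.d'.y3, zero_add, add_sub_cancel_right]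
      rw [h2, h3] at h1
      rw [← e]
      refine Submodule.add_mem_sup ⟨(j, j'), ⟨⟨⟨hj, hj'⟩, y - y', ?_⟩, h1⟩, rfl⟩ ⟨y, rfl⟩
      show u (y - y') = j' - j
      rw [map_sub]
      linear_combination (norm := module) e - e'
    have a3 := (dm_mono a2).trans (dm_sup_le _ _)
    have a4 := dm_map_le (LinearMap.fst ℂ _ _) S
    have a5 := dm_range_fin u
    omega
  · exact c.mix s ha hb hT hΓ hD z z'
  · exact c.swap.mix s.swap hb ha hT (by rwa [add_comm (b • A3)])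
      (fun v hv => by rw [add_comm]; exact hD v hv) z' z
  obtain ⟨E5, e5, ha5, hb5⟩ := ext2 E4 a b
  obtain ⟨rT, pT⟩ := s.te hT
  have rP : RM E5 (a • (A2 - Y) + b • (A3 - Y')) :=
    (((s.r2.sub s.rY).mono e5.le).smul ha5).add (((s.r3.sub s.rY').mono e5.le).smul hb5)
  have hv : ∀ v ∈ D, (a • (A2 - Y) + b • (A3 - Y')) v -
      (a • lin Φ (ν v) + b • lin Φ' (ν' v)) ∈ Te := fun v hv => by
    have : (a • (A2 - Y) + b • (A3 - Y')) v - (a • lin Φ (ν v) + b • lin Φ' (ν' v)) =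
        a • (A2 v - (Y v + lin Φ (ν v))) + b • (A3 v - (Y' v + lin Φ' (ν' v))) := by
      simp only [LinearMap.add_apply, LinearMap.smul_apply, LinearMap.sub_apply]
      module
    rw [this]
    exact hD v hv
  have b1 := gm2 (s.g.ext e5) (RM.id.smul ha5) (RM.id.smul hb5) (s.rν.mono e5.le)
    (s.rν'.mono e5.le) rP (rT.mono e5.le) (RS.comap rP (((s.rI.sup s.rI').sup rT).mono e5.le))
    (fun v h1 => by
      rw [Submodule.mem_comap, ← add_sub_cancel (a • lin Φ (ν v) + b • lin Φ' (ν' v))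
        ((a • (A2 - Y) + b • (A3 - Y')) v)]
      exact Submodule.add_mem_sup (Submodule.add_mem_sup
        (Submodule.smul_mem _ _ (lin_mem s.g.fst.mem _))
        (Submodule.smul_mem _ _ (lin_mem s.g.snd.mem _))) (hv v h1))
    (fun v h1 => sub_mem_comm_iff.1 (hv v h1)) z z'
  rw [map_smul_id ha, map_smul_id hb] at b1
  have b2 := dm_comap_top (a • (A2 - Y) + b • (A3 - Y')) ((Hs σ A2 u F2).map A1 ⊓ perp (range ξ) ⊔
    (Hs σ A3 u F3).map A1 ⊓ perp (range ξ) ⊔ Te)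
  have b3 := dm_perp (range (a • (A2 - Y) + b • (A3 - Y')) ⊔ ((Hs σ A2 u F2).map A1 ⊓
    perp (range ξ) ⊔ (Hs σ A3 u F3).map A1 ⊓ perp (range ξ) ⊔ Te))
  let S : Submodule ℂ ((m → ℂ) × (m → ℂ)) :=
    (perp ((Hs σ A2 u F2).map A1)).prod (perp ((Hs σ A3 u F3).map A1)) ⊓
    (range ξ).comap (LinearMap.snd ℂ _ _ - LinearMap.fst ℂ _ _) ⊓
    ker ((a • tr A2).coprod (b • tr A3))
  have a1 := c.oo ha hb S (fun ω h1 => h1.1.1.1) (fun ω h1 => h1.1.1.2)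
    (fun ω h1 => h1.1.2) (fun ω h1 => h1.2)
  have a2 : perp (range (a • (A2 - Y) + b • (A3 - Y')) ⊔ ((Hs σ A2 u F2).map A1 ⊓
      perp (range ξ) ⊔ (Hs σ A3 u F3).map A1 ⊓ perp (range ξ) ⊔ Te)) ≤
      S.map (LinearMap.fst ℂ _ _) ⊔ range ξ := fun ζ hζ => by
    rw [perp_sup, perp_sup, perp_sup] at hζ
    obtain ⟨η, hη, y, e⟩ := mem_perp_I hζ.2.1.1
    obtain ⟨η', hη', y', e'⟩ := mem_perp_I hζ.2.1.2
    rw [← e]
    refine Submodule.add_mem_sup ⟨(η, η'), ⟨⟨⟨hη, hη'⟩, y - y', ?_⟩, eq_of_dot fun v => ?_⟩, rfl⟩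
      ⟨y, rfl⟩
    · show ξ (y - y') = η' - η
      rw [map_sub]
      linear_combination (norm := module) e - e'
    · have h1 : ζ ⬝ᵥ (a • (A2 v - Y v) + b • (A3 v - Y' v)) = 0 := hζ.1 _ ⟨v, rfl⟩
      have h2 : ζ ⬝ᵥ (A2 v - Y v) = η ⬝ᵥ A2 v := by
        rw [← e, add_dotProduct, dotProduct_sub, dotProduct_sub, hη _ (s.d.y2 v), s.d.y4]
        ring
      have h3 : ζ ⬝ᵥ (A3 v - Y' v) = η' ⬝ᵥ A3 v := by
        rw [← e', add_dotProduct, dotProduct_sub, dotProduct_sub, hη' _ (s.d'.y2 v), s.d'.y4]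
        ring
      rw [dotProduct_add, dotProduct_smul, dotProduct_smul, h2, h3] at h1
      show (a • tr A2 η + b • tr A3 η') ⬝ᵥ v = _
      rw [add_dotProduct, smul_dotProduct, smul_dotProduct, tr_dot, tr_dot, h1, zero_dotProduct]
  have a3 := (dm_mono a2).trans (dm_sup_le _ _)
  have a4 := dm_map_le (LinearMap.fst ℂ _ _) S
  have a5 := dm_range_fin ξ
  have a6 := c.b.hM
  have a7 := c.b.hN
  have a8 := c.b.nm.e1
  rw [card_fun] at b2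
  omega

end Ctx

end Pool.Agent.P.MP_098a67_ag.R3
end

-- part Pool.Agent.P.MP_098a67_ag.R3.StB
section

namespace Pool.Agent.P.MP_098a67_ag.R3

open Module T3
open LinearMap (ker range)

variable {m n : Type} [Fintype m] [DecidableEq m] [Fintype n] [DecidableEq n]
  {A1 A2 A3 : (n → ℂ) →ₗ[ℂ] (m → ℂ)} {σ : (m → ℂ) →ₗ[ℂ] (n → ℂ)}
  {K W0 K' : Submodule ℂ (n → ℂ)} {X0 : Submodule ℂ (m → ℂ)}
  {M N h γ γ' g g' κ k ks r ρ t q f2 f3 : ℕ} {u : (Fin t → ℂ) →ₗ[ℂ] (n → ℂ)}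
  {ξ : (Fin q → ℂ) →ₗ[ℂ] (m → ℂ)} {E E4 : Subfield ℂ} {F2 : Fin f2 → n → ℂ} {F3 : Fin f3 → n → ℂ}
  {π ν π' ν' : (n → ℂ) →ₗ[ℂ] (n → ℂ)} {Y Y' : (n → ℂ) →ₗ[ℂ] (m → ℂ)} {Φ Φ' : n → m → ℂ}
  {a' b' : ℂ}

theorem Ctx.pencil
    (c : Ctx A1 A2 A3 σ K W0 X0 (K'.map A3) M N h γ γ' g g' κ k ks r ρ t q f2 f3 u ξ E F2 F3)
    (s : S4 A1 A2 A3 σ K (K'.map A3) u ξ F2 F3 E4 π Y ν π' Y' ν' Φ Φ') (ha' : a' ≠ 0)
    (hb' : b' ≠ 0) (hK : ∀ v ∈ K', A1 v = 0 ∧ a' • A2 v + b' • A3 v = 0)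
    (hΓ0 : ∀ a b : ℂ, a ≠ 0 → b ≠ 0 → a * b' ≠ b * a' →
      γ ≤ dm ((ker A1).map (a • A2 + b • A3)) + ks)
    (hΓ1 : γ ≤ dm ((ker A1).map (a' • A2 + b' • A3) ⊔ K'.map A3) + ks) :
    RK2 (A2 - (Y + lin Φ ∘ₗ ν)) (A3 - (Y' + lin Φ' ∘ₗ ν')) (M + γ + 8 - h) := by
  have v2 := c.vertex s.d s.g.fst s.r1 s.r2 s.rπ s.rY s.rν s.rI
  have v3 := c.swap.vertex s.d' s.g.snd s.r1 s.r3 s.rπ' s.rY' s.rν' s.rI'
  have d2 := s.d.add s.g.fst.mem
  have d3 := s.d'.add s.g.snd.mem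
  have mem : ∀ (a b : ℂ) (Te : Submodule ℂ (m → ℂ)), a ≠ 0 → b ≠ 0 → Te = ⊥ ∨ Te = K'.map A3 →
      γ ≤ dm ((ker A1).map (a • A2 + b • A3) ⊔ Te) + ks →
      dm (Te.comap (a • (A2 - (Y + lin Φ ∘ₗ ν)) + b • (A3 - (Y' + lin Φ' ∘ₗ ν')))) + h ≤
        t + κ + q + γ + 6 + dm Te :=
    fun a b Te ha hb hT h1 => c.member s ha hb hT h1 fun v hv => hv
  generalize Y + lin Φ ∘ₗ ν = Z2 at *
  generalize Y' + lin Φ' ∘ₗ ν' = Z3 at *
  have hn : finrank ℂ (n → ℂ) = N := by rw [card_fun, c.b.hN]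
  have n0 := c.b.nm.n0
  have key : RK2 (a' • (A2 - Z2) + b' • (A3 - Z3)) (A3 - Z3) (M + γ + 8 - h) := by
    refine pt1 _ _ (N + h - (t + κ + q + γ + 6)) _ (fun a b hb => ?_) ?_ ?_
    · have e : a • (a' • (A2 - Z2) + b' • (A3 - Z3)) + b • (A3 - Z3) =
          (a * a') • (A2 - Z2) + (a * b' + b) • (A3 - Z3) := by module
      rw [e]
      by_cases ha : a = 0
      · have := dm_range_ker (A3 - Z3)
        rw [ha, zero_mul, zero_mul, zero_smul, zero_add, zero_add, dm_range_smul hb]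
        omega
      by_cases hc : a * b' + b = 0
      · have := dm_range_ker (A2 - Z2)
        rw [hc, zero_smul, add_zero, dm_range_smul (mul_ne_zero ha ha')]
        omega
      have a1 := mem _ _ ⊥ (mul_ne_zero ha ha') hc (Or.inl rfl) (by
        rw [sup_bot_eq]
        exact hΓ0 _ _ (mul_ne_zero ha ha') hc fun e1 => mul_ne_zero hb ha' (by
          linear_combination -e1))
      have a2 := dm_range_ker ((a * a') • (A2 - Z2) + (a * b' + b) • (A3 - Z3))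
      rw [Submodule.comap_bot, dm_bot] at a1
      omega
    · have a1 := mem _ _ _ ha' hb' (Or.inr rfl) hΓ1
      have a2 := dm_comap_top (a' • (A2 - Z2) + b' • (A3 - Z3)) (K'.map A3)
      have a3 : K'.map A3 ≤ (ker (a' • (A2 - Z2) + b' • (A3 - Z3))).map (A3 - Z3) := by
        rintro _ ⟨v, hv, rfl⟩
        have h2 := d2.y1 v (Submodule.mem_sup_left (Submodule.mem_sup_left (hK v hv).1))
        have h3 := d3.y1 v (Submodule.mem_sup_left (Submodule.mem_sup_left (hK v hv).1))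
        refine ⟨v, ?_, ?_⟩
        · show a' • (A2 v - Z2 v) + b' • (A3 v - Z3 v) = 0
          rw [h2, h3, sub_zero, sub_zero, (hK v hv).2]
        · show A3 v - Z3 v = _
          rw [h3, sub_zero]
      have a4 := dm_mono (sup_le_sup_left a3 (range (a' • (A2 - Z2) + b' • (A3 - Z3))))
      omega
    · have a1 : range (a' • (A2 - Z2) + b' • (A3 - Z3)) ⊔ range (A3 - Z3) ≤ perp (range ξ) := by
        refine sup_le ?_ ?_
        · rintro _ ⟨v, rfl⟩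
          exact Submodule.add_mem _ (Submodule.smul_mem _ _ (d2.perp_mem v))
            (Submodule.smul_mem _ _ (d3.perp_mem v))
        · rintro _ ⟨v, rfl⟩
          exact d3.perp_mem v
      have a2 : range u ⊔ K ≤ ker (a' • (A2 - Z2) + b' • (A3 - Z3)) ⊓ ker (A3 - Z3) := by
        have : ∀ v, A2 v = Z2 v → A3 v = Z3 v →
            v ∈ ker (a' • (A2 - Z2) + b' • (A3 - Z3)) ⊓ ker (A3 - Z3) := fun v h2 h3 => by
          refine ⟨?_, sub_eq_zero.2 h3⟩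
          show a' • (A2 v - Z2 v) + b' • (A3 v - Z3 v) = 0
          rw [h2, h3, sub_self, sub_self, smul_zero, smul_zero, add_zero]
        refine sup_le ?_ fun v hv => this v ?_ ?_
        · rintro _ ⟨y, rfl⟩
          exact this _ (d2.y3 y).symm (d3.y3 y).symm
        · rw [c.b.K2 v hv, d2.y1 v (Submodule.mem_sup_left (Submodule.mem_sup_right hv))]
        · rw [c.b.K3 v hv, d3.y1 v (Submodule.mem_sup_left (Submodule.mem_sup_right hv))]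
      have hu : ∀ y, u y ∈ K → y = 0 := fun y hy =>
        (c.su.up 1 0 (Or.inl one_ne_zero) y 0 ⟨_, hy, by simp⟩).1
      have a3 : dm (range u ⊔ K) = dm (range u) + dm K := dm_sup_eq (by
        rintro _ ⟨y, rfl⟩ hy
        rw [hu y hy, map_zero])
      have a4 : dm (range u) = _ := dm_range_eq fun y hy => hu y (by rw [hy]; exact K.zero_mem)
      have a5 : dm (range ξ) = _ := dm_range_eq fun y hy =>
        (c.sx.xall y 0 0 (by simp [hy])).1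
      have a6 := dm_perp (range ξ)
      have a7 := dm_mono a1
      have a8 := dm_mono a2
      have a9 := c.b.dK
      have a10 := c.b.hM
      rw [card_fun, Fintype.card_fin] at a4 a5
      omega
  refine RK.re key (fun p => (p.1 / a', p.2 - p.1 / a' * b')) fun p v => ?_
  simp only [LinearMap.add_apply, LinearMap.smul_apply, smul_add, smul_smul,
    div_mul_cancel₀ _ ha']
  module

theorem caseB (b : Base A1 A2 A3 σ K W0 X0 M N h γ γ' g g' κ k ks r ρ t q) (ha' : a' ≠ 0)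
    (hb' : b' ≠ 0) (hK : ∀ v ∈ K', A1 v = 0 ∧ a' • A2 v + b' • A3 v = 0)
    (hΓ0 : ∀ a b : ℂ, a ≠ 0 → b ≠ 0 → a * b' ≠ b * a' →
      γ ≤ dm ((ker A1).map (a • A2 + b • A3)) + ks)
    (hΓ1 : γ ≤ dm ((ker A1).map (a' • A2 + b' • A3) ⊔ K'.map A3) + ks) :
    RK3 A1 A2 A3 (M + N + 16 - h) := by
  obtain ⟨E2, ΦX, r2, g2⟩ := exists_genIn (cols (Fin q) X0)
    (ev_rat0 (A1 := A1) (A2 := A2) (A3 := A3) (σ := σ) (K := K) (T := K'.map A3))
  have sx := stX b r2 g2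
  have sx' := stX b.swap r2.swap g2
  generalize lin ΦX = ξ at sx sx'
  let W := W0 ⊓ (perp (range (tr (A2 ∘ₗ σ ∘ₗ A3) ∘ₗ ξ)) ⊓ perp (range (tr (A3 ∘ₗ σ ∘ₗ A2) ∘ₗ ξ)))
  have dW : dm W0 ≤ dm W + 2 * q := by
    have a1 := dm_inf_ge W0
      (perp (range (tr (A2 ∘ₗ σ ∘ₗ A3) ∘ₗ ξ)) ⊓ perp (range (tr (A3 ∘ₗ σ ∘ₗ A2) ∘ₗ ξ)))
    have a2 := dm_inf_ge (perp (range (tr (A2 ∘ₗ σ ∘ₗ A3) ∘ₗ ξ)))
      (perp (range (tr (A3 ∘ₗ σ ∘ₗ A2) ∘ₗ ξ)))
    have a3 := dm_perp (range (tr (A2 ∘ₗ σ ∘ₗ A3) ∘ₗ ξ))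
    have a4 := dm_perp (range (tr (A3 ∘ₗ σ ∘ₗ A2) ∘ₗ ξ))
    have a5 := dm_range_fin (tr (A2 ∘ₗ σ ∘ₗ A3) ∘ₗ ξ)
    have a6 := dm_range_fin (tr (A3 ∘ₗ σ ∘ₗ A2) ∘ₗ ξ)
    rw [card_fun] at a1 a2
    show _ ≤ dm (W0 ⊓ _) + _
    omega
  obtain ⟨E1, ΦU, r1, g1⟩ := exists_genIn (cols (Fin t) W)
    (ev_rat0 (A1 := A1) (A2 := A2) (A3 := A3) (σ := σ) (K := K) (T := K'.map A3))
  have su := stU b inf_le_left dW r1 g1
  have su' := stU b.swap inf_le_left dW r1.swap g1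
  have xa : ∀ y y', ξ y ⬝ᵥ A2 (σ (A3 (lin ΦU y'))) = 0 := fun y y' => by
    have := (lin_mem g1.mem y').2.1 _ ⟨y, rfl⟩
    rwa [dotProduct_comm, LinearMap.comp_apply, tr_dot] at this
  have xa' : ∀ y y', ξ y ⬝ᵥ A3 (σ (A2 (lin ΦU y'))) = 0 := fun y y' => by
    have := (lin_mem g1.mem y').2.2 _ ⟨y, rfl⟩
    rwa [dotProduct_comm, LinearMap.comp_apply, tr_dot] at this
  generalize lin ΦU = u at su su' xa xa'
  obtain ⟨f2, f3, hf, hf2, hf3⟩ : ∃ f2 f3 : ℕ, f2 + f3 + κ + 2 * t + γ = N ∧ f2 ≤ f3 + 1 ∧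
      f3 ≤ f2 + 1 := by
    have := b.nm.f0
    exact ⟨(N - κ - 2 * t - γ) / 2, (N - κ - 2 * t - γ + 1) / 2, by omega, by omega, by omega⟩
  obtain ⟨E3, ⟨F2, F3⟩, r3, g3⟩ := exists_genIn ((cols (Fin f2) (perp (range (tr A3 ∘ₗ ξ)))).prod
    (cols (Fin f3) (perp (range (tr A2 ∘ₗ ξ)))))
    ((ev_rat0 (A1 := A1) (A2 := A2) (A3 := A3) (σ := σ) (K := K) (T := K'.map A3)).and
      ((ev_rm u).and (ev_rm ξ)))
  have c : Ctx A1 A2 A3 σ K W0 X0 (K'.map A3) M N h γ γ' g g' κ k ks r ρ t q f2 f3 u ξ E3 F2 F3 :=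
    ⟨b, su, su', sx, sx', xa, xa', r3.1, r3.2.1, r3.2.2, g3, hf, hf2, hf3⟩
  obtain ⟨π, Y, ν, d⟩ := c.exY
  obtain ⟨π', Y', ν', d'⟩ := c.swap.exY
  obtain ⟨E4, ⟨Φ, Φ'⟩, ⟨p1, p2, p3, p4, p5, p6, p7, p8, p9, p10, p11, p12⟩, g4⟩ := exists_genIn
    ((cols n ((Hs σ A2 u F2).map A1 ⊓ perp (range ξ))).prod
      (cols n ((Hs σ A3 u F3).map A1 ⊓ perp (range ξ))))
    ((ev_rm A1).and ((ev_rm A2).and ((ev_rm A3).and ((ev_rm π).and ((ev_rm Y).and ((ev_rm ν).and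
      ((ev_rm π').and ((ev_rm Y').and ((ev_rm ν').and
      ((ev_rs ((Hs σ A2 u F2).map A1 ⊓ perp (range ξ))).and
      ((ev_rs ((Hs σ A3 u F3).map A1 ⊓ perp (range ξ))).and (ev_rs (K'.map A3)))))))))))))
  have s : S4 A1 A2 A3 σ K (K'.map A3) u ξ F2 F3 E4 π Y ν π' Y' ν' Φ Φ' :=
    ⟨d, d', g4, p1, p2, p3, p4, p5, p6, p7, p8, p9, p10, p11, p12, by
      rintro _ ⟨v, hv, rfl⟩ _ ⟨y, rfl⟩
      rw [dotProduct_comm]
      exact sx'.n2 y v (hK v hv).1⟩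
  have q1 := c.pencil s ha' hb' hK hΓ0 hΓ1
  have q2 := c.small d g4.fst p1 p2 p4 p5 p6 p10
  have q3 := c.swap.small d' g4.snd p1 p3 p7 p8 p9 p11
  generalize Y + lin Φ ∘ₗ ν = Z2 at q1 q2
  generalize Y' + lin Φ' ∘ₗ ν' = Z3 at q1 q3
  have q4 : RK3 (A1 ∘ₗ π + A1 ∘ₗ π') Z2 Z3 (t + f2 + 4 + (t + f3 + 4)) := by
    refine RK.add (q2.re (g := fun x : ℂ × ℂ × ℂ => x.1 • (A1 ∘ₗ π) + x.2.1 • Z2)
      (fun x => (x.1, x.2.1)) fun _ _ => rfl)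
      (q3.re (g := fun x : ℂ × ℂ × ℂ => x.1 • (A1 ∘ₗ π') + x.2.2 • Z3)
      (fun x => (x.1, x.2.2)) fun _ _ => rfl) fun x v => ?_
    simp only [LinearMap.add_apply, LinearMap.smul_apply]
    module
  refine RK.mono (rk3_first (k := κ) ?_ (rk3_free q4 q1)) (by have := b.nm.n0; omega)
  refine le_trans (dm_mono (T := K.map A1) ?_) (b.dK ▸ dm_map_le A1 K)
  rintro _ ⟨v, rfl⟩
  have : v ∈ ker A1 ⊔ K ⊔ Hs σ A3 u F3 ⊔ Hs σ A2 u F2 := by rw [c.top]; trivial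
  obtain ⟨_, h1, w2, h2, rfl⟩ := Submodule.mem_sup.1 this
  obtain ⟨j, hj, w3, h3, rfl⟩ := Submodule.mem_sup.1 h1
  obtain ⟨w, hw, v0, hv, rfl⟩ := Submodule.mem_sup.1 hj
  have e2 : π (w + v0 + w3 + w2) = w2 := by rw [map_add, d.p2 _ h1, d.p1 _ h2, zero_add]
  have e3 : π' (w + v0 + w3 + w2) = w3 := by
    rw [add_right_comm, map_add, d'.p2 _ (Submodule.add_mem_sup hj h2), d'.p1 _ h3, zero_add]
  refine ⟨v0, hv, ?_⟩
  simp only [LinearMap.sub_apply, LinearMap.add_apply, LinearMap.comp_apply]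
  rw [e2, e3]
  simp only [map_add, show A1 w = 0 from hw]
  module

end Pool.Agent.P.MP_098a67_ag.R3
end

-- part Pool.Agent.P.MP_098a67_ag.R3.TriA
section

namespace Pool.Agent.P.MP_098a67_ag.R3

open Module T3
open LinearMap (ker range)

variable {m n : Type} [Fintype m] [DecidableEq m] [Fintype n] [DecidableEq n]

/-- The kernels of the pencils through the first slice. -/
structure KS (A1 A2 A3 : (n → ℂ) →ₗ[ℂ] (m → ℂ)) (a' b' : ℂ) (k ks : ℕ) : Prop where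
  ha : a' ≠ 0
  hb : b' ≠ 0
  hk : dm (ker A1 ⊓ ker (a' • A2 + b' • A3)) = k
  i1 : ks ≤ k
  i2 : k + ks ≤ dm (ker A1)
  hm : dm ((ker A1).map A2 ⊔ (ker A1).map A3) + k + ks ≤ 2 * dm (ker A1)
  g0 : ∀ a b : ℂ, a * b' ≠ b * a' → dm (ker A1) ≤ dm ((ker A1).map (a • A2 + b • A3)) + ks
  g1 : dm (ker A1) ≤ dm ((ker A1).map (a' • A2 + b' • A3) ⊔
    (ker A1 ⊓ ker (a' • A2 + b' • A3)).map A3) + ks

theorem ks_data (A1 A2 A3 : (n → ℂ) →ₗ[ℂ] (m → ℂ))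
    (c1 : ∀ v, A1 v = 0 → A2 v = 0 → A3 v = 0 → v = 0) {a' b' : ℂ} (ha' : a' ≠ 0) (hb' : b' ≠ 0)
    (hk : ∀ a b : ℂ, a ≠ 0 ∨ b ≠ 0 →
      dm (ker A1 ⊓ ker (a • A2 + b • A3)) ≤ dm (ker A1 ⊓ ker (a' • A2 + b' • A3))) :
    ∃ ks, KS A1 A2 A3 a' b' (dm (ker A1 ⊓ ker (a' • A2 + b' • A3))) ks := by
  obtain ⟨⟨a1, b1⟩, h1, m1⟩ := exists_max (S := {p : ℂ × ℂ | p.1 * b' ≠ p.2 * a'})
    ⟨(1, 0), by simpa using hb'⟩ (fun p => dm (ker A1 ⊓ ker (p.1 • A2 + p.2 • A3))) _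
    fun _ => dm_le _
  have h1' : a1 * b' ≠ b1 * a' := h1
  set K' := ker A1 ⊓ ker (a' • A2 + b' • A3) with hK'
  have d1 := dm_map_ker (a' • A2 + b' • A3) (ker A1)
  have d2 := dm_map_ker (a1 • A2 + b1 • A3) (ker A1)
  have d4 := dm_mono (le_sup_left : _ ≤ (ker A1).map (a' • A2 + b' • A3) ⊔ K'.map A3)
  have d5 := dm_mono (le_sup_right : _ ≤ (ker A1).map (a' • A2 + b' • A3) ⊔ K'.map A3)
  have d6 : dm (K'.map A3) = dm K' := dm_map_eq fun v hv h3 => c1 v hv.1 (by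
    have : a' • A2 v + b' • A3 v = 0 := hv.2
    rwa [h3, smul_zero, add_zero, smul_eq_zero_iff_right ha'] at this) h3
  have d7 : dm (ker A1 ⊓ ker (a1 • A2 + b1 • A3)) ≤ dm K' := hk a1 b1 (by
    by_contra hc
    push Not at hc
    exact h1' (by rw [hc.1, hc.2, zero_mul, zero_mul]))
  have d8 : dm (ker A1 ⊓ ker (a1 • A2 + b1 • A3)) + dm K' ≤ dm (ker A1) := by
    rw [← dm_sup_eq (S := ker A1 ⊓ ker (a1 • A2 + b1 • A3)) (T := K') fun v hv hv' =>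
      c1 v hv.1 (two_zero h1' hv.2 hv'.2).1 (two_zero h1' hv.2 hv'.2).2]
    exact dm_mono (sup_le inf_le_left inf_le_left)
  have d9 := (dm_mono (two_span A2 A3 (ker A1) h1')).trans (dm_sup_le _ _)
  have d10 : dm ((ker A1).map A2 ⊔ (ker A1).map A3) + dm K' ≤
      dm ((ker A1).map (a' • A2 + b' • A3) ⊔ K'.map A3) + dm (ker A1) := by
    obtain ⟨C, _, c2, c3⟩ := exists_compl_in (S := K') (T := ker A1) inf_le_left
    have e1 := dm_sup_eq c2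
    have e2 := two_span A2 A3 (ker A1) (a := a') (b := b') (c := 0) (d := 1) (by simpa using ha')
    rw [zero_smul, zero_add, one_smul] at e2
    have e3 : (ker A1).map A3 = K'.map A3 ⊔ C.map A3 := by rw [← Submodule.map_sup, c3]
    have e4 := dm_mono (e2.trans_eq (c := (ker A1).map (a' • A2 + b' • A3) ⊔ K'.map A3 ⊔ C.map A3)
      (by rw [e3, ← sup_assoc]))
    have e5 := dm_sup_le ((ker A1).map (a' • A2 + b' • A3) ⊔ K'.map A3) (C.map A3)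
    have e6 := dm_map_le A3 C
    rw [c3] at e1
    omega
  rw [← hK'] at d1
  refine ⟨max (dm (ker A1 ⊓ ker (a1 • A2 + b1 • A3)))
      (dm (ker A1) - dm ((ker A1).map (a' • A2 + b' • A3) ⊔ K'.map A3)), ha', hb', rfl, by omega,
    by omega, by omega, fun a b hab => ?_, by rw [← hK']; omega⟩
  have e1 := dm_map_ker (a • A2 + b • A3) (ker A1)
  have e2 : dm (ker A1 ⊓ ker (a • A2 + b • A3)) ≤ _ := m1 (a, b) hab
  dsimp only at e2
  omega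

theorem fin_bad (A B : (n → ℂ) →ₗ[ℂ] (m → ℂ)) :
    {s : ℂ | dm (ker A) < dm (ker (A + s • B))}.Finite := by
  obtain ⟨σ, hσ⟩ := exists_ginv A
  refine ((Module.End.finite_hasEigenvalue (σ ∘ₗ B : Module.End ℂ (n → ℂ))).image
    fun μ => -μ⁻¹).subset fun s hs => ?_
  have hs0 : s ≠ 0 := by
    rintro rfl
    simp at hs
  refine ⟨-s⁻¹, ?_, by simp⟩
  by_contra hc
  refine absurd hs (not_lt.2 (dm_le_of_inj (LinearMap.id - σ ∘ₗ A) (fun v _ => ?_) fun v hv e => ?_))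
  · show A (v - σ (A v)) = 0
    rw [map_sub, hσ, sub_self]
  · by_contra h0
    refine hc (Module.End.hasEigenvalue_of_hasEigenvector (x := v)
      ⟨Module.End.mem_eigenspace_iff.2 ?_, h0⟩)
    have e1 : v - σ (A v) = 0 := e
    have e2 := congrArg σ (show A v + s • B v = 0 from hv)
    rw [map_add, map_smul, map_zero] at e2
    refine smul_right_injective _ hs0 ?_
    show s • σ (B v) = s • -s⁻¹ • v
    rw [smul_smul, mul_neg, mul_inv_cancel₀ hs0]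
    linear_combination (norm := module) e1 + e2

variable {X : Type} [AddCommGroup X] [Module ℂ X] [Module.Finite ℂ X] {x y z : X}
  (T : X →ₗ[ℂ] (n → ℂ) →ₗ[ℂ] (m → ℂ))

/-- No common kernel. -/
def Conc : Prop := ∀ v, (∀ x, T x v = 0) → v = 0

/-- No row of rank one. -/
def L0 : Prop := ∀ x y η, x ≠ 0 → y ∉ ℂ ∙ x → tr (T x) η = 0 → tr (T y) η = 0 → η = 0

/-- Rows that vanish on the kernel of a slice. -/
def XX (x : X) : Submodule ℂ (m → ℂ) where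
  carrier := {η | ∀ y v, T x v = 0 → η ⬝ᵥ T y v = 0}
  add_mem' ha hb y v hv := by rw [add_dotProduct, ha y v hv, hb y v hv, add_zero]
  zero_mem' y v _ := zero_dotProduct _
  smul_mem' c η h y v hv := by rw [smul_dotProduct, h y v hv, smul_zero]

/-- Columns inside the image of a slice. -/
def WW (x : X) : Submodule ℂ (n → ℂ) where
  carrier := {v | ∀ y, T y v ∈ range (T x)}
  add_mem' ha hb y := by rw [map_add]; exact Submodule.add_mem _ (ha y) (hb y)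
  zero_mem' y := by rw [map_zero]; exact Submodule.zero_mem _
  smul_mem' c v h y := by rw [map_smul]; exact Submodule.smul_mem _ _ (h y)

/-- The common kernel of a space of slices. -/
def KK (P : Submodule ℂ X) : Submodule ℂ (n → ℂ) where
  carrier := {v | ∀ x ∈ P, T x v = 0}
  add_mem' ha hb x hx := by rw [map_add, ha x hx, hb x hx, add_zero]
  zero_mem' x _ := map_zero _
  smul_mem' c v hv x hx := by rw [map_smul, hv x hx, smul_zero]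

variable {T} in
theorem ker_pen (h : z ∈ pen x y) : ker (T x) ⊓ ker (T y) ≤ ker (T z) := fun v hv => by
  obtain ⟨a, b, rfl⟩ := mem_pen.1 h
  simp [show T x v = 0 from hv.1, show T y v = 0 from hv.2]

theorem KK_le {P : Submodule ℂ X} (hx : x ∈ P) (hy : y ∈ P) :
    dm (KK T P) ≤ dm (ker (T x) ⊓ ker (T y)) := dm_mono fun _ hv => ⟨hv x hx, hv y hy⟩

theorem le_KK (x y : X) : dm (ker (T x) ⊓ ker (T y)) ≤ dm (KK T (pen x y)) :=
  dm_mono fun _ hv _ hz => ker_pen hz hv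

theorem avoid {P : Submodule ℂ X} (hx : x ∈ P) {F : Set (Submodule ℂ X)} (hF : F.Finite)
    (h : ∀ Q ∈ F, ¬ P ≤ Q) : ∃ w ∈ P, dm (ker (T w)) ≤ dm (ker (T x)) ∧ ∀ Q ∈ F, w ∉ Q := by
  have := hF.to_subtype
  obtain ⟨y, hy⟩ := Submodule.exists_forall_notMem_of_forall_ne_top
    (fun Q : F => Q.1.comap P.subtype) fun Q e => h Q.1 Q.2 (Submodule.comap_subtype_eq_top.1 e)
  have h1 : (⋃ Q ∈ F, {s : ℂ | x + s • y.1 ∈ Q}).Finite := hF.biUnion fun Q hQ =>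
    Set.Subsingleton.finite fun s hs s' hs' => by
      by_contra hne
      refine hy ⟨Q, hQ⟩ ((Q.smul_mem_iff (sub_ne_zero.2 hne)).1 ?_)
      have := Q.sub_mem hs hs'
      rwa [add_sub_add_left_eq_sub, ← sub_smul] at this
  obtain ⟨s, hs⟩ := (h1.union (fin_bad (T x) (T y))).exists_notMem
  simp only [Set.mem_union, Set.mem_iUnion, Set.mem_ofPred_eq, not_or, not_exists, not_lt] at hs
  exact ⟨x + s • y.1, P.add_mem hx (P.smul_mem _ y.2), by rw [map_add, map_smul]; exact hs.2, hs.1⟩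

theorem bad_finite (hX : finrank ℂ X = 3) (hx : x ≠ 0) :
    {P : Submodule ℂ X | dm P = 2 ∧ ∀ w ∈ P, dm (ker (T x)) < dm (ker (T w))}.Finite := by
  obtain ⟨y, hy⟩ := exists_off hX x x
  have hy : y ∉ ℂ ∙ x := fun e => hy (Submodule.mem_sup_left e)
  obtain ⟨z, hz⟩ := exists_off hX x y
  have hz' : z ∉ ℂ ∙ x := fun e => hz (Submodule.mem_sup_left e)
  have fin : ∀ y, {α : ℂ | dm (ker (T x)) < dm (ker (T (y + α • x)))}.Finite := fun y => by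
    refine (((fin_bad (T x) (T y)).image fun s => s⁻¹).insert 0).subset fun α hα => ?_
    by_cases h0 : α = 0
    · exact Or.inl h0
    refine Or.inr ⟨α⁻¹, ?_, inv_inv α⟩
    have : T (y + α • x) = α • (T x + α⁻¹ • T y) := by
      rw [map_add, map_smul, smul_add, smul_smul, mul_inv_cancel₀ h0, one_smul, add_comm]
    rwa [Set.mem_ofPred_eq, this, LinearMap.ker_smul _ _ h0] at hα
  refine ((fin y).image2 (fun α β => pen (y + α • x) (z + β • x)) (fin z)).subset ?_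
  rintro P ⟨hP, hb⟩
  have key : ∀ y ∉ ℂ ∙ x, ∃ α : ℂ, y + α • x ∈ P := fun y hy => by
    obtain ⟨w, h1, h2, h3⟩ := meet hX hP (dm_pen hx hy)
    obtain ⟨a, b, rfl⟩ := mem_pen.1 h2
    have hb0 : b ≠ 0 := by
      rintro rfl
      rw [zero_smul, add_zero] at h1 h3
      exact lt_irrefl _ (hb x ((P.smul_mem_iff (left_ne_zero_of_smul h3)).1 h1))
    refine ⟨a / b, (P.smul_mem_iff hb0).1 ?_⟩
    rwa [smul_add, smul_smul, mul_div_cancel₀ _ hb0, add_comm]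
  obtain ⟨α, hα⟩ := key y hy
  obtain ⟨β, hβ⟩ := key z hz'
  exact ⟨α, hb _ hα, β, hb _ hβ,
    eq_of_dm_le (pen_le hα hβ) (by rw [hP, dm_pen_aff hx hy hz])⟩

variable {T}

section

variable (hX : finrank ℂ X = 3) (hx : x ≠ 0)
include hX hx

theorem rk_of3 (hy : y ∉ ℂ ∙ x) (hz : z ∉ pen x y) {r : ℕ} (h : RK3 (T x) (T y) (T z) r) :
    RK T r := by
  choose j hj using span3 hX hx hy hz
  refine RK.re h j fun w v => ?_
  conv_lhs => rw [← hj w]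
  simp

theorem Conc.three (c : Conc T) (hy : y ∉ ℂ ∙ x) (hz : z ∉ pen x y) (v : n → ℂ) (h1 : T x v = 0)
    (h2 : T y v = 0) (h3 : T z v = 0) : v = 0 := c v fun w => by
  obtain ⟨p, rfl⟩ := span3 hX hx hy hz w
  simp [h1, h2, h3]

variable (hy : y ∉ ℂ ∙ x) (hz : z ∉ pen x y)
include hy hz

theorem mem_WW {v : n → ℂ} (h1 : T x v ∈ range (T z)) (h2 : T y v ∈ range (T z)) :
    v ∈ WW T z := fun w => by
  obtain ⟨p, rfl⟩ := span3 hX hx hy hz w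
  simp only [map_add, map_smul, LinearMap.add_apply, LinearMap.smul_apply]
  exact Submodule.add_mem _ (Submodule.add_mem _ (Submodule.smul_mem _ _ h1)
    (Submodule.smul_mem _ _ h2)) (Submodule.smul_mem _ _ ⟨v, rfl⟩)

theorem dm_XX {a' b' : ℂ} {k ks : ℕ} (s : KS (T z) (T x) (T y) a' b' k ks) :
    Fintype.card m + k + ks ≤ dm (XX T z) + 2 * dm (ker (T z)) := by
  have a1 : perp ((ker (T z)).map (T x) ⊔ (ker (T z)).map (T y)) ≤ XX T z := fun η hη w v hv => by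
    obtain ⟨p, rfl⟩ := span3 hX hx hy hz w
    simp only [map_add, map_smul, LinearMap.add_apply, LinearMap.smul_apply, hv, dotProduct_add,
      dotProduct_smul, hη _ (Submodule.mem_sup_left ⟨v, hv, rfl⟩),
      hη _ (Submodule.mem_sup_right ⟨v, hv, rfl⟩), smul_zero, add_zero]
  have a2 := dm_mono a1
  have a3 := dm_perp ((ker (T z)).map (T x) ⊔ (ker (T z)).map (T y))
  have a4 := s.hm
  omega

theorem triT (c : Conc T) (l : L0 T) {a' b' : ℂ} {M N h γ γ' g g' κ k ks r ρ t q : ℕ}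
    (s : KS (T z) (T x) (T y) a' b' k ks) (nm : Nums M N h γ γ' g g' κ k ks r ρ t q)
    (hM : Fintype.card m = M) (hN : Fintype.card n = N) (g1 : dm (ker (T z)) = γ)
    (g2 : dm (ker (T x)) = g) (g3 : dm (ker (T y)) = g) (hκ : dm (ker (T x) ⊓ ker (T y)) = κ)
    (hr : ∀ w ≠ 0, r ≤ dm (range (T w))) (hρ : ∀ w ∈ pen x y, w ≠ 0 → ρ ≤ dm (range (T w)))
    (hs : q ≠ 0 → ∀ β : ℂ, 2 * h ≤ dm (range (T (β • z + x))) ∧ 2 * h ≤ dm (range (T (β • z + y))))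
    (x1 : q ≠ 0 → ∀ w ≠ 0, 2 * h ≤ dm (range (T w)) ∨ q + 3 ≤ dm ((XX T z).map (tr (T w))))
    (u1 : t ≠ 0 → ∀ w ≠ 0, κ + t + 3 + 2 * q + 2 * γ' ≤ dm (range (T w)) ∨
      κ + t + 3 + 2 * q ≤ dm ((WW T z).map (T w))) : RK T (M + N + 16 - h) := by
  obtain ⟨σ, hσ⟩ := exists_ginv (T z)
  have ind : ∀ a b c : ℂ, a • z + b • x + c • y = 0 → a = 0 ∧ b = 0 ∧ c = 0 := fun a b c e => by
    have := ind3 hx hy hz (a := b) (b := c) (c := a) (by linear_combination (norm := module) e)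
    tauto
  have nz : ∀ a b c : ℂ, a ≠ 0 ∨ b ≠ 0 ∨ c ≠ 0 → a • z + b • x + c • y ≠ 0 := fun a b c h e => by
    have := ind a b c e
    tauto
  have sl : ∀ a b c : ℂ, T (a • z + b • x + c • y) = a • T z + b • T x + c • T y := fun a b c => by
    simp only [map_add, map_smul]
  have z0 : z ≠ 0 := fun e => hz (by rw [e]; exact Submodule.zero_mem _)
  have y0 : y ≠ 0 := fun e => hy (by rw [e]; exact Submodule.zero_mem _)
  have e1 := nm.e1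
  have cm : ∀ w, N ≤ dm ((range (T z)).comap (T w)) + γ' := fun w => by
    have a1 := dm_comap_top (T w) (range (T z))
    have a2 := dm_le (range (T w) ⊔ range (T z))
    have a3 := dm_rk (T z)
    rw [card_fun] at a1 a2
    omega
  have dW : N ≤ dm (WW T z) + 2 * γ' := by
    have a1 := dm_inf_ge ((range (T z)).comap (T x)) ((range (T z)).comap (T y))
    have a2 : dm ((range (T z)).comap (T x) ⊓ (range (T z)).comap (T y)) ≤ dm (WW T z) :=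
      dm_mono fun v hv => mem_WW hX hx hy hz hv.1 hv.2
    have a3 := cm x
    have a4 := cm y
    rw [card_fun] at a1
    omega
  have dX := dm_XX hX hx hy hz s
  have key := caseB (σ := σ) (K := ker (T x) ⊓ ker (T y)) (W0 := WW T z) (X0 := XX T z)
    (K' := ker (T z) ⊓ ker (a' • T x + b' • T y))
    ⟨nm, hM, hN, g1, g2, g3, hσ, fun v hv => hv.1, fun v hv => hv.2, fun v h1 h2 => ⟨h1, h2⟩, hκ,
      fun v hv e => c.three hX hx hy hz v hv.1 hv.2 e,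
      fun a b c habc => sl a b c ▸ hr _ (nz a b c habc), fun a b hab => ?_,
      fun a b hab η h1 h2 => ?_, fun a b c hab η h1 h2 => ?_, fun a b c hab η h1 h2 => ?_, ?_, ?_,
      fun w hw => hw x, fun w hw => hw y, dW, ?_, ?_, ?_, ?_, by omega, fun q0 β => ?_,
      fun q0 β => ?_, fun q0 a b c habc => ?_, fun t0 a b c habc => ?_⟩
    s.ha s.hb (fun v hv => hv) (fun a b _ _ hab => g1 ▸ s.g0 a b hab) (g1 ▸ s.g1)
  · refine rk_of3 hX hx hy hz (RK.re key (fun p => (p.2.2, p.1, p.2.1)) fun p v => ?_)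
    simp only [LinearMap.add_apply, LinearMap.smul_apply]
    module
  · have := hρ _ (mem_pen.2 ⟨a, b, rfl⟩) fun e => nz 0 a b (Or.inr hab) (by
      rw [zero_smul, zero_add, e])
    rwa [map_add, map_smul, map_smul] at this
  · refine l z (a • x + b • y) η z0 (fun e => ?_) h1 (by rwa [map_add, map_smul, map_smul])
    obtain ⟨c, e⟩ := Submodule.mem_span_singleton.1 e
    have := ind (-c) a b (by linear_combination (norm := module) -e)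
    tauto
  · refine l x (a • z + b • x + c • y) η hx (fun e => ?_) h1 (by rwa [sl])
    obtain ⟨d, e⟩ := Submodule.mem_span_singleton.1 e
    have := ind a (b - d) c (by linear_combination (norm := module) -e)
    tauto
  · refine l y (a • z + b • x + c • y) η y0 (fun e => ?_) h1 (by rwa [sl])
    obtain ⟨d, e⟩ := Submodule.mem_span_singleton.1 e
    have := ind a b (c - d) (by linear_combination (norm := module) -e)
    tauto
  · have := s.g0 1 0 (by simpa using s.hb)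
    rwa [one_smul, zero_smul, add_zero, g1] at this
  · have := s.g0 0 1 (by simpa using s.ha.symm)
    rwa [one_smul, zero_smul, zero_add, g1] at this
  · have a1 := dm_inf_ge (ker (T x)) ((range (T z)).comap (T y))
    have a2 : dm (ker (T x) ⊓ (range (T z)).comap (T y)) ≤ dm (WW T z ⊓ ker (T x)) :=
      dm_mono fun v hv => ⟨mem_WW hX hx hy hz (by
        rw [show T x v = 0 from hv.1]; exact Submodule.zero_mem _) hv.2, hv.1⟩
    have a3 := cm y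
    rw [card_fun] at a1
    omega
  · have a1 := dm_inf_ge (ker (T y)) ((range (T z)).comap (T x))
    have a2 : dm (ker (T y) ⊓ (range (T z)).comap (T x)) ≤ dm (WW T z ⊓ ker (T y)) :=
      dm_mono fun v hv => ⟨mem_WW hX hx hy hz hv.2 (by
        rw [show T y v = 0 from hv.1]; exact Submodule.zero_mem _), hv.1⟩
    have a3 := cm x
    rw [card_fun] at a1
    omega
  · rintro η hη _ ⟨v, hv, rfl⟩
    exact hη x v hv
  · rintro η hη _ ⟨v, hv, rfl⟩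
    exact hη y v hv
  · have := (hs q0 β).1
    rwa [map_add, map_smul] at this
  · have := (hs q0 β).2
    rwa [map_add, map_smul] at this
  · rw [← sl]
    have a1 := x1 q0 _ (nz a b c habc)
    have a2 := dm_le_map_add (tr (T (a • z + b • x + c • y))) (XX T z)
    have a3 := dm_rk' (T (a • z + b • x + c • y))
    have a4 := nm.n14 q0
    omega
  · rw [← sl]
    have a1 := u1 t0 _ (nz a b c habc)
    have a2 := dm_le_map_add (T (a • z + b • x + c • y)) (WW T z)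
    have a3 := dm_rk (T (a • z + b • x + c • y))
    omega

end

end Pool.Agent.P.MP_098a67_ag.R3
end

-- part Pool.Agent.P.MP_098a67_ag.R3.TriB
section

namespace Pool.Agent.P.MP_098a67_ag.R3

open Module T3
open LinearMap (ker range)

variable {m n : Type} [Fintype m] [DecidableEq m] [Fintype n] [DecidableEq n]
  {X : Type} [AddCommGroup X] [Module ℂ X] [Module.Finite ℂ X] {x y z : X}

/-- A pencil that contains a slice of maximal rank. -/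
def Good (T : X →ₗ[ℂ] (n → ℂ) →ₗ[ℂ] (m → ℂ)) (g : ℕ) (e : Submodule ℂ X) : Prop :=
  dm e = 2 ∧ ∃ w ∈ e, dm (ker (T w)) ≤ g

/-- The standing assumptions. -/
structure Cm (T : X →ₗ[ℂ] (n → ℂ) →ₗ[ℂ] (m → ℂ)) (M N h g g' r : ℕ) : Prop where
  hX : finrank ℂ X = 3
  c : Conc T
  l : L0 T
  hM : Fintype.card m = M
  hN : Fintype.card n = N
  hMN : M ≤ N
  hF : 4 * h ≤ N ∨ M + 2 * h ≤ N
  hh : 4 ≤ h
  e2 : g + M = g' + N
  mn : ∀ x ≠ 0, g ≤ dm (ker (T x))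
  hr : ∀ x ≠ 0, r ≤ dm (range (T x))
  c6 : h < r
  c9 : g + g' < r + h

variable {T : X →ₗ[ℂ] (n → ℂ) →ₗ[ℂ] (m → ℂ)} {M N h g g' r : ℕ}

theorem not_le_two {P Q : Submodule ℂ X} (h1 : dm P = 2) (h2 : dm Q = 2) (h3 : P ≠ Q) : ¬ P ≤ Q :=
  fun h4 => h3 (eq_of_dm_le h4 (by omega))

theorem ne_zero_of_notMem {P : Submodule ℂ X} (h : x ∉ P) : x ≠ 0 :=
  fun e => h (by rw [e]; exact P.zero_mem)

namespace Cm

variable (cm : Cm T M N h g g' r)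
include cm

theorem choose {e e2 : Submodule ℂ X} (he : Good T g e) (hz : z ∉ e) (d2 : dm e2 = 2) (m2 : z ∈ e2)
    (mx : ∀ P, dm P = 2 → z ∈ P → dm (KK T P) ≤ dm (KK T e2)) :
    ∃ x y a' b' ks, x ≠ 0 ∧ y ∉ ℂ ∙ x ∧ pen x y = e ∧ x ∉ e2 ∧ y ∉ e2 ∧ dm (ker (T x)) = g ∧
      dm (ker (T y)) = g ∧ dm (ker (T x) ⊓ ker (T y)) = dm (KK T e) ∧ a' • x + b' • y ∈ e2 ∧
      KS (T z) (T x) (T y) a' b' (dm (KK T e2)) ks := by
  obtain ⟨d1, w, hw, gw⟩ := he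
  have z0 := ne_zero_of_notMem hz
  have n12 : ¬ e ≤ e2 := not_le_two d1 d2 fun h => hz (h ▸ m2)
  obtain ⟨x, p2, g2, o2⟩ := avoid T hw (Set.finite_singleton e2) (by rintro _ rfl; exact n12)
  replace o2 := o2 e2 rfl
  have x0 := ne_zero_of_notMem o2
  obtain ⟨y, p3, g3, o3⟩ := avoid T hw ((Set.finite_singleton e2).insert (ℂ ∙ x)) (by
    rintro _ (rfl | rfl)
    · intro h
      have := (dm_mono h).trans (dm_span_le x)
      omega
    · exact n12)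
  have s3 := o3 _ (Or.inl rfl)
  replace o3 := o3 e2 (Or.inr rfl)
  have he : pen x y = e := eq_of_dm_le (pen_le p2 p3) (by rw [d1, dm_pen x0 s3])
  have o1 : z ∉ pen x y := he ▸ hz
  obtain ⟨v, w1, w2, w0⟩ := meet cm.hX d1 d2
  obtain ⟨a', b', rfl⟩ := mem_pen.1 (he ▸ w1 : v ∈ pen x y)
  have off : ∀ a b : ℂ, a ≠ 0 ∨ b ≠ 0 → a • x + b • y ∉ ℂ ∙ z := fun a b hab e => by
    obtain ⟨c, e⟩ := Submodule.mem_span_singleton.1 e
    have := ind3 x0 s3 o1 (a := a) (b := b) (c := -c) (by linear_combination (norm := module) -e)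
    tauto
  have ha : a' ≠ 0 := fun e => by
    rw [e, zero_smul, zero_add] at w2 w0
    exact o3 ((e2.smul_mem_iff (left_ne_zero_of_smul w0)).1 w2)
  have hb : b' ≠ 0 := fun e => by
    rw [e, zero_smul, add_zero] at w2 w0
    exact o2 ((e2.smul_mem_iff (left_ne_zero_of_smul w0)).1 w2)
  have k1 : ∀ a b : ℂ, a ≠ 0 ∨ b ≠ 0 → dm (ker (T z) ⊓ ker (a • T x + b • T y)) ≤ dm (KK T e2) :=
    fun a b hab => by
      have := (le_KK T z (a • x + b • y)).trans (mx _ (dm_pen z0 (off a b hab)) (left_pen _ _))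
      rwa [map_add, map_smul, map_smul] at this
  have k2 := KK_le T m2 w2
  rw [map_add, map_smul, map_smul] at k2
  obtain ⟨ks, s⟩ := ks_data (T z) (T x) (T y)
    (fun v h1 h2 h3 => cm.c.three cm.hX x0 s3 o1 v h2 h3 h1) ha hb
    fun a b hab => (k1 a b hab).trans k2
  rw [le_antisymm (k1 a' b' (Or.inl ha)) k2] at s
  exact ⟨x, y, a', b', ks, x0, s3, he, o2, o3, le_antisymm (g2.trans gw) (cm.mn x x0),
    le_antisymm (g3.trans gw) (cm.mn y (ne_zero_of_notMem o3)),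
    le_antisymm (he ▸ le_KK T x y) (KK_le T p2 p3), w2, s⟩

theorem tri2 (hx : x ≠ 0) (hy : y ∉ ℂ ∙ x) (hz : z ∉ pen x y) {a' b' : ℂ}
    {γ γ' κ k ks ρ t q : ℕ} (s : KS (T z) (T x) (T y) a' b' k ks) (g1 : dm (ker (T z)) = γ)
    (e1 : γ + M = γ' + N) (g2 : dm (ker (T x)) = g) (g3 : dm (ker (T y)) = g)
    (hκ : dm (ker (T x) ⊓ ker (T y)) = κ) (ht : t = h - γ' - κ - 4) (hq : q = h + ks - γ - 4)
    (c8 : r ≤ ρ) (hρ : ∀ w ∈ pen x y, w ≠ 0 → ρ ≤ dm (range (T w)))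
    (hR : (g = γ ∧ ks ≤ κ ∧ (2 * h ≤ r ∨ M + 5 ≤ r + h) ∧ (t ≠ 0 → q ≠ 0 → M + 5 ≤ r + h)) ∨
      (t = 0 ∧ (q = 0 ∨ (2 * h ≤ r ∧ h ≤ γ' + 4 ∧ g + g' ≤ 2 * h))) ∨
      (2 * h ≤ γ + 8 ∧ 2 * h ≤ ρ ∧ M ≤ r + γ' ∧ 2 * h ≤ M ∧ 4 * h ≤ N))
    (hs : q ≠ 0 → ∀ β : ℂ, 2 * h ≤ dm (range (T (β • z + x))) ∧ 2 * h ≤ dm (range (T (β • z + y))))
    (x1 : q ≠ 0 → ∀ w ≠ 0, 2 * h ≤ dm (range (T w)) ∨ q + 3 ≤ dm ((XX T z).map (tr (T w))))
    (u1 : t ≠ 0 → ∀ w ≠ 0, κ + t + 3 + 2 * q + 2 * γ' ≤ dm (range (T w)) ∨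
      κ + t + 3 + 2 * q ≤ dm ((WW T z).map (T w))) : RK T (M + N + 16 - h) := by
  have z0 := ne_zero_of_notMem hz
  have hN := cm.hN
  have a1 := dm_inf_ge (ker (T x)) (ker (T y))
  have a2 := dm_sup_eq (S := ker (T x) ⊓ ker (T y)) (T := ker (T z))
    fun v h1 h2 => cm.c.three cm.hX hx hy hz v h1.1 h1.2 h2
  have a3 := dm_le (ker (T x) ⊓ ker (T y) ⊔ ker (T z))
  have a4 := cm.hr z z0
  have a5 := dm_rk (T z)
  have a6 := cm.mn z z0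
  have a7 := dm_mono (inf_le_left : ker (T x) ⊓ ker (T y) ≤ _)
  have a8 := s.i2
  rw [card_fun] at a1 a3
  exact triT cm.hX hx hy hz cm.c cm.l s (nums cm.hMN cm.hF cm.hh e1 cm.e2 ht hq (by omega)
    (by omega) (by omega) s.i1 (by omega) cm.c6 (by omega) c8 cm.c9 (by omega) hR)
    cm.hM cm.hN g1 g2 g3 hκ cm.hr hρ hs x1 u1

theorem ex_e2 (z0 : z ≠ 0) : ∃ e2, dm e2 = 2 ∧ z ∈ e2 ∧
    ∀ P, dm P = 2 → z ∈ P → dm (KK T P) ≤ dm (KK T e2) := by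
  obtain ⟨y, hy⟩ := exists_off cm.hX z z
  obtain ⟨e2, ⟨d2, m2⟩, mx⟩ := exists_max (S := {P : Submodule ℂ X | dm P = 2 ∧ z ∈ P})
    ⟨pen z y, dm_pen z0 fun e => hy (Submodule.mem_sup_left e), left_pen _ _⟩
    (fun P => dm (KK T P)) _ fun _ => dm_le _
  exact ⟨e2, d2, m2, fun P h1 h2 => mx P ⟨h1, h2⟩⟩

theorem ex_good {x0 : X} (g0 : dm (ker (T x0)) ≤ g) (z0 : z ≠ 0) : ∃ e, Good T g e ∧ z ∉ e := by
  obtain ⟨w, -, h1, h2⟩ := avoid T (P := ⊤) (x := x0) trivial (Set.finite_singleton (ℂ ∙ z)) (by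
    rintro _ rfl e
    have := (dm_mono e).trans (dm_span_le z)
    rw [dm_top, cm.hX] at this
    omega)
  replace h2 := h2 _ rfl
  have w0 := ne_zero_of_notMem h2
  obtain ⟨y, hy⟩ := exists_off cm.hX w z
  refine ⟨pen w y, ⟨dm_pen w0 fun e => hy (Submodule.mem_sup_left e), w, left_pen _ _,
    h1.trans g0⟩, fun e => hy (exch e fun e' => ?_)⟩
  obtain ⟨c, rfl⟩ := Submodule.mem_span_singleton.1 e'
  exact h2 (Submodule.mem_span_singleton.2 ⟨c⁻¹, by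
    rw [smul_smul, inv_mul_cancel₀ (left_ne_zero_of_smul z0), one_smul]⟩)

theorem side (hx : x ≠ 0) (hy : y ∉ ℂ ∙ x) (hz : z ∉ pen x y) (β : ℂ) :
    β • z + x ≠ 0 ∧ β • z + y ≠ 0 :=
  ⟨fun e => one_ne_zero (ind3 hx hy hz (a := 1) (b := 0) (c := β)
    (by linear_combination (norm := module) e)).1, fun e => one_ne_zero
    (ind3 hx hy hz (a := 0) (b := 1) (c := β) (by linear_combination (norm := module) e)).2.1⟩

/-- A slice with a large cokernel. -/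
theorem caseBC {e : Submodule ℂ X} (he : Good T g e) (hz : z ∉ e) {γ γ' : ℕ}
    (g1 : dm (ker (T z)) = γ) (e1 : γ + M = γ' + N) (h1 : h ≤ γ' + dm (KK T e) + 4)
    (h2 : 2 * h ≤ γ + 8 ∨ (2 * h ≤ r ∧ h ≤ γ' + 4 ∧ g + g' ≤ 2 * h)) :
    RK T (M + N + 16 - h) := by
  obtain ⟨e2, d2, m2, mx⟩ := cm.ex_e2 (ne_zero_of_notMem hz)
  obtain ⟨x, y, a', b', ks, hx, hy, rfl, -, -, g2, g3, hκ, -, s⟩ := cm.choose he hz d2 m2 mx
  have i1 := s.i1
  have i2 := s.i2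
  refine cm.tri2 hx hy hz s g1 e1 g2 g3 hκ rfl rfl le_rfl (fun w _ w0 => cm.hr w w0)
    (Or.inr (Or.inl (by omega))) (fun q0 β => ⟨?_, ?_⟩) (fun q0 w w0 => Or.inl ?_)
    fun t0 => absurd (by omega) t0
  · have := cm.hr _ (cm.side hx hy hz β).1
    omega
  · have := cm.hr _ (cm.side hx hy hz β).2
    omega
  · have := cm.hr w w0
    omega

/-- A unique slice of low rank. -/
theorem caseBt {e : Submodule ℂ X} (he : Good T g e) (hz : z ∉ e) (hr : dm (range (T z)) = r)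
    (h1 : r < 2 * h) (h2 : 2 * h ≤ M) (h3 : 4 * h ≤ N)
    (low : ∀ w ∉ ℂ ∙ z, 2 * h ≤ dm (range (T w))) (hu : r + 2 ≤ dm ((WW T z).map (T z)) + h) :
    RK T (M + N + 16 - h) := by
  obtain ⟨e2, d2, m2, mx⟩ := cm.ex_e2 (ne_zero_of_notMem hz)
  obtain ⟨x, y, a', b', ks, hx, hy, rfl, -, -, g2, g3, hκ, -, s⟩ := cm.choose he hz d2 m2 mx
  have i1 := s.i1
  have i2 := s.i2
  have a1 := dm_rk (T z)
  have a2 := dm_rk' (T z)
  have hM := cm.hM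
  have hN := cm.hN
  refine cm.tri2 hx hy hz s rfl (γ' := dm (ker (tr (T z)))) (by omega) g2 g3 hκ rfl rfl
    (ρ := 2 * h) h1.le (fun w hw w0 => low w fun e => ?_) (Or.inr (Or.inr (by omega)))
    (fun q0 => absurd (by omega) q0) (fun q0 => absurd (by omega) q0) fun t0 w w0 => ?_
  · obtain ⟨c, rfl⟩ := Submodule.mem_span_singleton.1 e
    exact hz ((Submodule.smul_mem_iff _ (left_ne_zero_of_smul w0)).1 hw)
  · by_cases e : w ∈ ℂ ∙ z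
    · obtain ⟨c, rfl⟩ := Submodule.mem_span_singleton.1 e
      rw [map_smul, Submodule.map_smul _ _ _ (left_ne_zero_of_smul w0)]
      omega
    · have := low w e
      omega

end Cm

end Pool.Agent.P.MP_098a67_ag.R3
end

-- part Pool.Agent.P.MP_098a67_ag.R3.TriC
section

namespace Pool.Agent.P.MP_098a67_ag.R3

open Module T3
open LinearMap (ker range)

variable {m n : Type} [Fintype m] [DecidableEq m] [Fintype n] [DecidableEq n]
  {X : Type} [AddCommGroup X] [Module ℂ X] [Module.Finite ℂ X] {x y z S x0 : X}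
  {T : X →ₗ[ℂ] (n → ℂ) →ₗ[ℂ] (m → ℂ)} {M N h g g' r : ℕ}

theorem hard (hX : finrank ℂ X = 3) (hx : x ≠ 0) (hy : y ∉ ℂ ∙ x) (hz : z ∉ pen x y) {a' b' c : ℂ}
    {k ks : ℕ} (s : KS (T z) (T x) (T y) a' b' k ks) (hc : c ≠ 0) (hS : S = c • (a' • x + b' • y)) :
    dm (range (T S)) + ks ≤
      dm ((WW T S).map (T S)) + dm ((XX T z).map (tr (T S))) + dm (ker (T z)) := by
  have y0 : y ≠ 0 := ne_zero_of_notMem hy
  have z0 : z ≠ 0 := ne_zero_of_notMem hz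
  have b1 : y ∉ ℂ ∙ z := fun e => by
    obtain ⟨d, e⟩ := Submodule.mem_span_singleton.1 e
    exact one_ne_zero (ind3 hx hy hz (a := 0) (b := 1) (c := -d)
      (by linear_combination (norm := module) -e)).2.1
  have b2 : S ∉ pen z y := fun e => by
    obtain ⟨d, d', e⟩ := mem_pen.1 e
    exact mul_ne_zero hc s.ha (ind3 hx hy hz (a := c * a') (b := c * b' - d') (c := -d)
      (by rw [hS] at e; linear_combination (norm := module) -e)).1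
  have a1 := dm_XX hX hx hy hz s
  have a2 := dm_map_ker (tr (T S)) (XX T z)
  have a3 : XX T z ⊓ ker (tr (T S)) ≤ perp ((ker (T z)).map (T y) ⊔ range (T S)) := by
    rw [perp_sup, perp_range]
    refine inf_le_inf_right _ ?_
    rintro η hη _ ⟨v, hv, rfl⟩
    exact hη y v hv
  have a4 := dm_mono a3
  have a5 := dm_perp ((ker (T z)).map (T y) ⊔ range (T S))
  have a6 := dm_comap (T y) (ker (T z)) (range (T S))
  have a7 : ker (T z) ⊓ (range (T S)).comap (T y) ≤ WW T S := fun v hv =>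
    mem_WW hX z0 b1 b2 (by rw [show T z v = 0 from hv.1]; exact Submodule.zero_mem _) hv.2
  have a8 := dm_mono (Submodule.map_mono (f := T S) a7)
  have a9 := dm_map_ker (T S) (ker (T z) ⊓ (range (T S)).comap (T y))
  have a10 := dm_mono (inf_le_inf_right (ker (T S))
    (inf_le_left : ker (T z) ⊓ (range (T S)).comap (T y) ≤ _))
  have a11 : dm (ker (T z) ⊓ ker (T S)) = k := by
    rw [hS, map_smul, LinearMap.ker_smul _ _ hc, map_add, map_smul, map_smul, s.hk]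
  omega

theorem numA {c c' k ks L κ t q : ℕ} (hF : 4 * h ≤ N ∨ M + 2 * h ≤ N) (hMN : M ≤ N)
    (ee : g + M = g' + N) (c6 : h < r) (c9 : g + g' < r + h) (k1 : r + c = N) (k2 : r + c' = M)
    (h1 : ¬ (h ≤ c' + 4 ∧ (2 * h ≤ c + 8 ∨ g + g' ≤ 2 * h))) (i1 : ks ≤ k) (i2 : k + ks ≤ g)
    (k3 : k ≤ L) (l1 : L ≤ κ) (ht : t = h - g' - κ - 4) (hq : q = h + ks - g - 4) :
    (ks ≤ κ ∧ (2 * h ≤ r ∨ M + 5 ≤ r + h) ∧ (t ≠ 0 → q ≠ 0 → M + 5 ≤ r + h)) ∧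
      (t ≠ 0 → κ + t + 3 + 2 * q + 2 * g' ≤ r) ∧
      (q ≠ 0 → 2 * h ≤ M ∧ 4 * h ≤ N ∧ 3 * h ≤ M + ks + 5 ∧ q + g + 4 = h + ks) := by
  refine ⟨⟨by omega, by omega, by omega⟩, by omega, by omega⟩

theorem Cm.main (cm : Cm T M N h g g' r) (hx0 : x0 ≠ 0) (g0 : dm (ker (T x0)) = g) (S0 : S ≠ 0)
    (rS : dm (range (T S)) = r) : RK T (M + N + 16 - h) := by
  classical
  have hX := cm.hX
  have hM := cm.hM
  have hN := cm.hN
  have hF := cm.hF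
  have hMN := cm.hMN
  have ee := cm.e2
  have c6 := cm.c6
  have c9 := cm.c9
  have k1 := dm_rk (T S)
  have k2 := dm_rk' (T S)
  by_cases h1 : h ≤ dm (ker (tr (T S))) + 4 ∧ (2 * h ≤ dm (ker (T S)) + 8 ∨ g + g' ≤ 2 * h)
  · obtain ⟨e, he, hz⟩ := cm.ex_good g0.le S0
    exact cm.caseBC he hz rfl (γ' := dm (ker (tr (T S)))) (by omega) (by omega) (by omega)
  obtain ⟨L, hFs, hZ⟩ : ∃ L : ℕ, {P : Submodule ℂ X | dm P = 2 ∧ L < dm (KK T P)}.Finite ∧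
      {P : Submodule ℂ X | dm P = 2 ∧ L ≤ dm (KK T P)}.Infinite := by
    have h1 : ∃ L : ℕ, {P : Submodule ℂ X | dm P = 2 ∧ L < dm (KK T P)}.Finite :=
      ⟨_, Set.finite_empty.subset fun P hP => absurd (dm_le _) (not_le.2 hP.2)⟩
    refine ⟨Nat.find h1, Nat.find_spec h1, ?_⟩
    rcases h0 : Nat.find h1 with _ | m
    · simpa using inf_pts hX
    · exact Nat.find_min h1 (show m < Nat.find h1 by omega)
  obtain ⟨e0, ⟨⟨d0, k0⟩, n0⟩, e1, ⟨⟨d1, l1⟩, n1⟩, hne⟩ :=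
    (hZ.sdiff (hFs.union (bad_finite T hX hx0))).nontrivial
  have good : ∀ e : Submodule ℂ X, dm e = 2 → e ∉ {P : Submodule ℂ X | dm P = 2 ∧
      L < dm (KK T P)} ∪ {P : Submodule ℂ X | dm P = 2 ∧
      ∀ w ∈ P, dm (ker (T x0)) < dm (ker (T w))} → Good T g e := fun e de he => by
    simp only [Set.mem_union, Set.mem_ofPred_eq, not_or, not_and, not_forall, not_lt] at he
    obtain ⟨x, hx, h1⟩ := he.2 de
    exact ⟨de, x, hx, g0 ▸ h1⟩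
  have G0 := good e0 d0 n0
  have G1 := good e1 d1 n1
  obtain ⟨w, hw, gw⟩ := G0.2
  obtain ⟨z, m0, g1, o1⟩ := avoid T hw (hFs.insert e1) (by
    rintro P (rfl | hP)
    · exact not_le_two d0 d1 hne
    · exact not_le_two d0 hP.1 fun e => n0 (Or.inl (e ▸ hP)))
  have hz := o1 e1 (Or.inl rfl)
  have z0 := ne_zero_of_notMem hz
  replace g1 : dm (ker (T z)) = g := le_antisymm (g1.trans gw) (cm.mn z z0)
  have mx : ∀ P, dm P = 2 → z ∈ P → dm (KK T P) ≤ L := fun P h1 h2 =>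
    not_lt.1 fun h3 => o1 P (Or.inr ⟨h1, h3⟩) h2
  obtain ⟨x, y, a', b', ks, hx, hy, he, o2, o3, g2, g3, hκ, w2, s⟩ :=
    cm.choose G1 hz d0 m0 fun P h1 h2 => (mx P h1 h2).trans k0
  have k3 := mx e0 d0 m0
  have i1 := s.i1
  have i2 := s.i2
  subst he
  obtain ⟨t, ht⟩ : ∃ t, t = h - g' - dm (KK T (pen x y)) - 4 := ⟨_, rfl⟩
  obtain ⟨q, hq⟩ : ∃ q, q = h + ks - g - 4 := ⟨_, rfl⟩
  obtain ⟨N1, N2, N3⟩ := numA hF hMN ee c6 c9 (rS ▸ hN ▸ k1) (rS ▸ hM ▸ k2) h1 i1 (g1 ▸ i2) k3 l1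
    ht hq
  have A := cm.tri2 hx hy hz s g1 ee g2 g3 hκ ht hq le_rfl (fun w _ w0 => cm.hr w w0)
    (Or.inl ⟨rfl, N1⟩)
  clear ht hq h1 hF N1 c9 c6
  have u1 : t ≠ 0 → ∀ w ≠ 0, dm (KK T (pen x y)) + t + 3 + 2 * q + 2 * g' ≤ dm (range (T w)) ∨
      dm (KK T (pen x y)) + t + 3 + 2 * q ≤ dm ((WW T z).map (T w)) := fun t0 w w0 =>
    Or.inl ((N2 t0).trans (cm.hr w w0))
  clear N2
  by_cases h2 : q = 0 ∨ 2 * h ≤ r
  · refine A (fun q0 β => ⟨?_, ?_⟩) (fun q0 w w0 => Or.inl ?_) u1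
    · have := cm.hr _ (cm.side hx hy hz β).1
      omega
    · have := cm.hr _ (cm.side hx hy hz β).2
      omega
    · have := cm.hr w w0
      omega
  push Not at h2
  replace N3 := N3 h2.1
  by_cases h3 : ∃ v, dm (range (T v)) < 2 * h ∧ (v ∉ e0 ∨ v ∉ pen x y)
  · obtain ⟨v, v1, v2⟩ := h3
    have a1 := dm_rk (T v)
    have a2 := dm_rk' (T v)
    rcases v2 with v2 | v2
    · exact cm.caseBC G0 v2 rfl (γ' := dm (ker (tr (T v)))) (by omega) (by omega) (by omega)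
    · exact cm.caseBC G1 v2 rfl (γ' := dm (ker (tr (T v)))) (by omega) (by omega) (by omega)
  push Not at h3
  have sp : ∀ v, v ∈ e0 → v ∈ pen x y → v ∈ ℂ ∙ S := fun v h4 h5 => by
    have b1 : (ℂ ∙ S) ≤ e0 ⊓ pen x y :=
      (Submodule.span_singleton_le_iff_mem _ _).2 (h3 S (by omega))
    have b2 := dm_lt (inf_le_left : e0 ⊓ pen x y ≤ e0) m0 fun e => hz e.2
    rw [eq_of_dm_le b1 (by rw [dm_span_single S0]; omega)]
    exact ⟨h4, h5⟩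
  have low : ∀ w ∉ ℂ ∙ S, 2 * h ≤ dm (range (T w)) := fun w hw =>
    not_lt.1 fun e => hw (sp w (h3 w e).1 (h3 w e).2)
  by_cases h4 : q + 3 ≤ dm ((XX T z).map (tr (T S)))
  · refine A (fun q0 β => ⟨not_lt.1 fun e => o2 ?_, not_lt.1 fun e => o3 ?_⟩)
      (fun q0 w w0 => ?_) u1
    · exact (e0.add_mem_iff_right (e0.smul_mem β m0)).1 (h3 _ e).1
    · exact (e0.add_mem_iff_right (e0.smul_mem β m0)).1 (h3 _ e).1
    · by_cases e : w ∈ ℂ ∙ S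
      · obtain ⟨c, rfl⟩ := Submodule.mem_span_singleton.1 e
        rw [map_smul, tr_smul, Submodule.map_smul _ _ _ (left_ne_zero_of_smul w0)]
        exact Or.inr h4
      · exact Or.inl (low w e)
  obtain ⟨c, hc⟩ := Submodule.mem_span_singleton.1 (sp _ w2 (mem_pen.2 ⟨a', b', rfl⟩))
  have c0 : c ≠ 0 := fun e => s.ha (ind3 hx hy hz (a := a') (b := b') (c := 0) (by
    rw [← hc, e, zero_smul, zero_smul, add_zero])).1
  have a1 := hard (S := S) hX hx hy hz s (inv_ne_zero c0) (by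
    rw [← hc, smul_smul, inv_mul_cancel₀ c0, one_smul])
  obtain ⟨e, he, hS⟩ := cm.ex_good g0.le S0
  exact cm.caseBt he hS rS (by omega) (by omega) (by omega) low (by omega)

theorem upper_conc (hX : finrank ℂ X = 3) (c : Conc T) (l : L0 T) (hM : Fintype.card m = M)
    (hN : Fintype.card n = N) (hMN : M ≤ N) (hF : 4 * h ≤ N ∨ M + 2 * h ≤ N) (hh : N ≤ 4 * h + 3) :
    RK T (M + N + 16 - h) := by
  have ne : {x : X | x ≠ 0}.Nonempty := by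
    obtain ⟨x, hx⟩ := exists_off hX 0 0
    exact ⟨x, ne_zero_of_notMem hx⟩
  obtain ⟨x0, hx0, m0⟩ := exists_max ne (fun x => dm (range (T x))) _ fun _ => dm_le _
  obtain ⟨S, S0, mS⟩ := exists_max ne (fun x => dm (ker (T x))) _ fun _ => dm_le _
  obtain ⟨y, hy⟩ := exists_off hX S S
  obtain ⟨z, hz⟩ := exists_off hX S y
  replace hy : y ∉ ℂ ∙ S := fun e => hy (Submodule.mem_sup_left e)
  have fin : ∀ ρ, RK2 (T y) (T z) ρ → dm (range (T S)) + ρ + h ≤ M + N + 16 →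
      RK T (M + N + 16 - h) := fun ρ h1 h2 =>
    rk_of3 hX S0 hy hz (RK.mono (rk3_first (B := 0) (k := dm (range (T S))) (by rw [sub_zero])
      (h1.re Prod.snd fun x v => by simp)) (by omega))
  have a1 := dm_rk' (T S)
  have a2 := dm_rk (T x0)
  have a3 := dm_rk' (T x0)
  by_cases h1 : dm (range (T S)) ≤ h
  · exact fin (M + N + 1 - 2 * h) (rk2_rect _ _ (by rwa [card_fun, card_fun, hM, hN])
      (by rw [card_fun, card_fun]; omega)) (by omega)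
  by_cases h2 : h < 4
  · exact fin (M + N + 1 - 2 * (N / 4)) (rk2_rect _ _ (h := N / 4)
      (by rw [card_fun, card_fun]; omega) (by rw [card_fun, card_fun]; omega)) (by omega)
  by_cases h3 : dm (range (T S)) + h ≤ dm (ker (T x0)) + dm (ker (tr (T x0)))
  · have b1 := rk2_two (T y) (T z) (a := 1) (b := 0) one_ne_zero
    have b2 : dm (range (T y)) ≤ _ := m0 y (ne_zero_of_notMem hy)
    have b3 : dm (range (T z)) ≤ _ := m0 z (ne_zero_of_notMem hz)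
    rw [one_smul, zero_smul, add_zero] at b1
    exact fin _ b1 (by omega)
  refine Cm.main (g := dm (ker (T x0))) (g' := dm (ker (tr (T x0)))) (r := dm (range (T S)))
    ⟨hX, c, l, hM, hN, hMN, hF, by omega, by omega, fun x hx => ?_, fun x hx => ?_, by omega,
      by omega⟩ hx0 rfl S0 rfl
  · have b1 : dm (range (T x)) ≤ _ := m0 x hx
    have b2 := dm_rk (T x)
    omega
  · have b1 : dm (ker (T x)) ≤ _ := mS x hx
    have b2 := dm_rk (T x)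
    have b3 := dm_rk (T S)
    omega

end Pool.Agent.P.MP_098a67_ag.R3
end

-- part Pool.Agent.P.MP_098a67_ag.R3.Main
section

namespace Pool.Agent.P.MP_098a67_ag.R3

open Module T3
open LinearMap (ker range)

section Upper

variable {X : Type} [AddCommGroup X] [Module ℂ X] [Module.Finite ℂ X]
  {m n : Type} [Fintype m] [DecidableEq m] [Fintype n] [DecidableEq n]

theorem conc_step (hX : finrank ℂ X = 3) (T : X →ₗ[ℂ] (n → ℂ) →ₗ[ℂ] (m → ℂ)) (hc : ¬ Conc T)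
    (hN : Fintype.card n ≤ 3 * Fintype.card m) :
    ∃ T' : X →ₗ[ℂ] (n → ℂ) →ₗ[ℂ] (m → ℂ), dm (KK T' ⊤) < dm (KK T ⊤) ∧ ∀ r, RK T' r → RK T r := by
  simp only [Conc, not_forall] at hc
  obtain ⟨v0, h0, hv0⟩ := hc
  obtain ⟨φ, hφ, -⟩ := exists_fun (Z := ⊥) (v := v0) hv0
  obtain ⟨w, -, hw⟩ := exists_notMem (S := range T.flip) (T := ⊤) (by
    have h1 := dm_range_ker T.flip
    have h2 : dm (ℂ ∙ v0) ≤ dm (ker T.flip) :=
      dm_mono ((Submodule.span_singleton_le_iff_mem _ _).2 (LinearMap.ext h0))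
    rw [dm_span_single hv0] at h2
    rw [card_fun] at h1
    rw [dm_top, Module.finrank_linearMap, hX, card_fun]
    omega)
  let T' : X →ₗ[ℂ] (n → ℂ) →ₗ[ℂ] (m → ℂ) := T + (φ.smulRight w).flip
  have e : ∀ x v, T' x v = T x v + φ v • w x := fun _ _ => rfl
  have e2 : ∀ x v, T x v = T' x (v - φ v • v0) := fun x v => by
    simp [e, h0, hφ]
  have k : ∀ v ∈ KK T' ⊤, φ v = 0 := fun v hv => by
    by_contra hne
    refine hw ⟨-(φ v)⁻¹ • v, LinearMap.ext fun x => smul_right_injective _ hne ?_⟩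
    have := hv x trivial
    rw [e] at this
    simp only [LinearMap.flip_apply, map_smul, LinearMap.smul_apply, smul_smul, mul_neg,
      mul_inv_cancel₀ hne]
    linear_combination (norm := module) -this
  refine ⟨T', dm_lt (v := v0) (fun v hv x _ => ?_) (fun x _ => h0 x) fun hv => ?_,
      fun r h => h.of id LinearMap.id (LinearMap.id - φ.smulRight v0) e2⟩
  · have := hv x trivial
    rwa [e, k v hv, zero_smul, add_zero] at this
  · exact one_ne_zero (hφ.symm.trans (k v0 hv))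

/-- Removing a row of rank one. -/
theorem row_step (hX : finrank ℂ X = 3) (T : X →ₗ[ℂ] (n → ℂ) →ₗ[ℂ] (m → ℂ)) (hl : ¬ L0 T) :
    ∃ (d : ℕ) (T' : X →ₗ[ℂ] (n → ℂ) →ₗ[ℂ] (Fin d → ℂ)), d + 1 = Fintype.card m ∧
      ∀ r, RK T' r → RK T (r + 1) := by
  simp only [L0, not_forall] at hl
  obtain ⟨x, y, η, hx, hy, h1, h2, h0⟩ := hl
  obtain ⟨z, hz⟩ := exists_off hX x y
  obtain ⟨φ, φ1, φ2⟩ := exists_fun hz
  have d1 := dm_perp (ℂ ∙ η)
  rw [dm_span_single h0] at d1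
  obtain ⟨w, -, hw⟩ := exists_notMem (S := perp (ℂ ∙ η)) (T := ⊤) (by rw [dm_top, card_fun]; omega)
  have mp : ∀ p : m → ℂ, p ⬝ᵥ η = 0 → p ∈ perp (ℂ ∙ η) := fun p hp v hv => by
    obtain ⟨c, rfl⟩ := Submodule.mem_span_singleton.1 hv
    rw [dotProduct_smul, hp, smul_zero]
  have ha : w ⬝ᵥ η ≠ 0 := fun e => hw (mp w e)
  obtain ⟨i, j, -, -, hi, hj⟩ := exists_param (S := perp (ℂ ∙ η)) (Z := ℂ ∙ w) fun v h3 h4 => by
    obtain ⟨c, rfl⟩ := Submodule.mem_span_singleton.1 h4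
    by_contra e
    exact hw ((Submodule.smul_mem_iff _ (left_ne_zero_of_smul e)).1 h3)
  let f : (n → ℂ) →ₗ[ℂ] (m → ℂ) :=
    ((w ⬝ᵥ η)⁻¹ • dotProductEquiv ℂ n (tr (T z) η)).smulRight w
  have hf : dm (range f) ≤ 1 := le_trans (dm_mono (by
    rintro _ ⟨v, rfl⟩
    exact Submodule.mem_span_singleton.2 ⟨_, rfl⟩)) (dm_span_le w)
  refine ⟨_, T.compr₂ j, by omega, fun r h => RK.add (h.of (g := fun x => i ∘ₗ j ∘ₗ T x) id i
    LinearMap.id fun _ _ => rfl) (((rk_one f).mono hf).re (g := fun x => φ x • f) φ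
    fun _ _ => rfl) fun s v => ?_⟩
  have e1 : T s v ⬝ᵥ η = φ s * (tr (T z) η ⬝ᵥ v) := by
    obtain ⟨p, rfl⟩ := span3 hX hx hy hz s
    rw [dotProduct_comm, ← tr_dot]
    simp only [map_add, map_smul, tr_sl, h1, h2, φ1, φ2 x (left_pen _ _), φ2 y (right_pen _ _),
      smul_zero, zero_add, smul_dotProduct, smul_eq_mul, mul_one, mul_zero]
  have e2 := hi (T s v - ((w ⬝ᵥ η)⁻¹ * (T s v ⬝ᵥ η)) • w) (mp _ (by
    rw [sub_dotProduct, smul_dotProduct, smul_eq_mul]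
    field_simp
    ring))
  rw [map_sub, map_smul, hj w (Submodule.mem_span_singleton_self w), smul_zero, sub_zero, e1] at e2
  show T s v = i (j (T s v)) + φ s • ((w ⬝ᵥ η)⁻¹ * (tr (T z) η ⬝ᵥ v)) • w
  rw [e2]
  module

theorem rk_three (hX : finrank ℂ X = 3) (T : X →ₗ[ℂ] (n → ℂ) →ₗ[ℂ] (m → ℂ)) :
    RK T (3 * Fintype.card m) := by
  obtain ⟨x, hx⟩ := exists_off hX 0 0
  obtain ⟨y, hy⟩ := exists_off hX x x
  obtain ⟨z, hz⟩ := exists_off hX x y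
  have b1 := rk2_two (T y) (T z) (a := 1) (b := 0) one_ne_zero
  have a1 := dm_rk' (T x)
  have a2 := dm_rk' (T y)
  have a3 := dm_rk' (T z)
  rw [one_smul, zero_smul, add_zero] at b1
  exact rk_of3 hX (ne_zero_of_notMem hx) (fun e => hy (Submodule.mem_sup_left e)) hz
    (RK.mono (rk3_first (B := 0) (k := dm (range (T x))) (by rw [sub_zero])
      (b1.re Prod.snd fun x v => by simp)) (by omega))

theorem upper_all (hX : finrank ℂ X = 3) {N h : ℕ} (hN : Fintype.card n = N) (hh : N ≤ 4 * h + 3)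
    (M : ℕ) : ∀ (m : Type) [Fintype m] [DecidableEq m], Fintype.card m = M → M ≤ N →
      4 * h ≤ N ∨ M + 2 * h ≤ N → ∀ (d : ℕ) (T : X →ₗ[ℂ] (n → ℂ) →ₗ[ℂ] (m → ℂ)),
      dm (KK T ⊤) < d → RK T (M + N + 16 - h) := by
  induction M using Nat.strong_induction_on with
  | _ M ih =>
    intro m _ _ hM hMN hF d
    induction d with
    | zero => exact fun T hT => absurd hT (Nat.not_lt_zero _)
    | succ d ihd =>
      intro T hT
      by_cases l : L0 T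
      swap
      · obtain ⟨e, T', h1, h2⟩ := row_step hX T l
        exact (h2 _ (ih e (by omega) _ (Fintype.card_fin _) (by omega) (by omega) _ T'
          (Nat.lt_succ_self _))).mono (by omega)
      by_cases c : Conc T
      · exact upper_conc hX c l hM hN hMN hF hh
      by_cases h3 : N ≤ 3 * M
      · obtain ⟨T', h1, h2⟩ := conc_step hX T c (by omega)
        exact h2 _ (ihd T' (by omega))
      · exact (rk_three hX T).mono (by omega)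

theorem upper (hX : finrank ℂ X = 3) {a b : ℕ} (hab : a ≤ b)
    (T : X →ₗ[ℂ] (Fin b → ℂ) →ₗ[ℂ] (Fin a → ℂ)) :
    RK T ((min (4 * a + 3 * b) (min (6 * a + 2 * b) (12 * a)) + 67) / 4) := by
  by_cases h3 : 3 * a ≤ b
  · exact (rk_three hX T).mono (by rw [Fintype.card_fin]; omega)
  by_cases h2 : 2 * a ≤ b
  · exact (upper_all hX (h := (b - a) / 2) (Fintype.card_fin b) (by omega) a _ (Fintype.card_fin a)
      hab (by omega) _ T (Nat.lt_succ_self _)).mono (by omega)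
  · exact (upper_all hX (h := b / 4) (Fintype.card_fin b) (by omega) a _ (Fintype.card_fin a)
      hab (by omega) _ T (Nat.lt_succ_self _)).mono (by omega)

end Upper

section Lower

theorem subst_in {V W κ : Type} [AddCommGroup V] [Module ℂ V] [Module.Finite ℂ V]
    [AddCommGroup W] [Module ℂ W] (d : ℕ) : ∀ (g : κ → V →ₗ[ℂ] W) (r : ℕ) (U : Submodule ℂ V),
    RK g r → dm U = d → (∀ u ∈ U, (∀ k, g k u = 0) → u = 0) →
    ∃ (R : V →ₗ[ℂ] V) (r' : ℕ), r' + d ≤ r ∧ (∀ v, R v - v ∈ U) ∧ RK (fun k => g k ∘ₗ R) r' := by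
  classical
  induction d with
  | zero => exact fun g r U h _ _ => ⟨LinearMap.id, r, le_rfl, fun v => by simp, h⟩
  | succ d ih =>
    rintro g r U ⟨s, _, hs, φ, w, c, h⟩ hU hc
    obtain ⟨u, hu, h0⟩ := exists_notMem (S := ⊥) (T := U) (by rw [dm_bot]; omega)
    obtain ⟨l, hl⟩ : ∃ l, φ l u ≠ 0 := by
      by_contra hn
      push Not at hn
      exact h0 (hc u hu fun k => by simp [h, hn])
    let R1 : V →ₗ[ℂ] V := LinearMap.id - ((φ l u)⁻¹ • φ l).smulRight u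
    have e1 : ∀ v, R1 v = v - ((φ l u)⁻¹ * φ l v) • u := fun _ => rfl
    have e2 : ∀ v, φ l (R1 v) = 0 := fun v => by
      rw [e1, map_sub, map_smul, smul_eq_mul]
      field_simp
      ring
    have hpos : 0 < Fintype.card s := Fintype.card_pos_iff.2 ⟨l⟩
    have h1 : RK (fun k => g k ∘ₗ R1) (r - 1) := by
      refine ⟨{x // x ≠ l}, inferInstance, by simp; omega, fun x => φ x ∘ₗ R1, fun x => w x,
        fun x => c x, fun k v => ?_⟩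
      rw [LinearMap.comp_apply, h, Fintype.sum_eq_add_sum_subtype_ne _ l, e2]
      simp
    obtain ⟨C, c1, c2, c3⟩ := exists_compl_in ((Submodule.span_singleton_le_iff_mem u U).2 hu)
    have e3 := dm_sup_eq c2
    rw [c3, dm_span_single h0] at e3
    obtain ⟨R, r', a1, a2, a3⟩ := ih _ _ C h1 (by omega) fun v hv e => by
      have := hc (R1 v) (U.sub_mem (c1 hv) (U.smul_mem _ hu)) e
      rw [e1, sub_eq_zero] at this
      exact c2 v (Submodule.mem_span_singleton.2 ⟨_, this.symm⟩) hv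
    refine ⟨R1 ∘ₗ R, r', by omega, fun v => ?_, a3⟩
    rw [LinearMap.comp_apply, e1, sub_right_comm]
    exact U.sub_mem (c1 (a2 v)) (U.smul_mem _ hu)

variable {ι ι' m n κ : Type} [Fintype ι] [DecidableEq ι] [Fintype ι'] [DecidableEq ι'] [Fintype m]
  [DecidableEq m] [Fintype n] [DecidableEq n]

theorem tr_left (e : ι → m) (v : ι → ℂ) (j : m) :
    tr (LinearMap.funLeft ℂ ℂ e) v j = ∑ i, if e i = j then v i else 0 := by
  have := tr_dot (LinearMap.funLeft ℂ ℂ e) v (Pi.single j 1)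
  rw [dotProduct_single_one] at this
  rw [this]
  simp [dotProduct, LinearMap.funLeft_apply, Pi.single_apply]

theorem split (h : Fintype.card ι + Fintype.card ι' ≤ Fintype.card m) :
    ∃ (p : (m → ℂ) →ₗ[ℂ] (ι → ℂ)) (q : (m → ℂ) →ₗ[ℂ] (ι' → ℂ)), (∀ v, p (tr p v) = v) ∧
      (∀ v, p (tr q v) = 0) ∧ (∀ v, q (tr p v) = 0) ∧ ∀ v, q (tr q v) = v := by
  obtain ⟨e⟩ := Function.Embedding.nonempty_of_card_le (α := ι ⊕ ι') (β := m) (by simpa using h)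
  exact ⟨LinearMap.funLeft ℂ ℂ (e ∘ Sum.inl), LinearMap.funLeft ℂ ℂ (e ∘ Sum.inr),
    fun v => funext fun j => by simp [LinearMap.funLeft_apply, tr_left],
    fun v => funext fun j => by simp [LinearMap.funLeft_apply, tr_left],
    fun v => funext fun j => by simp [LinearMap.funLeft_apply, tr_left],
    fun v => funext fun j => by simp [LinearMap.funLeft_apply, tr_left]⟩

/-- Bordering with one new slice. -/
theorem dbl (f : κ → (ι' → ℂ) →ₗ[ℂ] (ι → ℂ)) {α β : ℕ} (h1 : α ≤ Fintype.card ι')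
    (h2 : β ≤ Fintype.card ι) (h3 : Fintype.card ι + α ≤ Fintype.card m)
    (h4 : Fintype.card ι' + β ≤ Fintype.card n) :
    ∃ g : Option κ → (n → ℂ) →ₗ[ℂ] (m → ℂ), ∀ r, RK g r → ∃ r', r' + α + β ≤ r ∧ RK f r' := by
  obtain ⟨P, Q, H11, H12, H21, H22⟩ := split (ι := ι) (ι' := Fin α) (m := m) (by simpa using h3)
  obtain ⟨p, q, h11, h12, h21, h22⟩ := split (ι := ι') (ι' := Fin β) (m := n) (by simpa using h4)
  obtain ⟨s, -, hs, -⟩ := split (ι := Fin β) (ι' := Fin 0) (m := ι) (by simpa using h2)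
  obtain ⟨s', -, hs', -⟩ := split (ι := Fin α) (ι' := Fin 0) (m := ι') (by simpa using h1)
  refine ⟨fun k => k.elim (tr P ∘ₗ tr s ∘ₗ q + tr Q ∘ₗ s' ∘ₗ p) fun k => tr P ∘ₗ f k ∘ₗ p,
    fun r h => ?_⟩
  have dU : dm (range (tr q)) = β := by
    rw [dm_range_eq fun v hv => by rw [← h22 v, hv, map_zero], card_fun, Fintype.card_fin]
  have dU' : dm (range (tr Q)) = α := by
    rw [dm_range_eq fun v hv => by rw [← H22 v, hv, map_zero], card_fun, Fintype.card_fin]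
  have hp : ∀ {a b : n → ℂ}, a - b ∈ range (tr q) → p a = p b := by
    rintro a b ⟨v, hv⟩
    rw [← sub_eq_zero, ← map_sub, ← hv, h12]
  have hP : ∀ {a b : m → ℂ}, a - b ∈ range (tr Q) → P a = P b := by
    rintro a b ⟨v, hv⟩
    rw [← sub_eq_zero, ← map_sub, ← hv, H12]
  obtain ⟨R, r1, a1, a2, a3⟩ := subst_in _ _ _ _ h dU (by
    rintro _ ⟨v, rfl⟩ hv
    have := congrArg (fun w => s (P w)) (hv none)
    simp only [Option.elim, LinearMap.add_apply, LinearMap.comp_apply, h12, h22, map_add, H11,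
      map_zero, add_zero, hs] at this
    rw [this, map_zero])
  have a4 := (a3.of (g := fun k => ((k.elim (tr P ∘ₗ tr s ∘ₗ q + tr Q ∘ₗ s' ∘ₗ p)
    fun k => tr P ∘ₗ f k ∘ₗ p) ∘ₗ R) ∘ₗ tr p) id LinearMap.id (tr p) fun _ _ => rfl).tr
  obtain ⟨R', r2, b1, b2, b3⟩ := subst_in _ _ _ _ a4 dU' (by
    rintro _ ⟨v, rfl⟩ hv
    have : v = 0 := eq_of_dot fun w => by
      have := congrArg (fun η => η ⬝ᵥ tr s' w) (hv none)
      simp only [tr_dot, zero_dotProduct, Option.elim, LinearMap.add_apply, LinearMap.comp_apply,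
        map_add, H21, H22, hp (a2 _), h11, hs', zero_add] at this
      rw [this, zero_dotProduct]
    rw [this, map_zero])
  refine ⟨r2, by omega, RK.of_tr (b3.of some LinearMap.id (tr P) fun k η => eq_of_dot fun w => ?_)⟩
  simp only [LinearMap.id_apply, LinearMap.comp_apply, tr_dot, Option.elim, hp (a2 _), h11]
  rw [dotProduct_comm (R' _), tr_dot, hP (b2 _), H11, dotProduct_comm]

theorem lower0 {a b : ℕ} (a' b' j α β : ℕ) (h1 : j ≤ a') (h2 : j ≤ b') (h3 : a' ≤ 2 * j)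
    (h4 : b' ≤ 2 * j) (h5 : α ≤ b') (h6 : β ≤ a') (h7 : a' + α ≤ a) (h8 : b' + β ≤ b) :
    ∃ g : Option (Option Unit) → (Fin b → ℂ) →ₗ[ℂ] (Fin a → ℂ), ∀ r, RK g r →
      a' + b' + α + β ≤ r + j := by
  obtain ⟨g1, k1⟩ := dbl (m := Fin a') (n := Fin b') (α := a' - j) (β := b' - j)
    (fun _ : Unit => (LinearMap.id : (Fin j → ℂ) →ₗ[ℂ] (Fin j → ℂ))) (by simp; omega)
    (by simp; omega) (by simp; omega) (by simp; omega)
  obtain ⟨g, k2⟩ := dbl (m := Fin a) (n := Fin b) (α := α) (β := β) g1 (by simpa) (by simpa)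
    (by simpa) (by simpa)
  refine ⟨g, fun r hr => ?_⟩
  obtain ⟨r1, a1, a2⟩ := k2 r hr
  obtain ⟨r2, b1, b2⟩ := k1 r1 a2
  obtain ⟨_, r3, c1, -⟩ := subst_in _ _ _ ⊤ b2 rfl fun u _ hu => hu ()
  rw [dm_top, card_fun, Fintype.card_fin] at c1
  omega

theorem lower {a b : ℕ} (hab : a ≤ b) :
    ∃ g : Option (Option Unit) → (Fin b → ℂ) →ₗ[ℂ] (Fin a → ℂ), ∀ r, RK g r →
      min (4 * a + 3 * b) (min (6 * a + 2 * b) (12 * a)) ≤ 4 * r + 3 := by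
  by_cases h3 : 3 * a ≤ b
  · obtain ⟨g, h⟩ := lower0 (a := a) (b := b) a (2 * a) a 0 a (by omega) (by omega) (by omega)
      (by omega) (by omega) (by omega) (by omega) (by omega)
    exact ⟨g, fun r hr => by have := h r hr; omega⟩
  by_cases h2 : 2 * a ≤ b
  · obtain ⟨g, h⟩ := lower0 (a := a) (b := b) a (b - a) ((b - a + 1) / 2) 0 a (by omega) (by omega)
      (by omega) (by omega) (by omega) (by omega) (by omega) (by omega)
    exact ⟨g, fun r hr => by have := h r hr; omega⟩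
  · obtain ⟨g, h⟩ := lower0 (a := a) (b := b) ((b + 1) / 2) ((b + 1) / 2) ((b + 3) / 4)
      (a - (b + 1) / 2) (b - (b + 1) / 2) (by omega) (by omega) (by omega) (by omega) (by omega)
      (by omega) (by omega) (by omega)
    exact ⟨g, fun r hr => by have := h r hr; omega⟩

end Lower

theorem three (a b : ℕ) (hab : a ≤ b) :
    ∃ m : ℕ, IsLeast {r : ℕ | ∀ X : Fin a → Fin b → Fin 3 → ℂ, ∃ (u : Fin r → Fin a → ℂ)
        (v : Fin r → Fin b → ℂ) (w : Fin r → Fin 3 → ℂ),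
        ∀ i j k, X i j k = ∑ l, u l i * v l j * w l k} m ∧
      min (4 * a + 3 * b) (min (6 * a + 2 * b) (12 * a)) ≤ 4 * m + 3 ∧
      4 * m ≤ min (4 * a + 3 * b) (min (6 * a + 2 * b) (12 * a)) + 67 := by
  classical
  obtain ⟨g, hg⟩ := lower hab
  have up0 := fun X : Fin a → Fin b → Fin 3 → ℂ => upper (X := Fin 3 → ℂ) (by simp) hab
    (Fintype.linearCombination ℂ fun k => Matrix.toLin' (Matrix.of fun i j => X i j k))
  generalize min (4 * a + 3 * b) (min (6 * a + 2 * b) (12 * a)) = B at hg up0 ⊢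
  have up : ∀ X : Fin a → Fin b → Fin 3 → ℂ, ∃ (u : Fin ((B + 67) / 4) → Fin a → ℂ)
      (v : Fin ((B + 67) / 4) → Fin b → ℂ) (w : Fin ((B + 67) / 4) → Fin 3 → ℂ),
        ∀ i j k, X i j k = ∑ l, u l i * v l j * w l k := fun X => by
    obtain ⟨s, _, hs, φ, w, c, h⟩ := up0 X
    obtain ⟨e⟩ := Function.Embedding.nonempty_of_card_le (α := s)
      (β := Fin ((B + 67) / 4)) (by simpa using hs)
    refine ⟨Function.extend e w 0, Function.extend e (fun l j => φ l (Pi.single j 1)) 0,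
      Function.extend e (fun l k => c l (Pi.single k 1)) 0, fun i j k => ?_⟩
    have := congrFun (h (Pi.single k 1) (Pi.single j 1)) i
    simp only [Fintype.linearCombination_apply_single, one_smul, Matrix.toLin'_apply,
      Matrix.mulVec_single_one, Finset.sum_apply, Pi.smul_apply, smul_eq_mul] at this
    refine Eq.trans this (Fintype.sum_of_injective e e.injective _ _ (fun l hl => ?_) fun l => ?_)
    · rw [Function.extend_apply' _ _ _ hl]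
      simp
    · simp only [e.injective.extend_apply]
      ring
  have ex : ∃ r, ∀ X : Fin a → Fin b → Fin 3 → ℂ, ∃ (u : Fin r → Fin a → ℂ)
      (v : Fin r → Fin b → ℂ) (w : Fin r → Fin 3 → ℂ),
      ∀ i j k, X i j k = ∑ l, u l i * v l j * w l k := ⟨_, up⟩
  refine ⟨Nat.find ex, ⟨Nat.find_spec ex, fun r hr => Nat.find_min' ex hr⟩, ?_, by
    have := Nat.find_min' ex up
    omega⟩
  obtain ⟨u, v, c, h⟩ := Nat.find_spec ex fun i j k =>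
    g (![none, some none, some (some ())] k) (Pi.single j 1) i
  have h1 : RK (fun k : Fin 3 => g (![none, some none, some (some ())] k)) (Nat.find ex) := by
    refine ⟨Fin _, inferInstance, (Fintype.card_fin _).le,
      fun l => Fintype.linearCombination ℂ (v l), u, c, fun k y => funext fun i => ?_⟩
    conv_lhs => rw [← Finset.univ_sum_single y]
    have : ∀ j, (Pi.single j (y j) : Fin b → ℂ) = y j • Pi.single j 1 := fun j => by
      rw [← Pi.single_smul, smul_eq_mul, mul_one]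
    simp only [this, map_sum, map_smul, Finset.sum_apply, Pi.smul_apply, smul_eq_mul, h,
      Fintype.linearCombination_apply, Finset.mul_sum, Finset.sum_mul]
    rw [Finset.sum_comm]
    exact Finset.sum_congr rfl fun _ _ => Finset.sum_congr rfl fun _ _ => by ring
  refine hg _ (h1.re (fun k => k.elim 0 fun k => k.elim 1 fun _ => 2) fun k v => ?_)
  rcases k with _ | _ | _ <;> rfl

end Pool.Agent.P.MP_098a67_ag.R3
end
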