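import Pool.Agent.K.MP_098a67_ag.C0

-- part Pool.Agent.P.MP_098a67_ag.Super
section

/-!
Configurations of pure tensors whose sum has small rank, moved around by the group.
-/

namespace Pool.Agent.P.MP_098a67_ag

open Module Submodule Function

variable {ι : Type} [Fintype ι] [DecidableEq ι] {κ : ι → Type} [∀ i, Fintype (κ i)]
  [∀ i, DecidableEq (κ i)]

omit [DecidableEq ι] [∀ i, Fintype (κ i)] in
lemma pure_single [DecidableEq (∀ i, κ i)] (j : ∀ i, κ i) :
    pure (fun i => (Pi.single (j i) 1 : κ i → ℂ)) = Pi.single j 1 := by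
  funext l
  by_cases h : l = j
  · subst h
    simp [pure]
  · rw [Pi.single_eq_of_ne h]
    obtain ⟨i, hi⟩ := Function.ne_iff.mp h
    exact Finset.prod_eq_zero (Finset.mem_univ i) (Pi.single_eq_of_ne hi _)

omit [Fintype ι] [DecidableEq ι] in
lemma unit_elem (i : ι) (a b : κ i) : IsUnit (1 + Matrix.single a b (1 : ℂ)) := by
  by_cases hab : a = b
  · subst hab
    refine IsUnit.of_mul_eq_one (1 - (1 / 2 : ℂ) • Matrix.single a a 1) ?_
    simp only [mul_sub, add_mul, mul_one, one_mul, Matrix.mul_smul,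
      Matrix.single_mul_single_same]
    module
  · refine IsUnit.of_mul_eq_one (1 - Matrix.single a b 1) ?_
    simp [mul_sub, add_mul, Matrix.single_mul_single_of_ne _ _ _ _ (Ne.symm hab)]

section
variable {H : ι → Type} {C : Type} (e : C → ∀ i, H i) (L : Finset ι)

/-- Tangent vectors at the points of a configuration. -/
def sv (q : C × Σ i : L, κ i) (p : ∀ i, H i → κ i → ℂ) : (∀ i, κ i) → ℂ :=
  tv L q.2 fun l => p l (e q.1 l)

/-- A matrix acting on the vectors of one factor. -/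
def mv (i : ι) (g : Matrix (κ i) (κ i) ℂ) (p : ∀ i, H i → κ i → ℂ) : ∀ i, H i → κ i → ℂ :=
  update p i fun h => g.mulVec (p i h)

lemma map_sv (i : ι) (g : Matrix (κ i) (κ i) ℂ) (p : ∀ i, H i → κ i → ℂ) :
    (T (sv e L) p).map (act i g) ≤ T (sv e L) (mv i g p) := by
  rw [Submodule.map_le_iff_le_comap]
  conv_lhs => unfold T
  rw [span_le]
  rintro _ ⟨⟨c, s⟩, rfl⟩
  have h1 := map_act_le L i g (fun l => p l (e c l))
    (Submodule.mem_map_of_mem (subset_span ⟨s, rfl⟩))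
  have h2 : update (fun l => p l (e c l)) i (g.mulVec (p i (e c i))) =
      fun l => mv i g p l (e c l) := by
    funext l
    by_cases hl : l = i
    · subst hl
      simp [mv]
    · simp [mv, update_of_ne hl]
  rw [h2] at h1
  exact span_mono (by rintro _ ⟨s', rfl⟩; exact ⟨(c, s'), rfl⟩) h1

end

theorem exists_spanning_sv [∀ i, Nonempty (κ i)] {H : ι → Type} [∀ i, Fintype (H i)] {C : Type}
    [Fintype C] (e : C → ∀ i, H i) (he : ∀ c c' i, (∀ l, l ≠ i → e c l = e c' l) → c = c')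
    (f : ∀ i, H i ↪ κ i) (L : Finset ι)
    (hpos : 0 < Fintype.card C * ∑ i ∈ L, (Fintype.card (κ i) - Fintype.card (H i))) :
    ∃ g, g ≤ (∏ i, Fintype.card (κ i)) /
          (Fintype.card C * ∑ i ∈ L, (Fintype.card (κ i) - Fintype.card (H i)))
        + Fintype.card C * ∑ i ∈ L, Fintype.card (κ i) ∧
      ∃ x : Fin g × C → ∀ i, κ i → ℂ, W (tv L) x Finset.univ = ⊤ ∧
        ∃ p : Fin g → ∀ i, H i → κ i → ℂ, ∀ q l, x q l = p q.1 l (e q.2 l) := by
  classical
  have := exists_spanning (a := sv (κ := κ) e L)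
    (fun q => (tv_differentiable L q.2).comp (by fun_prop))
    {γ | ∃ (i : ι) (a b : κ i), γ = act (κ := κ) i (1 + Matrix.single a b 1)} ?_
    (fun U hU h => irreducible U hU fun i a b =>
      h (act i (1 + Matrix.single a b 1)) (Set.mem_ofPred_eq ▸ ⟨i, a, b, rfl⟩))
    _ (Fintype.card C * ∑ i ∈ L, Fintype.card (κ i)) hpos ?_ ?_
  · obtain ⟨g, hg, p, hp⟩ := this
    refine ⟨g, by simpa [Module.finrank_pi_fintype] using hg, fun q l => p q.1 l (e q.2 l), ?_,
      p, fun _ _ => rfl⟩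
    rw [← top_le_iff, ← hp, W_le_iff]
    intro k _
    conv_lhs => unfold T
    rw [span_le]
    rintro _ ⟨⟨c, s⟩, rfl⟩
    exact T_le_W (tv L) (fun (q : Fin g × C) l => p q.1 l (e q.2 l)) (Finset.mem_univ (k, c))
      (subset_span ⟨s, rfl⟩)
  · rintro _ ⟨i, a, b, rfl⟩
    obtain ⟨g, hg⟩ := unit_elem i a b
    refine ⟨act i g.inv, mv i g.inv, ?_, fun x => ⟨map_sv _ _ _ _ _, ?_⟩⟩
    · refine LeftInverse.injective (g := act i g.val) fun X => ?_
      rw [act_mul, g.val_inv, act_one]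
    · refine (map_sv _ _ _ _ _).trans (le_of_eq ?_)
      congr 1
      rw [← hg]
      simp only [mv, update_self, update_idem, Matrix.mulVec_mulVec, g.val_inv, Matrix.one_mulVec,
        update_eq_self]
  · refine ⟨fun i h => Pi.single (f i h) 1, ?_⟩
    let F : (C × Σ i : L, {a : κ i // a ∉ Set.range (f i)}) → ∀ i, κ i :=
      fun q => update (fun l => f l (e q.1 l)) q.2.1 q.2.2.1
    have hF : Injective F := by
      rintro ⟨c, ⟨i, hiL⟩, a, ha⟩ ⟨c', ⟨i', hiL'⟩, a', ha'⟩ h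
      by_cases hi : i = i'
      · subst hi
        have h1 : a = a' := by simpa [F] using congrFun h i
        have h2 : c = c' := he c c' i fun l hl => by
          simpa [F, update_of_ne hl] using congrFun h l
        subst h1 h2
        rfl
      · have h1 : a = f i (e c' i) := by simpa [F, update_of_ne hi] using congrFun h i
        exact absurd ⟨_, h1.symm⟩ ha
    have hli : LinearIndependent ℂ fun q => (Pi.single (F q) 1 : (∀ i, κ i) → ℂ) :=
      (Pi.linearIndependent_single_one _ ℂ).comp F hF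
    have h1 := finrank_span_eq_card hli
    have h2 : Fintype.card (C × Σ i : L, {a : κ i // a ∉ Set.range (f i)}) =
        Fintype.card C * ∑ i ∈ L, (Fintype.card (κ i) - Fintype.card (H i)) := by
      rw [← Finset.sum_coe_sort L, Fintype.card_prod, Fintype.card_sigma]
      refine congrArg _ (Finset.sum_congr rfl fun i _ => ?_)
      rw [Fintype.card_subtype_compl, Fintype.card_range]
    rw [← h2, ← h1]
    refine Submodule.finrank_mono (span_mono ?_)
    rintro _ ⟨⟨c, i, a, ha⟩, rfl⟩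
    refine ⟨(c, ⟨i, a⟩), ?_⟩
    beta_reduce
    rw [← pure_single]
    refine congrArg pure (funext fun l => ?_)
    by_cases hl : l = i
    · subst hl
      simp [F]
    · simp [F, update_of_ne hl]
  · intro x
    have := finrank_range_le_card (R := ℂ) fun q : C × Σ i : L, κ i => sv e L q x
    rw [Fintype.card_prod, Fintype.card_sigma,
      Finset.sum_coe_sort L fun i => Fintype.card (κ i)] at this
    exact this

omit [∀ i, Fintype (κ i)] [∀ i, DecidableEq (κ i)] in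
/-- The sum over a fibre of a sum map has rank at most the order of the group. -/
lemma rank_code [Nonempty ι] {G : Type} [AddCommGroup G] [Fintype G] [DecidableEq G]
    {H : ι → Type} [∀ i, Fintype (H i)] (φ : ∀ i, H i → G) {g : ℕ}
    (p : Fin g → ∀ i, H i → κ i → ℂ) :
    RankLE (∑ q : Fin g × {c : ∀ i, H i // ∑ i, φ i (c i) = 0},
      pure fun l => p q.1 l (q.2.1 l)) (g * Fintype.card G) := by
  have h := (rankLE_of_fintype fun (q : Fin g × AddChar G ℂ) i (a : κ i) =>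
    ∑ h, q.2 (φ i h) * p q.1 i h a).smul (Fintype.card G : ℂ)⁻¹
  rw [Fintype.card_prod, Fintype.card_fin, AddChar.card_eq] at h
  refine (congrArg (fun X => RankLE X _) ?_).mp h
  funext j
  simp only [Fintype.sum_prod_type, Finset.sum_apply, Pi.smul_apply, smul_eq_mul, pure,
    Finset.mul_sum]
  refine Finset.sum_congr rfl fun k _ => ?_
  have e1 : ∀ (ψ : AddChar G ℂ) (c : ∀ i, H i), ∏ i, ψ (φ i (c i)) = ψ (∑ i, φ i (c i)) :=
    fun ψ c => by
      have := map_prod ψ.toMonoidHom (fun i => Multiplicative.ofAdd (φ i (c i))) Finset.univ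
      simpa [← ofAdd_sum] using this.symm
  have e2 : (Fintype.card G : ℂ) ≠ 0 := by exact_mod_cast Fintype.card_ne_zero
  simp only [Fintype.prod_sum, Finset.prod_mul_distrib, e1]
  rw [← Finset.mul_sum, Finset.sum_comm]
  simp only [← Finset.sum_mul, AddChar.sum_apply_eq_ite, ite_mul, zero_mul]
  rw [← Finset.sum_filter, ← Finset.mul_sum, inv_mul_cancel_left₀ e2]
  exact Finset.sum_subtype _ (by simp) _

/-- The main inequality for a group `G` sitting in the factors of `M`. -/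
theorem super_step [∀ i, Nonempty (κ i)] (s : ℕ) (hs : 0 < s) (M L : Finset ι) (hM : M.Nonempty)
    (hsM : ∀ i ∈ M, s ≤ Fintype.card (κ i)) :
    ∃ r A : ℕ, r * s = s ^ M.card ∧
      ∑ i ∈ L, (Fintype.card (κ i) - 1) ≤ A + M.card * (s - 1) ∧ (0 < A →
      ∀ X : (∀ i, κ i) → ℂ, RankLE X (((∏ i, Fintype.card (κ i)) / (r * A) +
        r * ∑ i ∈ L, Fintype.card (κ i)) * (r + s))) := by
  classical
  obtain ⟨i0, hi0⟩ := hM
  have : Nonempty ι := ⟨i0⟩
  have : NeZero s := ⟨hs.ne'⟩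
  let H : ι → Type := fun i => {c : ZMod s // i ∉ M → c = 0}
  have hH : ∀ i, Fintype.card (H i) = if i ∈ M then s else 1 := fun i => by
    by_cases hi : i ∈ M <;> simp [H, hi]
  have hHall : Fintype.card (∀ i, H i) = s ^ M.card := by
    rw [Fintype.card_pi]
    simp [hH]
  let C := {c : ∀ i, H i // ∑ i, (c i).1 = 0}
  have he : ∀ (c c' : C) i, (∀ l, l ≠ i → c.1 l = c'.1 l) → c = c' := fun c c' i h => by
    have h1 := c.2
    have h2 := c'.2
    rw [← Finset.add_sum_erase _ _ (Finset.mem_univ i)] at h1 h2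
    rw [Finset.sum_congr rfl fun m hm => congrArg Subtype.val
      (h m (Finset.ne_of_mem_erase hm))] at h1
    refine Subtype.ext (funext fun l => ?_)
    by_cases hl : l = i
    · subst hl
      exact Subtype.ext (add_right_cancel (h1.trans h2.symm))
    · exact h l hl
  have hr : Fintype.card C * s = s ^ M.card := by
    have h0 : Fintype.card (C × ZMod s) = Fintype.card C * s := by
      rw [Fintype.card_prod, ZMod.card]
    rw [← hHall, ← h0]
    refine le_antisymm (Fintype.card_le_of_injective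
      (fun q => update q.1.1 i0 ⟨q.2, fun h => absurd hi0 h⟩) fun q q' h => ?_)
      (Fintype.card_le_of_injective (fun z => ((⟨update z i0
      ⟨-∑ l ∈ Finset.univ.erase i0, (z l).1, fun h => absurd hi0 h⟩, by
        rw [← Finset.add_sum_erase _ (fun l => (update z i0 _ l).1) (Finset.mem_univ i0),
          update_self, neg_add_eq_zero]
        exact Finset.sum_congr rfl fun l hl => by
          rw [update_of_ne (Finset.ne_of_mem_erase hl)]⟩ : C), (z i0).1)) fun z z' h => ?_)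
    · refine Prod.ext (he _ _ i0 fun l hl => ?_) ?_
      · simpa [update_of_ne hl] using congrFun h l
      · have h1 := congrFun h i0
        simp only [update_self] at h1
        exact congrArg Subtype.val h1
    · obtain ⟨h1, h2⟩ := Prod.ext_iff.1 h
      funext l
      by_cases hl : l = i0
      · subst hl
        exact Subtype.ext h2
      · simpa [update_of_ne hl] using congrFun (congrArg Subtype.val h1) l
  refine ⟨Fintype.card C, ∑ i ∈ L, (Fintype.card (κ i) - Fintype.card (H i)), hr, ?_,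
    fun hA X => ?_⟩
  · calc _ ≤ ∑ i ∈ L, ((Fintype.card (κ i) - Fintype.card (H i)) + if i ∈ M then s - 1 else 0) :=
          Finset.sum_le_sum fun i _ => by rw [hH]; split_ifs <;> omega
      _ ≤ _ := by
          rw [Finset.sum_add_distrib, Finset.sum_ite_mem, Finset.sum_const, smul_eq_mul]
          exact Nat.add_le_add_left
            (Nat.mul_le_mul_right _ (Finset.card_le_card Finset.inter_subset_right)) _
  · have hC : 0 < Fintype.card C := Nat.pos_of_mul_pos_right ((pow_pos hs _).trans_eq hr.symm)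
    have hf : ∀ i, Nonempty (H i ↪ κ i) := fun i => by
      refine Function.Embedding.nonempty_of_card_le ?_
      rw [hH]
      split_ifs with hi
      · exact hsM i hi
      · exact Fintype.card_pos
    obtain ⟨g, hg, x, hx, p, hp⟩ := exists_spanning_sv (κ := κ) (fun c : C => c.1) he
      (fun i => (hf i).some) L (Nat.mul_pos hC hA)
    obtain rfl : x = fun q l => p q.1 l (q.2.1 l) := funext fun q => funext (hp q)
    refine (rankLE_of_spanning _ hx (rank_code (fun i (h : H i) => h.1) p) X).mono ?_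
    rw [Fintype.card_prod, Fintype.card_fin, ZMod.card, ← mul_add]
    exact Nat.mul_le_mul_right _ hg

end Pool.Agent.P.MP_098a67_ag
end

-- part Pool.Agent.P.MP_098a67_ag.Lower
section

/-!
The dimension count with the exact dimension of the cone of rank-one tensors.
-/

namespace Pool.Agent.P.MP_098a67_ag

open Module Function

lemma exists_chart {α : Type} [Nonempty α] [DecidableEq α] (v : α → ℂ) :
    ∃ o, ∀ a, v a = v o * if a = o then 1 else v a / v o := by
  by_cases h : ∃ o, v o ≠ 0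
  · obtain ⟨o, ho⟩ := h
    refine ⟨o, fun a => ?_⟩
    split_ifs with ha
    · rw [ha, mul_one]
    · rw [mul_div_cancel₀ _ ho]
  · push Not at h
    exact ⟨Classical.arbitrary α, fun a => by rw [h, h, zero_mul]⟩

variable {ι : Type} [Fintype ι] [DecidableEq ι] {κ : ι → Type} [∀ i, Fintype (κ i)]
  [∀ i, DecidableEq (κ i)]

lemma lower_sharp [∀ i, Nonempty (κ i)] {r : ℕ} (h : ∀ X : (∀ i, κ i) → ℂ, RankLE X r) :
    ∏ l, Fintype.card (κ l) ≤ r * (1 + ∑ l, (Fintype.card (κ l) - 1)) := by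
  let Φ : ∀ o : Fin r → ∀ i, κ i,
      (∀ k, ℂ × ∀ i, {a : κ i // a ≠ o k i} → ℂ) → (∀ i, κ i) → ℂ := fun o y j =>
    ∑ k, (y k).1 * ∏ i, if hj : j i = o k i then 1 else (y k).2 i ⟨j i, hj⟩
  have hΦ : ∀ o, ContDiff ℝ 1 (Φ o) := fun o => by
    have hk : ∀ k, ContDiff ℝ 1 fun y : ∀ k, ℂ × ∀ i, {a : κ i // a ≠ o k i} → ℂ => y k :=
      contDiff_pi.1 contDiff_id
    refine contDiff_pi.2 fun j => ContDiff.sum fun k _ => ContDiff.mul (hk k).fst ?_
    refine contDiff_prod fun i _ => ?_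
    split_ifs
    · exact contDiff_const
    · exact contDiff_pi.1 (contDiff_pi.1 (hk k).snd i) _
  have hU : (Set.univ : Set ((∀ i, κ i) → ℂ)) = ⋃ o, Set.range (Φ o) := by
    refine (Set.eq_univ_of_forall fun X => ?_).symm
    obtain ⟨v, rfl⟩ := h X
    choose o ho using fun k i => exists_chart (v k i)
    refine Set.mem_iUnion.2 ⟨o, fun k => (∏ i, v k i (o k i), fun i a => v k i a / v k i (o k i)),
      funext fun j => ?_⟩
    simp only [Φ, Finset.sum_apply, pure, ← Finset.prod_mul_distrib, dite_eq_ite]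
    exact Finset.sum_congr rfl fun k _ => Finset.prod_congr rfl fun i _ => (ho k i (j i)).symm
  have h1 := Real.dimH_univ_eq_finrank ((∀ i, κ i) → ℂ)
  rw [hU, dimH_iUnion] at h1
  have h2 : ((finrank ℝ ((∀ i, κ i) → ℂ) : ℕ) : ENNReal) ≤
      ((r * (2 + ∑ l, (Fintype.card (κ l) - 1) * 2) : ℕ) : ENNReal) := by
    rw [← h1]
    refine iSup_le fun o => (hΦ o).dimH_range_le.trans (le_of_eq ?_)
    simp [Module.finrank_pi_fintype, Module.finrank_prod]
  have h3 := Nat.cast_le.1 h2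
  simp only [Module.finrank_pi_fintype, Complex.finrank_real_complex, Finset.sum_const,
    Finset.card_univ, smul_eq_mul, Fintype.card_pi, ← Finset.sum_mul] at h3
  nlinarith

end Pool.Agent.P.MP_098a67_ag
end

-- part Pool.Agent.P.MP_098a67_ag.Unif
section

/-!
The maximal rank against the expected generic rank, uniformly in the order.
-/

namespace Pool.Agent.P.MP_098a67_ag

open Finset

variable {ι : Type} [DecidableEq ι]

lemma split_sum (a : ι → ℕ) (M τ : ℕ) (s : Finset ι) (hM : ∀ i ∈ s, a i ≤ M)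
    (h : τ ≤ ∑ i ∈ s, a i) : ∃ t ⊆ s, ∑ i ∈ t, a i ≤ τ ∧ τ ≤ ∑ i ∈ t, a i + M := by
  induction s using Finset.induction_on with
  | empty => exact ⟨∅, Subset.rfl, by simp, by simpa using h.trans (by simp)⟩
  | insert x s hx ih =>
    by_cases h1 : τ ≤ ∑ i ∈ s, a i
    · obtain ⟨t, ht, h2⟩ := ih (fun i hi => hM i (mem_insert_of_mem hi)) h1
      exact ⟨t, ht.trans (subset_insert _ _), h2⟩
    · rw [sum_insert hx] at h
      have := hM x (mem_insert_self _ _)
      exact ⟨s, subset_insert _ _, by omega, by omega⟩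

lemma sum_le_prod (a : ι → ℕ) (s : Finset ι) : 1 + ∑ i ∈ s, a i ≤ ∏ i ∈ s, (a i + 1) := by
  induction s using Finset.induction_on with
  | empty => simp
  | insert x s hx ih =>
    rw [sum_insert hx, prod_insert hx]
    nlinarith [Nat.zero_le (a x * ∑ i ∈ s, a i)]

lemma prod_three (a : ι → ℕ) (s : Finset ι) (a1 a2 : ℕ) (h12 : a2 ≤ a1) (h : ∀ i ∈ s, a i ≤ a2) :
    (1 + (a1 + a2 + ∑ i ∈ s, a i)) * (a2 + ∑ i ∈ s, a i) * ∑ i ∈ s, a i ≤
      60 * ((a1 + 1) * (a2 + 1) * ∏ i ∈ s, (a i + 1)) := by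
  obtain ⟨t, ht, h1, h2⟩ := split_sum a a2 ((∑ i ∈ s, a i) / 3) s h (by omega)
  have e1 := sum_sdiff (f := a) ht
  obtain ⟨u, hu, h3, h4⟩ := split_sum a a2 ((∑ i ∈ s, a i) / 3) (s \ t)
    (fun i hi => h i (sdiff_subset hi)) (by omega)
  have e2 := sum_sdiff (f := a) hu
  have p1 := sum_le_prod a t
  have p2 := sum_le_prod a u
  have p3 := sum_le_prod a ((s \ t) \ u)
  rw [← prod_sdiff ht, ← prod_sdiff hu]
  generalize ∏ i ∈ t, (a i + 1) = x at *
  generalize ∏ i ∈ u, (a i + 1) = y at *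
  generalize ∏ i ∈ (s \ t) \ u, (a i + 1) = z at *
  have q1 : 1 + a1 + ∑ i ∈ t, a i ≤ (a1 + 1) * x := by
    nlinarith [Nat.mul_le_mul_left a1 (show 1 ≤ x by omega)]
  have q2 : 1 + a2 + ∑ i ∈ u, a i ≤ (a2 + 1) * y := by
    nlinarith [Nat.mul_le_mul_left a2 (show 1 ≤ y by omega)]
  calc _ ≤ (5 * ((a1 + 1) * x)) * (4 * ((a2 + 1) * y)) * (3 * z) :=
        Nat.mul_le_mul (Nat.mul_le_mul (by omega) (by omega)) (by omega)
    _ = _ := by ring

lemma arith {K s r A B S S2 S3 P q n1 : ℕ} (hK : 1 ≤ K) (d1 : K * s ≤ r) (d2 : r ≤ 4 * K ^ 2)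
    (hA : S ≤ A + 3 * K) (hB : B ≤ 2 * S) (q0 : q * (r * A) ≤ P)
    (hP : (1 + S) * S2 * S3 ≤ 60 * P) (hS3 : 8000 * K ^ 6 ≤ S3) (hS : 8000 * K ^ 2 ≤ S)
    (e : 1 + S = n1 + S2) (hc : (K + 1) * n1 < K * (1 + S)) :
    K * ((q + r * B) * (r + s) * (1 + S)) ≤ (K + 4) * P := by
  have f1 : K * (r + s) ≤ (K + 1) * r := by linarith
  have f2 : K * (1 + S) ≤ (K + 1) * A := by
    nlinarith [Nat.mul_le_mul_left K hA]
  have f3 : K * (q * (r + s) * (1 + S)) ≤ (K + 3) * P := by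
    refine Nat.le_of_mul_le_mul_left (c := K) ?_ hK
    calc _ = q * ((K * (r + s)) * (K * (1 + S))) := by ring
      _ ≤ q * (((K + 1) * r) * ((K + 1) * A)) := Nat.mul_le_mul_left _ (Nat.mul_le_mul f1 f2)
      _ = (K + 1) ^ 2 * (q * (r * A)) := by ring
      _ ≤ (K * (K + 3)) * P := Nat.mul_le_mul (by linarith) q0
      _ = _ := by ring
  have f4 : S ≤ 2 * K * S2 := by
    rw [e] at hc
    linarith [Nat.le_mul_of_pos_left S2 hK]
  have f5 : K * (r * B * (r + s) * (1 + S)) ≤ P := by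
    refine Nat.le_of_mul_le_mul_left (c := 60) (le_trans ?_ hP) (by norm_num)
    have g1 : r + s ≤ 2 * (4 * K ^ 2) := by linarith [Nat.le_mul_of_pos_left s hK]
    have g2 : B ≤ 2 * (2 * K * S2) := by omega
    calc _ ≤ 60 * (K * (4 * K ^ 2 * (2 * (2 * K * S2)) * (2 * (4 * K ^ 2)) * (1 + S))) := by
          gcongr
      _ = (1 + S) * S2 * (7680 * K ^ 6) := by ring
      _ ≤ _ := Nat.mul_le_mul_left _ (by omega)
  calc _ = K * (q * (r + s) * (1 + S)) + K * (r * B * (r + s) * (1 + S)) := by ring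
    _ ≤ (K + 3) * P + P := Nat.add_le_add f3 f5
    _ = _ := by ring

variable [Fintype ι]

lemma exists_code (K : ℕ) (hK : 1 ≤ K) (n : ι → ℕ)
    (h : ∀ J : Finset ι, J.card ≤ 2 → 3 * K ^ 2 ≤ ∑ i ∈ Jᶜ, (n i - 1)) :
    ∃ (s : ℕ) (M : Finset ι), 0 < s ∧ M.Nonempty ∧ (∀ i ∈ M, s ≤ n i) ∧
      K * s * s ≤ s ^ M.card ∧ s ^ M.card ≤ 4 * K ^ 2 * s ∧ M.card * (s - 1) ≤ 3 * K := by
  by_cases h3 : 3 ≤ (univ.filter fun i => K ≤ n i).card
  · obtain ⟨M, hM, hc⟩ := exists_subset_card_eq h3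
    refine ⟨K, M, hK, card_pos.1 (by omega), fun i hi => (mem_filter.1 (hM hi)).2, ?_, ?_, ?_⟩
    · rw [hc]; nlinarith
    · rw [hc]; nlinarith [Nat.zero_le (K ^ 3)]
    · rw [hc]; omega
  · have h1 := h _ (by omega : (univ.filter fun i => K ≤ n i).card ≤ 2)
    have h2 : ∑ i ∈ (univ.filter fun i => K ≤ n i)ᶜ, (n i - 1) ≤
        (univ.filter fun i => 2 ≤ n i).card * K := by
      calc _ ≤ ∑ i ∈ (univ.filter fun i => K ≤ n i)ᶜ, (if 2 ≤ n i then K else 0) :=
            sum_le_sum fun i hi => by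
              have : ¬ K ≤ n i := by simpa using hi
              split_ifs <;> omega
        _ ≤ ∑ i, (if 2 ≤ n i then K else 0) := sum_le_sum_of_subset (subset_univ _)
        _ = _ := by rw [← sum_filter, sum_const, smul_eq_mul]
    have h4 : 3 * K ≤ (univ.filter fun i => 2 ≤ n i).card :=
      Nat.le_of_mul_le_mul_right (by nlinarith) hK
    have h5 : 2 ^ Nat.log 2 K ≤ K := Nat.pow_log_le_self 2 (by omega)
    have h6 : K < 2 ^ (Nat.log 2 K + 1) := Nat.lt_pow_succ_log_self one_lt_two K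
    have h7 : Nat.log 2 K < K := Nat.log_lt_self 2 (by omega)
    obtain ⟨M, hM, hc⟩ := exists_subset_card_eq
      (show Nat.log 2 K + 3 ≤ (univ.filter fun i => 2 ≤ n i).card by omega)
    refine ⟨2, M, two_pos, card_pos.1 (by omega), fun i hi => (mem_filter.1 (hM hi)).2, ?_, ?_, ?_⟩
    · rw [hc]; linarith [pow_add 2 (Nat.log 2 K) 3, pow_succ 2 (Nat.log 2 K)]
    · rw [hc]; nlinarith [pow_add 2 (Nat.log 2 K) 3]
    · rw [hc]; omega

lemma upper_unif (K : ℕ) (hK : 1 ≤ K) (n : ι → ℕ) (hn : ∀ i, 1 ≤ n i)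
    (h : ∀ J : Finset ι, J.card ≤ 2 → 8000 * K ^ 6 ≤ ∑ i ∈ Jᶜ, (n i - 1)) :
    ∃ R : ℕ, (∀ X : (∀ i, Fin (n i)) → ℂ, RankLE X R) ∧
      K * (R * (1 + ∑ i, (n i - 1))) ≤ (K + 4) * ∏ i, n i := by
  have hK6 : K ^ 2 ≤ K ^ 6 := Nat.pow_le_pow_right hK (by norm_num)
  have hK2 : K ≤ K ^ 2 := by nlinarith
  have hne : ∀ J : Finset ι, J.card ≤ 2 → Jᶜ.Nonempty := fun J hJ =>
    nonempty_of_sum_ne_zero (f := fun i => n i - 1) (by have := h J hJ; omega)
  obtain ⟨i1, -, h1⟩ := exists_max_image _ n (hne ∅ (by simp))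
  obtain ⟨i2, h21, h2⟩ := exists_max_image _ n (hne {i1} (by simp))
  have h21' : i2 ≠ i1 := by simpa using h21
  have hS3 := h {i1, i2} card_le_two
  have eS : ∑ i, (n i - 1) = (n i1 - 1) + (n i2 - 1) + ∑ i ∈ {i1, i2}ᶜ, (n i - 1) := by
    rw [← sum_add_sum_compl {i1, i2}, sum_pair h21'.symm]
  have eP : ∏ i, n i = (n i1 - 1 + 1) * (n i2 - 1 + 1) * ∏ i ∈ {i1, i2}ᶜ, (n i - 1 + 1) := by
    simp only [Nat.sub_add_cancel (hn _)]
    rw [← prod_mul_prod_compl {i1, i2}, prod_pair h21'.symm]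
  have hP := prod_three (fun i => n i - 1) {i1, i2}ᶜ (n i1 - 1) (n i2 - 1)
    (Nat.sub_le_sub_right (h1 i2 (by simp)) 1) fun i hi =>
      Nat.sub_le_sub_right (h2 i (by simp at hi ⊢; exact hi.1)) 1
  rw [← eP, ← eS] at hP
  have : ∀ i, Nonempty (Fin (n i)) := fun i => ⟨⟨0, hn i⟩⟩
  by_cases hc : K * (1 + ∑ i, (n i - 1)) ≤ (K + 1) * n i1
  · obtain ⟨r, hr, hX⟩ := rankLE_slices (κ := fun i => Fin (n i)) i1 ⟨0, hn i1⟩
    simp only [Fintype.card_fin] at hr
    refine ⟨r, hX, ?_⟩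
    calc _ = r * (K * (1 + ∑ i, (n i - 1))) := by ring
      _ ≤ r * ((K + 1) * n i1) := Nat.mul_le_mul_left _ hc
      _ = (K + 1) * (r * n i1) := by ring
      _ ≤ _ := Nat.mul_le_mul (by omega) hr
  obtain ⟨s, M, hs, hM, hsM, c1, c2, c3⟩ := exists_code K hK n fun J hJ => by
    have := h J hJ
    omega
  obtain ⟨r, A, hr, hA, hX⟩ := super_step (κ := fun i => Fin (n i)) s hs M
    (univ.filter fun i => 2 ≤ n i) hM (by simpa using hsM)
  simp only [Fintype.card_fin] at hA hX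
  have eL : ∑ i ∈ univ.filter fun i => 2 ≤ n i, (n i - 1) = ∑ i, (n i - 1) :=
    sum_filter_of_ne fun i _ hi => by omega
  have hB : ∑ i ∈ univ.filter fun i => 2 ≤ n i, n i ≤ 2 * ∑ i, (n i - 1) := by
    rw [← eL, mul_sum]
    exact sum_le_sum fun i hi => by have := (mem_filter.1 hi).2; omega
  rw [eL] at hA
  rw [← hr] at c1 c2
  have d1 : K * s ≤ r := Nat.le_of_mul_le_mul_right c1 hs
  have d2 : r ≤ 4 * K ^ 2 := Nat.le_of_mul_le_mul_right c2 hs
  have hn1 := hn i1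
  refine ⟨_, hX (by omega), arith (S2 := n i2 - 1 + ∑ i ∈ {i1, i2}ᶜ, (n i - 1)) (n1 := n i1)
    hK d1 d2 (by omega) hB (Nat.div_mul_le_self _ _) hP hS3 (by omega) (by omega) (by omega)⟩

theorem uniform (K : ℕ) (hK : 1 ≤ K) (d : ℕ) (n : Fin d → ℕ) (hn : ∀ i, 1 ≤ n i)
    (h : ∀ J : Finset (Fin d), J.card ≤ 2 → 8000 * K ^ 6 ≤ ∑ i ∈ Jᶜ, (n i - 1)) :
    ∃ m : ℕ, IsLeast {r : ℕ | ∀ X : (∀ i, Fin (n i)) → ℂ,
        ∃ v : Fin r → ∀ i, Fin (n i) → ℂ, ∀ j, X j = ∑ k, ∏ i, v k i (j i)} m ∧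
      (∏ i, (n i : ℝ)) / (1 + ∑ i, ((n i : ℝ) - 1)) ≤ m ∧
      (m : ℝ) ≤ (1 + 4 / K) * ((∏ i, (n i : ℝ)) / (1 + ∑ i, ((n i : ℝ) - 1))) := by
  obtain ⟨R, hR, hR'⟩ := upper_unif K hK n hn h
  have hiff : ∀ (X : (∀ i, Fin (n i)) → ℂ) (r : ℕ), RankLE X r ↔
      ∃ v : Fin r → ∀ i, Fin (n i) → ℂ, ∀ j, X j = ∑ k, ∏ i, v k i (j i) := fun X r => by
    simp [RankLE, pure, funext_iff]
  have hmem : R ∈ {r : ℕ | ∀ X : (∀ i, Fin (n i)) → ℂ,
      ∃ v : Fin r → ∀ i, Fin (n i) → ℂ, ∀ j, X j = ∑ k, ∏ i, v k i (j i)} :=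
    fun X => (hiff X R).mp (hR X)
  obtain ⟨m, hm, hm'⟩ := wellFounded_lt.has_min _ ⟨R, hmem⟩
  have hmR : m ≤ R := not_lt.1 (hm' R hmem)
  have : ∀ i, Nonempty (Fin (n i)) := fun i => ⟨⟨0, hn i⟩⟩
  have hlow := lower_sharp (κ := fun i => Fin (n i)) fun X => (hiff X _).mpr (hm X)
  simp only [Fintype.card_fin] at hlow
  refine ⟨m, ⟨hm, fun r h => not_lt.1 (hm' r h)⟩, ?_⟩
  have e : (1 + ∑ i, ((n i : ℝ) - 1)) = ((1 + ∑ i, (n i - 1) : ℕ) : ℝ) := by
    push_cast [Nat.cast_sub (hn _)]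
    rfl
  have hpos : (0 : ℝ) < ((1 + ∑ i, (n i - 1) : ℕ) : ℝ) := Nat.cast_pos.2 (by omega)
  have hK' : (0 : ℝ) < K := Nat.cast_pos.2 hK
  rw [e, ← Nat.cast_prod, div_le_iff₀ hpos, ← mul_div_assoc, le_div_iff₀ hpos]
  refine ⟨by exact_mod_cast hlow, ?_⟩
  have h2 : K * (m * (1 + ∑ i, (n i - 1))) ≤ (K + 4) * ∏ i, n i :=
    (Nat.mul_le_mul_left _ (Nat.mul_le_mul_right _ hmR)).trans hR'
  rw [one_add_div hK'.ne', div_mul_eq_mul_div, le_div_iff₀ hK', mul_comm]
  exact_mod_cast h2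

end Pool.Agent.P.MP_098a67_ag
end
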