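import Pool.Agent.K.MP_098a67_ag.C1

-- part Pool.Agent.P.MP_098a67_ag.E3.Gen
section

namespace Pool.Agent.P.MP_098a67_ag.E3

open Module T3
open LinearMap (ker range)

section

variable {X : Type} [AddCommGroup X] [Module ℂ X] [Module.Finite ℂ X] {x y z : X}

/-- The span of two vectors. -/
def pen (x y : X) : Submodule ℂ X := (ℂ ∙ x) ⊔ (ℂ ∙ y)

theorem mem_pen : z ∈ pen x y ↔ ∃ a b : ℂ, a • x + b • y = z := by
  constructor
  · intro h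
    obtain ⟨_, h1, _, h2, rfl⟩ := Submodule.mem_sup.1 h
    obtain ⟨a, rfl⟩ := Submodule.mem_span_singleton.1 h1
    obtain ⟨b, rfl⟩ := Submodule.mem_span_singleton.1 h2
    exact ⟨a, b, rfl⟩
  · rintro ⟨a, b, rfl⟩
    exact Submodule.add_mem_sup (Submodule.mem_span_singleton.2 ⟨a, rfl⟩)
      (Submodule.mem_span_singleton.2 ⟨b, rfl⟩)

theorem left_pen (x y : X) : x ∈ pen x y := mem_pen.2 ⟨1, 0, by simp⟩

theorem right_pen (x y : X) : y ∈ pen x y := mem_pen.2 ⟨0, 1, by simp⟩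

theorem dm_sup_span {S : Submodule ℂ X} (hy : y ∉ S) : dm (S ⊔ ℂ ∙ y) = dm S + 1 := by
  have := dm_lt (le_sup_left : S ≤ S ⊔ ℂ ∙ y)
    (Submodule.mem_sup_right (Submodule.mem_span_singleton_self y)) hy
  have := dm_sup_le S (ℂ ∙ y)
  have := dm_span_le y
  omega

theorem dm_pen (hx : x ≠ 0) (hy : y ∉ ℂ ∙ x) : dm (pen x y) = 2 := by
  rw [pen, dm_sup_span hy, dm_span_single hx]

theorem exists_notMem {S T : Submodule ℂ X} (h : dm S < dm T) : ∃ y ∈ T, y ∉ S := by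
  by_contra hc
  push Not at hc
  exact absurd (dm_mono hc) (by omega)

theorem exists_off (hX : finrank ℂ X = 3) (x y : X) : ∃ z, z ∉ pen x y := by
  have := dm_sup_le (ℂ ∙ x) (ℂ ∙ y)
  have := dm_span_le x
  have := dm_span_le y
  obtain ⟨z, _, hz⟩ := exists_notMem (S := pen x y) (T := ⊤) (by rw [dm_top, pen]; omega)
  exact ⟨z, hz⟩

theorem span3 (hX : finrank ℂ X = 3) (hx : x ≠ 0) (hy : y ∉ ℂ ∙ x) (hz : z ∉ pen x y) (w : X) :
    ∃ p : ℂ × ℂ × ℂ, p.1 • x + p.2.1 • y + p.2.2 • z = w := by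
  have : w ∈ pen x y ⊔ ℂ ∙ z := by
    rw [eq_top_of_dm (S := pen x y ⊔ ℂ ∙ z) (by rw [dm_sup_span hz, dm_pen hx hy, hX])]
    trivial
  obtain ⟨_, h1, _, h2, rfl⟩ := Submodule.mem_sup.1 this
  obtain ⟨a, b, rfl⟩ := mem_pen.1 h1
  obtain ⟨c, rfl⟩ := Submodule.mem_span_singleton.1 h2
  exact ⟨(a, b, c), rfl⟩

theorem mem_of_comb {S : Submodule ℂ X} {b : ℂ} (hb : b ≠ 0) (hx : x ∈ S) (h : x + b • y ∈ S) :
    y ∈ S := (S.smul_mem_iff hb).1 ((S.add_mem_iff_right hx).1 h)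

theorem exch (h : z ∈ pen x y) (hz : z ∉ ℂ ∙ x) : y ∈ pen x z := by
  obtain ⟨a, b, e⟩ := mem_pen.1 h
  refine mem_of_comb (b := b) (fun hb => hz (Submodule.mem_span_singleton.2 ⟨a, ?_⟩))
    (Submodule.smul_mem _ a (left_pen x z)) (by rw [e]; exact right_pen x z)
  rw [← e, hb, zero_smul, add_zero]

theorem indep_symm (hx : x ≠ 0) (hy : y ∉ ℂ ∙ x) : y ≠ 0 ∧ x ∉ ℂ ∙ y := by
  refine ⟨fun e => hy (by rw [e]; exact Submodule.zero_mem _), fun e => ?_⟩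
  obtain ⟨c, rfl⟩ := Submodule.mem_span_singleton.1 e
  exact hy (Submodule.mem_span_singleton.2 ⟨c⁻¹, by
    rw [smul_smul, inv_mul_cancel₀ (left_ne_zero_of_smul hx), one_smul]⟩)

end

section

variable {V W : Type} [AddCommGroup V] [Module ℂ V] [Module.Finite ℂ V] [AddCommGroup W]
  [Module ℂ W] [Module.Finite ℂ W]

theorem fin_bad (A B : V →ₗ[ℂ] W) :
    {s : ℂ | dm (ker A) < dm (ker (A + s • B))}.Finite := by
  obtain ⟨σ, hσ⟩ := exists_ginv A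
  refine ((Module.End.finite_hasEigenvalue (σ ∘ₗ B : Module.End ℂ V)).image
    fun μ => -μ⁻¹).subset fun s hs => ?_
  have hs0 : s ≠ 0 := by
    rintro rfl
    simp at hs
  refine ⟨-s⁻¹, ?_, by simp⟩
  by_contra hc
  refine absurd hs (not_lt.2 (dm_le_of_inj (LinearMap.id - σ ∘ₗ A) (fun v _ => ?_) fun v hv e => ?_))
  · show A (v - σ (A v)) = 0
    rw [map_sub, hσ, sub_self]
  · by_contra h0
    refine hc (Module.End.hasEigenvalue_of_hasEigenvector (x := v)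
      ⟨Module.End.mem_eigenspace_iff.2 ?_, h0⟩)
    have e1 : v - σ (A v) = 0 := e
    have e2 := congrArg σ (show A v + s • B v = 0 from hv)
    rw [map_add, map_smul, map_zero] at e2
    refine smul_right_injective _ hs0 ?_
    show s • σ (B v) = s • -s⁻¹ • v
    rw [smul_smul, mul_neg, mul_inv_cancel₀ hs0]
    linear_combination (norm := module) e1 + e2

theorem fin_inj (A B : V →ₗ[ℂ] W) (S : Submodule ℂ V) (h : ∀ v ∈ S, A v = 0 → v = 0) :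
    ∃ t : ℂ, t ≠ 0 ∧ ∀ v ∈ S, A v + t • B v = 0 → v = 0 := by
  obtain ⟨t, ht⟩ := ((fin_bad (A ∘ₗ S.subtype) (B ∘ₗ S.subtype)).insert 0).exists_notMem
  simp only [Set.mem_insert_iff, Set.mem_ofPred_eq, not_or, not_lt] at ht
  rw [dm_zero (S := ker (A ∘ₗ S.subtype)) fun v hv => Subtype.ext (h v v.2 hv), Nat.le_zero,
    dm_eq_zero] at ht
  refine ⟨t, ht.1, fun v hv e => ?_⟩
  have : (⟨v, hv⟩ : S) ∈ ker (A ∘ₗ S.subtype + t • (B ∘ₗ S.subtype)) := e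
  rw [ht.2] at this
  exact congrArg Subtype.val this

/-- A pencil without Jordan chains is reflexive. -/
theorem pencil_refl (P Q : V →ₗ[ℂ] W) (J : Submodule ℂ V) (hQ : ∀ v ∈ J, Q v = 0 → v = 0)
    (nj : ∀ t : ℂ, ∀ v ∈ J, ∀ w ∈ J, P v + t • Q v = 0 → P w + t • Q w = Q v → v = 0) (p : W)
    (hp : ∀ t : ℂ, ∃ s ∈ J, P s + t • Q s = p) : p = 0 := by
  have key : ∀ p : W, (∀ t : ℂ, ∃ s ∈ J, P s + t • Q s = p) → ∃ v ∈ J, Q v = p := fun p hp => by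
    by_contra hc
    obtain ⟨t, t0, ht⟩ := fin_inj (Q.coprod (LinearMap.toSpanSingleton ℂ W p))
      (P ∘ₗ LinearMap.fst ℂ V ℂ) (J.prod ⊤) fun ω hω e => by
        replace e : Q ω.1 + ω.2 • p = 0 := e
        have h2 : ω.2 = 0 := by
          by_contra h2
          refine hc ⟨-ω.2⁻¹ • ω.1, J.smul_mem _ hω.1, smul_right_injective _ h2 ?_⟩
          simp only [map_smul, smul_smul, mul_neg, mul_inv_cancel₀ h2]
          linear_combination (norm := module) -e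
        rw [h2, zero_smul, add_zero] at e
        exact Prod.ext (hQ _ hω.1 e) h2
    obtain ⟨s, hs, e⟩ := hp t⁻¹
    have := ht (s, -t) ⟨hs, trivial⟩ (by
      show Q s + -t • p + t • P s = 0
      rw [← e, smul_add, smul_smul, neg_mul, mul_inv_cancel₀ t0]
      module)
    exact t0 (neg_eq_zero.1 (congrArg Prod.snd this))
  let Z : Submodule ℂ V :=
    { carrier := {v | v ∈ J ∧ ∀ t : ℂ, ∃ s ∈ J, P s + t • Q s = Q v}
      add_mem' := fun {a b} ha hb => ⟨J.add_mem ha.1 hb.1, fun t => by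
        obtain ⟨s, hs, e⟩ := ha.2 t
        obtain ⟨s', hs', e'⟩ := hb.2 t
        refine ⟨s + s', J.add_mem hs hs', ?_⟩
        simp only [map_add]
        linear_combination (norm := module) e + e'⟩
      zero_mem' := ⟨J.zero_mem, fun t => ⟨0, J.zero_mem, by simp⟩⟩
      smul_mem' := fun c a ha => ⟨J.smul_mem c ha.1, fun t => by
        obtain ⟨s, hs, e⟩ := ha.2 t
        refine ⟨c • s, J.smul_mem c hs, ?_⟩
        simp only [map_smul]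
        linear_combination (norm := module) c • e⟩ }
  have hZ : ∀ v : Z, ∃ u : Z, Q u = P v := fun v => by
    have h1 : ∀ t : ℂ, ∃ s ∈ J, P s + t • Q s = P v := fun t => by
      obtain ⟨s, hs, e⟩ := v.2.2 t
      refine ⟨v - t • s, J.sub_mem v.2.1 (J.smul_mem _ hs), ?_⟩
      simp only [map_sub, map_smul]
      linear_combination (norm := module) (-t) • e
    obtain ⟨u, hu, e⟩ := key _ h1
    exact ⟨⟨u, hu, e ▸ h1⟩, e⟩
  obtain ⟨σ, hσ⟩ := exists_ginv (Q ∘ₗ Z.subtype)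
  obtain ⟨v, hv, e⟩ := key p hp
  by_contra h0
  have : Nontrivial Z := ⟨⟨⟨v, hv, e ▸ hp⟩, 0, fun h => h0 (by
    rw [← e, show v = 0 from congrArg Subtype.val h, map_zero])⟩⟩
  obtain ⟨μ, hμ⟩ := Module.End.exists_eigenvalue (σ ∘ₗ P ∘ₗ Z.subtype : Module.End ℂ Z)
  obtain ⟨u, hu⟩ := hμ.exists_hasEigenvector
  obtain ⟨u', e1⟩ := hZ u
  have e2 : σ (P u) = μ • u := hu.apply_eq_smul
  have e3 : Q (σ (Q u')) = Q u' := hσ u'
  rw [e1, e2] at e3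
  obtain ⟨s, hs, e4⟩ := u.2.2 (-μ)
  refine hu.2 (Subtype.ext (nj (-μ) u u.2.1 s hs ?_ e4))
  rw [← e3, Submodule.coe_smul, map_smul]
  module

theorem one_point (P Q : V →ₗ[ℂ] W) (S : Submodule ℂ V)
    (h : ∀ v ∈ S, Q v = 0 → P v = 0 → v = 0) :
    ∃ t0 : ℂ, ∀ t ≠ t0, 2 * dm (S ⊓ ker (P + t • Q)) ≤ dm S := by
  by_contra hc
  push Not at hc
  obtain ⟨t, -, h1⟩ := hc 0
  obtain ⟨t', ht, h2⟩ := hc t
  have a1 := dm_sup_eq (S := S ⊓ ker (P + t • Q)) (T := S ⊓ ker (P + t' • Q)) fun v h3 h4 => by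
    have e1 : P v + t • Q v = 0 := h3.2
    have e2 : P v + t' • Q v = 0 := h4.2
    have e3 : Q v = 0 := (smul_eq_zero_iff_right (sub_ne_zero.2 ht)).1 (by
      linear_combination (norm := module) e2 - e1)
    exact h v h3.1 e3 (by rwa [e3, smul_zero, add_zero] at e1)
  have a2 := dm_mono (sup_le inf_le_left inf_le_left :
    S ⊓ ker (P + t • Q) ⊔ S ⊓ ker (P + t' • Q) ≤ S)
  omega

end

section

variable {V W κ : Type} [AddCommGroup V] [Module ℂ V] [Co V] [AddCommGroup W] [Module ℂ W] [Co W]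
  [Fintype κ] {E : Subfield ℂ} {Φ : κ → V} {S : Submodule ℂ V} {s : ℕ}

/-- Two independent rational coefficient vectors. -/
theorem g2s (h : GenIn E Φ (cols κ S) s) {f g : V →ₗ[ℂ] W} (rf : RM E f) (rg : RM E g)
    {D : Submodule ℂ W} (rD : RS E D) {y z : κ → ℂ} (ry : RV E y) (rz : RV E z) (hy : y ∉ ℂ ∙ z)
    (hz : z ≠ 0) (hm : f (lin Φ y) + g (lin Φ z) ∈ D) :
    dm (S.map f ⊔ S.map g ⊔ D) ≤ dm D + s :=
  h.ga ((rf.comp (RM.ev ry)).add (rg.comp (RM.ev rz))) rD RV.zero (by rw [sub_zero]; exact hm) (by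
    intro w hw
    obtain ⟨_, ⟨w1, hw1, rfl⟩, _, ⟨w2, hw2, rfl⟩, rfl⟩ := Submodule.mem_sup.1 hw
    have hz' : z ∉ ℂ ∙ y := fun e => by
      obtain ⟨c, rfl⟩ := Submodule.mem_span_singleton.1 e
      exact hy (Submodule.mem_span_singleton.2 ⟨c⁻¹, by
        rw [smul_smul, inv_mul_cancel₀ (left_ne_zero_of_smul hz), one_smul]⟩)
    obtain ⟨Ψ, h1, h2, h3⟩ := exists_cols hy hw1
    obtain ⟨Ψ', k1, k2, k3⟩ := exists_cols hz' hw2
    refine ⟨Ψ + Ψ', Submodule.add_mem _ h1 k1, ?_⟩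
    show f (ev y (Ψ + Ψ')) + g (ev z (Ψ + Ψ')) = f w1 + g w2
    rw [map_add, map_add (ev z), ev_apply, ev_apply, ev_apply, ev_apply, h2, k2,
      h3 z (Submodule.mem_span_singleton_self z), k3 y (Submodule.mem_span_singleton_self y),
      add_zero, zero_add])

theorem nj_line (h : GenIn E Φ (cols κ S) 0) (rS : RS E S) {P Q : V →ₗ[ℂ] W} (rP : RM E P)
    (rQ : RM E Q) (hc : ∀ v ∈ S, Q v = 0 → P v = 0 → v = 0)
    (hk : Fintype.card κ + dm S / 2 = dm S) (hQ : ∀ y, Q (lin Φ y) = 0 → y = 0) {t0 : ℂ}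
    (r0 : t0 ∈ E) (h0 : ∀ t ≠ t0, 2 * dm (S ⊓ ker (P + t • Q)) ≤ dm S) (t : ℂ) (y y' : κ → ℂ)
    (e1 : (P + t • Q) (lin Φ y) = 0) (e2 : (P + t • Q) (lin Φ y') = Q (lin Φ y)) : y = 0 := by
  by_cases ht : t = t0
  · subst ht
    have rB := rP.add (rQ.smul r0)
    refine g1e h RM.id ((rS.inf (RS.ker rB)).inf (RS.comap rQ (RS.map rB rS)))
      ⟨⟨lin_mem h.mem y, e1⟩, _, lin_mem h.mem y', e2⟩ ?_
    have a1 := dm_le_of_inj Q (S := S ⊓ ker (P + t • Q) ⊓ (S.map (P + t • Q)).comap Q)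
      (T := S.map (P + t • Q)) (fun v hv => hv.2) fun v hv e => hc v hv.1.1 e (by
        have : P v + t • Q v = 0 := hv.1.2
        rwa [e, smul_zero, add_zero] at this)
    have a2 := dm_mono (inf_le_left : S ⊓ ker (P + t • Q) ⊓ (S.map (P + t • Q)).comap Q ≤ _)
    have a3 := dm_map_ker (P + t • Q) S
    have a4 := dm_mono (le_sup_left : S ≤ _ ⊔ S ⊓ ker (P + t • Q) ⊓ (S.map (P + t • Q)).comap Q)
    rw [Submodule.map_id]
    omega
  by_contra hy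
  obtain ⟨E1, x1, r1⟩ := ext1 E t
  have rB := (rP.mono x1.le).add ((rQ.mono x1.le).smul r1)
  have b0 := h0 t ht
  generalize P + t • Q = B at *
  let C : Submodule ℂ (V × V) := (S ⊓ ker B).prod S ⊓ ker ((-Q).coprod B)
  have rC : RS E1 C := (((rS.mono x1.le).inf (RS.ker rB)).prod (rS.mono x1.le)).inf
    (RS.ker ((rQ.mono x1.le).neg.coprod rB))
  have b1 := dm_le_add (LinearMap.fst ℂ V V) (LinearMap.snd ℂ V V) (S := C) (T := S ⊓ ker B)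
    (K := S ⊓ ker B) (fun ω hω => hω.1.1) (fun ω hω e => ⟨hω.1.2, by
      have : -Q ω.1 + B ω.2 = 0 := hω.2
      rwa [show ω.1 = 0 from e, map_zero, neg_zero, zero_add] at this⟩)
    fun ω _ e e' => Prod.ext e e'
  let D : Submodule ℂ ((κ → ℂ) × (κ → ℂ)) := C.comap ((lin Φ).prodMap (lin Φ))
  have m1 : (y, y') ∈ D := ⟨⟨⟨lin_mem h.mem y, e1⟩, lin_mem h.mem y'⟩, by
    show -Q (lin Φ y) + B (lin Φ y') = 0
    rw [e2, neg_add_cancel]⟩
  have m2 : (0, y) ∈ D := ⟨⟨⟨lin_mem h.mem 0, by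
    show B (lin Φ 0) = 0
    rw [map_zero, map_zero]⟩, lin_mem h.mem y⟩, by
    show -Q (lin Φ 0) + B (lin Φ y) = 0
    rw [e1, map_zero, map_zero, neg_zero, add_zero]⟩
  have b2 := dm_lt ((Submodule.span_singleton_le_iff_mem _ _).2 m2) m1 fun e => by
    obtain ⟨c, e⟩ := Submodule.mem_span_singleton.1 e
    exact hy (by simpa using (congrArg Prod.fst e).symm)
  rw [dm_span_single fun e => hy (congrArg Prod.snd e)] at b2
  obtain ⟨⟨u, u'⟩, o1, o2, E2, s, x2, o3, o4⟩ := pv1 (RS.top (E := E1)) (D := D)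
    (Z := ker (LinearMap.fst ℂ _ _)) le_top fun e => hy (e m1)
  obtain ⟨o5, o6⟩ := rv_prod.1 o4
  have o7 : u ≠ 0 := o2
  have b3 := g2s ((h.ext x1).ext x2) (RM.inr (V := V)) RM.inl (rC.mono x2.le) o6 o5 (fun e => by
    obtain ⟨c, e⟩ := Submodule.mem_span_singleton.1 e
    dsimp only at e
    have e3 : -Q (lin Φ u) + B (lin Φ u') = 0 := o1.2
    have e4 : B (lin Φ u) = 0 := o1.1.1.2
    rw [← e, map_smul, map_smul, e4, smul_zero, add_zero, neg_eq_zero] at e3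
    exact o7 (hQ u e3)) o7 (by
    have : (lin Φ u, lin Φ u') ∈ C := o1
    simpa using this)
  have b4 := dm_mono (le_sup_left : S.prod S ≤ _ ⊔ C)
  rw [sup_comm (S.map _), ← LinearMap.prod_eq_sup_map] at b3
  rw [dm_prod] at b4
  rw [dm_top, Module.finrank_prod, card_fun] at o3
  omega

/-- A generic subspace of half the dimension has no Jordan chains on two lines. -/
theorem gen_half (S : Submodule ℂ V) (P P' Q : V →ₗ[ℂ] W)
    (hc : ∀ v ∈ S, Q v = 0 → P v = 0 → v = 0) (hc' : ∀ v ∈ S, Q v = 0 → P' v = 0 → v = 0)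
    (hQ : 2 * dm (S ⊓ ker Q) ≤ dm S) :
    ∃ J, J ≤ S ∧ dm S ≤ 2 * dm J ∧ (∀ p, (∀ t : ℂ, ∃ s ∈ J, P s + t • Q s = p) → p = 0) ∧
      ∀ p, (∀ t : ℂ, ∃ s ∈ J, P' s + t • Q s = p) → p = 0 := by
  obtain ⟨t0, h0⟩ := one_point P Q S hc
  obtain ⟨t0', h0'⟩ := one_point P' Q S hc'
  obtain ⟨E, Φ, ⟨rS, rP, rP', rQ, r0, r0'⟩, h⟩ := exists_genIn (cols (Fin (dm S - dm S / 2)) S)
    ((ev_rs S).and ((ev_rm P).and ((ev_rm P').and ((ev_rm Q).and ((ev_rv t0).and (ev_rv t0'))))))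
  have hk : Fintype.card (Fin (dm S - dm S / 2)) + dm S / 2 = dm S := by
    rw [Fintype.card_fin]
    omega
  have inj : ∀ y, Q (lin Φ y) = 0 → y = 0 := fun y e => by
    refine g1e h RM.id (rS.inf (RS.ker rQ)) ⟨lin_mem h.mem y, e⟩ ?_
    have := dm_mono (le_sup_left : S ≤ _ ⊔ S ⊓ ker Q)
    rw [Submodule.map_id]
    omega
  have inj' : ∀ v ∈ range (lin Φ), Q v = 0 → v = 0 := by
    rintro _ ⟨y, rfl⟩ e
    rw [inj y e, map_zero]
  refine ⟨range (lin Φ), ?_, ?_, pencil_refl P Q _ inj' ?_, pencil_refl P' Q _ inj' ?_⟩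
  · rintro _ ⟨y, rfl⟩
    exact lin_mem h.mem y
  · rw [dm_range_eq fun y e => inj y (by rw [e, map_zero]), card_fun]
    omega
  · rintro t _ ⟨y, rfl⟩ _ ⟨y', rfl⟩ e1 e2
    rw [nj_line h rS rP rQ hc hk inj (rv_C.1 r0) h0 t y y' e1 e2, map_zero]
  · rintro t _ ⟨y, rfl⟩ _ ⟨y', rfl⟩ e1 e2
    rw [nj_line h rS rP' rQ hc' hk inj (rv_C.1 r0') h0' t y y' e1 e2, map_zero]

end

end Pool.Agent.P.MP_098a67_ag.E3
end

-- part Pool.Agent.P.MP_098a67_ag.E3.Main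
section

namespace Pool.Agent.P.MP_098a67_ag.E3

open Module T3
open LinearMap (ker range)

section Upper

variable {m : Type} [Fintype m] [DecidableEq m]

theorem lin_ext {x y z : Fin 3 → ℂ} (hx : x ≠ 0) (hy : y ∉ ℂ ∙ x) (hz : z ∉ pen x y)
    {s : Fin 3 → m → ℂ} (h1 : ev x s = 0) (h2 : ev y s = 0) (h3 : ev z s = 0) : s = 0 :=
  funext fun i => by
    rw [ev_apply] at h1 h2 h3
    obtain ⟨p, hp⟩ := span3 (by simp) hx hy hz (Pi.single i 1)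
    have : lin s (Pi.single i 1) = s i := by simp [lin]
    rw [← this, ← hp]
    simp [h1, h2, h3]

theorem dm_cols (S : Submodule ℂ (m → ℂ)) : dm (cols (Fin 3) S) ≤ 3 * dm S := by
  have := dm_le_of_inj ((LinearMap.proj 0).prod ((LinearMap.proj 1).prod (LinearMap.proj 2)))
    (S := cols (Fin 3) S) (T := S.prod (S.prod S))
    (fun v hv => ⟨mem_cols.1 hv 0, mem_cols.1 hv 1, mem_cols.1 hv 2⟩) fun v _ e => funext fun i => by
      fin_cases i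
      · exact congrArg Prod.fst e
      · exact congrArg (fun p => p.2.1) e
      · exact congrArg (fun p => p.2.2) e
  rw [dm_prod, dm_prod] at this
  omega

theorem pi_ev {π : (m → ℂ) →ₗ[ℂ] (m → ℂ)} {s : Fin 3 → m → ℂ} (h : π.compLeft (Fin 3) s = 0)
    (x : Fin 3 → ℂ) : π (ev x s) = 0 := by
  have : ∀ i, π (s i) = 0 := fun i => congrFun h i
  simp [ev_apply, lin_apply, this]

theorem ev_comb (a x : Fin 3 → ℂ) (t : ℂ) (s : Fin 3 → m → ℂ) :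
    ev (a + t • x) s = ev a s + t • ev x s := by
  simp only [ev_apply, map_add, map_smul]

theorem ev_left (π : (m → ℂ) →ₗ[ℂ] (m → ℂ)) (s : Fin 3 → m → ℂ) (u : Fin 3 → ℂ) :
    ev u (π.compLeft (Fin 3) s) = π (ev u s) := by
  simp [ev_apply, lin_apply]

theorem refl_line {J Qa Qb : Submodule ℂ (Fin 3 → m → ℂ)} {π : (m → ℂ) →ₗ[ℂ] (m → ℂ)}
    {x0 a : Fin 3 → ℂ} (pJ : ∀ s ∈ J, ∀ x, π (ev x s) = 0)
    (ka : ∀ s ∈ Qa, ev x0 s = 0 ∧ ev a s = 0) (kb : ∀ s ∈ Qb, ev x0 s = 0)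
    (ib : ∀ s ∈ Qb, π (ev a s) = 0 → s = 0)
    (r : ∀ p, (∀ t : ℂ, ∃ s ∈ J, ev a s + t • ev x0 s = p) → p = 0) {l : Fin 3 → m → ℂ}
    (hl : ∀ x, ∃ s ∈ J ⊔ Qa ⊔ Qb, ev x s = ev x l) (h0 : ev x0 l = 0) (h1 : π (ev a l) = 0) :
    ev a l = 0 := r _ fun t => by
  obtain ⟨_, hs, e⟩ := hl (a + t • x0)
  obtain ⟨_, h2, b, hb, rfl⟩ := Submodule.mem_sup.1 hs
  obtain ⟨j, hj, c, hc, rfl⟩ := Submodule.mem_sup.1 h2
  simp only [map_add, ev_comb, (ka c hc).1, (ka c hc).2, kb b hb, h0, smul_zero, add_zero] at e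
  have e2 := congrArg π e
  simp only [map_add, map_smul, pJ j hj, h1, smul_zero, zero_add] at e2
  rw [ib b hb e2, map_zero, add_zero] at e
  exact ⟨j, hj, e⟩

theorem refl_core {J Q1 Q2 : Submodule ℂ (Fin 3 → m → ℂ)} {π : (m → ℂ) →ₗ[ℂ] (m → ℂ)}
    {x0 x1 x2 : Fin 3 → ℂ} (hx0 : x0 ≠ 0) (hx1 : x1 ∉ ℂ ∙ x0) (o2 : x2 ∉ pen x0 x1)
    (pJ : ∀ s ∈ J, ∀ x, π (ev x s) = 0)
    (k1 : ∀ s ∈ Q1, ev x0 s = 0 ∧ ev x1 s = 0) (k2 : ∀ s ∈ Q2, ev x0 s = 0 ∧ ev x2 s = 0)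
    (i1 : ∀ s ∈ Q1, π (ev x2 s) = 0 → s = 0) (i2 : ∀ s ∈ Q2, π (ev x1 s) = 0 → s = 0)
    (s1 : ∀ v, ∃ s ∈ Q1, π (ev x2 s) = π v) (s2 : ∀ v, ∃ s ∈ Q2, π (ev x1 s) = π v)
    (r1 : ∀ p, (∀ t : ℂ, ∃ s ∈ J, ev x1 s + t • ev x0 s = p) → p = 0)
    (r2 : ∀ p, (∀ t : ℂ, ∃ s ∈ J, ev x2 s + t • ev x0 s = p) → p = 0) :
    dm (J ⊔ Q1 ⊔ Q2) = dm J + dm Q1 + dm Q2 ∧
      ∀ l, (∀ x, ∃ s ∈ J ⊔ Q1 ⊔ Q2, ev x s = ev x l) → l ∈ J ⊔ Q1 ⊔ Q2 := by
  refine ⟨?_, fun l hl => ?_⟩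
  · rw [dm_sup_eq (S := J ⊔ Q1) (T := Q2) fun v hv h2 => i2 v h2 (by
      obtain ⟨j, hj, c, hc, rfl⟩ := Submodule.mem_sup.1 hv
      rw [map_add, (k1 c hc).2, add_zero, pJ j hj]),
      dm_sup_eq (S := J) (T := Q1) fun v hv h2 => i1 v h2 (pJ v hv _)]
  · obtain ⟨_, hs, e⟩ := hl x0
    obtain ⟨_, h2, b, hb, rfl⟩ := Submodule.mem_sup.1 hs
    obtain ⟨j, hj, c, hc, rfl⟩ := Submodule.mem_sup.1 h2
    rw [map_add, map_add, (k1 c hc).1, (k2 b hb).1, add_zero, add_zero] at e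
    obtain ⟨q1, hq1, e1⟩ := s1 (ev x2 l)
    obtain ⟨q2, hq2, e2⟩ := s2 (ev x1 l)
    have hm : j + q1 + q2 ∈ J ⊔ Q1 ⊔ Q2 :=
      Submodule.add_mem_sup (Submodule.add_mem_sup hj hq1) hq2
    have hl' : ∀ x, ∃ s ∈ J ⊔ Q1 ⊔ Q2, ev x s = ev x (l - (j + q1 + q2)) := fun x => by
      obtain ⟨s, hs, e⟩ := hl x
      exact ⟨s - (j + q1 + q2), Submodule.sub_mem _ hs hm, by rw [map_sub, map_sub, e]⟩
    have z0 : ev x0 (l - (j + q1 + q2)) = 0 := by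
      rw [map_sub, map_add, map_add, (k1 q1 hq1).1, (k2 q2 hq2).1, e, add_zero, add_zero, sub_self]
    have z1 := refl_line pJ k1 (fun s hs => (k2 s hs).1) i2 r1 hl' z0 (by
      rw [map_sub, map_add, map_add, (k1 q1 hq1).2, map_sub, map_add, map_add, pJ j hj, e2,
        map_zero, zero_add, zero_add, sub_self])
    have z2 := refl_line pJ k2 (fun s hs => (k1 s hs).1) i1 r2
      (by rwa [sup_right_comm]) z0 (by
      rw [map_sub, map_add, map_add, (k2 q2 hq2).2, map_sub, map_add, map_add, pJ j hj, e1,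
        map_zero, zero_add, add_zero, sub_self])
    rwa [sub_eq_zero.1 (lin_ext hx0 hx1 o2 z0 z1 z2)]

theorem refl_inj {S : Submodule ℂ (Fin 3 → m → ℂ)} {π : (m → ℂ) →ₗ[ℂ] (m → ℂ)}
    {W1 : Submodule ℂ (m → ℂ)} (p3 : ∀ v, π v ∈ W1) {x0 a b : Fin 3 → ℂ} (hx0 : x0 ≠ 0)
    (ha : a ∉ ℂ ∙ x0) (hb : b ∉ pen x0 a) (mn : dm W1 ≤ dm (S ⊓ ker (ev x0) ⊓ ker (ev a)))
    (c : ∀ s ∈ S ⊓ ker (π.compLeft (Fin 3)), ev x0 s = 0 → ev a s = 0 → s = 0) :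
    ∃ Q, Q ≤ S ∧ dm W1 ≤ dm Q ∧ (∀ s ∈ Q, ev x0 s = 0 ∧ ev a s = 0) ∧
      (∀ s ∈ Q, π (ev b s) = 0 → s = 0) ∧ ∀ v, ∃ s ∈ Q, π (ev b s) = π v := by
  have k : ∀ s ∈ S ⊓ ker (ev x0) ⊓ ker (ev a), s ∈ S ∧ ev x0 s = 0 ∧ ev a s = 0 :=
    fun s hs => ⟨hs.1.1, hs.1.2, hs.2⟩
  generalize S ⊓ ker (ev x0) ⊓ ker (ev a) = Q at k mn
  have h1 : ∀ s ∈ Q, π (ev b s) = 0 → s = 0 := fun s hs e =>
    c s ⟨(k s hs).1, lin_ext hx0 ha hb (s := π.compLeft (Fin 3) s)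
      (by rw [ev_left, (k s hs).2.1, map_zero])
      (by rw [ev_left, (k s hs).2.2, map_zero]) (by rw [ev_left, e])⟩ (k s hs).2.1 (k s hs).2.2
  refine ⟨Q, fun s hs => (k s hs).1, mn, fun s hs => (k s hs).2, h1, fun v => ?_⟩
  have h2 : Q.map (π ∘ₗ ev b) = W1 := eq_of_dm_le (by
    rintro _ ⟨s, _, rfl⟩
    exact p3 _) (by rw [dm_map_eq (f := π ∘ₗ ev b) h1]; exact mn)
  have h3 := p3 v
  rw [← h2] at h3
  obtain ⟨s, hs, e⟩ := h3
  exact ⟨s, hs, e⟩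

theorem refl_aux (S : Submodule ℂ (Fin 3 → m → ℂ)) (π : (m → ℂ) →ₗ[ℂ] (m → ℂ))
    (W1 : Submodule ℂ (m → ℂ)) (p3 : ∀ v, π v ∈ W1)
    (mn : ∀ x y : Fin 3 → ℂ, x ≠ 0 → y ∉ ℂ ∙ x → dm W1 ≤ dm (S ⊓ ker (ev x) ⊓ ker (ev y)))
    {x0 x1 : Fin 3 → ℂ} (hx0 : x0 ≠ 0) (hx1 : x1 ∉ ℂ ∙ x0)
    (c1 : ∀ s ∈ S ⊓ ker (π.compLeft (Fin 3)), ev x0 s = 0 → ev x1 s = 0 → s = 0)
    (hQ : 2 * dm (S ⊓ ker (π.compLeft (Fin 3)) ⊓ ker (ev x0)) ≤
      dm (S ⊓ ker (π.compLeft (Fin 3)))) :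
    ∃ J, J ≤ S ∧ dm S ≤ 2 * dm J ∧ ∀ l, (∀ x, ∃ s ∈ J, ev x s = ev x l) → l ∈ J := by
  have hX : finrank ℂ (Fin 3 → ℂ) = 3 := by simp
  have d1 := dm_le_add (π.compLeft (Fin 3)) LinearMap.id (S := S) (T := cols (Fin 3) W1)
    (K := S ⊓ ker (π.compLeft (Fin 3))) (fun v _ => mem_cols.2 fun i => p3 _)
    (fun v hv e => ⟨hv, e⟩) fun _ _ _ e => e
  have d2 := dm_cols W1
  obtain ⟨z, hz⟩ := exists_off hX x0 x1
  obtain ⟨τ, τ0, hτ⟩ := fin_inj (ev x1) (ev z) (S ⊓ ker (π.compLeft (Fin 3)) ⊓ ker (ev x0))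
    fun s hs => c1 s hs.1 hs.2
  obtain ⟨x2, hx2⟩ : ∃ x2, x2 = x1 + τ • z := ⟨_, rfl⟩
  have o2 : x2 ∉ pen x0 x1 := fun e => hz (mem_of_comb τ0 (right_pen _ _) (hx2 ▸ e))
  have n2 : x2 ∉ ℂ ∙ x0 := fun e => o2 (Submodule.mem_sup_left e)
  have o1 : x1 ∉ pen x0 x2 := fun e => o2 (exch e hx1)
  have c2 : ∀ s ∈ S ⊓ ker (π.compLeft (Fin 3)), ev x0 s = 0 → ev x2 s = 0 → s = 0 :=
    fun s hs h1 h2 => hτ s ⟨hs, h1⟩ (by rwa [hx2, ev_comb] at h2)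
  obtain ⟨J, hJ, dJ, r1, r2⟩ := gen_half (S ⊓ ker (π.compLeft (Fin 3))) (ev x1) (ev x2) (ev x0)
    c1 c2 hQ
  obtain ⟨Q1, l1, m1, k1, i1, s1⟩ := refl_inj p3 hx0 hx1 o2 (mn x0 x1 hx0 hx1) c1
  obtain ⟨Q2, l2, m2, k2, i2, s2⟩ := refl_inj p3 hx0 n2 o1 (mn x0 x2 hx0 n2) c2
  obtain ⟨h1, h2⟩ := refl_core hx0 hx1 o2 (fun s hs => pi_ev (hJ hs).2) k1 k2 i1 i2 s1 s2 r1 r2
  have ar : ∀ a b c w j q1 q2 t : ℕ, a ≤ b + c → b ≤ 3 * w → c ≤ 2 * j → w ≤ q1 → w ≤ q2 →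
      t = j + q1 + q2 → a ≤ 2 * t := by omega
  exact ⟨J ⊔ Q1 ⊔ Q2, sup_le (sup_le (hJ.trans inf_le_left) l1) l2,
    ar _ _ _ _ _ _ _ _ d1 d2 dJ m1 m2 h1, h2⟩

/-- Every space of maps from a space of dimension three has a reflexive subspace of half the
dimension. -/
theorem refl_half (S : Submodule ℂ (Fin 3 → m → ℂ)) :
    ∃ J, J ≤ S ∧ dm S ≤ 2 * dm J ∧ ∀ l, (∀ x, ∃ s ∈ J, ev x s = ev x l) → l ∈ J := by
  classical
  have hX : finrank ℂ (Fin 3 → ℂ) = 3 := by simp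
  have ex : ∃ ω, ∃ x y : Fin 3 → ℂ, x ≠ 0 ∧ y ∉ ℂ ∙ x ∧ dm (S ⊓ ker (ev x) ⊓ ker (ev y)) = ω := by
    obtain ⟨x, hx⟩ := exists_off hX 0 0
    obtain ⟨y, hy⟩ := exists_off hX x x
    exact ⟨_, x, y, fun e => hx (by rw [e]; exact Submodule.zero_mem _),
      fun e => hy (Submodule.mem_sup_left e), rfl⟩
  obtain ⟨x, y, hx, hy, hω⟩ := Nat.find_spec ex
  obtain ⟨z, hz⟩ := exists_off hX x y
  obtain ⟨π, p1, -, p3⟩ := exists_proj (D := (S ⊓ ker (ev x) ⊓ ker (ev y)).map (ev z)) (Z := ⊥)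
    fun _ _ h => h
  have mn : ∀ x' y' : Fin 3 → ℂ, x' ≠ 0 → y' ∉ ℂ ∙ x' →
      dm ((S ⊓ ker (ev x) ⊓ ker (ev y)).map (ev z)) ≤ dm (S ⊓ ker (ev x') ⊓ ker (ev y')) :=
    fun x' y' h1 h2 => (dm_map_le _ _).trans (hω.trans_le (Nat.find_min' ex ⟨x', y', h1, h2, rfl⟩))
  have c0 : ∀ s ∈ S ⊓ ker (π.compLeft (Fin 3)), ev x s = 0 → ev y s = 0 → s = 0 :=
    fun s hs h1 h2 => lin_ext hx hy hz h1 h2
      ((p1 (ev z s) ⟨s, ⟨⟨hs.1, h1⟩, h2⟩, rfl⟩).symm.trans (pi_ev hs.2 z))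
  have a1 := dm_sup_eq (S := S ⊓ ker (π.compLeft (Fin 3)) ⊓ ker (ev x))
    (T := S ⊓ ker (π.compLeft (Fin 3)) ⊓ ker (ev y)) fun v h1 h2 => c0 v h1.1 h1.2 h2.2
  have a2 := dm_mono (sup_le inf_le_left inf_le_left : S ⊓ ker (π.compLeft (Fin 3)) ⊓ ker (ev x) ⊔
    S ⊓ ker (π.compLeft (Fin 3)) ⊓ ker (ev y) ≤ _)
  by_cases h : 2 * dm (S ⊓ ker (π.compLeft (Fin 3)) ⊓ ker (ev x)) ≤
    dm (S ⊓ ker (π.compLeft (Fin 3)))
  · exact refl_aux S π _ p3 mn hx hy c0 h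
  · exact refl_aux S π _ p3 mn (indep_symm hx hy).1 (indep_symm hx hy).2
      (fun s hs h1 h2 => c0 s hs h2 h1) (by omega)

theorem upper (a b r : ℕ) (hr : (3 * a + b) / 2 ≤ r) (X : Fin a → Fin b → Fin 3 → ℂ) :
    ∃ (u : Fin r → Fin a → ℂ) (v : Fin r → Fin b → ℂ) (w : Fin r → Fin 3 → ℂ),
      ∀ i j k, X i j k = ∑ l, u l i * v l j * w l k := by
  let e : (Fin 3 × Fin a → ℂ) ≃ₗ[ℂ] (Fin 3 → Fin a → ℂ) := LinearEquiv.curry ℂ ℂ _ _
  let C : Fin b → Fin 3 × Fin a → ℂ := fun j p => X p.2 j p.1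
  obtain ⟨J, hJ, dJ, rJ⟩ := refl_half ((perp (range (lin C))).map e.toLinearMap)
  let R : Set (Fin 3 × Fin a → ℂ) := {g | ∃ (x : Fin 3 → ℂ) (y : Fin a → ℂ),
    y ∈ perp (J.map (ev x)) ∧ g = fun p => x p.1 * y p.2}
  have key : ∀ (g : Fin 3 × Fin a → ℂ) (x : Fin 3 → ℂ) (y : Fin a → ℂ),
      g ⬝ᵥ (fun p => x p.1 * y p.2) = y ⬝ᵥ ev x (e g) := fun g x y => by
    simp only [dotProduct, Fintype.sum_prod_type, ev_apply, lin_apply, Finset.sum_apply,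
      Pi.smul_apply, smul_eq_mul, Finset.mul_sum]
    rw [Finset.sum_comm]
    exact Finset.sum_congr rfl fun _ _ => Finset.sum_congr rfl fun _ _ => by
      show g _ * _ = _ * (_ * g _)
      ring
  have h1 : perp (Submodule.span ℂ R) ≤ J.comap e.toLinearMap := fun g hg => rJ _ fun x => by
    have : ev x (e g) ∈ perp (perp (J.map (ev x))) := fun y hy => by
      rw [dotProduct_comm, ← key]
      exact hg _ (Submodule.subset_span ⟨x, y, hy, rfl⟩)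
    rwa [perp_perp] at this
  have h2 : J.comap e.toLinearMap ≤ perp (Submodule.span ℂ R) := fun g hg v hv => by
    refine Submodule.span_induction (p := fun v _ => g ⬝ᵥ v = 0) ?_ (dotProduct_zero _)
      (fun a b _ _ ha hb => by rw [dotProduct_add, ha, hb, add_zero])
      (fun c a _ ha => by rw [dotProduct_smul, ha, smul_zero]) hv
    rintro _ ⟨x, y, hy, rfl⟩
    rw [key]
    exact hy _ ⟨_, hg, rfl⟩
  have h3 : range (lin C) ≤ Submodule.span ℂ R := le_of_perp fun g hg => by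
    obtain ⟨g', h4, h5⟩ := hJ (h1 hg)
    rwa [← e.injective h5]
  have d1 := dm_perp (Submodule.span ℂ R)
  have d2 := dm_perp (range (lin C))
  have d3 := dm_range_le (lin C)
  have d4 : dm J ≤ dm (perp (Submodule.span ℂ R)) := dm_le_of_inj e.symm.toLinearMap
    (fun s hs => h2 (by simpa using hs)) fun s _ h => by simpa using h
  rw [dm_map_eq fun g _ h => by simpa using h] at dJ
  rw [card_fun, Fintype.card_fin] at d3
  rw [Fintype.card_prod, Fintype.card_fin, Fintype.card_fin] at d1 d2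
  obtain ⟨f, f1, f2, -⟩ := Submodule.exists_fun_fin_finrank_span_eq ℂ R
  choose x y _ hf using f1
  have h4 : ∀ j, ∃ c : Fin (finrank ℂ (Submodule.span ℂ R)) → ℂ, ∑ l, c l • f l = C j := fun j =>
    (Submodule.mem_span_range_iff_exists_fun ℂ).1 (by
      rw [f2]
      exact h3 ⟨Pi.single j 1, by simp [lin]⟩)
  choose c hc using h4
  obtain ⟨ε⟩ := Function.Embedding.nonempty_of_card_le (α := Fin (finrank ℂ (Submodule.span ℂ R)))
    (β := Fin r) (by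
      rw [Fintype.card_fin, Fintype.card_fin]
      show dm _ ≤ r
      omega)
  refine ⟨Function.extend ε y 0, Function.extend ε (fun l j => c j l) 0, Function.extend ε x 0,
    fun i j k => ?_⟩
  have := congrFun (hc j) (k, i)
  simp only [Finset.sum_apply, Pi.smul_apply, smul_eq_mul, hf] at this
  refine Eq.trans this.symm (Fintype.sum_of_injective ε ε.injective _ _ (fun l hl => ?_) fun l => ?_)
  · rw [Function.extend_apply' _ _ _ hl]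
    simp
  · simp only [ε.injective.extend_apply]
    ring

end Upper

section Lower

theorem subst_in {V W κ : Type} [AddCommGroup V] [Module ℂ V] [Module.Finite ℂ V]
    [AddCommGroup W] [Module ℂ W] (d : ℕ) : ∀ (g : κ → V →ₗ[ℂ] W) (r : ℕ) (U : Submodule ℂ V),
    RK g r → dm U = d → (∀ u ∈ U, (∀ k, g k u = 0) → u = 0) →
    ∃ (R : V →ₗ[ℂ] V) (r' : ℕ), r' + d ≤ r ∧ (∀ v, R v - v ∈ U) ∧ RK (fun k => g k ∘ₗ R) r' := by
  classical
  induction d with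
  | zero => exact fun g r U h _ _ => ⟨LinearMap.id, r, le_rfl, fun v => by simp, h⟩
  | succ d ih =>
    rintro g r U ⟨s, _, hs, φ, w, c, h⟩ hU hc
    obtain ⟨u, hu, h0⟩ := exists_notMem (S := ⊥) (T := U) (by rw [dm_bot]; omega)
    obtain ⟨l, hl⟩ : ∃ l, φ l u ≠ 0 := by
      by_contra hn
      push Not at hn
      exact h0 (hc u hu fun k => by simp [h, hn])
    let R1 : V →ₗ[ℂ] V := LinearMap.id - ((φ l u)⁻¹ • φ l).smulRight u
    have e1 : ∀ v, R1 v = v - ((φ l u)⁻¹ * φ l v) • u := fun _ => rfl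
    have e2 : ∀ v, φ l (R1 v) = 0 := fun v => by
      rw [e1, map_sub, map_smul, smul_eq_mul]
      field_simp
      ring
    have hpos : 0 < Fintype.card s := Fintype.card_pos_iff.2 ⟨l⟩
    have h1 : RK (fun k => g k ∘ₗ R1) (r - 1) := by
      refine ⟨{x // x ≠ l}, inferInstance, by simp; omega, fun x => φ x ∘ₗ R1, fun x => w x,
        fun x => c x, fun k v => ?_⟩
      rw [LinearMap.comp_apply, h, Fintype.sum_eq_add_sum_subtype_ne _ l, e2]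
      simp
    obtain ⟨C, c1, c2, c3⟩ := exists_compl_in ((Submodule.span_singleton_le_iff_mem u U).2 hu)
    have e3 := dm_sup_eq c2
    rw [c3, dm_span_single h0] at e3
    obtain ⟨R, r', a1, a2, a3⟩ := ih _ _ C h1 (by omega) fun v hv e => by
      have := hc (R1 v) (U.sub_mem (c1 hv) (U.smul_mem _ hu)) e
      rw [e1, sub_eq_zero] at this
      exact c2 v (Submodule.mem_span_singleton.2 ⟨_, this.symm⟩) hv
    refine ⟨R1 ∘ₗ R, r', by omega, fun v => ?_, a3⟩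
    rw [LinearMap.comp_apply, e1, sub_right_comm]
    exact U.sub_mem (c1 (a2 v)) (U.smul_mem _ hu)

variable {ι ι' m n κ : Type} [Fintype ι] [DecidableEq ι] [Fintype ι'] [DecidableEq ι'] [Fintype m]
  [DecidableEq m] [Fintype n] [DecidableEq n]

theorem tr_left (e : ι → m) (v : ι → ℂ) (j : m) :
    tr (LinearMap.funLeft ℂ ℂ e) v j = ∑ i, if e i = j then v i else 0 := by
  have := tr_dot (LinearMap.funLeft ℂ ℂ e) v (Pi.single j 1)
  rw [dotProduct_single_one] at this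
  rw [this]
  simp [dotProduct, LinearMap.funLeft_apply, Pi.single_apply]

theorem split (h : Fintype.card ι + Fintype.card ι' ≤ Fintype.card m) :
    ∃ (p : (m → ℂ) →ₗ[ℂ] (ι → ℂ)) (q : (m → ℂ) →ₗ[ℂ] (ι' → ℂ)), (∀ v, p (tr p v) = v) ∧
      (∀ v, p (tr q v) = 0) ∧ (∀ v, q (tr p v) = 0) ∧ ∀ v, q (tr q v) = v := by
  obtain ⟨e⟩ := Function.Embedding.nonempty_of_card_le (α := ι ⊕ ι') (β := m) (by simpa using h)
  exact ⟨LinearMap.funLeft ℂ ℂ (e ∘ Sum.inl), LinearMap.funLeft ℂ ℂ (e ∘ Sum.inr),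
    fun v => funext fun j => by simp [LinearMap.funLeft_apply, tr_left],
    fun v => funext fun j => by simp [LinearMap.funLeft_apply, tr_left],
    fun v => funext fun j => by simp [LinearMap.funLeft_apply, tr_left],
    fun v => funext fun j => by simp [LinearMap.funLeft_apply, tr_left]⟩

/-- Bordering with one new slice. -/
theorem dbl (f : κ → (ι' → ℂ) →ₗ[ℂ] (ι → ℂ)) {α β : ℕ} (h1 : α ≤ Fintype.card ι')
    (h2 : β ≤ Fintype.card ι) (h3 : Fintype.card ι + α ≤ Fintype.card m)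
    (h4 : Fintype.card ι' + β ≤ Fintype.card n) :
    ∃ g : Option κ → (n → ℂ) →ₗ[ℂ] (m → ℂ), ∀ r, RK g r → ∃ r', r' + α + β ≤ r ∧ RK f r' := by
  obtain ⟨P, Q, H11, H12, H21, H22⟩ := split (ι := ι) (ι' := Fin α) (m := m) (by simpa using h3)
  obtain ⟨p, q, h11, h12, h21, h22⟩ := split (ι := ι') (ι' := Fin β) (m := n) (by simpa using h4)
  obtain ⟨s, -, hs, -⟩ := split (ι := Fin β) (ι' := Fin 0) (m := ι) (by simpa using h2)
  obtain ⟨s', -, hs', -⟩ := split (ι := Fin α) (ι' := Fin 0) (m := ι') (by simpa using h1)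
  refine ⟨fun k => k.elim (tr P ∘ₗ tr s ∘ₗ q + tr Q ∘ₗ s' ∘ₗ p) fun k => tr P ∘ₗ f k ∘ₗ p,
    fun r h => ?_⟩
  have dU : dm (range (tr q)) = β := by
    rw [dm_range_eq fun v hv => by rw [← h22 v, hv, map_zero], card_fun, Fintype.card_fin]
  have dU' : dm (range (tr Q)) = α := by
    rw [dm_range_eq fun v hv => by rw [← H22 v, hv, map_zero], card_fun, Fintype.card_fin]
  have hp : ∀ {a b : n → ℂ}, a - b ∈ range (tr q) → p a = p b := by
    rintro a b ⟨v, hv⟩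
    rw [← sub_eq_zero, ← map_sub, ← hv, h12]
  have hP : ∀ {a b : m → ℂ}, a - b ∈ range (tr Q) → P a = P b := by
    rintro a b ⟨v, hv⟩
    rw [← sub_eq_zero, ← map_sub, ← hv, H12]
  obtain ⟨R, r1, a1, a2, a3⟩ := subst_in _ _ _ _ h dU (by
    rintro _ ⟨v, rfl⟩ hv
    have := congrArg (fun w => s (P w)) (hv none)
    simp only [Option.elim, LinearMap.add_apply, LinearMap.comp_apply, h12, h22, map_add, H11,
      map_zero, add_zero, hs] at this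
    rw [this, map_zero])
  have a4 := (a3.of (g := fun k => ((k.elim (tr P ∘ₗ tr s ∘ₗ q + tr Q ∘ₗ s' ∘ₗ p)
    fun k => tr P ∘ₗ f k ∘ₗ p) ∘ₗ R) ∘ₗ tr p) id LinearMap.id (tr p) fun _ _ => rfl).tr
  obtain ⟨R', r2, b1, b2, b3⟩ := subst_in _ _ _ _ a4 dU' (by
    rintro _ ⟨v, rfl⟩ hv
    have : v = 0 := eq_of_dot fun w => by
      have := congrArg (fun η => η ⬝ᵥ tr s' w) (hv none)
      simp only [tr_dot, zero_dotProduct, Option.elim, LinearMap.add_apply, LinearMap.comp_apply,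
        map_add, H21, H22, hp (a2 _), h11, hs', zero_add] at this
      rw [this, zero_dotProduct]
    rw [this, map_zero])
  refine ⟨r2, by omega, RK.of_tr (b3.of some LinearMap.id (tr P) fun k η => eq_of_dot fun w => ?_)⟩
  simp only [LinearMap.id_apply, LinearMap.comp_apply, tr_dot, Option.elim, hp (a2 _), h11]
  rw [dotProduct_comm (R' _), tr_dot, hP (b2 _), H11, dotProduct_comm]

theorem lower0 {a b : ℕ} (a' b' j α β : ℕ) (h1 : j ≤ a') (h2 : j ≤ b') (h3 : a' ≤ 2 * j)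
    (h4 : b' ≤ 2 * j) (h5 : α ≤ b') (h6 : β ≤ a') (h7 : a' + α ≤ a) (h8 : b' + β ≤ b) :
    ∃ g : Option (Option Unit) → (Fin b → ℂ) →ₗ[ℂ] (Fin a → ℂ), ∀ r, RK g r →
      a' + b' + α + β ≤ r + j := by
  obtain ⟨g1, k1⟩ := dbl (m := Fin a') (n := Fin b') (α := a' - j) (β := b' - j)
    (fun _ : Unit => (LinearMap.id : (Fin j → ℂ) →ₗ[ℂ] (Fin j → ℂ))) (by simp; omega)
    (by simp; omega) (by simp; omega) (by simp; omega)
  obtain ⟨g, k2⟩ := dbl (m := Fin a) (n := Fin b) (α := α) (β := β) g1 (by simpa) (by simpa)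
    (by simpa) (by simpa)
  refine ⟨g, fun r hr => ?_⟩
  obtain ⟨r1, a1, a2⟩ := k2 r hr
  obtain ⟨r2, b1, b2⟩ := k1 r1 a2
  obtain ⟨_, r3, c1, -⟩ := subst_in _ _ _ ⊤ b2 rfl fun u _ hu => hu ()
  rw [dm_top, card_fun, Fintype.card_fin] at c1
  omega

end Lower

theorem lower {a b : ℕ} (hab : a ≤ b) (h2 : b ≤ 3 * a)
    (h1 : 2 * a ≤ b ∨ (b + 1 = 2 * a ∧ Even a) ∨ (b + 2 = 2 * a ∧ Odd a)) :
    ∃ g : Option (Option Unit) → (Fin b → ℂ) →ₗ[ℂ] (Fin a → ℂ), ∀ r, RK g r →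
      (3 * a + b) / 2 ≤ r := by
  rw [Nat.even_iff, Nat.odd_iff] at h1
  by_cases h : 2 * a ≤ b
  · obtain ⟨g, h⟩ := lower0 (a := a) (b := b) a (b - a) ((b - a + 1) / 2) 0 a (by omega) (by omega)
      (by omega) (by omega) (by omega) (by omega) (by omega) (by omega)
    exact ⟨g, fun r hr => by have := h r hr; omega⟩
  · obtain ⟨g, h⟩ := lower0 (a := a) (b := b) ((b + 1) / 2) ((b + 1) / 2) ((b + 3) / 4)
      (a - (b + 1) / 2) (b - (b + 1) / 2) (by omega) (by omega) (by omega) (by omega) (by omega)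
      (by omega) (by omega) (by omega)
    exact ⟨g, fun r hr => by have := h r hr; omega⟩

theorem wide (a b : ℕ) :
    ∃ m : ℕ, IsLeast {r : ℕ | ∀ X : Fin a → Fin b → Fin 3 → ℂ, ∃ (u : Fin r → Fin a → ℂ)
        (v : Fin r → Fin b → ℂ) (w : Fin r → Fin 3 → ℂ),
        ∀ i j k, X i j k = ∑ l, u l i * v l j * w l k} m ∧ m ≤ (3 * a + b) / 2 ∧
      (a ≤ b → b ≤ 3 * a → 2 * a ≤ b ∨ (b + 1 = 2 * a ∧ Even a) ∨ (b + 2 = 2 * a ∧ Odd a) →
        m = (3 * a + b) / 2) := by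
  classical
  have ex : ∃ r : ℕ, ∀ X : Fin a → Fin b → Fin 3 → ℂ, ∃ (u : Fin r → Fin a → ℂ)
      (v : Fin r → Fin b → ℂ) (w : Fin r → Fin 3 → ℂ),
      ∀ i j k, X i j k = ∑ l, u l i * v l j * w l k := ⟨_, upper a b _ le_rfl⟩
  have up := Nat.find_min' ex (upper a b _ le_rfl)
  refine ⟨Nat.find ex, ⟨Nat.find_spec ex, fun r hr => Nat.find_min' ex hr⟩, up,
    fun h0 h2 h1 => le_antisymm up ?_⟩
  obtain ⟨g, hg⟩ := lower h0 h2 h1
  obtain ⟨u, v, c, h⟩ := Nat.find_spec ex fun i j k =>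
    g (![none, some none, some (some ())] k) (Pi.single j 1) i
  have h1 : RK (fun k : Fin 3 => g (![none, some none, some (some ())] k)) (Nat.find ex) := by
    refine ⟨Fin _, inferInstance, (Fintype.card_fin _).le,
      fun l => Fintype.linearCombination ℂ (v l), u, c, fun k y => funext fun i => ?_⟩
    conv_lhs => rw [← Finset.univ_sum_single y]
    have : ∀ j, (Pi.single j (y j) : Fin b → ℂ) = y j • Pi.single j 1 := fun j => by
      rw [← Pi.single_smul, smul_eq_mul, mul_one]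
    simp only [this, map_sum, map_smul, Finset.sum_apply, Pi.smul_apply, smul_eq_mul, h,
      Fintype.linearCombination_apply, Finset.mul_sum, Finset.sum_mul]
    rw [Finset.sum_comm]
    exact Finset.sum_congr rfl fun _ _ => Finset.sum_congr rfl fun _ _ => by ring
  exact hg _ (h1.re (fun k => k.elim 0 fun k => k.elim 1 fun _ => 2) fun k v => by
    rcases k with _ | _ | _ <;> rfl)

end Pool.Agent.P.MP_098a67_ag.E3
end
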